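import Pool.Agent.Box3.Check
set_option linter.all false
set_option autoImplicit false

namespace Pool.Agent.Box3

/-! ### bounding box trees

`BT α β`: binary trees with items in `α` and bounding boxes in `β`.  `dj` is the disjointness test of
two boxes, `le` the inclusion test; `box` is the box of an item.  All checks below use structural
recursion only, so that the kernel can evaluate them. -/

inductive BT (α β : Type) where
  | leaf (x : α)
  | node (b : β) (s t : BT α β)

/-- inclusion and disjointness tests for boxes -/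
structure BOps (α β : Type) where
  box : α → β
  le : β → β → Bool
  dj : β → β → Bool

/-- what soundness needs -/
structure BOps.Good {α β : Type} (o : BOps α β) : Prop where
  refl : ∀ b, o.le b b = true
  trans : ∀ a b c, o.le a b = true → o.le b c = true → o.le a c = true
  mono : ∀ a a' b b', o.le a a' = true → o.le b b' = true → o.dj a' b' = true → o.dj a b = true

namespace BT

variable {α β : Type}

def flat : BT α β → List α
  | leaf x => [x]
  | node _ s t => s.flat ++ t.flat

def bb (o : BOps α β) : BT α β → β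
  | leaf x => o.box x
  | node b _ _ => b

/-- the stored boxes contain the boxes of the two subtrees -/
def wf (o : BOps α β) : BT α β → Bool
  | leaf _ => true
  | node b s t => o.le (s.bb o) b && o.le (t.bb o) b && s.wf o && t.wf o

/-- item `x` against all items of a tree -/
def crossL (o : BOps α β) (P : α → α → Bool) (x : α) : BT α β → Bool
  | leaf y => o.dj (o.box x) (o.box y) || P x y
  | node b s t => o.dj (o.box x) b || (crossL o P x s && crossL o P x t)

/-- all items of the first tree against all items of the second -/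
def cross (o : BOps α β) (P : α → α → Bool) : BT α β → BT α β → Bool
  | leaf x, u => crossL o P x u
  | node b s t, u => o.dj b (u.bb o) || (cross o P s u && cross o P t u)

/-- all pairs of items of one tree (earlier item first) -/
def self (o : BOps α β) (P : α → α → Bool) : BT α β → Bool
  | leaf _ => true
  | node _ s t => s.self o P && t.self o P && cross o P s t

/-- all items satisfy `f`, pruned with a test `g` on boxes -/
def allP (f : α → Bool) (h : β → Bool) : BT α β → Bool
  | leaf x => f x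
  | node b s t => h b || (allP f h s && allP f h t)

theorem mem_bb {o : BOps α β} (ho : o.Good) : ∀ (t : BT α β), t.wf o = true →
    ∀ x ∈ t.flat, o.le (o.box x) (t.bb o) = true := by
  intro t
  induction t with
  | leaf y =>
    intro _ x hx
    simp only [flat, List.mem_singleton] at hx
    subst hx
    exact ho.refl _
  | node b s t ihs iht =>
    intro h x hx
    simp only [wf, Bool.and_eq_true] at h
    obtain ⟨⟨⟨h1, h2⟩, h3⟩, h4⟩ := h
    simp only [flat, List.mem_append] at hx
    rcases hx with hx | hx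
    · exact ho.trans _ _ _ (ihs h3 x hx) h1
    · exact ho.trans _ _ _ (iht h4 x hx) h2

theorem crossL_sound {o : BOps α β} (ho : o.Good) {P : α → α → Bool} (x : α) : ∀ (t : BT α β),
    t.wf o = true → crossL o P x t = true →
    ∀ y ∈ t.flat, o.dj (o.box x) (o.box y) = true ∨ P x y = true := by
  intro t
  induction t with
  | leaf y =>
    intro _ h z hz
    simp only [flat, List.mem_singleton] at hz
    subst hz
    simpa only [crossL, Bool.or_eq_true] using h
  | node b s t ihs iht =>
    intro hw h y hy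
    have hw' := hw
    simp only [wf, Bool.and_eq_true] at hw
    obtain ⟨⟨⟨h1, h2⟩, h3⟩, h4⟩ := hw
    simp only [crossL, Bool.or_eq_true, Bool.and_eq_true] at h
    rcases h with h | ⟨h5, h6⟩
    · left
      exact ho.mono _ _ _ _ (ho.refl _) (mem_bb ho _ hw' y hy) h
    · simp only [flat, List.mem_append] at hy
      rcases hy with hy | hy
      · exact ihs h3 h5 y hy
      · exact iht h4 h6 y hy

theorem cross_sound {o : BOps α β} (ho : o.Good) {P : α → α → Bool} (u : BT α β)
    (hu : u.wf o = true) : ∀ (t : BT α β), t.wf o = true → cross o P t u = true →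
    ∀ x ∈ t.flat, ∀ y ∈ u.flat, o.dj (o.box x) (o.box y) = true ∨ P x y = true := by
  intro t
  induction t with
  | leaf z =>
    intro _ h x hx
    simp only [flat, List.mem_singleton] at hx
    subst hx
    exact crossL_sound ho x u hu (by simpa only [cross] using h)
  | node b s t ihs iht =>
    intro hw h x hx y hy
    have hw' := hw
    simp only [wf, Bool.and_eq_true] at hw
    obtain ⟨⟨⟨h1, h2⟩, h3⟩, h4⟩ := hw
    simp only [cross, Bool.or_eq_true, Bool.and_eq_true] at h
    rcases h with h | ⟨h5, h6⟩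
    · left
      exact ho.mono _ _ _ _ (mem_bb ho _ hw' x hx) (mem_bb ho _ hu y hy) h
    · simp only [flat, List.mem_append] at hx
      rcases hx with hx | hx
      · exact ihs h3 h5 x hx y hy
      · exact iht h4 h6 x hx y hy

theorem self_sound {o : BOps α β} (ho : o.Good) {P : α → α → Bool} : ∀ (t : BT α β),
    t.wf o = true → self o P t = true →
    t.flat.Pairwise (fun x y => o.dj (o.box x) (o.box y) = true ∨ P x y = true) := by
  intro t
  induction t with
  | leaf z => intro _ _; exact List.pairwise_singleton _ _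
  | node b s t ihs iht =>
    intro hw h
    simp only [wf, Bool.and_eq_true] at hw
    obtain ⟨⟨⟨h1, h2⟩, h3⟩, h4⟩ := hw
    simp only [self, Bool.and_eq_true] at h
    obtain ⟨⟨h5, h6⟩, h7⟩ := h
    simp only [flat]
    exact List.pairwise_append.2 ⟨ihs h3 h5, iht h4 h6,
      fun x hx y hy => cross_sound ho t h4 s h3 h7 x hx y hy⟩

theorem allP_sound {o : BOps α β} (ho : o.Good) {f : α → Bool} {h : β → Bool}
    (hh : ∀ b x, h b = true → o.le (o.box x) b = true → f x = true) : ∀ (t : BT α β),
    t.wf o = true → allP f h t = true → ∀ x ∈ t.flat, f x = true := by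
  intro t
  induction t with
  | leaf z =>
    intro _ h x hx
    simp only [flat, List.mem_singleton] at hx
    subst hx
    simpa only [allP] using h
  | node b s t ihs iht =>
    intro hw h x hx
    have hw' := hw
    simp only [wf, Bool.and_eq_true] at hw
    obtain ⟨⟨⟨h1, h2⟩, h3⟩, h4⟩ := hw
    simp only [allP, Bool.or_eq_true, Bool.and_eq_true] at h
    rcases h with h | ⟨h5, h6⟩
    · exact hh _ _ h (mem_bb ho _ hw' x hx)
    · simp only [flat, List.mem_append] at hx
      rcases hx with hx | hx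
      · exact ihs h3 h5 x hx
      · exact iht h4 h6 x hx

end BT

/-! ### the order on symbolic lengths and boxes -/

theorem L.le_refl (l : L) : l.le l = true := by
  simp [L.le]

theorem L.le_trans {l m n : L} (h1 : l.le m = true) (h2 : m.le n = true) : l.le n = true := by
  simp only [L.le, Bool.and_eq_true, decide_eq_true_eq] at *
  omega

theorem L.lt_of_le_lt {l m n : L} (h1 : l.le m = true) (h2 : m.lt n = true) : l.lt n = true := by
  simp only [L.lt, L.le, L.eq, Bool.and_eq_true, decide_eq_true_eq, Bool.not_eq_true',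
    Bool.and_eq_false_iff, decide_eq_false_iff_not] at *
  omega

theorem L.lt_of_lt_le {l m n : L} (h1 : l.lt m = true) (h2 : m.le n = true) : l.lt n = true := by
  simp only [L.lt, L.le, L.eq, Bool.and_eq_true, decide_eq_true_eq, Bool.not_eq_true',
    Bool.and_eq_false_iff, decide_eq_false_iff_not] at *
  omega

theorem R.sub_refl (p : R) : p.sub p = true := by
  simp [R.sub, L.le_refl]

theorem R.sub_trans {p q r : R} (h1 : p.sub q = true) (h2 : q.sub r = true) : p.sub r = true := by
  simp only [R.sub, Bool.and_eq_true] at *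
  obtain ⟨⟨⟨a1, a2⟩, a3⟩, a4⟩ := h1
  obtain ⟨⟨⟨b1, b2⟩, b3⟩, b4⟩ := h2
  exact ⟨⟨⟨L.le_trans b1 a1, L.le_trans a2 b2⟩, L.le_trans b3 a3⟩, L.le_trans a4 b4⟩

theorem R.dj_mono {p p' q q' : R} (h1 : p.sub p' = true) (h2 : q.sub q' = true)
    (h : p'.dj q' = true) : p.dj q = true := by
  simp only [R.sub, R.dj, Bool.and_eq_true, Bool.or_eq_true] at *
  obtain ⟨⟨⟨a1, a2⟩, a3⟩, a4⟩ := h1
  obtain ⟨⟨⟨b1, b2⟩, b3⟩, b4⟩ := h2
  rcases h with ((h | h) | h) | h
  · exact Or.inl (Or.inl (Or.inl (L.lt_of_le_lt a2 (L.lt_of_lt_le h b1))))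
  · exact Or.inl (Or.inl (Or.inr (L.lt_of_le_lt b2 (L.lt_of_lt_le h a1))))
  · exact Or.inl (Or.inr (L.lt_of_le_lt a4 (L.lt_of_lt_le h b3)))
  · exact Or.inr (L.lt_of_le_lt b4 (L.lt_of_lt_le h a3))

/-- inclusion of three-dimensional boxes -/
def B3.sub (m n : B3) : Bool :=
  n.l0.le m.l0 && m.h0.le n.h0 && n.l1.le m.l1 && m.h1.le n.h1 && n.l2.le m.l2 && m.h2.le n.h2

theorem B3.sub_refl (p : B3) : p.sub p = true := by
  simp [B3.sub, L.le_refl]

theorem B3.sub_trans {p q r : B3} (h1 : p.sub q = true) (h2 : q.sub r = true) :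
    p.sub r = true := by
  simp only [B3.sub, Bool.and_eq_true] at *
  obtain ⟨⟨⟨⟨⟨a1, a2⟩, a3⟩, a4⟩, a5⟩, a6⟩ := h1
  obtain ⟨⟨⟨⟨⟨b1, b2⟩, b3⟩, b4⟩, b5⟩, b6⟩ := h2
  exact ⟨⟨⟨⟨⟨L.le_trans b1 a1, L.le_trans a2 b2⟩, L.le_trans b3 a3⟩, L.le_trans a4 b4⟩,
    L.le_trans b5 a5⟩, L.le_trans a6 b6⟩

theorem B3.dj_mono {p p' q q' : B3} (h1 : p.sub p' = true) (h2 : q.sub q' = true)
    (h : p'.dj q' = true) : p.dj q = true := by
  simp only [B3.sub, B3.dj, Bool.and_eq_true, Bool.or_eq_true] at *
  obtain ⟨⟨⟨⟨⟨a1, a2⟩, a3⟩, a4⟩, a5⟩, a6⟩ := h1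
  obtain ⟨⟨⟨⟨⟨b1, b2⟩, b3⟩, b4⟩, b5⟩, b6⟩ := h2
  rcases h with ((((h | h) | h) | h) | h) | h
  · exact Or.inl (Or.inl (Or.inl (Or.inl (Or.inl (L.lt_of_le_lt a2 (L.lt_of_lt_le h b1))))))
  · exact Or.inl (Or.inl (Or.inl (Or.inl (Or.inr (L.lt_of_le_lt b2 (L.lt_of_lt_le h a1))))))
  · exact Or.inl (Or.inl (Or.inl (Or.inr (L.lt_of_le_lt a4 (L.lt_of_lt_le h b3)))))
  · exact Or.inl (Or.inl (Or.inr (L.lt_of_le_lt b4 (L.lt_of_lt_le h a3))))
  · exact Or.inl (Or.inr (L.lt_of_le_lt a6 (L.lt_of_lt_le h b5)))
  · exact Or.inr (L.lt_of_le_lt b6 (L.lt_of_lt_le h a5))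

/-- boxes in the plane -/
def opR {α : Type} (box : α → R) : BOps α R := ⟨box, R.sub, R.dj⟩

theorem opR_good {α : Type} (box : α → R) : (opR box).Good :=
  ⟨R.sub_refl, fun _ _ _ h1 h2 => R.sub_trans h1 h2, fun _ _ _ _ h1 h2 h => R.dj_mono h1 h2 h⟩

/-- boxes in space -/
def opB {α : Type} (box : α → B3) : BOps α B3 := ⟨box, B3.sub, B3.dj⟩

theorem opB_good {α : Type} (box : α → B3) : (opB box).Good :=
  ⟨B3.sub_refl, fun _ _ _ h1 h2 => B3.sub_trans h1 h2, fun _ _ _ _ h1 h2 h => B3.dj_mono h1 h2 h⟩

end Pool.Agent.Box3
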