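import Pool.Agent.Box3.Check

set_option linter.all false
set_option autoImplicit false

/-!
# Soundness of the elementary symbolic checks
-/

namespace Pool.Agent.Box3

namespace L

theorem ev_add (g : Fin 3 → ℝ) (l m : L) : (l.add m).ev g = l.ev g + m.ev g := by
  simp only [add, ev]; push_cast; ring

theorem ev_sub (g : Fin 3 → ℝ) (l m : L) : (l.sub m).ev g = l.ev g - m.ev g := by
  simp only [sub, ev]; push_cast; ring

theorem ev_neg (g : Fin 3 → ℝ) (l : L) : l.neg.ev g = -l.ev g := by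
  simp only [neg, ev]; push_cast; ring

theorem ev_zero (g : Fin 3 → ℝ) : zero.ev g = 0 := by
  simp [zero, ev]

theorem ev_sm (g : Fin 3 → ℝ) (e : ℤ) (l : L) : (sm e l).ev g = e * l.ev g := by
  simp only [sm, ev]; push_cast; ring

theorem le_ev {g : Fin 3 → ℝ} (hg : ∀ k, 0 < g k) {l m : L} (h : l.le m = true) :
    l.ev g ≤ m.ev g := by
  simp only [le, Bool.and_eq_true, decide_eq_true_eq] at h
  obtain ⟨⟨h1, h2⟩, h3⟩ := h
  have h1' : (l.a : ℝ) ≤ m.a := by exact_mod_cast h1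
  have h2' : (l.b : ℝ) ≤ m.b := by exact_mod_cast h2
  have h3' : (l.c : ℝ) ≤ m.c := by exact_mod_cast h3
  simp only [ev]
  have := mul_le_mul_of_nonneg_right h1' (hg 0).le
  have := mul_le_mul_of_nonneg_right h2' (hg 1).le
  have := mul_le_mul_of_nonneg_right h3' (hg 2).le
  linarith

theorem eq_of {l m : L} (h : l.eq m = true) : l = m := by
  simp only [eq, Bool.and_eq_true, decide_eq_true_eq] at h
  obtain ⟨⟨h1, h2⟩, h3⟩ := h
  cases l; cases m; simp_all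

theorem lt_ev {g : Fin 3 → ℝ} (hg : ∀ k, 0 < g k) {l m : L} (h : l.lt m = true) :
    l.ev g < m.ev g := by
  simp only [lt, Bool.and_eq_true, Bool.not_eq_true', le, eq, decide_eq_true_eq] at h
  obtain ⟨⟨⟨h1, h2⟩, h3⟩, h4⟩ := h
  have h1' : (l.a : ℝ) ≤ m.a := by exact_mod_cast h1
  have h2' : (l.b : ℝ) ≤ m.b := by exact_mod_cast h2
  have h3' : (l.c : ℝ) ≤ m.c := by exact_mod_cast h3
  have hne : l.a < m.a ∨ l.b < m.b ∨ l.c < m.c := by
    by_contra hcon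
    push Not at hcon
    have e1 : l.a = m.a := le_antisymm h1 hcon.1
    have e2 : l.b = m.b := le_antisymm h2 hcon.2.1
    have e3 : l.c = m.c := le_antisymm h3 hcon.2.2
    simp [e1, e2, e3] at h4
  simp only [ev]
  have k1 := mul_le_mul_of_nonneg_right h1' (hg 0).le
  have k2 := mul_le_mul_of_nonneg_right h2' (hg 1).le
  have k3 := mul_le_mul_of_nonneg_right h3' (hg 2).le
  rcases hne with h | h | h
  · have h' : (l.a : ℝ) < m.a := by exact_mod_cast h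
    have := mul_lt_mul_of_pos_right h' (hg 0)
    linarith
  · have h' : (l.b : ℝ) < m.b := by exact_mod_cast h
    have := mul_lt_mul_of_pos_right h' (hg 1)
    linarith
  · have h' : (l.c : ℝ) < m.c := by exact_mod_cast h
    have := mul_lt_mul_of_pos_right h' (hg 2)
    linarith

theorem mx_le {g : Fin 3 → ℝ} {l m : L} {x : ℝ} (h1 : l.ev g ≤ x) (h2 : m.ev g ≤ x) :
    (mx l m).ev g ≤ x := by
  unfold mx
  split_ifs
  · exact h2
  · exact h1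

theorem le_mn {g : Fin 3 → ℝ} {l m : L} {x : ℝ} (h1 : x ≤ l.ev g) (h2 : x ≤ m.ev g) :
    x ≤ (mn l m).ev g := by
  unfold mn
  split_ifs
  · exact h1
  · exact h2

end L

theorem lo1_le {g : Fin 3 → ℝ} (e : ℤ) {u v : L} {x : ℝ} (h1 : u.ev g ≤ x) (h2 : x ≤ v.ev g) :
    (lo1 e u v).ev g ≤ e * x := by
  unfold lo1
  split_ifs with h
  · rw [L.ev_sm]
    have h' : (0 : ℝ) ≤ e := by exact_mod_cast (of_decide_eq_true h)
    exact mul_le_mul_of_nonneg_left h1 h'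
  · rw [L.ev_sm]
    have h0 : ¬ (0 ≤ e) := by simpa using h
    have h' : (e : ℝ) ≤ 0 := by exact_mod_cast (not_le.1 h0).le
    exact mul_le_mul_of_nonpos_left h2 h'

theorem le_hi1 {g : Fin 3 → ℝ} (e : ℤ) {u v : L} {x : ℝ} (h1 : u.ev g ≤ x) (h2 : x ≤ v.ev g) :
    e * x ≤ (hi1 e u v).ev g := by
  unfold hi1
  split_ifs with h
  · rw [L.ev_sm]
    have h' : (0 : ℝ) ≤ e := by exact_mod_cast (of_decide_eq_true h)
    exact mul_le_mul_of_nonneg_left h2 h'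
  · rw [L.ev_sm]
    have h0 : ¬ (0 ≤ e) := by simpa using h
    have h' : (e : ℝ) ≤ 0 := by exact_mod_cast (not_le.1 h0).le
    exact mul_le_mul_of_nonpos_left h1 h'

theorem Co.lo_le {g : Fin 3 → ℝ} (f : Co) {q : R} {p : Pl} (hp : p ∈ R.set g q) :
    (f.lo q).ev g ≤ f.ev g p := by
  obtain ⟨h1, h2, h3, h4⟩ := hp
  have a1 := lo1_le (g := g) f.ex h1 h2
  have a2 := lo1_le (g := g) f.ey h3 h4
  simp only [Co.lo, L.ev_add, Co.ev]
  linarith

theorem Co.le_hi {g : Fin 3 → ℝ} (f : Co) {q : R} {p : Pl} (hp : p ∈ R.set g q) :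
    f.ev g p ≤ (f.hi q).ev g := by
  obtain ⟨h1, h2, h3, h4⟩ := hp
  have a1 := le_hi1 (g := g) f.ex h1 h2
  have a2 := le_hi1 (g := g) f.ey h3 h4
  simp only [Co.hi, L.ev_add, Co.ev]
  linarith

theorem R.sub_sound {g : Fin 3 → ℝ} (hg : ∀ k, 0 < g k) {p q : R} (h : p.sub q = true) {x : Pl}
    (hx : x ∈ R.set g p) : x ∈ R.set g q := by
  simp only [R.sub, Bool.and_eq_true] at h
  obtain ⟨⟨⟨h1, h2⟩, h3⟩, h4⟩ := h
  obtain ⟨a1, a2, a3, a4⟩ := hx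
  exact ⟨(L.le_ev hg h1).trans a1, a2.trans (L.le_ev hg h2), (L.le_ev hg h3).trans a3,
    a4.trans (L.le_ev hg h4)⟩

theorem R.dj_sound {g : Fin 3 → ℝ} (hg : ∀ k, 0 < g k) {p q : R} (h : p.dj q = true) {x : Pl}
    (hp : x ∈ R.set g p) (hq : x ∈ R.set g q) : False := by
  simp only [R.dj, Bool.or_eq_true] at h
  obtain ⟨a1, a2, a3, a4⟩ := hp
  obtain ⟨b1, b2, b3, b4⟩ := hq
  rcases h with ((h | h) | h) | h
  · have := L.lt_ev hg h; linarith
  · have := L.lt_ev hg h; linarith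
  · have := L.lt_ev hg h; linarith
  · have := L.lt_ev hg h; linarith

/-- `w` lies in the symbolic box `m` -/
def B3.mem (g : Fin 3 → ℝ) (m : B3) (w : Sp) : Prop :=
  (m.l0.ev g ≤ w 0 ∧ w 0 ≤ m.h0.ev g) ∧ (m.l1.ev g ≤ w 1 ∧ w 1 ≤ m.h1.ev g) ∧
    (m.l2.ev g ≤ w 2 ∧ w 2 ≤ m.h2.ev g)

theorem Pc.map_apply0 (g : Fin 3 → ℝ) (c : Pc) (p : Pl) : c.map g p 0 = c.f0.ev g p := rfl
theorem Pc.map_apply1 (g : Fin 3 → ℝ) (c : Pc) (p : Pl) : c.map g p 1 = c.f1.ev g p := rfl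
theorem Pc.map_apply2 (g : Fin 3 → ℝ) (c : Pc) (p : Pl) : c.map g p 2 = c.f2.ev g p := rfl

theorem Pc.map_mem_img {g : Fin 3 → ℝ} (c : Pc) {p : Pl} (hp : p ∈ R.set g c.q) :
    B3.mem g c.img (c.map g p) := by
  refine ⟨⟨?_, ?_⟩, ⟨?_, ?_⟩, ⟨?_, ?_⟩⟩
  · rw [Pc.map_apply0]; exact Co.lo_le _ hp
  · rw [Pc.map_apply0]; exact Co.le_hi _ hp
  · rw [Pc.map_apply1]; exact Co.lo_le _ hp
  · rw [Pc.map_apply1]; exact Co.le_hi _ hp
  · rw [Pc.map_apply2]; exact Co.lo_le _ hp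
  · rw [Pc.map_apply2]; exact Co.le_hi _ hp

theorem B3.dj_sound {g : Fin 3 → ℝ} (hg : ∀ k, 0 < g k) {m n : B3} (h : m.dj n = true) {w : Sp}
    (hm : m.mem g w) (hn : n.mem g w) : False := by
  simp only [B3.dj, Bool.or_eq_true] at h
  obtain ⟨⟨a1, a2⟩, ⟨a3, a4⟩, a5, a6⟩ := hm
  obtain ⟨⟨b1, b2⟩, ⟨b3, b4⟩, b5, b6⟩ := hn
  rcases h with ((((h | h) | h) | h) | h) | h <;>
  · have := L.lt_ev hg h; linarith

theorem B3.cap_sound {g : Fin 3 → ℝ} {m n : B3} {w : Sp}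
    (hm : m.mem g w) (hn : n.mem g w) : (m.cap n).mem g w := by
  obtain ⟨⟨a1, a2⟩, ⟨a3, a4⟩, a5, a6⟩ := hm
  obtain ⟨⟨b1, b2⟩, ⟨b3, b4⟩, b5, b6⟩ := hn
  exact ⟨⟨L.mx_le a1 b1, L.le_mn a2 b2⟩, ⟨L.mx_le a3 b3, L.le_mn a4 b4⟩,
    L.mx_le a5 b5, L.le_mn a6 b6⟩

theorem onBd_sound {g : Fin 3 → ℝ} (hg : ∀ k, 0 < g k) {es : List R} {bi : List ℕ} {r : R}
    (h : onBd es bi r = true) {x : Pl} (hx : x ∈ R.set g r) : ∃ e ∈ es, x ∈ R.set g e := by
  simp only [onBd, List.any_eq_true, Bool.and_eq_true, decide_eq_true_eq] at h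
  obtain ⟨i, _, h1, h2⟩ := h
  refine ⟨es.getD i R.default, ?_, R.sub_sound hg h1 hx⟩
  rw [List.getD_eq_getElem _ _ h2]
  exact List.getElem_mem h2

theorem Pl.ext {p q : Pl} (h0 : p 0 = q 0) (h1 : p 1 = q 1) : p = q := by
  ext i
  fin_cases i
  · exact h0
  · exact h1

theorem Sp.ext {p q : Sp} (h0 : p 0 = q 0) (h1 : p 1 = q 1) (h2 : p 2 = q 2) : p = q := by
  ext i
  fin_cases i
  · exact h0
  · exact h1
  · exact h2

end Pool.Agent.Box3
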