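import Pool.Agent.Box3.Defs
set_option linter.all false
set_option autoImplicit false

namespace Pool.Agent.Box3

/-! Boolean checks.  `g : Fin 3 → ℝ` are the three positive generators. -/

def R.toQ (r : R) : Q := ⟨some r.x0, some r.x1, some r.y0, some r.y1⟩

/-- `R ⊂ R` -/
def R.sub (p q : R) : Bool :=
  q.x0.le p.x0 && p.x1.le q.x1 && q.y0.le p.y0 && p.y1.le q.y1

/-- lower bound option: `b` implies `a` (i.e. `a ≤ b`), `none` is no condition -/
def loOk (a b : Option L) : Bool :=
  match a, b with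
  | none, _ => true
  | some _, none => false
  | some x, some y => x.le y

def hiOk (a b : Option L) : Bool :=
  match a, b with
  | none, _ => true
  | some _, none => false
  | some x, some y => y.le x

/-- `Q ⊂ Q` -/
def Q.sub (p q : Q) : Bool :=
  loOk q.x0 p.x0 && hiOk q.x1 p.x1 && loOk q.y0 p.y0 && hiOk q.y1 p.y1

/-- the region `q` is covered by the regions `f i` -/
def Tr.cov (f : ℕ → Q) : Tr → Q → Bool
  | .leaf i, q => q.sub (f i)
  | .sx l s t, q => s.cov f { q with x1 := some l } && t.cov f { q with x0 := some l }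
  | .sy l s t, q => s.cov f { q with y1 := some l } && t.cov f { q with y0 := some l }

/-- disjoint rectangles -/
def R.dj (p q : R) : Bool :=
  p.x1.lt q.x0 || q.x1.lt p.x0 || p.y1.lt q.y0 || q.y1.lt p.y0

def Pc.default : Pc := ⟨⟨L.zero, L.zero, L.zero, L.zero⟩, ⟨1, 0, L.zero⟩, ⟨0, 1, L.zero⟩, ⟨0, 0, L.zero⟩⟩
def R.default : R := ⟨L.zero, L.zero, L.zero, L.zero⟩

/-! ### one piece -/

/-- the columns of the linear part are orthonormal -/
def Pc.orth (c : Pc) : Bool :=
  decide (c.f0.ex * c.f0.ex + c.f1.ex * c.f1.ex + c.f2.ex * c.f2.ex = 1) &&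
  decide (c.f0.ey * c.f0.ey + c.f1.ey * c.f1.ey + c.f2.ey * c.f2.ey = 1) &&
  decide (c.f0.ex * c.f0.ey + c.f1.ex * c.f1.ey + c.f2.ex * c.f2.ey = 0)

/-- `e • l` for `e ∈ {-1, 0, 1}` (any integer is fine) -/
def L.sm (e : ℤ) (l : L) : L := ⟨e * l.a, e * l.b, e * l.c⟩

/-- lower end of the range of `e x` for `x ∈ [u, v]` -/
def lo1 (e : ℤ) (u v : L) : L := if decide (0 ≤ e) then L.sm e u else L.sm e v
def hi1 (e : ℤ) (u v : L) : L := if decide (0 ≤ e) then L.sm e v else L.sm e u

/-- range of one coordinate function over a rectangle -/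
def Co.lo (f : Co) (q : R) : L := ((lo1 f.ex q.x0 q.x1).add (lo1 f.ey q.y0 q.y1)).add f.k
def Co.hi (f : Co) (q : R) : L := ((hi1 f.ex q.x0 q.x1).add (hi1 f.ey q.y0 q.y1)).add f.k

/-- a three-dimensional symbolic box, the image of a piece -/
structure B3 where
  l0 : L
  h0 : L
  l1 : L
  h1 : L
  l2 : L
  h2 : L

def Pc.img (c : Pc) : B3 :=
  ⟨c.f0.lo c.q, c.f0.hi c.q, c.f1.lo c.q, c.f1.hi c.q, c.f2.lo c.q, c.f2.hi c.q⟩

/-- image inside the surface of `a × b × c` -/
def Pc.inSurf (a b c : L) (p : Pc) : Bool :=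
  let m := p.img
  L.zero.le m.l0 && m.h0.le a && L.zero.le m.l1 && m.h1.le b && L.zero.le m.l2 && m.h2.le c &&
  ((m.h0.le L.zero) || (a.le m.l0) || (m.h1.le L.zero) || (b.le m.l1) || (m.h2.le L.zero) ||
    (c.le m.l2))

/-! ### two pieces agree on their common points -/

/-- coordinate functions `f`, `h` agree on `[X0,X1] × [Y0,Y1]`, where these are bounds valid for
every common point -/
def Co.agr (X0 X1 Y0 Y1 : L) (f h : Co) : Bool :=
  (decide (f.ex = h.ex) || X0.eq X1) && (decide (f.ey = h.ey) || Y0.eq Y1) &&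
  (((L.sm (f.ex - h.ex) X0).add (L.sm (f.ey - h.ey) Y0)).add (f.k.sub h.k)).eq L.zero

def Pc.agr (c d : Pc) : Bool :=
  c.q.dj d.q ||
  (let X0 := L.mx c.q.x0 d.q.x0
   let X1 := L.mn c.q.x1 d.q.x1
   let Y0 := L.mx c.q.y0 d.q.y0
   let Y1 := L.mn c.q.y1 d.q.y1
   Co.agr X0 X1 Y0 Y1 c.f0 d.f0 && Co.agr X0 X1 Y0 Y1 c.f1 d.f1 && Co.agr X0 X1 Y0 Y1 c.f2 d.f2)

/-! ### two pieces overlap only where allowed -/

def B3.dj (m n : B3) : Bool :=
  m.h0.lt n.l0 || n.h0.lt m.l0 || m.h1.lt n.l1 || n.h1.lt m.l1 || m.h2.lt n.l2 || n.h2.lt m.l2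

def B3.cap (m n : B3) : B3 :=
  ⟨L.mx m.l0 n.l0, L.mn m.h0 n.h0, L.mx m.l1 n.l1, L.mn m.h1 n.h1, L.mx m.l2 n.l2, L.mn m.h2 n.h2⟩

/-- the `x`-coordinate recovered from the image `w`: `∑ ex_k (w_k - k_k)`; this is the check that
the inverse `x` (or `y`) functions of two pieces agree on the 3D box `D` -/
def invAgr (D : B3) (e0 e1 e2 : ℤ) (k : L) (e0' e1' e2' : ℤ) (k' : L) : Bool :=
  (decide (e0 = e0') || D.l0.eq D.h0) && (decide (e1 = e1') || D.l1.eq D.h1) &&
  (decide (e2 = e2') || D.l2.eq D.h2) &&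
  ((((L.sm (e0 - e0') D.l0).add (L.sm (e1 - e1') D.l1)).add (L.sm (e2 - e2') D.l2)).sub
    (k.sub k')).eq L.zero

/-- `∑ ex_k k_k` and `∑ ey_k k_k` -/
def Pc.kx (c : Pc) : L := ((L.sm c.f0.ex c.f0.k).add (L.sm c.f1.ex c.f1.k)).add (L.sm c.f2.ex c.f2.k)
def Pc.ky (c : Pc) : L := ((L.sm c.f0.ey c.f0.k).add (L.sm c.f1.ey c.f1.k)).add (L.sm c.f2.ey c.f2.k)

def Pc.same (D : B3) (c d : Pc) : Bool :=
  invAgr D c.f0.ex c.f1.ex c.f2.ex c.kx d.f0.ex d.f1.ex d.f2.ex d.kx &&
  invAgr D c.f0.ey c.f1.ey c.f2.ey c.ky d.f0.ey d.f1.ey d.f2.ey d.ky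

/-- the rectangle of points of the piece `c` whose image lies in `D` -/
def Pc.pre (D : B3) (c : Pc) : R :=
  ⟨(((lo1 c.f0.ex D.l0 D.h0).add (lo1 c.f1.ex D.l1 D.h1)).add (lo1 c.f2.ex D.l2 D.h2)).sub c.kx,
   (((hi1 c.f0.ex D.l0 D.h0).add (hi1 c.f1.ex D.l1 D.h1)).add (hi1 c.f2.ex D.l2 D.h2)).sub c.kx,
   (((lo1 c.f0.ey D.l0 D.h0).add (lo1 c.f1.ey D.l1 D.h1)).add (lo1 c.f2.ey D.l2 D.h2)).sub c.ky,
   (((hi1 c.f0.ey D.l0 D.h0).add (hi1 c.f1.ey D.l1 D.h1)).add (hi1 c.f2.ey D.l2 D.h2)).sub c.ky⟩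

/-- `es` is the list of boundary edges of the polygon (as degenerate rectangles); `bi` the indices of
those that matter for the piece -/
def onBd (es : List R) (bi : List ℕ) (r : R) : Bool :=
  bi.any fun i => r.sub (es.getD i R.default) && decide (i < es.length)

/-- a piece with the indices of the boundary edges it touches -/
structure PB where
  p : Pc
  bi : List ℕ

def PB.ok (es : List R) (c d : PB) : Bool :=
  c.p.agr d.p &&
  (let m := c.p.img
   let n := d.p.img
   m.dj n ||
   (let D := m.cap n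
    Pc.same D c.p d.p || (onBd es c.bi (c.p.pre D) && onBd es d.bi (d.p.pre D))))

def PB.default : PB := ⟨Pc.default, []⟩

/-- rows `i, i+1, …, i+n-1` of the pair check -/
def rowsOk (es : List R) (ps : List PB) : ℕ → ℕ → Bool
  | _, 0 => true
  | i, n + 1 => (match ps.drop i with
      | [] => true
      | p :: t => t.all (p.ok es)) && rowsOk es ps (i + 1) n

/-! ### surjectivity: the six faces are covered -/

/-- the piece `c`, seen as a region in the coordinates `(w1,w2)` (`k = 0`), `(w0,w2)` (`k = 1`) or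
`(w0,w1)` (`k = 2`), provided that its coordinate `k` is constantly `v`; otherwise an empty region -/
def Pc.face (k : ℕ) (v : L) (c : Pc) : Q :=
  let m := c.img
  let bad : Q := ⟨some ⟨1, 0, 0⟩, some L.zero, some L.zero, some L.zero⟩
  match k with
  | 0 => if m.l0.eq v && m.h0.eq v then ⟨some m.l1, some m.h1, some m.l2, some m.h2⟩ else bad
  | 1 => if m.l1.eq v && m.h1.eq v then ⟨some m.l0, some m.h0, some m.l2, some m.h2⟩ else bad
  | _ => if m.l2.eq v && m.h2.eq v then ⟨some m.l0, some m.h0, some m.l1, some m.h1⟩ else bad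

def faceCov (ps : List PB) (k : ℕ) (v u1 u2 : L) (t : Tr) : Bool :=
  t.cov (fun i => (((ps.getD i PB.default).p).face k v)) ⟨some L.zero, some u1, some L.zero, some u2⟩
-- NB the soundness proof must handle indices `i ≥ ps.length` (use `i < ps.length` in the statement:
-- see `leavesLt`)

def Tr.leavesLt (n : ℕ) : Tr → Bool
  | .leaf i => decide (i < n)
  | .sx _ s t => s.leavesLt n && t.leavesLt n
  | .sy _ s t => s.leavesLt n && t.leavesLt n

/-- all checks on one box except the pair check -/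
structure BoxData where
  a : L
  b : L
  c : L
  /-- owner cell of each piece -/
  own : List ℕ
  ps : List PB
  /-- for each cell a tree covering it by pieces -/
  ct : List Tr
  /-- trees for the faces `w0=0, w0=a, w1=0, w1=b, w2=0, w2=c` -/
  t0 : Tr
  t1 : Tr
  t2 : Tr
  t3 : Tr
  t4 : Tr
  t5 : Tr

def BoxData.ok1 (cs : List R) (X : BoxData) : Bool :=
  X.ps.all (fun c => c.p.orth && c.p.inSurf X.a X.b X.c)

/-- pieces lie in cells -/
def BoxData.ok2 (cs : List R) (X : BoxData) : Bool :=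
  decide (X.own.length = X.ps.length) &&
  (X.own.zip X.ps).all (fun z => decide (z.1 < cs.length) && z.2.p.q.sub (cs.getD z.1 R.default))

/-- cells are covered by pieces -/
def BoxData.ok3 (cs : List R) (X : BoxData) : Bool :=
  decide (X.ct.length = cs.length) &&
  (X.ct.zip cs).all (fun z => z.1.leavesLt X.ps.length &&
    z.1.cov (fun i => (X.ps.getD i PB.default).p.q.toQ) z.2.toQ)

def BoxData.ok4 (X : BoxData) : Bool :=
  X.t0.leavesLt X.ps.length && faceCov X.ps 0 L.zero X.b X.c X.t0 &&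
  X.t1.leavesLt X.ps.length && faceCov X.ps 0 X.a X.b X.c X.t1 &&
  X.t2.leavesLt X.ps.length && faceCov X.ps 1 L.zero X.a X.c X.t2 &&
  X.t3.leavesLt X.ps.length && faceCov X.ps 1 X.b X.a X.c X.t3 &&
  X.t4.leavesLt X.ps.length && faceCov X.ps 2 L.zero X.a X.b X.t4 &&
  X.t5.leavesLt X.ps.length && faceCov X.ps 2 X.c X.a X.b X.t5

/-! ### the polygon -/

/-- `Q ∩ R` is empty, or contained in one of the edges with indices in `ei` -/
def qcOk (es : List R) (ei : List ℕ) (q : Q) (c : R) : Bool :=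
  (match q.x0 with | some l => c.x1.lt l | none => false) ||
  (match q.x1 with | some l => l.lt c.x0 | none => false) ||
  (match q.y0 with | some l => c.y1.lt l | none => false) ||
  (match q.y1 with | some l => l.lt c.y0 | none => false) ||
  onBd es ei
    ⟨(match q.x0 with | some l => L.mx l c.x0 | none => c.x0),
     (match q.x1 with | some l => L.mn l c.x1 | none => c.x1),
     (match q.y0 with | some l => L.mx l c.y0 | none => c.y0),
     (match q.y1 with | some l => L.mn l c.y1 | none => c.y1)⟩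

/-- the complement piece has nonempty interior -/
def Q.fat (q : Q) : Bool :=
  (match q.x0, q.x1 with | some l, some m => l.lt m | _, _ => true) &&
  (match q.y0, q.y1 with | some l, some m => l.lt m | _, _ => true)

structure PolyData where
  cs : List R
  /-- complement pieces with the indices of the edges they touch -/
  qs : List (Q × List ℕ)
  /-- cover tree of the plane: leaf `i < cs.length` is cell `i`, leaf `cs.length + j` is `qs[j]` -/
  tr : Tr
  /-- boundary edges (degenerate rectangles) in cyclic order, with vertices -/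
  es : List R
  /-- vertices, `vs[i]` and `vs[i+1]` are the ends of `es[i]`; length `es.length + 1` -/
  vs : List (L × L)
  /-- for each edge a tree covering it by cells and a tree covering it by complement pieces -/
  ow : List (Tr × Tr)

/-- `es[i]` is the segment between `v` and `w` -/
def edgeIs (e : R) (v w : L × L) : Bool :=
  ((v.1.eq w.1 && v.2.lt w.2 && e.x0.eq v.1 && e.x1.eq v.1 && e.y0.eq v.2 && e.y1.eq w.2) ||
   (v.1.eq w.1 && w.2.lt v.2 && e.x0.eq v.1 && e.x1.eq v.1 && e.y0.eq w.2 && e.y1.eq v.2) ||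
   (v.2.eq w.2 && v.1.lt w.1 && e.y0.eq v.2 && e.y1.eq v.2 && e.x0.eq v.1 && e.x1.eq w.1) ||
   (v.2.eq w.2 && w.1.lt v.1 && e.y0.eq v.2 && e.y1.eq v.2 && e.x0.eq w.1 && e.x1.eq v.1))

/-- the two rectangles meet at most in the point `v` -/
def meetPt (e f : R) (v : L × L) : Bool :=
  (L.mx e.x0 f.x0).eq v.1 && (L.mn e.x1 f.x1).eq v.1 &&
  (L.mx e.y0 f.y0).eq v.2 && (L.mn e.y1 f.y1).eq v.2

def PolyData.es1 (X : PolyData) : Bool :=
  decide (3 ≤ X.es.length) && decide (X.vs.length = X.es.length + 1) &&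
  (match X.vs.head?, X.vs.getLast? with
    | some v, some w => v.1.eq w.1 && v.2.eq w.2 | _, _ => false) &&
  (X.es.zip (X.vs.zip X.vs.tail)).all (fun z => edgeIs z.1 z.2.1 z.2.2)

/-- non-adjacent edges are disjoint: row `e` against the later edges -/
def edgeRows (n : ℕ) : ℕ → List R → List (L × L) → Bool
  | _, [], _ => true
  | _, _ :: _, [] => false
  | i, e :: t, v :: vt =>
    -- next edge
    (match t, vt with
      | [], _ => true
      | f :: u, w :: _ => meetPt e f w &&
          -- later edges, except the last one when `i = 0`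
          (if i = 0 then (u.dropLast).all (e.dj ·) &&
              (match u.getLast? with | some g => meetPt e g v | none => false)
            else u.all (e.dj ·))
      | _, _ => false) &&
    edgeRows n (i + 1) t vt

def PolyData.ok1 (X : PolyData) : Bool := X.es1
def PolyData.ok2 (X : PolyData) : Bool := edgeRows X.es.length 0 X.es X.vs
def PolyData.ok3 (X : PolyData) : Bool :=
  X.qs.all (fun z => z.1.fat && X.cs.all (fun c => qcOk X.es z.2 z.1 c))
def PolyData.ok4 (X : PolyData) : Bool :=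
  decide (X.ow.length = X.es.length) &&
  (X.ow.zip X.es).all (fun z =>
    z.1.1.leavesLt X.cs.length && z.1.1.cov (fun i => (X.cs.getD i R.default).toQ) z.2.toQ &&
    z.1.2.leavesLt X.qs.length &&
    z.1.2.cov (fun i => (X.qs.getD i (⟨none, none, none, none⟩, [])).1) z.2.toQ)
def PolyData.ok5 (X : PolyData) : Bool :=
  X.tr.leavesLt (X.cs.length + X.qs.length) &&
  X.tr.cov (fun i => if i < X.cs.length then (X.cs.getD i R.default).toQ
    else (X.qs.getD (i - X.cs.length) (⟨none, none, none, none⟩, [])).1) ⟨none, none, none, none⟩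
/-- some cell is fat -/
def PolyData.ok6 (X : PolyData) : Bool :=
  match X.cs with | [] => false | c :: _ => c.x0.lt c.x1 && c.y0.lt c.y1

/-- the polygon -/
def PolyData.P (g : Fin 3 → ℝ) (X : PolyData) : Set Pl := {p | ∃ c ∈ X.cs, p ∈ R.set g c}

end Pool.Agent.Box3
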