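import Pool.Agent.Box3.Num
set_option linter.all false
set_option autoImplicit false

namespace Pool.Agent.Box3.BA

def ps : List PB := [
  ⟨⟨⟨c1x, c2x, c1x, c18x⟩, ⟨.ofNat 0, .negSucc 0, c18x⟩, ⟨.negSucc 0, .ofNat 0, c13x⟩, ⟨.ofNat 0, .ofNat 0, c1x⟩⟩, [0, 1, 283]⟩,
  ⟨⟨⟨c1x, c2x, c18x, c3x⟩, ⟨.ofNat 0, .ofNat 0, c1x⟩, ⟨.negSucc 0, .ofNat 0, c13x⟩, ⟨.ofNat 0, .ofNat 1, c121x⟩⟩, [281, 282, 283]⟩,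
  ⟨⟨⟨c2x, c4x, c5x, c18x⟩, ⟨.ofNat 0, .negSucc 0, c18x⟩, ⟨.negSucc 0, .ofNat 0, c13x⟩, ⟨.ofNat 0, .ofNat 0, c1x⟩⟩, [0, 1, 2, 3]⟩,
  ⟨⟨⟨c2x, c4x, c18x, c6x⟩, ⟨.ofNat 0, .ofNat 0, c1x⟩, ⟨.negSucc 0, .ofNat 0, c13x⟩, ⟨.ofNat 0, .ofNat 1, c121x⟩⟩, [3, 4, 278, 279, 280, 281, 282]⟩,
  ⟨⟨⟨c4x, c7x, c8x, c9x⟩, ⟨.ofNat 0, .ofNat 0, c1x⟩, ⟨.negSucc 0, .ofNat 0, c13x⟩, ⟨.ofNat 0, .ofNat 1, c121x⟩⟩, [3, 4, 5, 277, 278, 279]⟩,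
  ⟨⟨⟨c7x, c10x, c11x, c18x⟩, ⟨.ofNat 0, .negSucc 0, c18x⟩, ⟨.negSucc 0, .ofNat 0, c13x⟩, ⟨.ofNat 0, .ofNat 0, c1x⟩⟩, [5, 6, 7]⟩,
  ⟨⟨⟨c7x, c10x, c18x, c12x⟩, ⟨.ofNat 0, .ofNat 0, c1x⟩, ⟨.negSucc 0, .ofNat 0, c13x⟩, ⟨.ofNat 0, .ofNat 1, c121x⟩⟩, [4, 5, 7, 8, 274, 275, 276, 277, 278]⟩,
  ⟨⟨⟨c10x, c13x, c14x, c15x⟩, ⟨.ofNat 0, .ofNat 0, c1x⟩, ⟨.negSucc 0, .ofNat 0, c13x⟩, ⟨.ofNat 0, .ofNat 1, c121x⟩⟩, [7, 8, 9, 273, 274, 275]⟩,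
  ⟨⟨⟨c16x, c13x, c17x, c18x⟩, ⟨.ofNat 0, .ofNat 0, c1x⟩, ⟨.ofNat 0, .negSucc 0, c18x⟩, ⟨.negSucc 0, .ofNat 0, c13x⟩⟩, [9, 10, 11, 12]⟩,
  ⟨⟨⟨c16x, c13x, c19x, c20x⟩, ⟨.ofNat 0, .ofNat 0, c1x⟩, ⟨.negSucc 0, .ofNat 0, c13x⟩, ⟨.ofNat 0, .ofNat 1, c121x⟩⟩, [270, 271, 272, 273]⟩,
  ⟨⟨⟨c13x, c21x, c17x, c18x⟩, ⟨.ofNat 1, .ofNat 0, c122x⟩, ⟨.ofNat 0, .negSucc 0, c18x⟩, ⟨.ofNat 0, .ofNat 0, c1x⟩⟩, [9, 10, 12, 13]⟩,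
  ⟨⟨⟨c13x, c21x, c18x, c20x⟩, ⟨.ofNat 1, .ofNat 0, c122x⟩, ⟨.ofNat 0, .ofNat 0, c1x⟩, ⟨.ofNat 0, .ofNat 1, c121x⟩⟩, [8, 9, 10, 269, 270, 272, 273, 274]⟩,
  ⟨⟨⟨c21x, c22x, c23x, c18x⟩, ⟨.ofNat 1, .ofNat 0, c122x⟩, ⟨.ofNat 0, .negSucc 0, c18x⟩, ⟨.ofNat 0, .ofNat 0, c1x⟩⟩, [12, 13, 14, 20, 21]⟩,
  ⟨⟨⟨c21x, c22x, c18x, c24x⟩, ⟨.ofNat 1, .ofNat 0, c122x⟩, ⟨.ofNat 0, .ofNat 0, c1x⟩, ⟨.ofNat 0, .ofNat 1, c121x⟩⟩, [20, 21, 22, 260, 261, 262, 268, 269, 270]⟩,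
  ⟨⟨⟨c22x, c25x, c23x, c18x⟩, ⟨.ofNat 0, .ofNat 0, c123x⟩, ⟨.ofNat 0, .negSucc 0, c18x⟩, ⟨.ofNat 1, .ofNat 0, c124x⟩⟩, [14, 15, 20, 21]⟩,
  ⟨⟨⟨c22x, c25x, c26x, c27x⟩, ⟨.ofNat 0, .ofNat 0, c123x⟩, ⟨.ofNat 1, .ofNat 0, c124x⟩, ⟨.ofNat 0, .ofNat 1, c121x⟩⟩, [21, 22, 23, 259, 260, 261]⟩,
  ⟨⟨⟨c22x, c25x, c19x, c24x⟩, ⟨.ofNat 0, .ofNat 0, c123x⟩, ⟨.ofNat 1, .ofNat 0, c124x⟩, ⟨.ofNat 0, .ofNat 1, c121x⟩⟩, [261, 262, 267, 268]⟩,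
  ⟨⟨⟨c25x, c28x, c29x, c18x⟩, ⟨.ofNat 0, .ofNat 0, c123x⟩, ⟨.ofNat 0, .negSucc 0, c18x⟩, ⟨.ofNat 1, .ofNat 0, c124x⟩⟩, [14, 15, 16, 17, 18, 20]⟩,
  ⟨⟨⟨c25x, c30x, c31x, c32x⟩, ⟨.ofNat 0, .ofNat 0, c123x⟩, ⟨.ofNat 1, .ofNat 0, c124x⟩, ⟨.ofNat 0, .ofNat 1, c121x⟩⟩, [22, 23, 24, 25, 257, 258, 259, 260]⟩,
  ⟨⟨⟨c25x, c28x, c19x, c33x⟩, ⟨.ofNat 0, .ofNat 0, c123x⟩, ⟨.ofNat 1, .ofNat 0, c124x⟩, ⟨.ofNat 0, .ofNat 1, c121x⟩⟩, [262, 264, 265, 266, 267, 268]⟩,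
  ⟨⟨⟨c28x, c34x, c35x, c18x⟩, ⟨.ofNat 0, .ofNat 0, c123x⟩, ⟨.ofNat 0, .negSucc 0, c18x⟩, ⟨.ofNat 1, .ofNat 0, c124x⟩⟩, [17, 18, 19, 20]⟩,
  ⟨⟨⟨c28x, c34x, c19x, c36x⟩, ⟨.ofNat 0, .ofNat 0, c123x⟩, ⟨.ofNat 1, .ofNat 0, c124x⟩, ⟨.ofNat 0, .ofNat 1, c121x⟩⟩, [262, 263, 264, 265]⟩,
  ⟨⟨⟨c37x, c38x, c39x, c121x⟩, ⟨.ofNat 0, .ofNat 0, c1x⟩, ⟨.ofNat 1, .ofNat 0, c124x⟩, ⟨.ofNat 0, .negSucc 0, c121x⟩⟩, [29, 30]⟩,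
  ⟨⟨⟨c37x, c38x, c121x, c5x⟩, ⟨.ofNat 0, .ofNat 1, c18x⟩, ⟨.ofNat 1, .ofNat 0, c124x⟩, ⟨.ofNat 0, .ofNat 0, c1x⟩⟩, [27, 28, 29]⟩,
  ⟨⟨⟨c37x, c38x, c6x, c40x⟩, ⟨.ofNat 0, .ofNat 0, c123x⟩, ⟨.ofNat 1, .ofNat 0, c124x⟩, ⟨.ofNat 0, .ofNat 1, c121x⟩⟩, [252, 253, 254, 255]⟩,
  ⟨⟨⟨c38x, c30x, c39x, c121x⟩, ⟨.ofNat 0, .ofNat 0, c1x⟩, ⟨.ofNat 1, .ofNat 0, c124x⟩, ⟨.ofNat 0, .negSucc 0, c121x⟩⟩, [30]⟩,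
  ⟨⟨⟨c38x, c30x, c121x, c18x⟩, ⟨.ofNat 0, .ofNat 1, c18x⟩, ⟨.ofNat 1, .ofNat 0, c124x⟩, ⟨.ofNat 0, .ofNat 0, c1x⟩⟩, [27, 28]⟩,
  ⟨⟨⟨c38x, c30x, c18x, c14x⟩, ⟨.ofNat 0, .ofNat 0, c123x⟩, ⟨.ofNat 1, .ofNat 0, c124x⟩, ⟨.ofNat 0, .ofNat 1, c121x⟩⟩, [25, 26, 27]⟩,
  ⟨⟨⟨c38x, c30x, c15x, c40x⟩, ⟨.ofNat 0, .ofNat 0, c123x⟩, ⟨.ofNat 1, .ofNat 0, c124x⟩, ⟨.ofNat 0, .ofNat 1, c121x⟩⟩, [252, 254, 255, 256, 257]⟩,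
  ⟨⟨⟨c30x, c41x, c39x, c121x⟩, ⟨.ofNat 0, .ofNat 0, c1x⟩, ⟨.ofNat 1, .ofNat 0, c124x⟩, ⟨.ofNat 0, .negSucc 0, c121x⟩⟩, [30, 31]⟩,
  ⟨⟨⟨c30x, c41x, c121x, c18x⟩, ⟨.ofNat 0, .ofNat 1, c18x⟩, ⟨.ofNat 1, .ofNat 0, c124x⟩, ⟨.ofNat 0, .ofNat 0, c1x⟩⟩, [31, 32]⟩,
  ⟨⟨⟨c30x, c41x, c18x, c40x⟩, ⟨.ofNat 0, .ofNat 0, c123x⟩, ⟨.ofNat 1, .ofNat 0, c124x⟩, ⟨.ofNat 0, .ofNat 1, c121x⟩⟩, [24, 25, 26, 250, 251, 252, 256, 257, 258]⟩,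
  ⟨⟨⟨c41x, c42x, c11x, c18x⟩, ⟨.ofNat 0, .ofNat 1, c18x⟩, ⟨.ofNat 1, .ofNat 0, c124x⟩, ⟨.ofNat 0, .ofNat 0, c1x⟩⟩, [31, 32, 33]⟩,
  ⟨⟨⟨c41x, c42x, c18x, c12x⟩, ⟨.ofNat 0, .ofNat 0, c123x⟩, ⟨.ofNat 1, .ofNat 0, c124x⟩, ⟨.ofNat 0, .ofNat 1, c121x⟩⟩, [249, 250, 251]⟩,
  ⟨⟨⟨c42x, c43x, c1x, c18x⟩, ⟨.ofNat 0, .ofNat 1, c18x⟩, ⟨.ofNat 1, .ofNat 0, c124x⟩, ⟨.ofNat 0, .ofNat 0, c1x⟩⟩, [32, 33, 34]⟩,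
  ⟨⟨⟨c42x, c43x, c18x, c3x⟩, ⟨.ofNat 0, .ofNat 0, c123x⟩, ⟨.ofNat 1, .ofNat 0, c124x⟩, ⟨.ofNat 0, .ofNat 1, c121x⟩⟩, [247, 248, 249, 250]⟩,
  ⟨⟨⟨c43x, c44x, c1x, c18x⟩, ⟨.ofNat 0, .ofNat 1, c18x⟩, ⟨.ofNat 1, .ofNat 0, c124x⟩, ⟨.ofNat 0, .ofNat 0, c1x⟩⟩, [34, 35]⟩,
  ⟨⟨⟨c43x, c44x, c18x, c45x⟩, ⟨.ofNat 0, .ofNat 0, c123x⟩, ⟨.ofNat 1, .ofNat 0, c124x⟩, ⟨.ofNat 0, .ofNat 1, c121x⟩⟩, [244, 245, 246, 247, 248]⟩,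
  ⟨⟨⟨c44x, c46x, c5x, c18x⟩, ⟨.ofNat 0, .ofNat 1, c18x⟩, ⟨.ofNat 1, .ofNat 0, c124x⟩, ⟨.ofNat 0, .ofNat 0, c1x⟩⟩, [34, 35, 36, 37]⟩,
  ⟨⟨⟨c44x, c46x, c18x, c47x⟩, ⟨.ofNat 0, .ofNat 0, c123x⟩, ⟨.ofNat 1, .ofNat 0, c124x⟩, ⟨.ofNat 0, .ofNat 1, c121x⟩⟩, [37, 38, 243, 244, 245]⟩,
  ⟨⟨⟨c46x, c48x, c8x, c49x⟩, ⟨.ofNat 0, .ofNat 0, c123x⟩, ⟨.ofNat 1, .ofNat 0, c124x⟩, ⟨.ofNat 0, .ofNat 1, c121x⟩⟩, [37, 38, 39, 240, 241, 242, 243, 244]⟩,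
  ⟨⟨⟨c48x, c50x, c11x, c18x⟩, ⟨.ofNat 0, .ofNat 1, c18x⟩, ⟨.ofNat 1, .ofNat 0, c124x⟩, ⟨.ofNat 0, .ofNat 0, c1x⟩⟩, [39, 40, 41]⟩,
  ⟨⟨⟨c48x, c50x, c18x, c51x⟩, ⟨.ofNat 0, .ofNat 0, c123x⟩, ⟨.ofNat 1, .ofNat 0, c124x⟩, ⟨.ofNat 0, .ofNat 1, c121x⟩⟩, [38, 39, 41, 42, 239, 240, 241]⟩,
  ⟨⟨⟨c50x, c52x, c14x, c53x⟩, ⟨.ofNat 0, .ofNat 0, c123x⟩, ⟨.ofNat 1, .ofNat 0, c124x⟩, ⟨.ofNat 0, .ofNat 1, c121x⟩⟩, [41, 42, 234, 235, 236, 238, 239, 240]⟩,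
  ⟨⟨⟨c52x, c54x, c17x, c18x⟩, ⟨.ofNat 0, .ofNat 0, c123x⟩, ⟨.ofNat 0, .ofNat 1, c125x⟩, ⟨.negSucc 0, .ofNat 0, c54x⟩⟩, [43, 44, 45, 46]⟩,
  ⟨⟨⟨c52x, c54x, c14x, c55x⟩, ⟨.ofNat 0, .ofNat 0, c123x⟩, ⟨.ofNat 1, .ofNat 0, c124x⟩, ⟨.ofNat 0, .ofNat 1, c121x⟩⟩, [42, 43, 234, 235]⟩,
  ⟨⟨⟨c52x, c54x, c56x, c53x⟩, ⟨.ofNat 0, .ofNat 0, c123x⟩, ⟨.ofNat 1, .ofNat 0, c124x⟩, ⟨.ofNat 0, .ofNat 1, c121x⟩⟩, [235, 236, 237, 238]⟩,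
  ⟨⟨⟨c54x, c57x, c17x, c18x⟩, ⟨.negSucc 0, .ofNat 0, c58x⟩, ⟨.ofNat 0, .ofNat 1, c125x⟩, ⟨.ofNat 0, .ofNat 0, c1x⟩⟩, [43, 44, 46, 47]⟩,
  ⟨⟨⟨c54x, c57x, c18x, c55x⟩, ⟨.negSucc 0, .ofNat 0, c58x⟩, ⟨.ofNat 0, .ofNat 0, c126x⟩, ⟨.ofNat 0, .ofNat 1, c121x⟩⟩, [42, 43, 44, 232, 233, 234]⟩,
  ⟨⟨⟨c57x, c58x, c23x, c18x⟩, ⟨.negSucc 0, .ofNat 0, c58x⟩, ⟨.ofNat 0, .ofNat 1, c125x⟩, ⟨.ofNat 0, .ofNat 0, c1x⟩⟩, [46, 47, 48, 54, 55]⟩,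
  ⟨⟨⟨c57x, c58x, c18x, c59x⟩, ⟨.negSucc 0, .ofNat 0, c58x⟩, ⟨.ofNat 0, .ofNat 0, c126x⟩, ⟨.ofNat 0, .ofNat 1, c121x⟩⟩, [54, 55, 56, 232, 233]⟩,
  ⟨⟨⟨c58x, c60x, c23x, c18x⟩, ⟨.ofNat 0, .ofNat 0, c1x⟩, ⟨.ofNat 0, .ofNat 1, c125x⟩, ⟨.ofNat 1, .ofNat 0, c127x⟩⟩, [48, 49, 54, 55]⟩,
  ⟨⟨⟨c58x, c60x, c26x, c59x⟩, ⟨.ofNat 0, .ofNat 0, c1x⟩, ⟨.negSucc 0, .ofNat 0, c84x⟩, ⟨.ofNat 0, .ofNat 1, c121x⟩⟩, [55, 56, 57, 230, 231, 232]⟩,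
  ⟨⟨⟨c58x, c60x, c56x, c61x⟩, ⟨.ofNat 0, .ofNat 0, c1x⟩, ⟨.negSucc 0, .ofNat 0, c84x⟩, ⟨.ofNat 0, .ofNat 1, c121x⟩⟩, [222, 223, 224, 225, 226]⟩,
  ⟨⟨⟨c60x, c62x, c29x, c18x⟩, ⟨.ofNat 0, .ofNat 0, c1x⟩, ⟨.ofNat 0, .ofNat 1, c125x⟩, ⟨.ofNat 1, .ofNat 0, c127x⟩⟩, [48, 49, 50, 51, 52, 54]⟩,
  ⟨⟨⟨c60x, c62x, c31x, c63x⟩, ⟨.ofNat 0, .ofNat 0, c1x⟩, ⟨.negSucc 0, .ofNat 0, c84x⟩, ⟨.ofNat 0, .ofNat 1, c121x⟩⟩, [56, 57, 58, 229, 230, 231]⟩,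
  ⟨⟨⟨c60x, c64x, c56x, c65x⟩, ⟨.ofNat 0, .ofNat 0, c1x⟩, ⟨.negSucc 0, .ofNat 0, c84x⟩, ⟨.ofNat 0, .ofNat 1, c121x⟩⟩, [222, 223, 226, 227]⟩,
  ⟨⟨⟨c62x, c64x, c35x, c18x⟩, ⟨.ofNat 0, .ofNat 0, c1x⟩, ⟨.ofNat 0, .ofNat 1, c125x⟩, ⟨.ofNat 1, .ofNat 0, c127x⟩⟩, [51, 52, 53, 54]⟩,
  ⟨⟨⟨c62x, c64x, c31x, c66x⟩, ⟨.ofNat 0, .ofNat 0, c1x⟩, ⟨.negSucc 0, .ofNat 0, c84x⟩, ⟨.ofNat 0, .ofNat 1, c121x⟩⟩, [58, 227, 228, 229, 230]⟩,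
  ⟨⟨⟨c64x, c67x, c31x, c65x⟩, ⟨.ofNat 0, .ofNat 0, c1x⟩, ⟨.negSucc 0, .ofNat 0, c84x⟩, ⟨.ofNat 0, .ofNat 1, c121x⟩⟩, [58, 216, 217, 218, 222, 226, 227, 228]⟩,
  ⟨⟨⟨c67x, c68x, c39x, c121x⟩, ⟨.ofNat 0, .ofNat 0, c123x⟩, ⟨.negSucc 0, .ofNat 0, c84x⟩, ⟨.ofNat 0, .negSucc 0, c121x⟩⟩, [63, 64]⟩,
  ⟨⟨⟨c67x, c68x, c121x, c5x⟩, ⟨.ofNat 0, .negSucc 0, c18x⟩, ⟨.negSucc 0, .ofNat 0, c84x⟩, ⟨.ofNat 0, .ofNat 0, c1x⟩⟩, [61, 62, 63]⟩,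
  ⟨⟨⟨c67x, c69x, c31x, c70x⟩, ⟨.ofNat 0, .ofNat 0, c1x⟩, ⟨.negSucc 0, .ofNat 0, c84x⟩, ⟨.ofNat 0, .ofNat 1, c121x⟩⟩, [58, 59, 216, 217]⟩,
  ⟨⟨⟨c67x, c68x, c47x, c65x⟩, ⟨.ofNat 0, .ofNat 0, c1x⟩, ⟨.negSucc 0, .ofNat 0, c84x⟩, ⟨.ofNat 0, .ofNat 1, c121x⟩⟩, [217, 218, 219, 220, 222]⟩,
  ⟨⟨⟨c68x, c69x, c39x, c121x⟩, ⟨.ofNat 0, .ofNat 0, c123x⟩, ⟨.negSucc 0, .ofNat 0, c84x⟩, ⟨.ofNat 0, .negSucc 0, c121x⟩⟩, [64]⟩,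
  ⟨⟨⟨c68x, c69x, c121x, c18x⟩, ⟨.ofNat 0, .negSucc 0, c18x⟩, ⟨.negSucc 0, .ofNat 0, c84x⟩, ⟨.ofNat 0, .ofNat 0, c1x⟩⟩, [61, 62]⟩,
  ⟨⟨⟨c68x, c69x, c18x, c14x⟩, ⟨.ofNat 0, .ofNat 0, c1x⟩, ⟨.negSucc 0, .ofNat 0, c84x⟩, ⟨.ofNat 0, .ofNat 1, c121x⟩⟩, [59, 60, 61]⟩,
  ⟨⟨⟨c68x, c69x, c53x, c65x⟩, ⟨.ofNat 0, .ofNat 0, c1x⟩, ⟨.negSucc 0, .ofNat 0, c84x⟩, ⟨.ofNat 0, .ofNat 1, c121x⟩⟩, [219, 220, 221, 222]⟩,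
  ⟨⟨⟨c69x, c71x, c39x, c121x⟩, ⟨.ofNat 0, .ofNat 0, c123x⟩, ⟨.negSucc 0, .ofNat 0, c84x⟩, ⟨.ofNat 0, .negSucc 0, c121x⟩⟩, [64, 65]⟩,
  ⟨⟨⟨c69x, c71x, c121x, c18x⟩, ⟨.ofNat 0, .negSucc 0, c18x⟩, ⟨.negSucc 0, .ofNat 0, c84x⟩, ⟨.ofNat 0, .ofNat 0, c1x⟩⟩, [65, 66]⟩,
  ⟨⟨⟨c69x, c71x, c18x, c70x⟩, ⟨.ofNat 0, .ofNat 0, c1x⟩, ⟨.negSucc 0, .ofNat 0, c84x⟩, ⟨.ofNat 0, .ofNat 1, c121x⟩⟩, [58, 59, 60, 215, 216]⟩,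
  ⟨⟨⟨c71x, c72x, c11x, c18x⟩, ⟨.ofNat 0, .negSucc 0, c18x⟩, ⟨.negSucc 0, .ofNat 0, c84x⟩, ⟨.ofNat 0, .ofNat 0, c1x⟩⟩, [65, 66, 67]⟩,
  ⟨⟨⟨c71x, c72x, c18x, c51x⟩, ⟨.ofNat 0, .ofNat 0, c1x⟩, ⟨.negSucc 0, .ofNat 0, c84x⟩, ⟨.ofNat 0, .ofNat 1, c121x⟩⟩, [212, 213, 214, 215, 216]⟩,
  ⟨⟨⟨c72x, c73x, c1x, c18x⟩, ⟨.ofNat 0, .negSucc 0, c18x⟩, ⟨.negSucc 0, .ofNat 0, c84x⟩, ⟨.ofNat 0, .ofNat 0, c1x⟩⟩, [66, 67, 68, 69]⟩,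
  ⟨⟨⟨c72x, c73x, c18x, c45x⟩, ⟨.ofNat 0, .ofNat 0, c1x⟩, ⟨.negSucc 0, .ofNat 0, c84x⟩, ⟨.ofNat 0, .ofNat 1, c121x⟩⟩, [69, 70, 211, 212, 213]⟩,
  ⟨⟨⟨c73x, c74x, c3x, c85x⟩, ⟨.ofNat 0, .ofNat 0, c1x⟩, ⟨.negSucc 0, .ofNat 0, c84x⟩, ⟨.ofNat 0, .ofNat 1, c121x⟩⟩, [69, 70, 71, 72, 211, 212]⟩,
  ⟨⟨⟨c73x, c74x, c85x, c75x⟩, ⟨.ofNat 0, .ofNat 1, c128x⟩, ⟨.negSucc 0, .ofNat 0, c84x⟩, ⟨.ofNat 0, .ofNat 0, c129x⟩⟩, [209, 210, 211]⟩,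
  ⟨⟨⟨c74x, c76x, c6x, c85x⟩, ⟨.ofNat 0, .ofNat 0, c1x⟩, ⟨.negSucc 0, .ofNat 0, c84x⟩, ⟨.ofNat 0, .ofNat 1, c121x⟩⟩, [71, 72, 73, 206, 207]⟩,
  ⟨⟨⟨c74x, c76x, c85x, c77x⟩, ⟨.ofNat 0, .ofNat 1, c128x⟩, ⟨.negSucc 0, .ofNat 0, c84x⟩, ⟨.ofNat 0, .ofNat 0, c129x⟩⟩, [207, 208, 209, 210]⟩,
  ⟨⟨⟨c76x, c78x, c9x, c79x⟩, ⟨.ofNat 0, .ofNat 0, c1x⟩, ⟨.negSucc 0, .ofNat 0, c84x⟩, ⟨.ofNat 0, .ofNat 1, c121x⟩⟩, [72, 73, 74, 75, 76, 205, 206, 207]⟩,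
  ⟨⟨⟨c78x, c80x, c12x, c85x⟩, ⟨.ofNat 0, .ofNat 0, c1x⟩, ⟨.negSucc 0, .ofNat 0, c84x⟩, ⟨.ofNat 0, .ofNat 1, c121x⟩⟩, [75, 76, 77, 202, 203, 205, 206]⟩,
  ⟨⟨⟨c78x, c80x, c85x, c81x⟩, ⟨.ofNat 0, .ofNat 1, c128x⟩, ⟨.negSucc 0, .ofNat 0, c84x⟩, ⟨.ofNat 0, .ofNat 0, c129x⟩⟩, [203, 204, 205]⟩,
  ⟨⟨⟨c80x, c82x, c15x, c83x⟩, ⟨.ofNat 0, .ofNat 0, c1x⟩, ⟨.negSucc 0, .ofNat 0, c84x⟩, ⟨.ofNat 0, .ofNat 1, c121x⟩⟩, [76, 77, 78, 80, 81, 82, 202, 203]⟩,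
  ⟨⟨⟨c82x, c84x, c15x, c19x⟩, ⟨.ofNat 0, .ofNat 0, c1x⟩, ⟨.negSucc 0, .ofNat 0, c84x⟩, ⟨.ofNat 0, .ofNat 1, c121x⟩⟩, [78, 79, 80, 81]⟩,
  ⟨⟨⟨c82x, c84x, c20x, c83x⟩, ⟨.ofNat 0, .ofNat 0, c1x⟩, ⟨.negSucc 0, .ofNat 0, c84x⟩, ⟨.ofNat 0, .ofNat 1, c121x⟩⟩, [81, 82, 201, 202]⟩,
  ⟨⟨⟨c82x, c84x, c85x, c86x⟩, ⟨.ofNat 0, .ofNat 0, c1x⟩, ⟨.ofNat 0, .ofNat 1, c128x⟩, ⟨.ofNat 1, .ofNat 0, c130x⟩⟩, [198, 199, 200, 201]⟩,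
  ⟨⟨⟨c84x, c87x, c20x, c85x⟩, ⟨.ofNat 1, .ofNat 0, c131x⟩, ⟨.ofNat 0, .ofNat 0, c1x⟩, ⟨.ofNat 0, .ofNat 1, c121x⟩⟩, [82, 83, 84, 200, 201, 202]⟩,
  ⟨⟨⟨c84x, c87x, c85x, c86x⟩, ⟨.ofNat 1, .ofNat 0, c131x⟩, ⟨.ofNat 0, .ofNat 1, c128x⟩, ⟨.ofNat 0, .ofNat 0, c129x⟩⟩, [197, 198, 200, 201]⟩,
  ⟨⟨⟨c87x, c88x, c24x, c85x⟩, ⟨.ofNat 1, .ofNat 0, c131x⟩, ⟨.ofNat 0, .ofNat 0, c1x⟩, ⟨.ofNat 0, .ofNat 1, c121x⟩⟩, [83, 84, 188, 189, 190]⟩,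
  ⟨⟨⟨c87x, c88x, c85x, c89x⟩, ⟨.ofNat 1, .ofNat 0, c131x⟩, ⟨.ofNat 0, .ofNat 1, c128x⟩, ⟨.ofNat 0, .ofNat 0, c129x⟩⟩, [189, 190, 196, 197, 198]⟩,
  ⟨⟨⟨c88x, c90x, c27x, c19x⟩, ⟨.ofNat 0, .ofNat 0, c123x⟩, ⟨.ofNat 1, .ofNat 0, c132x⟩, ⟨.ofNat 0, .ofNat 1, c121x⟩⟩, [90, 91, 92, 93, 94]⟩,
  ⟨⟨⟨c88x, c90x, c24x, c91x⟩, ⟨.ofNat 0, .ofNat 0, c123x⟩, ⟨.ofNat 1, .ofNat 0, c132x⟩, ⟨.ofNat 0, .ofNat 1, c121x⟩⟩, [84, 85, 86, 187, 188, 189]⟩,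
  ⟨⟨⟨c88x, c90x, c85x, c89x⟩, ⟨.ofNat 0, .ofNat 0, c123x⟩, ⟨.ofNat 0, .ofNat 1, c128x⟩, ⟨.negSucc 0, .ofNat 0, c133x⟩⟩, [189, 190, 195, 196]⟩,
  ⟨⟨⟨c90x, c92x, c32x, c19x⟩, ⟨.ofNat 0, .ofNat 0, c123x⟩, ⟨.ofNat 1, .ofNat 0, c132x⟩, ⟨.ofNat 0, .ofNat 1, c121x⟩⟩, [89, 90, 93, 94]⟩,
  ⟨⟨⟨c90x, c93x, c33x, c94x⟩, ⟨.ofNat 0, .ofNat 0, c123x⟩, ⟨.ofNat 1, .ofNat 0, c132x⟩, ⟨.ofNat 0, .ofNat 1, c121x⟩⟩, [85, 86, 87, 186, 187, 188]⟩,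
  ⟨⟨⟨c90x, c93x, c85x, c95x⟩, ⟨.ofNat 0, .ofNat 0, c123x⟩, ⟨.ofNat 0, .ofNat 1, c128x⟩, ⟨.negSucc 0, .ofNat 0, c133x⟩⟩, [190, 192, 193, 194, 195, 196]⟩,
  ⟨⟨⟨c93x, c92x, c36x, c94x⟩, ⟨.ofNat 0, .ofNat 0, c123x⟩, ⟨.ofNat 1, .ofNat 0, c132x⟩, ⟨.ofNat 0, .ofNat 1, c121x⟩⟩, [86, 87, 88, 89, 186]⟩,
  ⟨⟨⟨c93x, c92x, c85x, c96x⟩, ⟨.ofNat 0, .ofNat 0, c123x⟩, ⟨.ofNat 0, .ofNat 1, c128x⟩, ⟨.negSucc 0, .ofNat 0, c133x⟩⟩, [190, 191, 192, 193]⟩,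
  ⟨⟨⟨c92x, c97x, c32x, c94x⟩, ⟨.ofNat 0, .ofNat 0, c123x⟩, ⟨.ofNat 1, .ofNat 0, c132x⟩, ⟨.ofNat 0, .ofNat 1, c121x⟩⟩, [88, 89, 90, 94, 98, 99, 100, 186]⟩,
  ⟨⟨⟨c97x, c98x, c32x, c6x⟩, ⟨.ofNat 0, .ofNat 0, c123x⟩, ⟨.ofNat 1, .ofNat 0, c132x⟩, ⟨.ofNat 0, .ofNat 1, c121x⟩⟩, [94, 96, 97, 98, 99]⟩,
  ⟨⟨⟨c97x, c99x, c40x, c94x⟩, ⟨.ofNat 0, .ofNat 0, c123x⟩, ⟨.ofNat 1, .ofNat 0, c132x⟩, ⟨.ofNat 0, .ofNat 1, c121x⟩⟩, [99, 100, 185, 186]⟩,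
  ⟨⟨⟨c97x, c98x, c77x, c134x⟩, ⟨.ofNat 0, .negSucc 0, c134x⟩, ⟨.ofNat 1, .ofNat 0, c132x⟩, ⟨.ofNat 0, .ofNat 0, c129x⟩⟩, [181, 182, 183]⟩,
  ⟨⟨⟨c97x, c98x, c134x, c100x⟩, ⟨.ofNat 0, .ofNat 0, c1x⟩, ⟨.ofNat 1, .ofNat 0, c132x⟩, ⟨.ofNat 0, .negSucc 0, c135x⟩⟩, [180, 181]⟩,
  ⟨⟨⟨c98x, c99x, c32x, c15x⟩, ⟨.ofNat 0, .ofNat 0, c123x⟩, ⟨.ofNat 1, .ofNat 0, c132x⟩, ⟨.ofNat 0, .ofNat 1, c121x⟩⟩, [94, 95, 96, 97]⟩,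
  ⟨⟨⟨c98x, c99x, c83x, c85x⟩, ⟨.ofNat 0, .ofNat 0, c123x⟩, ⟨.ofNat 1, .ofNat 0, c132x⟩, ⟨.ofNat 0, .ofNat 1, c121x⟩⟩, [183, 184, 185]⟩,
  ⟨⟨⟨c98x, c99x, c85x, c134x⟩, ⟨.ofNat 0, .negSucc 0, c134x⟩, ⟨.ofNat 1, .ofNat 0, c132x⟩, ⟨.ofNat 0, .ofNat 0, c129x⟩⟩, [182, 183]⟩,
  ⟨⟨⟨c98x, c99x, c134x, c100x⟩, ⟨.ofNat 0, .ofNat 0, c1x⟩, ⟨.ofNat 1, .ofNat 0, c132x⟩, ⟨.ofNat 0, .negSucc 0, c135x⟩⟩, [180]⟩,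
  ⟨⟨⟨c99x, c101x, c40x, c85x⟩, ⟨.ofNat 0, .ofNat 0, c123x⟩, ⟨.ofNat 1, .ofNat 0, c132x⟩, ⟨.ofNat 0, .ofNat 1, c121x⟩⟩, [100, 101, 184, 185, 186]⟩,
  ⟨⟨⟨c99x, c101x, c85x, c134x⟩, ⟨.ofNat 0, .negSucc 0, c134x⟩, ⟨.ofNat 1, .ofNat 0, c132x⟩, ⟨.ofNat 0, .ofNat 0, c129x⟩⟩, [178, 179]⟩,
  ⟨⟨⟨c99x, c101x, c134x, c100x⟩, ⟨.ofNat 0, .ofNat 0, c1x⟩, ⟨.ofNat 1, .ofNat 0, c132x⟩, ⟨.ofNat 0, .negSucc 0, c135x⟩⟩, [179, 180]⟩,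
  ⟨⟨⟨c101x, c102x, c12x, c85x⟩, ⟨.ofNat 0, .ofNat 0, c123x⟩, ⟨.ofNat 1, .ofNat 0, c132x⟩, ⟨.ofNat 0, .ofNat 1, c121x⟩⟩, [100, 101, 102, 103, 104]⟩,
  ⟨⟨⟨c101x, c102x, c85x, c81x⟩, ⟨.ofNat 0, .negSucc 0, c134x⟩, ⟨.ofNat 1, .ofNat 0, c132x⟩, ⟨.ofNat 0, .ofNat 0, c129x⟩⟩, [177, 178, 179]⟩,
  ⟨⟨⟨c102x, c103x, c3x, c85x⟩, ⟨.ofNat 0, .ofNat 0, c123x⟩, ⟨.ofNat 1, .ofNat 0, c132x⟩, ⟨.ofNat 0, .ofNat 1, c121x⟩⟩, [103, 104, 105, 106]⟩,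
  ⟨⟨⟨c102x, c103x, c85x, c75x⟩, ⟨.ofNat 0, .negSucc 0, c134x⟩, ⟨.ofNat 1, .ofNat 0, c132x⟩, ⟨.ofNat 0, .ofNat 0, c129x⟩⟩, [176, 177, 178]⟩,
  ⟨⟨⟨c103x, c104x, c45x, c85x⟩, ⟨.ofNat 0, .ofNat 0, c123x⟩, ⟨.ofNat 1, .ofNat 0, c132x⟩, ⟨.ofNat 0, .ofNat 1, c121x⟩⟩, [105, 106, 107]⟩,
  ⟨⟨⟨c103x, c104x, c85x, c75x⟩, ⟨.ofNat 0, .negSucc 0, c134x⟩, ⟨.ofNat 1, .ofNat 0, c132x⟩, ⟨.ofNat 0, .ofNat 0, c129x⟩⟩, [175, 176]⟩,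
  ⟨⟨⟨c104x, c105x, c47x, c85x⟩, ⟨.ofNat 0, .ofNat 0, c123x⟩, ⟨.ofNat 1, .ofNat 0, c132x⟩, ⟨.ofNat 0, .ofNat 1, c121x⟩⟩, [106, 107, 108, 109, 110, 172, 173]⟩,
  ⟨⟨⟨c104x, c105x, c85x, c77x⟩, ⟨.ofNat 0, .negSucc 0, c134x⟩, ⟨.ofNat 1, .ofNat 0, c132x⟩, ⟨.ofNat 0, .ofNat 0, c129x⟩⟩, [173, 174, 175, 176]⟩,
  ⟨⟨⟨c105x, c106x, c49x, c79x⟩, ⟨.ofNat 0, .ofNat 0, c123x⟩, ⟨.ofNat 1, .ofNat 0, c132x⟩, ⟨.ofNat 0, .ofNat 1, c121x⟩⟩, [109, 110, 111, 171, 172, 173]⟩,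
  ⟨⟨⟨c106x, c107x, c51x, c85x⟩, ⟨.ofNat 0, .ofNat 0, c123x⟩, ⟨.ofNat 1, .ofNat 0, c132x⟩, ⟨.ofNat 0, .ofNat 1, c121x⟩⟩, [110, 111, 112, 113, 114, 168, 169, 171, 172]⟩,
  ⟨⟨⟨c106x, c107x, c85x, c81x⟩, ⟨.ofNat 0, .negSucc 0, c134x⟩, ⟨.ofNat 1, .ofNat 0, c132x⟩, ⟨.ofNat 0, .ofNat 0, c129x⟩⟩, [169, 170, 171]⟩,
  ⟨⟨⟨c107x, c108x, c53x, c83x⟩, ⟨.ofNat 0, .ofNat 0, c123x⟩, ⟨.ofNat 1, .ofNat 0, c132x⟩, ⟨.ofNat 0, .ofNat 1, c121x⟩⟩, [113, 114, 115, 167, 168, 169]⟩,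
  ⟨⟨⟨c109x, c108x, c55x, c56x⟩, ⟨.ofNat 0, .ofNat 0, c123x⟩, ⟨.ofNat 1, .ofNat 0, c132x⟩, ⟨.ofNat 0, .ofNat 1, c121x⟩⟩, [115, 116, 117, 118]⟩,
  ⟨⟨⟨c109x, c108x, c85x, c86x⟩, ⟨.ofNat 0, .ofNat 0, c123x⟩, ⟨.ofNat 0, .negSucc 0, c136x⟩, ⟨.ofNat 1, .ofNat 0, c137x⟩⟩, [164, 165, 166, 167]⟩,
  ⟨⟨⟨c108x, c110x, c55x, c85x⟩, ⟨.negSucc 0, .ofNat 0, c111x⟩, ⟨.ofNat 0, .ofNat 0, c126x⟩, ⟨.ofNat 0, .ofNat 1, c121x⟩⟩, [114, 115, 116, 118, 119, 166, 167, 168]⟩,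
  ⟨⟨⟨c108x, c110x, c85x, c86x⟩, ⟨.negSucc 0, .ofNat 0, c111x⟩, ⟨.ofNat 0, .negSucc 0, c136x⟩, ⟨.ofNat 0, .ofNat 0, c129x⟩⟩, [163, 164, 166, 167]⟩,
  ⟨⟨⟨c110x, c111x, c59x, c85x⟩, ⟨.negSucc 0, .ofNat 0, c111x⟩, ⟨.ofNat 0, .ofNat 0, c126x⟩, ⟨.ofNat 0, .ofNat 1, c121x⟩⟩, [118, 119, 120, 126, 127, 128, 154, 155, 156]⟩,
  ⟨⟨⟨c110x, c111x, c85x, c89x⟩, ⟨.negSucc 0, .ofNat 0, c111x⟩, ⟨.ofNat 0, .negSucc 0, c136x⟩, ⟨.ofNat 0, .ofNat 0, c129x⟩⟩, [155, 156, 162, 163, 164]⟩,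
  ⟨⟨⟨c111x, c112x, c59x, c56x⟩, ⟨.ofNat 0, .ofNat 0, c1x⟩, ⟨.negSucc 0, .ofNat 0, c138x⟩, ⟨.ofNat 0, .ofNat 1, c121x⟩⟩, [120, 121, 126, 127]⟩,
  ⟨⟨⟨c111x, c112x, c61x, c91x⟩, ⟨.ofNat 0, .ofNat 0, c1x⟩, ⟨.negSucc 0, .ofNat 0, c138x⟩, ⟨.ofNat 0, .ofNat 1, c121x⟩⟩, [127, 128, 129, 153, 154, 155]⟩,
  ⟨⟨⟨c111x, c112x, c85x, c89x⟩, ⟨.ofNat 0, .ofNat 0, c1x⟩, ⟨.ofNat 0, .negSucc 0, c136x⟩, ⟨.negSucc 0, .ofNat 0, c139x⟩⟩, [155, 156, 161, 162]⟩,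
  ⟨⟨⟨c112x, c113x, c63x, c56x⟩, ⟨.ofNat 0, .ofNat 0, c1x⟩, ⟨.negSucc 0, .ofNat 0, c138x⟩, ⟨.ofNat 0, .ofNat 1, c121x⟩⟩, [120, 121, 122, 123, 124, 126]⟩,
  ⟨⟨⟨c112x, c114x, c65x, c94x⟩, ⟨.ofNat 0, .ofNat 0, c1x⟩, ⟨.negSucc 0, .ofNat 0, c138x⟩, ⟨.ofNat 0, .ofNat 1, c121x⟩⟩, [128, 129, 130, 131, 151, 152, 153, 154]⟩,
  ⟨⟨⟨c112x, c113x, c85x, c95x⟩, ⟨.ofNat 0, .ofNat 0, c1x⟩, ⟨.ofNat 0, .negSucc 0, c136x⟩, ⟨.negSucc 0, .ofNat 0, c139x⟩⟩, [156, 158, 159, 160, 161, 162]⟩,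
  ⟨⟨⟨c113x, c115x, c66x, c56x⟩, ⟨.ofNat 0, .ofNat 0, c1x⟩, ⟨.negSucc 0, .ofNat 0, c138x⟩, ⟨.ofNat 0, .ofNat 1, c121x⟩⟩, [123, 124, 125, 126]⟩,
  ⟨⟨⟨c113x, c115x, c85x, c96x⟩, ⟨.ofNat 0, .ofNat 0, c1x⟩, ⟨.ofNat 0, .negSucc 0, c136x⟩, ⟨.negSucc 0, .ofNat 0, c139x⟩⟩, [156, 157, 158, 159]⟩,
  ⟨⟨⟨c116x, c117x, c70x, c47x⟩, ⟨.ofNat 0, .ofNat 0, c1x⟩, ⟨.negSucc 0, .ofNat 0, c138x⟩, ⟨.ofNat 0, .ofNat 1, c121x⟩⟩, [133, 134, 135, 136]⟩,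
  ⟨⟨⟨c116x, c117x, c77x, c134x⟩, ⟨.ofNat 0, .ofNat 1, c128x⟩, ⟨.negSucc 0, .ofNat 0, c138x⟩, ⟨.ofNat 0, .ofNat 0, c129x⟩⟩, [147, 148, 149]⟩,
  ⟨⟨⟨c116x, c117x, c134x, c100x⟩, ⟨.ofNat 0, .ofNat 0, c123x⟩, ⟨.negSucc 0, .ofNat 0, c138x⟩, ⟨.ofNat 0, .negSucc 0, c135x⟩⟩, [146, 147]⟩,
  ⟨⟨⟨c117x, c114x, c70x, c53x⟩, ⟨.ofNat 0, .ofNat 0, c1x⟩, ⟨.negSucc 0, .ofNat 0, c138x⟩, ⟨.ofNat 0, .ofNat 1, c121x⟩⟩, [131, 132, 133, 134, 136]⟩,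
  ⟨⟨⟨c117x, c114x, c83x, c85x⟩, ⟨.ofNat 0, .ofNat 0, c1x⟩, ⟨.negSucc 0, .ofNat 0, c138x⟩, ⟨.ofNat 0, .ofNat 1, c121x⟩⟩, [149, 150, 151]⟩,
  ⟨⟨⟨c117x, c114x, c85x, c134x⟩, ⟨.ofNat 0, .ofNat 1, c128x⟩, ⟨.negSucc 0, .ofNat 0, c138x⟩, ⟨.ofNat 0, .ofNat 0, c129x⟩⟩, [148, 149]⟩,
  ⟨⟨⟨c117x, c114x, c134x, c100x⟩, ⟨.ofNat 0, .ofNat 0, c123x⟩, ⟨.negSucc 0, .ofNat 0, c138x⟩, ⟨.ofNat 0, .negSucc 0, c135x⟩⟩, [146]⟩,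
  ⟨⟨⟨c114x, c118x, c70x, c85x⟩, ⟨.ofNat 0, .ofNat 0, c1x⟩, ⟨.negSucc 0, .ofNat 0, c138x⟩, ⟨.ofNat 0, .ofNat 1, c121x⟩⟩, [130, 131, 132, 136, 137, 138, 150, 151, 152]⟩,
  ⟨⟨⟨c114x, c118x, c85x, c134x⟩, ⟨.ofNat 0, .ofNat 1, c128x⟩, ⟨.negSucc 0, .ofNat 0, c138x⟩, ⟨.ofNat 0, .ofNat 0, c129x⟩⟩, [144, 145]⟩,
  ⟨⟨⟨c114x, c118x, c134x, c100x⟩, ⟨.ofNat 0, .ofNat 0, c123x⟩, ⟨.negSucc 0, .ofNat 0, c138x⟩, ⟨.ofNat 0, .negSucc 0, c135x⟩⟩, [145, 146]⟩,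
  ⟨⟨⟨c118x, c119x, c51x, c85x⟩, ⟨.ofNat 0, .ofNat 0, c1x⟩, ⟨.negSucc 0, .ofNat 0, c138x⟩, ⟨.ofNat 0, .ofNat 1, c121x⟩⟩, [137, 138, 139]⟩,
  ⟨⟨⟨c118x, c119x, c85x, c81x⟩, ⟨.ofNat 0, .ofNat 1, c128x⟩, ⟨.negSucc 0, .ofNat 0, c138x⟩, ⟨.ofNat 0, .ofNat 0, c129x⟩⟩, [143, 144, 145]⟩,
  ⟨⟨⟨c119x, c120x, c45x, c85x⟩, ⟨.ofNat 0, .ofNat 0, c1x⟩, ⟨.negSucc 0, .ofNat 0, c138x⟩, ⟨.ofNat 0, .ofNat 1, c121x⟩⟩, [138, 139, 140, 141]⟩,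
  ⟨⟨⟨c119x, c120x, c85x, c75x⟩, ⟨.ofNat 0, .ofNat 1, c128x⟩, ⟨.negSucc 0, .ofNat 0, c138x⟩, ⟨.ofNat 0, .ofNat 0, c129x⟩⟩, [141, 142, 143, 144]⟩]

def own : List ℕ := [0, 0, 1, 1, 2, 3, 3, 4, 5, 6, 7, 7, 8, 8, 9, 10, 11, 12, 13, 14, 15, 16, 17, 17, 18, 19, 19, 19, 20, 21, 21, 21, 22, 22, 23, 23, 24, 24, 25, 25, 26, 27, 27, 28, 29, 30, 31, 32, 32, 33, 33, 34, 35, 36, 37, 38, 39, 40, 41, 42, 43, 43, 44, 45, 46, 46, 46, 47, 48, 48, 48, 49, 49, 50, 50, 51, 51, 52, 52, 53, 54, 54, 55, 56, 57, 58, 59, 59, 60, 60, 61, 62, 63, 64, 65, 66, 67, 68, 69, 70, 71, 72, 72, 73, 74, 74, 74, 75, 75, 75, 76, 76, 77, 77, 78, 78, 79, 79, 80, 81, 81, 82, 83, 84, 85, 85, 86, 86, 87, 88, 89, 90, 91, 92,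 93, 94, 95, 96, 96, 97, 98, 98, 98, 99, 99, 99, 100, 100, 101, 101]

def ct : List Tr := [
  .sy c18x (.leaf 0) (.leaf 1),
  .sy c18x (.leaf 2) (.leaf 3),
  .leaf 4,
  .sy c18x (.leaf 5) (.leaf 6),
  .leaf 7,
  .leaf 8,
  .leaf 9,
  .sy c18x (.leaf 10) (.leaf 11),
  .sy c18x (.leaf 12) (.leaf 13),
  .leaf 14,
  .leaf 15,
  .leaf 16,
  .leaf 17,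
  .leaf 18,
  .leaf 19,
  .leaf 20,
  .leaf 21,
  .sy c121x (.leaf 22) (.leaf 23),
  .leaf 24,
  .sy c121x (.leaf 25) (.sy c18x (.leaf 26) (.leaf 27)),
  .leaf 28,
  .sy c121x (.leaf 29) (.sy c18x (.leaf 30) (.leaf 31)),
  .sy c18x (.leaf 32) (.leaf 33),
  .sy c18x (.leaf 34) (.leaf 35),
  .sy c18x (.leaf 36) (.leaf 37),
  .sy c18x (.leaf 38) (.leaf 39),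
  .leaf 40,
  .sy c18x (.leaf 41) (.leaf 42),
  .leaf 43,
  .leaf 44,
  .leaf 45,
  .leaf 46,
  .sy c18x (.leaf 47) (.leaf 48),
  .sy c18x (.leaf 49) (.leaf 50),
  .leaf 51,
  .leaf 52,
  .leaf 53,
  .leaf 54,
  .leaf 55,
  .leaf 56,
  .leaf 57,
  .leaf 58,
  .leaf 59,
  .sy c121x (.leaf 60) (.leaf 61),
  .leaf 62,
  .leaf 63,
  .sy c121x (.leaf 64) (.sy c18x (.leaf 65) (.leaf 66)),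
  .leaf 67,
  .sy c121x (.leaf 68) (.sy c18x (.leaf 69) (.leaf 70)),
  .sy c18x (.leaf 71) (.leaf 72),
  .sy c18x (.leaf 73) (.leaf 74),
  .sy c85x (.leaf 75) (.leaf 76),
  .sy c85x (.leaf 77) (.leaf 78),
  .leaf 79,
  .sy c85x (.leaf 80) (.leaf 81),
  .leaf 82,
  .leaf 83,
  .leaf 84,
  .leaf 85,
  .sy c85x (.leaf 86) (.leaf 87),
  .sy c85x (.leaf 88) (.leaf 89),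
  .leaf 90,
  .leaf 91,
  .leaf 92,
  .leaf 93,
  .leaf 94,
  .leaf 95,
  .leaf 96,
  .leaf 97,
  .leaf 98,
  .leaf 99,
  .leaf 100,
  .sy c134x (.leaf 101) (.leaf 102),
  .leaf 103,
  .sy c85x (.leaf 104) (.sy c134x (.leaf 105) (.leaf 106)),
  .sy c85x (.leaf 107) (.sy c134x (.leaf 108) (.leaf 109)),
  .sy c85x (.leaf 110) (.leaf 111),
  .sy c85x (.leaf 112) (.leaf 113),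
  .sy c85x (.leaf 114) (.leaf 115),
  .sy c85x (.leaf 116) (.leaf 117),
  .leaf 118,
  .sy c85x (.leaf 119) (.leaf 120),
  .leaf 121,
  .leaf 122,
  .leaf 123,
  .sy c85x (.leaf 124) (.leaf 125),
  .sy c85x (.leaf 126) (.leaf 127),
  .leaf 128,
  .leaf 129,
  .leaf 130,
  .leaf 131,
  .leaf 132,
  .leaf 133,
  .leaf 134,
  .leaf 135,
  .leaf 136,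
  .sy c134x (.leaf 137) (.leaf 138),
  .leaf 139,
  .sy c85x (.leaf 140) (.sy c134x (.leaf 141) (.leaf 142)),
  .sy c85x (.leaf 143) (.sy c134x (.leaf 144) (.leaf 145)),
  .sy c85x (.leaf 146) (.leaf 147),
  .sy c85x (.leaf 148) (.leaf 149)]

def t0x : Tr :=
  .sx c140x (.sx c141x (.sx c142x (.sy c143x (.sy c144x (.leaf 8) (.leaf 7)) (.sy c145x (.sx c144x (.sy c146x (.leaf 83) (.sy c147x (.leaf 9) (.leaf 84))) (.leaf 82)) (.leaf 85))) (.sy c148x (.leaf 6) (.leaf 80))) (.sx c149x (.sy c32x (.sy c150x (.sx c151x (.leaf 22) (.sx c152x (.leaf 25) (.leaf 29))) (.leaf 4)) (.sy c94x (.leaf 79) (.sx c151x (.leaf 102) (.sx c152x (.leaf 106) (.leaf 109))))) (.sx c13x (.sx c153x (.sy c154x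 (.leaf 3) (.leaf 77)) (.sy c19x (.leaf 1) (.leaf 75))) (.sx c155x (.sy c156x (.leaf 74) (.leaf 148)) (.sy c157x (.leaf 72) (.leaf 146)))))) (.sx c158x (.sy c159x (.leaf 70) (.leaf 143)) (.sy c49x (.sy c8x (.sy c144x (.sx c160x (.leaf 66) (.leaf 51)) (.leaf 54)) (.sx c161x (.sx c162x (.sy c159x (.leaf 62) (.sx c160x (.sy c163x (.leaf 139) (.leaf 67)) (.sy c164x (.leaf 136) (.leaf 63)))) (.leaf 59)) (.sx c165x (.sy c45x (.sx c166x (.sy c167x (.leaf 58) (.leaf 134)) (.sy c168x (.leaf 55) (.leaf 131))) (.leaf 56)) (.sy c169x (.sy c142x (.leaf 57) (.leaf 52)) (.sy c45x (.leaf 128) (.leaf 53)))))) (.sy c170x (.sx c165x (.leaf 132) (.sy c171x (.leaf 53) (.sy c172x (.leaf 129) (.leaf 135))))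 (.sy c145x (.leaf 133) (.sx c160x (.leaf 140) (.leaf 130))))))

def t1x : Tr :=
  .sx c149x (.sx c152x (.sy c173x (.sy c8x (.sy c144x (.sx c151x (.leaf 14) (.leaf 27)) (.leaf 17)) (.sx c144x (.sy c142x (.leaf 20) (.sy c174x (.leaf 15) (.leaf 90))) (.leaf 18))) (.sy c170x (.sx c142x (.sx c144x (.sy c175x (.sy c146x (.leaf 90) (.leaf 16)) (.sy c172x (.leaf 91) (.leaf 97))) (.sy c146x (.leaf 93) (.sx c8x (.sy c176x (.leaf 19) (.leaf 94)) (.sy c177x (.leaf 21) (.leaf 96))))) (.sx c141x (.leaf 98) (.sy c178x (.sx c151x (.sy c154x (.leaf 99) (.leaf 24)) (.sy c143x (.leaf 103) (.leaf 28))) (.leaf 100)))) (.sy c145x (.leaf 95) (.sx c151x (.leaf 92) (.leaf 104))))) (.sy c178x (.leaf 31) (.leaf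 107))) (.sx c162x (.sx c140x (.sx c13x (.sx c153x (.sy c148x (.leaf 33) (.leaf 110)) (.sy c19x (.leaf 35) (.leaf 112))) (.sx c155x (.sy c156x (.leaf 37) (.leaf 114)) (.sy c164x (.leaf 39) (.leaf 116)))) (.sy c179x (.sy c150x (.sx c160x (.sx c158x (.leaf 68) (.leaf 64)) (.leaf 60)) (.leaf 40)) (.sy c94x (.leaf 118) (.sx c160x (.sx c158x (.leaf 145) (.leaf 142)) (.leaf 138))))) (.sx c161x (.sy c157x (.leaf 42) (.leaf 119)) (.sy c163x (.sy c144x (.leaf 44) (.sx c165x (.leaf 43) (.sy c180x (.leaf 45) (.sy c45x (.leaf 122) (.leaf 46))))) (.sy c145x (.leaf 121) (.leaf 123)))))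

def t2x : Tr :=
  .sx c181x (.sy c147x (.leaf 11) (.leaf 86)) (.sy c175x (.leaf 13) (.leaf 88))

def t3x : Tr :=
  .sx c182x (.sy c169x (.leaf 50) (.leaf 126)) (.sy c180x (.leaf 48) (.leaf 124))

def t4x : Tr :=
  .sy c13x (.sy c152x (.sy c151x (.sx c181x (.sy c142x (.leaf 10) (.sy c141x (.leaf 5) (.leaf 23))) (.leaf 12)) (.leaf 26)) (.sy c153x (.sy c149x (.leaf 30) (.sx c182x (.leaf 2) (.leaf 32))) (.sx c18x (.leaf 0) (.leaf 34)))) (.sy c158x (.sy c155x (.sx c18x (.leaf 73) (.leaf 36)) (.sy c140x (.sx c181x (.leaf 71) (.leaf 38)) (.leaf 69))) (.sy c160x (.leaf 65) (.sx c182x (.leaf 49) (.sy c162x (.leaf 61) (.sy c161x (.leaf 41) (.leaf 47))))))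

def t5x : Tr :=
  .sy c13x (.sy c152x (.sy c151x (.sx c181x (.sy c142x (.leaf 87) (.sy c141x (.leaf 81) (.leaf 101))) (.leaf 89)) (.leaf 105)) (.sy c153x (.sy c149x (.leaf 108) (.sx c182x (.leaf 78) (.leaf 111))) (.sx c18x (.leaf 76) (.leaf 113)))) (.sy c158x (.sy c155x (.sx c18x (.leaf 149) (.leaf 115)) (.sy c140x (.sx c181x (.leaf 147) (.leaf 117)) (.leaf 144))) (.sy c160x (.leaf 141) (.sx c182x (.leaf 127) (.sy c162x (.leaf 137) (.sy c161x (.leaf 120) (.leaf 125))))))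

def bx : BoxData := ⟨c123x, c126x, c129x, own, ps, ct, t0x, t1x, t2x, t3x, t4x, t5x⟩

end Pool.Agent.Box3.BA
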