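import Pool.Agent.Box3.Num
set_option linter.all false
set_option autoImplicit false

namespace Pool.Agent.Box3.BB

def ps : List PB := [
  ⟨⟨⟨c1x, c2x, c1x, c14x⟩, ⟨.ofNat 0, .negSucc 0, c14x⟩, ⟨.negSucc 0, .ofNat 0, c10x⟩, ⟨.ofNat 0, .ofNat 0, c1x⟩⟩, [0, 1, 283]⟩,
  ⟨⟨⟨c1x, c2x, c14x, c3x⟩, ⟨.ofNat 0, .ofNat 0, c1x⟩, ⟨.negSucc 0, .ofNat 0, c10x⟩, ⟨.ofNat 0, .ofNat 1, c183x⟩⟩, [281, 282, 283]⟩,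
  ⟨⟨⟨c2x, c4x, c5x, c14x⟩, ⟨.ofNat 0, .negSucc 0, c14x⟩, ⟨.negSucc 0, .ofNat 0, c10x⟩, ⟨.ofNat 0, .ofNat 0, c1x⟩⟩, [0, 1, 2, 3, 4]⟩,
  ⟨⟨⟨c2x, c4x, c14x, c6x⟩, ⟨.ofNat 0, .ofNat 0, c1x⟩, ⟨.negSucc 0, .ofNat 0, c10x⟩, ⟨.ofNat 0, .ofNat 1, c183x⟩⟩, [278, 279, 280, 281, 282]⟩,
  ⟨⟨⟨c4x, c7x, c8x, c14x⟩, ⟨.ofNat 0, .negSucc 0, c14x⟩, ⟨.negSucc 0, .ofNat 0, c10x⟩, ⟨.ofNat 0, .ofNat 0, c1x⟩⟩, [3, 4, 5]⟩,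
  ⟨⟨⟨c4x, c7x, c14x, c9x⟩, ⟨.ofNat 0, .ofNat 0, c1x⟩, ⟨.negSucc 0, .ofNat 0, c10x⟩, ⟨.ofNat 0, .ofNat 1, c183x⟩⟩, [277, 278, 279]⟩,
  ⟨⟨⟨c7x, c10x, c11x, c14x⟩, ⟨.ofNat 0, .negSucc 0, c14x⟩, ⟨.negSucc 0, .ofNat 0, c10x⟩, ⟨.ofNat 0, .ofNat 0, c1x⟩⟩, [4, 5, 6, 7, 8]⟩,
  ⟨⟨⟨c7x, c10x, c14x, c12x⟩, ⟨.ofNat 0, .ofNat 0, c1x⟩, ⟨.negSucc 0, .ofNat 0, c10x⟩, ⟨.ofNat 0, .ofNat 1, c183x⟩⟩, [7, 8, 274, 275, 276, 277, 278]⟩,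
  ⟨⟨⟨c10x, c13x, c14x, c15x⟩, ⟨.ofNat 1, .ofNat 0, c184x⟩, ⟨.ofNat 0, .ofNat 0, c1x⟩, ⟨.ofNat 0, .ofNat 1, c183x⟩⟩, [7, 8, 9, 273, 274, 275]⟩,
  ⟨⟨⟨c16x, c13x, c17x, c18x⟩, ⟨.ofNat 1, .ofNat 0, c184x⟩, ⟨.ofNat 0, .negSucc 0, c14x⟩, ⟨.ofNat 0, .ofNat 0, c1x⟩⟩, [9, 10, 11, 12]⟩,
  ⟨⟨⟨c16x, c13x, c19x, c20x⟩, ⟨.ofNat 1, .ofNat 0, c184x⟩, ⟨.ofNat 0, .ofNat 0, c1x⟩, ⟨.ofNat 0, .ofNat 1, c183x⟩⟩, [270, 271, 272, 273]⟩,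
  ⟨⟨⟨c13x, c21x, c17x, c14x⟩, ⟨.ofNat 1, .ofNat 0, c184x⟩, ⟨.ofNat 0, .negSucc 0, c14x⟩, ⟨.ofNat 0, .ofNat 0, c1x⟩⟩, [8, 9, 10, 12, 13]⟩,
  ⟨⟨⟨c13x, c21x, c14x, c20x⟩, ⟨.ofNat 1, .ofNat 0, c184x⟩, ⟨.ofNat 0, .ofNat 0, c1x⟩, ⟨.ofNat 0, .ofNat 1, c183x⟩⟩, [8, 9, 269, 270, 272, 273, 274]⟩,
  ⟨⟨⟨c21x, c22x, c23x, c14x⟩, ⟨.ofNat 1, .ofNat 0, c184x⟩, ⟨.ofNat 0, .negSucc 0, c14x⟩, ⟨.ofNat 0, .ofNat 0, c1x⟩⟩, [12, 13, 14, 20, 21]⟩,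
  ⟨⟨⟨c21x, c22x, c14x, c24x⟩, ⟨.ofNat 1, .ofNat 0, c184x⟩, ⟨.ofNat 0, .ofNat 0, c1x⟩, ⟨.ofNat 0, .ofNat 1, c183x⟩⟩, [21, 22, 260, 261, 262, 268, 269, 270]⟩,
  ⟨⟨⟨c22x, c25x, c23x, c18x⟩, ⟨.ofNat 1, .ofNat 0, c184x⟩, ⟨.ofNat 0, .negSucc 0, c14x⟩, ⟨.ofNat 0, .ofNat 0, c1x⟩⟩, [14, 15, 20, 21]⟩,
  ⟨⟨⟨c22x, c25x, c26x, c27x⟩, ⟨.ofNat 1, .ofNat 0, c184x⟩, ⟨.ofNat 0, .ofNat 0, c1x⟩, ⟨.ofNat 0, .ofNat 1, c183x⟩⟩, [21, 22, 23, 259, 260, 261]⟩,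
  ⟨⟨⟨c22x, c25x, c19x, c24x⟩, ⟨.ofNat 1, .ofNat 0, c184x⟩, ⟨.ofNat 0, .ofNat 0, c1x⟩, ⟨.ofNat 0, .ofNat 1, c183x⟩⟩, [261, 262, 267, 268]⟩,
  ⟨⟨⟨c25x, c28x, c29x, c18x⟩, ⟨.ofNat 1, .ofNat 0, c184x⟩, ⟨.ofNat 0, .negSucc 0, c14x⟩, ⟨.ofNat 0, .ofNat 0, c1x⟩⟩, [14, 15, 16, 17, 18, 20]⟩,
  ⟨⟨⟨c25x, c30x, c31x, c32x⟩, ⟨.ofNat 1, .ofNat 0, c184x⟩, ⟨.ofNat 0, .ofNat 0, c1x⟩, ⟨.ofNat 0, .ofNat 1, c183x⟩⟩, [22, 23, 24, 25, 257, 258, 259, 260]⟩,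
  ⟨⟨⟨c25x, c28x, c19x, c33x⟩, ⟨.ofNat 1, .ofNat 0, c184x⟩, ⟨.ofNat 0, .ofNat 0, c1x⟩, ⟨.ofNat 0, .ofNat 1, c183x⟩⟩, [262, 264, 265, 266, 267, 268]⟩,
  ⟨⟨⟨c28x, c34x, c35x, c18x⟩, ⟨.ofNat 1, .ofNat 0, c184x⟩, ⟨.ofNat 0, .negSucc 0, c14x⟩, ⟨.ofNat 0, .ofNat 0, c1x⟩⟩, [17, 18, 19, 20]⟩,
  ⟨⟨⟨c28x, c34x, c19x, c36x⟩, ⟨.ofNat 1, .ofNat 0, c184x⟩, ⟨.ofNat 0, .ofNat 0, c1x⟩, ⟨.ofNat 0, .ofNat 1, c183x⟩⟩, [262, 263, 264, 265]⟩,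
  ⟨⟨⟨c37x, c38x, c39x, c5x⟩, ⟨.ofNat 0, .ofNat 1, c185x⟩, ⟨.ofNat 0, .ofNat 0, c1x⟩, ⟨.negSucc 0, .ofNat 0, c30x⟩⟩, [27, 28, 29, 30]⟩,
  ⟨⟨⟨c37x, c38x, c6x, c40x⟩, ⟨.ofNat 1, .ofNat 0, c184x⟩, ⟨.ofNat 0, .ofNat 0, c1x⟩, ⟨.ofNat 0, .ofNat 1, c183x⟩⟩, [252, 253, 254, 255]⟩,
  ⟨⟨⟨c38x, c30x, c39x, c14x⟩, ⟨.ofNat 0, .ofNat 1, c185x⟩, ⟨.ofNat 0, .ofNat 0, c1x⟩, ⟨.negSucc 0, .ofNat 0, c30x⟩⟩, [25, 26, 27, 28, 30]⟩,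
  ⟨⟨⟨c38x, c30x, c15x, c40x⟩, ⟨.ofNat 1, .ofNat 0, c184x⟩, ⟨.ofNat 0, .ofNat 0, c1x⟩, ⟨.ofNat 0, .ofNat 1, c183x⟩⟩, [252, 254, 255, 256, 257]⟩,
  ⟨⟨⟨c30x, c41x, c39x, c14x⟩, ⟨.ofNat 0, .ofNat 1, c185x⟩, ⟨.ofNat 1, .ofNat 0, c186x⟩, ⟨.ofNat 0, .ofNat 0, c1x⟩⟩, [25, 26, 30, 31, 32]⟩,
  ⟨⟨⟨c30x, c41x, c14x, c40x⟩, ⟨.ofNat 0, .ofNat 0, c187x⟩, ⟨.ofNat 1, .ofNat 0, c186x⟩, ⟨.ofNat 0, .ofNat 1, c183x⟩⟩, [24, 25, 26, 250, 251, 252, 256, 257, 258]⟩,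
  ⟨⟨⟨c41x, c42x, c11x, c14x⟩, ⟨.ofNat 0, .ofNat 1, c185x⟩, ⟨.ofNat 1, .ofNat 0, c186x⟩, ⟨.ofNat 0, .ofNat 0, c1x⟩⟩, [31, 32, 33]⟩,
  ⟨⟨⟨c41x, c42x, c14x, c12x⟩, ⟨.ofNat 0, .ofNat 0, c187x⟩, ⟨.ofNat 1, .ofNat 0, c186x⟩, ⟨.ofNat 0, .ofNat 1, c183x⟩⟩, [249, 250, 251]⟩,
  ⟨⟨⟨c42x, c43x, c1x, c14x⟩, ⟨.ofNat 0, .ofNat 1, c185x⟩, ⟨.ofNat 1, .ofNat 0, c186x⟩, ⟨.ofNat 0, .ofNat 0, c1x⟩⟩, [32, 33, 34]⟩,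
  ⟨⟨⟨c42x, c43x, c14x, c3x⟩, ⟨.ofNat 0, .ofNat 0, c187x⟩, ⟨.ofNat 1, .ofNat 0, c186x⟩, ⟨.ofNat 0, .ofNat 1, c183x⟩⟩, [247, 248, 249, 250]⟩,
  ⟨⟨⟨c43x, c44x, c1x, c14x⟩, ⟨.ofNat 0, .ofNat 1, c185x⟩, ⟨.ofNat 1, .ofNat 0, c186x⟩, ⟨.ofNat 0, .ofNat 0, c1x⟩⟩, [34, 35]⟩,
  ⟨⟨⟨c43x, c44x, c14x, c45x⟩, ⟨.ofNat 0, .ofNat 0, c187x⟩, ⟨.ofNat 1, .ofNat 0, c186x⟩, ⟨.ofNat 0, .ofNat 1, c183x⟩⟩, [244, 245, 246, 247, 248]⟩,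
  ⟨⟨⟨c44x, c46x, c5x, c14x⟩, ⟨.ofNat 0, .ofNat 1, c185x⟩, ⟨.ofNat 1, .ofNat 0, c186x⟩, ⟨.ofNat 0, .ofNat 0, c1x⟩⟩, [34, 35, 36, 37, 38]⟩,
  ⟨⟨⟨c44x, c46x, c14x, c47x⟩, ⟨.ofNat 0, .ofNat 0, c187x⟩, ⟨.ofNat 1, .ofNat 0, c186x⟩, ⟨.ofNat 0, .ofNat 1, c183x⟩⟩, [243, 244, 245]⟩,
  ⟨⟨⟨c46x, c48x, c8x, c14x⟩, ⟨.ofNat 0, .ofNat 1, c185x⟩, ⟨.ofNat 1, .ofNat 0, c186x⟩, ⟨.ofNat 0, .ofNat 0, c1x⟩⟩, [37, 38, 39]⟩,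
  ⟨⟨⟨c46x, c48x, c14x, c49x⟩, ⟨.ofNat 0, .ofNat 0, c187x⟩, ⟨.ofNat 1, .ofNat 0, c186x⟩, ⟨.ofNat 0, .ofNat 1, c183x⟩⟩, [240, 241, 242, 243, 244]⟩,
  ⟨⟨⟨c48x, c50x, c11x, c14x⟩, ⟨.ofNat 0, .ofNat 1, c185x⟩, ⟨.ofNat 1, .ofNat 0, c186x⟩, ⟨.ofNat 0, .ofNat 0, c1x⟩⟩, [38, 39, 40, 41, 42]⟩,
  ⟨⟨⟨c48x, c50x, c14x, c51x⟩, ⟨.ofNat 0, .ofNat 0, c187x⟩, ⟨.ofNat 1, .ofNat 0, c186x⟩, ⟨.ofNat 0, .ofNat 1, c183x⟩⟩, [41, 42, 239, 240, 241]⟩,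
  ⟨⟨⟨c50x, c52x, c14x, c53x⟩, ⟨.negSucc 0, .ofNat 0, c69x⟩, ⟨.ofNat 0, .ofNat 0, c188x⟩, ⟨.ofNat 0, .ofNat 1, c183x⟩⟩, [41, 42, 234, 235, 236, 238, 239, 240]⟩,
  ⟨⟨⟨c52x, c54x, c17x, c18x⟩, ⟨.negSucc 0, .ofNat 0, c69x⟩, ⟨.ofNat 0, .ofNat 1, c189x⟩, ⟨.ofNat 0, .ofNat 0, c1x⟩⟩, [43, 44, 45, 46]⟩,
  ⟨⟨⟨c52x, c54x, c14x, c55x⟩, ⟨.negSucc 0, .ofNat 0, c69x⟩, ⟨.ofNat 0, .ofNat 0, c188x⟩, ⟨.ofNat 0, .ofNat 1, c183x⟩⟩, [42, 43, 234, 235]⟩,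
  ⟨⟨⟨c52x, c54x, c56x, c53x⟩, ⟨.negSucc 0, .ofNat 0, c69x⟩, ⟨.ofNat 0, .ofNat 0, c188x⟩, ⟨.ofNat 0, .ofNat 1, c183x⟩⟩, [235, 236, 237, 238]⟩,
  ⟨⟨⟨c54x, c57x, c17x, c14x⟩, ⟨.negSucc 0, .ofNat 0, c69x⟩, ⟨.ofNat 0, .ofNat 1, c189x⟩, ⟨.ofNat 0, .ofNat 0, c1x⟩⟩, [42, 43, 44, 46, 47]⟩,
  ⟨⟨⟨c54x, c57x, c14x, c55x⟩, ⟨.negSucc 0, .ofNat 0, c69x⟩, ⟨.ofNat 0, .ofNat 0, c188x⟩, ⟨.ofNat 0, .ofNat 1, c183x⟩⟩, [42, 43, 232, 233, 234]⟩,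
  ⟨⟨⟨c57x, c58x, c23x, c14x⟩, ⟨.negSucc 0, .ofNat 0, c69x⟩, ⟨.ofNat 0, .ofNat 1, c189x⟩, ⟨.ofNat 0, .ofNat 0, c1x⟩⟩, [46, 47, 48, 54, 55]⟩,
  ⟨⟨⟨c57x, c58x, c14x, c59x⟩, ⟨.negSucc 0, .ofNat 0, c69x⟩, ⟨.ofNat 0, .ofNat 0, c188x⟩, ⟨.ofNat 0, .ofNat 1, c183x⟩⟩, [55, 56, 232, 233]⟩,
  ⟨⟨⟨c58x, c60x, c23x, c18x⟩, ⟨.negSucc 0, .ofNat 0, c69x⟩, ⟨.ofNat 0, .ofNat 1, c189x⟩, ⟨.ofNat 0, .ofNat 0, c1x⟩⟩, [48, 49, 54, 55]⟩,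
  ⟨⟨⟨c58x, c60x, c26x, c59x⟩, ⟨.negSucc 0, .ofNat 0, c69x⟩, ⟨.ofNat 0, .ofNat 0, c188x⟩, ⟨.ofNat 0, .ofNat 1, c183x⟩⟩, [55, 56, 57, 230, 231, 232]⟩,
  ⟨⟨⟨c58x, c60x, c56x, c61x⟩, ⟨.negSucc 0, .ofNat 0, c69x⟩, ⟨.ofNat 0, .ofNat 0, c188x⟩, ⟨.ofNat 0, .ofNat 1, c183x⟩⟩, [222, 223, 224, 225, 226]⟩,
  ⟨⟨⟨c60x, c62x, c29x, c18x⟩, ⟨.negSucc 0, .ofNat 0, c69x⟩, ⟨.ofNat 0, .ofNat 1, c189x⟩, ⟨.ofNat 0, .ofNat 0, c1x⟩⟩, [48, 49, 50, 51, 52, 54]⟩,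
  ⟨⟨⟨c60x, c62x, c31x, c63x⟩, ⟨.negSucc 0, .ofNat 0, c69x⟩, ⟨.ofNat 0, .ofNat 0, c188x⟩, ⟨.ofNat 0, .ofNat 1, c183x⟩⟩, [56, 57, 58, 229, 230, 231]⟩,
  ⟨⟨⟨c60x, c64x, c56x, c65x⟩, ⟨.negSucc 0, .ofNat 0, c69x⟩, ⟨.ofNat 0, .ofNat 0, c188x⟩, ⟨.ofNat 0, .ofNat 1, c183x⟩⟩, [222, 223, 226, 227]⟩,
  ⟨⟨⟨c62x, c64x, c35x, c18x⟩, ⟨.negSucc 0, .ofNat 0, c69x⟩, ⟨.ofNat 0, .ofNat 1, c189x⟩, ⟨.ofNat 0, .ofNat 0, c1x⟩⟩, [51, 52, 53, 54]⟩,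
  ⟨⟨⟨c62x, c64x, c31x, c66x⟩, ⟨.negSucc 0, .ofNat 0, c69x⟩, ⟨.ofNat 0, .ofNat 0, c188x⟩, ⟨.ofNat 0, .ofNat 1, c183x⟩⟩, [58, 227, 228, 229, 230]⟩,
  ⟨⟨⟨c64x, c67x, c31x, c65x⟩, ⟨.negSucc 0, .ofNat 0, c69x⟩, ⟨.ofNat 0, .ofNat 0, c188x⟩, ⟨.ofNat 0, .ofNat 1, c183x⟩⟩, [58, 216, 217, 218, 222, 226, 227, 228]⟩,
  ⟨⟨⟨c67x, c68x, c39x, c5x⟩, ⟨.ofNat 0, .negSucc 0, c14x⟩, ⟨.ofNat 0, .ofNat 0, c188x⟩, ⟨.negSucc 0, .ofNat 0, c69x⟩⟩, [61, 62, 63, 64]⟩,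
  ⟨⟨⟨c67x, c69x, c31x, c70x⟩, ⟨.negSucc 0, .ofNat 0, c69x⟩, ⟨.ofNat 0, .ofNat 0, c188x⟩, ⟨.ofNat 0, .ofNat 1, c183x⟩⟩, [58, 59, 216, 217]⟩,
  ⟨⟨⟨c67x, c68x, c47x, c65x⟩, ⟨.negSucc 0, .ofNat 0, c69x⟩, ⟨.ofNat 0, .ofNat 0, c188x⟩, ⟨.ofNat 0, .ofNat 1, c183x⟩⟩, [217, 218, 219, 220, 222]⟩,
  ⟨⟨⟨c68x, c69x, c39x, c14x⟩, ⟨.ofNat 0, .negSucc 0, c14x⟩, ⟨.ofNat 0, .ofNat 0, c188x⟩, ⟨.negSucc 0, .ofNat 0, c69x⟩⟩, [59, 60, 61, 62, 64]⟩,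
  ⟨⟨⟨c68x, c69x, c53x, c65x⟩, ⟨.negSucc 0, .ofNat 0, c69x⟩, ⟨.ofNat 0, .ofNat 0, c188x⟩, ⟨.ofNat 0, .ofNat 1, c183x⟩⟩, [219, 220, 221, 222]⟩,
  ⟨⟨⟨c69x, c71x, c39x, c14x⟩, ⟨.ofNat 0, .negSucc 0, c14x⟩, ⟨.negSucc 0, .ofNat 0, c80x⟩, ⟨.ofNat 0, .ofNat 0, c1x⟩⟩, [59, 60, 64, 65, 66]⟩,
  ⟨⟨⟨c69x, c71x, c14x, c70x⟩, ⟨.ofNat 0, .ofNat 0, c1x⟩, ⟨.negSucc 0, .ofNat 0, c80x⟩, ⟨.ofNat 0, .ofNat 1, c183x⟩⟩, [58, 59, 60, 215, 216]⟩,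
  ⟨⟨⟨c71x, c72x, c11x, c14x⟩, ⟨.ofNat 0, .negSucc 0, c14x⟩, ⟨.negSucc 0, .ofNat 0, c80x⟩, ⟨.ofNat 0, .ofNat 0, c1x⟩⟩, [65, 66, 67]⟩,
  ⟨⟨⟨c71x, c72x, c14x, c51x⟩, ⟨.ofNat 0, .ofNat 0, c1x⟩, ⟨.negSucc 0, .ofNat 0, c80x⟩, ⟨.ofNat 0, .ofNat 1, c183x⟩⟩, [212, 213, 214, 215, 216]⟩,
  ⟨⟨⟨c72x, c73x, c1x, c14x⟩, ⟨.ofNat 0, .negSucc 0, c14x⟩, ⟨.negSucc 0, .ofNat 0, c80x⟩, ⟨.ofNat 0, .ofNat 0, c1x⟩⟩, [66, 67, 68, 69]⟩,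
  ⟨⟨⟨c72x, c73x, c14x, c45x⟩, ⟨.ofNat 0, .ofNat 0, c1x⟩, ⟨.negSucc 0, .ofNat 0, c80x⟩, ⟨.ofNat 0, .ofNat 1, c183x⟩⟩, [69, 70, 211, 212, 213]⟩,
  ⟨⟨⟨c73x, c74x, c3x, c83x⟩, ⟨.ofNat 0, .ofNat 0, c1x⟩, ⟨.negSucc 0, .ofNat 0, c80x⟩, ⟨.ofNat 0, .ofNat 1, c183x⟩⟩, [69, 70, 71, 72, 211, 212]⟩,
  ⟨⟨⟨c73x, c74x, c83x, c75x⟩, ⟨.ofNat 0, .ofNat 1, c190x⟩, ⟨.negSucc 0, .ofNat 0, c80x⟩, ⟨.ofNat 0, .ofNat 0, c191x⟩⟩, [209, 210, 211]⟩,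
  ⟨⟨⟨c74x, c76x, c6x, c83x⟩, ⟨.ofNat 0, .ofNat 0, c1x⟩, ⟨.negSucc 0, .ofNat 0, c80x⟩, ⟨.ofNat 0, .ofNat 1, c183x⟩⟩, [71, 72, 73]⟩,
  ⟨⟨⟨c74x, c76x, c83x, c77x⟩, ⟨.ofNat 0, .ofNat 1, c190x⟩, ⟨.negSucc 0, .ofNat 0, c80x⟩, ⟨.ofNat 0, .ofNat 0, c191x⟩⟩, [206, 207, 208, 209, 210]⟩,
  ⟨⟨⟨c76x, c78x, c9x, c83x⟩, ⟨.ofNat 0, .ofNat 0, c1x⟩, ⟨.negSucc 0, .ofNat 0, c80x⟩, ⟨.ofNat 0, .ofNat 1, c183x⟩⟩, [72, 73, 74, 75, 76]⟩,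
  ⟨⟨⟨c76x, c78x, c83x, c79x⟩, ⟨.ofNat 0, .ofNat 1, c190x⟩, ⟨.negSucc 0, .ofNat 0, c80x⟩, ⟨.ofNat 0, .ofNat 0, c191x⟩⟩, [205, 206, 207]⟩,
  ⟨⟨⟨c78x, c80x, c12x, c83x⟩, ⟨.ofNat 0, .ofNat 0, c1x⟩, ⟨.negSucc 0, .ofNat 0, c80x⟩, ⟨.ofNat 0, .ofNat 1, c183x⟩⟩, [75, 76, 77, 202, 203]⟩,
  ⟨⟨⟨c78x, c80x, c83x, c81x⟩, ⟨.ofNat 0, .ofNat 1, c190x⟩, ⟨.negSucc 0, .ofNat 0, c80x⟩, ⟨.ofNat 0, .ofNat 0, c191x⟩⟩, [202, 203, 204, 205, 206]⟩,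
  ⟨⟨⟨c80x, c82x, c15x, c83x⟩, ⟨.ofNat 1, .ofNat 0, c192x⟩, ⟨.ofNat 0, .ofNat 0, c1x⟩, ⟨.ofNat 0, .ofNat 1, c183x⟩⟩, [76, 77, 78, 80, 81, 82, 202, 203]⟩,
  ⟨⟨⟨c82x, c84x, c15x, c19x⟩, ⟨.ofNat 1, .ofNat 0, c192x⟩, ⟨.ofNat 0, .ofNat 0, c1x⟩, ⟨.ofNat 0, .ofNat 1, c183x⟩⟩, [78, 79, 80, 81]⟩,
  ⟨⟨⟨c82x, c84x, c20x, c83x⟩, ⟨.ofNat 1, .ofNat 0, c192x⟩, ⟨.ofNat 0, .ofNat 0, c1x⟩, ⟨.ofNat 0, .ofNat 1, c183x⟩⟩, [81, 82, 201, 202]⟩,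
  ⟨⟨⟨c82x, c84x, c85x, c86x⟩, ⟨.ofNat 1, .ofNat 0, c192x⟩, ⟨.ofNat 0, .ofNat 1, c190x⟩, ⟨.ofNat 0, .ofNat 0, c191x⟩⟩, [198, 199, 200, 201]⟩,
  ⟨⟨⟨c84x, c87x, c20x, c83x⟩, ⟨.ofNat 1, .ofNat 0, c192x⟩, ⟨.ofNat 0, .ofNat 0, c1x⟩, ⟨.ofNat 0, .ofNat 1, c183x⟩⟩, [82, 83, 84, 201, 202]⟩,
  ⟨⟨⟨c84x, c87x, c83x, c86x⟩, ⟨.ofNat 1, .ofNat 0, c192x⟩, ⟨.ofNat 0, .ofNat 1, c190x⟩, ⟨.ofNat 0, .ofNat 0, c191x⟩⟩, [197, 198, 200, 201, 202]⟩,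
  ⟨⟨⟨c87x, c88x, c24x, c83x⟩, ⟨.ofNat 1, .ofNat 0, c192x⟩, ⟨.ofNat 0, .ofNat 0, c1x⟩, ⟨.ofNat 0, .ofNat 1, c183x⟩⟩, [83, 84, 188, 189]⟩,
  ⟨⟨⟨c87x, c88x, c83x, c89x⟩, ⟨.ofNat 1, .ofNat 0, c192x⟩, ⟨.ofNat 0, .ofNat 1, c190x⟩, ⟨.ofNat 0, .ofNat 0, c191x⟩⟩, [189, 190, 196, 197, 198]⟩,
  ⟨⟨⟨c88x, c90x, c27x, c19x⟩, ⟨.ofNat 1, .ofNat 0, c192x⟩, ⟨.ofNat 0, .ofNat 0, c1x⟩, ⟨.ofNat 0, .ofNat 1, c183x⟩⟩, [90, 91, 92, 93, 94]⟩,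
  ⟨⟨⟨c88x, c90x, c24x, c91x⟩, ⟨.ofNat 1, .ofNat 0, c192x⟩, ⟨.ofNat 0, .ofNat 0, c1x⟩, ⟨.ofNat 0, .ofNat 1, c183x⟩⟩, [84, 85, 86, 187, 188, 189]⟩,
  ⟨⟨⟨c88x, c90x, c85x, c89x⟩, ⟨.ofNat 1, .ofNat 0, c192x⟩, ⟨.ofNat 0, .ofNat 1, c190x⟩, ⟨.ofNat 0, .ofNat 0, c191x⟩⟩, [189, 190, 195, 196]⟩,
  ⟨⟨⟨c90x, c92x, c32x, c19x⟩, ⟨.ofNat 1, .ofNat 0, c192x⟩, ⟨.ofNat 0, .ofNat 0, c1x⟩, ⟨.ofNat 0, .ofNat 1, c183x⟩⟩, [89, 90, 93, 94]⟩,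
  ⟨⟨⟨c90x, c93x, c33x, c94x⟩, ⟨.ofNat 1, .ofNat 0, c192x⟩, ⟨.ofNat 0, .ofNat 0, c1x⟩, ⟨.ofNat 0, .ofNat 1, c183x⟩⟩, [85, 86, 87, 186, 187, 188]⟩,
  ⟨⟨⟨c90x, c93x, c85x, c95x⟩, ⟨.ofNat 1, .ofNat 0, c192x⟩, ⟨.ofNat 0, .ofNat 1, c190x⟩, ⟨.ofNat 0, .ofNat 0, c191x⟩⟩, [190, 192, 193, 194, 195, 196]⟩,
  ⟨⟨⟨c93x, c92x, c36x, c94x⟩, ⟨.ofNat 1, .ofNat 0, c192x⟩, ⟨.ofNat 0, .ofNat 0, c1x⟩, ⟨.ofNat 0, .ofNat 1, c183x⟩⟩, [86, 87, 88, 89, 186]⟩,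
  ⟨⟨⟨c93x, c92x, c85x, c96x⟩, ⟨.ofNat 1, .ofNat 0, c192x⟩, ⟨.ofNat 0, .ofNat 1, c190x⟩, ⟨.ofNat 0, .ofNat 0, c191x⟩⟩, [190, 191, 192, 193]⟩,
  ⟨⟨⟨c92x, c97x, c32x, c94x⟩, ⟨.ofNat 1, .ofNat 0, c192x⟩, ⟨.ofNat 0, .ofNat 0, c1x⟩, ⟨.ofNat 0, .ofNat 1, c183x⟩⟩, [88, 89, 90, 94, 98, 99, 100, 186]⟩,
  ⟨⟨⟨c97x, c98x, c32x, c6x⟩, ⟨.ofNat 1, .ofNat 0, c192x⟩, ⟨.ofNat 0, .ofNat 0, c1x⟩, ⟨.ofNat 0, .ofNat 1, c183x⟩⟩, [94, 96, 97, 98, 99]⟩,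
  ⟨⟨⟨c97x, c99x, c40x, c94x⟩, ⟨.ofNat 1, .ofNat 0, c192x⟩, ⟨.ofNat 0, .ofNat 0, c1x⟩, ⟨.ofNat 0, .ofNat 1, c183x⟩⟩, [99, 100, 185, 186]⟩,
  ⟨⟨⟨c97x, c98x, c77x, c100x⟩, ⟨.ofNat 0, .negSucc 0, c193x⟩, ⟨.ofNat 0, .ofNat 0, c1x⟩, ⟨.ofNat 1, .ofNat 0, c194x⟩⟩, [180, 181, 182, 183]⟩,
  ⟨⟨⟨c98x, c99x, c32x, c15x⟩, ⟨.ofNat 1, .ofNat 0, c192x⟩, ⟨.ofNat 0, .ofNat 0, c1x⟩, ⟨.ofNat 0, .ofNat 1, c183x⟩⟩, [94, 95, 96, 97]⟩,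
  ⟨⟨⟨c98x, c99x, c83x, c100x⟩, ⟨.ofNat 0, .negSucc 0, c193x⟩, ⟨.ofNat 0, .ofNat 0, c1x⟩, ⟨.ofNat 1, .ofNat 0, c194x⟩⟩, [180, 182, 183, 184, 185]⟩,
  ⟨⟨⟨c99x, c101x, c40x, c83x⟩, ⟨.ofNat 0, .ofNat 0, c187x⟩, ⟨.ofNat 1, .ofNat 0, c195x⟩, ⟨.ofNat 0, .ofNat 1, c183x⟩⟩, [100, 101, 184, 185, 186]⟩,
  ⟨⟨⟨c99x, c101x, c83x, c100x⟩, ⟨.ofNat 0, .negSucc 0, c193x⟩, ⟨.ofNat 1, .ofNat 0, c195x⟩, ⟨.ofNat 0, .ofNat 0, c191x⟩⟩, [178, 179, 180, 184, 185]⟩,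
  ⟨⟨⟨c101x, c102x, c12x, c83x⟩, ⟨.ofNat 0, .ofNat 0, c187x⟩, ⟨.ofNat 1, .ofNat 0, c195x⟩, ⟨.ofNat 0, .ofNat 1, c183x⟩⟩, [100, 101, 102, 103, 104]⟩,
  ⟨⟨⟨c101x, c102x, c83x, c81x⟩, ⟨.ofNat 0, .negSucc 0, c193x⟩, ⟨.ofNat 1, .ofNat 0, c195x⟩, ⟨.ofNat 0, .ofNat 0, c191x⟩⟩, [177, 178, 179]⟩,
  ⟨⟨⟨c102x, c103x, c3x, c83x⟩, ⟨.ofNat 0, .ofNat 0, c187x⟩, ⟨.ofNat 1, .ofNat 0, c195x⟩, ⟨.ofNat 0, .ofNat 1, c183x⟩⟩, [103, 104, 105, 106]⟩,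
  ⟨⟨⟨c102x, c103x, c83x, c75x⟩, ⟨.ofNat 0, .negSucc 0, c193x⟩, ⟨.ofNat 1, .ofNat 0, c195x⟩, ⟨.ofNat 0, .ofNat 0, c191x⟩⟩, [176, 177, 178]⟩,
  ⟨⟨⟨c103x, c104x, c45x, c83x⟩, ⟨.ofNat 0, .ofNat 0, c187x⟩, ⟨.ofNat 1, .ofNat 0, c195x⟩, ⟨.ofNat 0, .ofNat 1, c183x⟩⟩, [105, 106, 107]⟩,
  ⟨⟨⟨c103x, c104x, c83x, c75x⟩, ⟨.ofNat 0, .negSucc 0, c193x⟩, ⟨.ofNat 1, .ofNat 0, c195x⟩, ⟨.ofNat 0, .ofNat 0, c191x⟩⟩, [175, 176]⟩,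
  ⟨⟨⟨c104x, c105x, c47x, c83x⟩, ⟨.ofNat 0, .ofNat 0, c187x⟩, ⟨.ofNat 1, .ofNat 0, c195x⟩, ⟨.ofNat 0, .ofNat 1, c183x⟩⟩, [106, 107, 108, 109, 110]⟩,
  ⟨⟨⟨c104x, c105x, c83x, c77x⟩, ⟨.ofNat 0, .negSucc 0, c193x⟩, ⟨.ofNat 1, .ofNat 0, c195x⟩, ⟨.ofNat 0, .ofNat 0, c191x⟩⟩, [172, 173, 174, 175, 176]⟩,
  ⟨⟨⟨c105x, c106x, c49x, c83x⟩, ⟨.ofNat 0, .ofNat 0, c187x⟩, ⟨.ofNat 1, .ofNat 0, c195x⟩, ⟨.ofNat 0, .ofNat 1, c183x⟩⟩, [109, 110, 111]⟩,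
  ⟨⟨⟨c105x, c106x, c83x, c79x⟩, ⟨.ofNat 0, .negSucc 0, c193x⟩, ⟨.ofNat 1, .ofNat 0, c195x⟩, ⟨.ofNat 0, .ofNat 0, c191x⟩⟩, [171, 172, 173]⟩,
  ⟨⟨⟨c106x, c107x, c51x, c83x⟩, ⟨.ofNat 0, .ofNat 0, c187x⟩, ⟨.ofNat 1, .ofNat 0, c195x⟩, ⟨.ofNat 0, .ofNat 1, c183x⟩⟩, [110, 111, 112, 113, 114, 168, 169]⟩,
  ⟨⟨⟨c106x, c107x, c83x, c81x⟩, ⟨.ofNat 0, .negSucc 0, c193x⟩, ⟨.ofNat 1, .ofNat 0, c195x⟩, ⟨.ofNat 0, .ofNat 0, c191x⟩⟩, [168, 169, 170, 171, 172]⟩,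
  ⟨⟨⟨c107x, c108x, c53x, c83x⟩, ⟨.negSucc 0, .ofNat 0, c114x⟩, ⟨.ofNat 0, .ofNat 0, c188x⟩, ⟨.ofNat 0, .ofNat 1, c183x⟩⟩, [113, 114, 115, 167, 168, 169]⟩,
  ⟨⟨⟨c109x, c108x, c55x, c56x⟩, ⟨.negSucc 0, .ofNat 0, c114x⟩, ⟨.ofNat 0, .ofNat 0, c188x⟩, ⟨.ofNat 0, .ofNat 1, c183x⟩⟩, [115, 116, 117, 118]⟩,
  ⟨⟨⟨c109x, c108x, c85x, c86x⟩, ⟨.negSucc 0, .ofNat 0, c114x⟩, ⟨.ofNat 0, .negSucc 0, c196x⟩, ⟨.ofNat 0, .ofNat 0, c191x⟩⟩, [164, 165, 166, 167]⟩,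
  ⟨⟨⟨c108x, c110x, c55x, c83x⟩, ⟨.negSucc 0, .ofNat 0, c114x⟩, ⟨.ofNat 0, .ofNat 0, c188x⟩, ⟨.ofNat 0, .ofNat 1, c183x⟩⟩, [114, 115, 116, 118, 119, 167, 168]⟩,
  ⟨⟨⟨c108x, c110x, c83x, c86x⟩, ⟨.negSucc 0, .ofNat 0, c114x⟩, ⟨.ofNat 0, .negSucc 0, c196x⟩, ⟨.ofNat 0, .ofNat 0, c191x⟩⟩, [163, 164, 166, 167, 168]⟩,
  ⟨⟨⟨c110x, c111x, c59x, c83x⟩, ⟨.negSucc 0, .ofNat 0, c114x⟩, ⟨.ofNat 0, .ofNat 0, c188x⟩, ⟨.ofNat 0, .ofNat 1, c183x⟩⟩, [118, 119, 120, 126, 127, 128, 154, 155]⟩,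
  ⟨⟨⟨c110x, c111x, c83x, c89x⟩, ⟨.negSucc 0, .ofNat 0, c114x⟩, ⟨.ofNat 0, .negSucc 0, c196x⟩, ⟨.ofNat 0, .ofNat 0, c191x⟩⟩, [155, 156, 162, 163, 164]⟩,
  ⟨⟨⟨c111x, c112x, c59x, c56x⟩, ⟨.negSucc 0, .ofNat 0, c114x⟩, ⟨.ofNat 0, .ofNat 0, c188x⟩, ⟨.ofNat 0, .ofNat 1, c183x⟩⟩, [120, 121, 126, 127]⟩,
  ⟨⟨⟨c111x, c112x, c61x, c91x⟩, ⟨.negSucc 0, .ofNat 0, c114x⟩, ⟨.ofNat 0, .ofNat 0, c188x⟩, ⟨.ofNat 0, .ofNat 1, c183x⟩⟩, [127, 128, 129, 153, 154, 155]⟩,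
  ⟨⟨⟨c111x, c112x, c85x, c89x⟩, ⟨.negSucc 0, .ofNat 0, c114x⟩, ⟨.ofNat 0, .negSucc 0, c196x⟩, ⟨.ofNat 0, .ofNat 0, c191x⟩⟩, [155, 156, 161, 162]⟩,
  ⟨⟨⟨c112x, c113x, c63x, c56x⟩, ⟨.negSucc 0, .ofNat 0, c114x⟩, ⟨.ofNat 0, .ofNat 0, c188x⟩, ⟨.ofNat 0, .ofNat 1, c183x⟩⟩, [120, 121, 122, 123, 124, 126]⟩,
  ⟨⟨⟨c112x, c114x, c65x, c94x⟩, ⟨.negSucc 0, .ofNat 0, c114x⟩, ⟨.ofNat 0, .ofNat 0, c188x⟩, ⟨.ofNat 0, .ofNat 1, c183x⟩⟩, [128, 129, 130, 131, 151, 152, 153, 154]⟩,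
  ⟨⟨⟨c112x, c113x, c85x, c95x⟩, ⟨.negSucc 0, .ofNat 0, c114x⟩, ⟨.ofNat 0, .negSucc 0, c196x⟩, ⟨.ofNat 0, .ofNat 0, c191x⟩⟩, [156, 158, 159, 160, 161, 162]⟩,
  ⟨⟨⟨c113x, c115x, c66x, c56x⟩, ⟨.negSucc 0, .ofNat 0, c114x⟩, ⟨.ofNat 0, .ofNat 0, c188x⟩, ⟨.ofNat 0, .ofNat 1, c183x⟩⟩, [123, 124, 125, 126]⟩,
  ⟨⟨⟨c113x, c115x, c85x, c96x⟩, ⟨.negSucc 0, .ofNat 0, c114x⟩, ⟨.ofNat 0, .negSucc 0, c196x⟩, ⟨.ofNat 0, .ofNat 0, c191x⟩⟩, [156, 157, 158, 159]⟩,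
  ⟨⟨⟨c116x, c117x, c70x, c47x⟩, ⟨.negSucc 0, .ofNat 0, c114x⟩, ⟨.ofNat 0, .ofNat 0, c188x⟩, ⟨.ofNat 0, .ofNat 1, c183x⟩⟩, [133, 134, 135, 136]⟩,
  ⟨⟨⟨c116x, c117x, c77x, c100x⟩, ⟨.ofNat 0, .ofNat 1, c190x⟩, ⟨.ofNat 0, .ofNat 0, c188x⟩, ⟨.ofNat 1, .ofNat 0, c197x⟩⟩, [146, 147, 148, 149]⟩,
  ⟨⟨⟨c117x, c114x, c70x, c53x⟩, ⟨.negSucc 0, .ofNat 0, c114x⟩, ⟨.ofNat 0, .ofNat 0, c188x⟩, ⟨.ofNat 0, .ofNat 1, c183x⟩⟩, [131, 132, 133, 134, 136]⟩,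
  ⟨⟨⟨c117x, c114x, c83x, c100x⟩, ⟨.ofNat 0, .ofNat 1, c190x⟩, ⟨.ofNat 0, .ofNat 0, c188x⟩, ⟨.ofNat 1, .ofNat 0, c197x⟩⟩, [146, 148, 149, 150, 151]⟩,
  ⟨⟨⟨c114x, c118x, c70x, c83x⟩, ⟨.ofNat 0, .ofNat 0, c1x⟩, ⟨.negSucc 0, .ofNat 0, c198x⟩, ⟨.ofNat 0, .ofNat 1, c183x⟩⟩, [130, 131, 132, 136, 137, 138, 150, 151, 152]⟩,
  ⟨⟨⟨c114x, c118x, c83x, c100x⟩, ⟨.ofNat 0, .ofNat 1, c190x⟩, ⟨.negSucc 0, .ofNat 0, c198x⟩, ⟨.ofNat 0, .ofNat 0, c191x⟩⟩, [144, 145, 146, 150, 151]⟩,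
  ⟨⟨⟨c118x, c119x, c51x, c83x⟩, ⟨.ofNat 0, .ofNat 0, c1x⟩, ⟨.negSucc 0, .ofNat 0, c198x⟩, ⟨.ofNat 0, .ofNat 1, c183x⟩⟩, [137, 138, 139]⟩,
  ⟨⟨⟨c118x, c119x, c83x, c81x⟩, ⟨.ofNat 0, .ofNat 1, c190x⟩, ⟨.negSucc 0, .ofNat 0, c198x⟩, ⟨.ofNat 0, .ofNat 0, c191x⟩⟩, [143, 144, 145]⟩,
  ⟨⟨⟨c119x, c120x, c45x, c83x⟩, ⟨.ofNat 0, .ofNat 0, c1x⟩, ⟨.negSucc 0, .ofNat 0, c198x⟩, ⟨.ofNat 0, .ofNat 1, c183x⟩⟩, [138, 139, 140, 141]⟩,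
  ⟨⟨⟨c119x, c120x, c83x, c75x⟩, ⟨.ofNat 0, .ofNat 1, c190x⟩, ⟨.negSucc 0, .ofNat 0, c198x⟩, ⟨.ofNat 0, .ofNat 0, c191x⟩⟩, [141, 142, 143, 144]⟩]

def own : List ℕ := [0, 0, 1, 1, 2, 2, 3, 3, 4, 5, 6, 7, 7, 8, 8, 9, 10, 11, 12, 13, 14, 15, 16, 17, 18, 19, 20, 21, 21, 22, 22, 23, 23, 24, 24, 25, 25, 26, 26, 27, 27, 28, 29, 30, 31, 32, 32, 33, 33, 34, 35, 36, 37, 38, 39, 40, 41, 42, 43, 44, 45, 46, 47, 48, 48, 49, 49, 50, 50, 51, 51, 52, 52, 53, 53, 54, 54, 55, 56, 57, 58, 59, 59, 60, 60, 61, 62, 63, 64, 65, 66, 67, 68, 69, 70, 71, 72, 73, 74, 75, 75, 76, 76, 77, 77, 78, 78, 79, 79, 80, 80, 81, 81, 82, 83, 84, 85, 85, 86, 86, 87, 88, 89, 90, 91, 92, 93, 94, 95, 96, 97, 98, 99, 99, 100,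 100, 101, 101]

def ct : List Tr := [
  .sy c14x (.leaf 0) (.leaf 1),
  .sy c14x (.leaf 2) (.leaf 3),
  .sy c14x (.leaf 4) (.leaf 5),
  .sy c14x (.leaf 6) (.leaf 7),
  .leaf 8,
  .leaf 9,
  .leaf 10,
  .sy c14x (.leaf 11) (.leaf 12),
  .sy c14x (.leaf 13) (.leaf 14),
  .leaf 15,
  .leaf 16,
  .leaf 17,
  .leaf 18,
  .leaf 19,
  .leaf 20,
  .leaf 21,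
  .leaf 22,
  .leaf 23,
  .leaf 24,
  .leaf 25,
  .leaf 26,
  .sy c14x (.leaf 27) (.leaf 28),
  .sy c14x (.leaf 29) (.leaf 30),
  .sy c14x (.leaf 31) (.leaf 32),
  .sy c14x (.leaf 33) (.leaf 34),
  .sy c14x (.leaf 35) (.leaf 36),
  .sy c14x (.leaf 37) (.leaf 38),
  .sy c14x (.leaf 39) (.leaf 40),
  .leaf 41,
  .leaf 42,
  .leaf 43,
  .leaf 44,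
  .sy c14x (.leaf 45) (.leaf 46),
  .sy c14x (.leaf 47) (.leaf 48),
  .leaf 49,
  .leaf 50,
  .leaf 51,
  .leaf 52,
  .leaf 53,
  .leaf 54,
  .leaf 55,
  .leaf 56,
  .leaf 57,
  .leaf 58,
  .leaf 59,
  .leaf 60,
  .leaf 61,
  .leaf 62,
  .sy c14x (.leaf 63) (.leaf 64),
  .sy c14x (.leaf 65) (.leaf 66),
  .sy c14x (.leaf 67) (.leaf 68),
  .sy c83x (.leaf 69) (.leaf 70),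
  .sy c83x (.leaf 71) (.leaf 72),
  .sy c83x (.leaf 73) (.leaf 74),
  .sy c83x (.leaf 75) (.leaf 76),
  .leaf 77,
  .leaf 78,
  .leaf 79,
  .leaf 80,
  .sy c83x (.leaf 81) (.leaf 82),
  .sy c83x (.leaf 83) (.leaf 84),
  .leaf 85,
  .leaf 86,
  .leaf 87,
  .leaf 88,
  .leaf 89,
  .leaf 90,
  .leaf 91,
  .leaf 92,
  .leaf 93,
  .leaf 94,
  .leaf 95,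
  .leaf 96,
  .leaf 97,
  .leaf 98,
  .sy c83x (.leaf 99) (.leaf 100),
  .sy c83x (.leaf 101) (.leaf 102),
  .sy c83x (.leaf 103) (.leaf 104),
  .sy c83x (.leaf 105) (.leaf 106),
  .sy c83x (.leaf 107) (.leaf 108),
  .sy c83x (.leaf 109) (.leaf 110),
  .sy c83x (.leaf 111) (.leaf 112),
  .leaf 113,
  .leaf 114,
  .leaf 115,
  .sy c83x (.leaf 116) (.leaf 117),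
  .sy c83x (.leaf 118) (.leaf 119),
  .leaf 120,
  .leaf 121,
  .leaf 122,
  .leaf 123,
  .leaf 124,
  .leaf 125,
  .leaf 126,
  .leaf 127,
  .leaf 128,
  .leaf 129,
  .leaf 130,
  .leaf 131,
  .sy c83x (.leaf 132) (.leaf 133),
  .sy c83x (.leaf 134) (.leaf 135),
  .sy c83x (.leaf 136) (.leaf 137)]

def t0x : Tr :=
  .sx c199x (.sx c141x (.sx c144x (.sy c32x (.leaf 7) (.leaf 75)) (.sy c200x (.leaf 5) (.leaf 73))) (.sy c201x (.leaf 3) (.leaf 71))) (.sx c202x (.sx c10x (.sy c15x (.leaf 1) (.leaf 69)) (.sy c203x (.leaf 68) (.leaf 136))) (.sx c204x (.sy c180x (.leaf 66) (.leaf 134)) (.sy c168x (.leaf 64) (.leaf 132))))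

def t1x : Tr :=
  .sx c205x (.sx c144x (.sy c154x (.leaf 28) (.leaf 99)) (.sx c206x (.sy c32x (.leaf 30) (.leaf 101)) (.sy c15x (.leaf 32) (.leaf 103)))) (.sx c153x (.sx c149x (.sy c203x (.leaf 34) (.leaf 105)) (.sy c159x (.leaf 36) (.leaf 107))) (.sx c204x (.sy c157x (.leaf 38) (.leaf 109)) (.sy c180x (.leaf 40) (.leaf 111))))

def t2x : Tr :=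
  .sx c207x (.sx c142x (.sy c208x (.leaf 8) (.sx c181x (.leaf 77) (.sy c143x (.leaf 78) (.sy c148x (.leaf 10) (.leaf 79))))) (.sx c31x (.sy c148x (.leaf 12) (.leaf 81)) (.sy c36x (.leaf 14) (.leaf 83)))) (.sy c209x (.sy c11x (.leaf 25) (.sx c210x (.sy c181x (.leaf 23) (.sy c211x (.leaf 16) (.leaf 85))) (.leaf 19))) (.sx c212x (.sy c143x (.sx c210x (.leaf 85) (.leaf 88)) (.sy c213x (.sx c210x (.sy c36x (.leaf 17) (.sy c214x (.leaf 86) (.leaf 96))) (.sx c185x (.sy c178x (.leaf 20) (.leaf 89)) (.sy c146x (.leaf 22) (.leaf 91)))) (.leaf 98))) (.sy c213x (.sx c215x (.leaf 93) (.sy c154x (.sx c216x (.sy c201x (.leaf 94) (.leaf 24)) (.sy c208x (.leaf 97) (.leaf 26))) (.leaf 95))) (.leaf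 98))))

def t3x : Tr :=
  .sx c152x (.sy c51x (.sx c142x (.sy c11x (.leaf 61) (.sx c181x (.sy c168x (.leaf 59) (.sx c11x (.sy c45x (.leaf 130) (.leaf 62)) (.sy c159x (.leaf 128) (.leaf 60)))) (.leaf 57))) (.sy c167x (.sy c11x (.leaf 61) (.sx c31x (.sx c14x (.sy c59x (.leaf 56) (.leaf 126)) (.sy c217x (.leaf 53) (.leaf 123))) (.sy c181x (.leaf 58) (.sy c218x (.leaf 50) (.leaf 120))))) (.sx c31x (.leaf 54) (.leaf 51)))) (.sy c213x (.sx c31x (.leaf 124) (.sy c219x (.leaf 51) (.sy c214x (.leaf 121) (.leaf 129)))) (.leaf 131))) (.sx c212x (.sx c210x (.sy c218x (.leaf 48) (.leaf 118)) (.sy c220x (.leaf 46) (.leaf 116))) (.sy c45x (.sx c215x (.sy c220x (.leaf 43) (.sy c167x (.leaf 114)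 (.leaf 44))) (.leaf 41)) (.leaf 113)))

def t4x : Tr :=
  .sx c31x (.sy c199x (.sy c141x (.sx c142x (.sy c144x (.leaf 6) (.sx c181x (.leaf 4) (.leaf 9))) (.leaf 11)) (.leaf 2)) (.sy c204x (.sx c14x (.sy c202x (.sy c10x (.leaf 0) (.leaf 67)) (.sx c142x (.leaf 65) (.leaf 55))) (.leaf 52)) (.leaf 63))) (.sx c210x (.sy c221x (.sx c207x (.leaf 13) (.sy c144x (.leaf 27) (.leaf 15))) (.sx c152x (.sy c204x (.leaf 49) (.leaf 63)) (.leaf 47))) (.sy c149x (.sy c144x (.leaf 27) (.sx c185x (.leaf 18) (.sy c206x (.sx c212x (.leaf 21) (.leaf 29)) (.sy c205x (.leaf 31) (.leaf 33))))) (.sy c153x (.leaf 35) (.sx c212x (.leaf 45) (.sy c204x (.sx c215x (.leaf 42) (.leaf 37)) (.leaf 39))))))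

def t5x : Tr :=
  .sx c31x (.sy c199x (.sy c141x (.sx c142x (.sy c144x (.leaf 76) (.sx c181x (.leaf 74) (.leaf 80))) (.leaf 82)) (.leaf 72)) (.sy c204x (.sx c14x (.sy c202x (.sy c10x (.leaf 70) (.leaf 137)) (.sx c142x (.leaf 135) (.leaf 127))) (.leaf 125)) (.leaf 133))) (.sx c210x (.sy c221x (.sx c207x (.leaf 84) (.sy c144x (.leaf 100) (.leaf 87))) (.sx c152x (.sy c204x (.leaf 122) (.leaf 133)) (.leaf 119))) (.sy c149x (.sy c144x (.leaf 100) (.sx c185x (.leaf 90) (.sy c206x (.sx c212x (.leaf 92) (.leaf 102)) (.sy c205x (.leaf 104) (.leaf 106))))) (.sy c153x (.leaf 108) (.sx c212x (.leaf 117) (.sy c204x (.sx c215x (.leaf 115) (.leaf 110)) (.leaf 112))))))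

def bx : BoxData := ⟨c187x, c188x, c191x, own, ps, ct, t0x, t1x, t2x, t3x, t4x, t5x⟩

end Pool.Agent.Box3.BB
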