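import Pool.Agent.Box3.Num
set_option linter.all false
set_option autoImplicit false

namespace Pool.Agent.Box3.BC

def ps : List PB := [
  ⟨⟨⟨c1x, c2x, c1x, c18x⟩, ⟨.ofNat 0, .negSucc 0, c18x⟩, ⟨.ofNat 0, .ofNat 0, c1x⟩, ⟨.negSucc 0, .ofNat 0, c13x⟩⟩, [0, 1, 283]⟩,
  ⟨⟨⟨c1x, c2x, c18x, c19x⟩, ⟨.ofNat 0, .ofNat 0, c1x⟩, ⟨.ofNat 0, .ofNat 1, c121x⟩, ⟨.negSucc 0, .ofNat 0, c13x⟩⟩, [283]⟩,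
  ⟨⟨⟨c1x, c2x, c19x, c3x⟩, ⟨.ofNat 0, .ofNat 1, c222x⟩, ⟨.ofNat 0, .ofNat 0, c146x⟩, ⟨.negSucc 0, .ofNat 0, c13x⟩⟩, [281, 282, 283]⟩,
  ⟨⟨⟨c2x, c4x, c5x, c18x⟩, ⟨.ofNat 0, .negSucc 0, c18x⟩, ⟨.ofNat 0, .ofNat 0, c1x⟩, ⟨.negSucc 0, .ofNat 0, c13x⟩⟩, [0, 1, 2, 3]⟩,
  ⟨⟨⟨c2x, c4x, c18x, c19x⟩, ⟨.ofNat 0, .ofNat 0, c1x⟩, ⟨.ofNat 0, .ofNat 1, c121x⟩, ⟨.negSucc 0, .ofNat 0, c13x⟩⟩, [3, 4, 278, 279]⟩,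
  ⟨⟨⟨c2x, c4x, c19x, c6x⟩, ⟨.ofNat 0, .ofNat 1, c222x⟩, ⟨.ofNat 0, .ofNat 0, c146x⟩, ⟨.negSucc 0, .ofNat 0, c13x⟩⟩, [279, 280, 281, 282]⟩,
  ⟨⟨⟨c4x, c7x, c8x, c9x⟩, ⟨.ofNat 0, .ofNat 0, c1x⟩, ⟨.ofNat 0, .ofNat 1, c121x⟩, ⟨.negSucc 0, .ofNat 0, c13x⟩⟩, [3, 4, 5, 277, 278, 279]⟩,
  ⟨⟨⟨c7x, c10x, c11x, c18x⟩, ⟨.ofNat 0, .negSucc 0, c18x⟩, ⟨.ofNat 0, .ofNat 0, c1x⟩, ⟨.negSucc 0, .ofNat 0, c13x⟩⟩, [5, 6, 7]⟩,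
  ⟨⟨⟨c7x, c10x, c18x, c19x⟩, ⟨.ofNat 0, .ofNat 0, c1x⟩, ⟨.ofNat 0, .ofNat 1, c121x⟩, ⟨.negSucc 0, .ofNat 0, c13x⟩⟩, [4, 5, 7, 8, 274, 275, 277, 278]⟩,
  ⟨⟨⟨c7x, c10x, c19x, c12x⟩, ⟨.ofNat 0, .ofNat 1, c222x⟩, ⟨.ofNat 0, .ofNat 0, c146x⟩, ⟨.negSucc 0, .ofNat 0, c13x⟩⟩, [275, 276, 277]⟩,
  ⟨⟨⟨c10x, c13x, c14x, c15x⟩, ⟨.ofNat 0, .ofNat 0, c1x⟩, ⟨.ofNat 0, .ofNat 1, c121x⟩, ⟨.negSucc 0, .ofNat 0, c13x⟩⟩, [7, 8, 9, 273, 274, 275]⟩,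
  ⟨⟨⟨c16x, c13x, c17x, c18x⟩, ⟨.ofNat 0, .ofNat 0, c1x⟩, ⟨.negSucc 0, .ofNat 0, c13x⟩, ⟨.ofNat 0, .negSucc 0, c18x⟩⟩, [9, 10, 11, 12]⟩,
  ⟨⟨⟨c16x, c13x, c19x, c20x⟩, ⟨.ofNat 0, .ofNat 0, c1x⟩, ⟨.ofNat 1, .ofNat 0, c223x⟩, ⟨.ofNat 0, .ofNat 1, c222x⟩⟩, [270, 271, 272, 273]⟩,
  ⟨⟨⟨c13x, c21x, c17x, c18x⟩, ⟨.ofNat 1, .ofNat 0, c122x⟩, ⟨.ofNat 0, .ofNat 0, c1x⟩, ⟨.ofNat 0, .negSucc 0, c18x⟩⟩, [9, 10, 12, 13]⟩,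
  ⟨⟨⟨c13x, c21x, c18x, c19x⟩, ⟨.ofNat 1, .ofNat 0, c122x⟩, ⟨.ofNat 0, .ofNat 1, c121x⟩, ⟨.ofNat 0, .ofNat 0, c1x⟩⟩, [8, 9, 10, 272, 273, 274]⟩,
  ⟨⟨⟨c13x, c21x, c19x, c20x⟩, ⟨.ofNat 1, .ofNat 0, c122x⟩, ⟨.ofNat 0, .ofNat 0, c146x⟩, ⟨.ofNat 0, .ofNat 1, c222x⟩⟩, [269, 270, 272, 273]⟩,
  ⟨⟨⟨c21x, c22x, c23x, c18x⟩, ⟨.ofNat 1, .ofNat 0, c122x⟩, ⟨.ofNat 0, .ofNat 0, c1x⟩, ⟨.ofNat 0, .negSucc 0, c18x⟩⟩, [12, 13, 14, 20, 21]⟩,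
  ⟨⟨⟨c21x, c22x, c18x, c19x⟩, ⟨.ofNat 1, .ofNat 0, c122x⟩, ⟨.ofNat 0, .ofNat 1, c121x⟩, ⟨.ofNat 0, .ofNat 0, c1x⟩⟩, [20, 21, 22, 260, 261, 262]⟩,
  ⟨⟨⟨c21x, c22x, c19x, c24x⟩, ⟨.ofNat 1, .ofNat 0, c122x⟩, ⟨.ofNat 0, .ofNat 0, c146x⟩, ⟨.ofNat 0, .ofNat 1, c222x⟩⟩, [261, 262, 268, 269, 270]⟩,
  ⟨⟨⟨c22x, c25x, c23x, c18x⟩, ⟨.ofNat 0, .ofNat 0, c123x⟩, ⟨.ofNat 1, .ofNat 0, c124x⟩, ⟨.ofNat 0, .negSucc 0, c18x⟩⟩, [14, 15, 20, 21]⟩,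
  ⟨⟨⟨c22x, c25x, c26x, c27x⟩, ⟨.ofNat 0, .ofNat 0, c123x⟩, ⟨.ofNat 0, .ofNat 1, c121x⟩, ⟨.ofNat 1, .ofNat 0, c124x⟩⟩, [21, 22, 23, 259, 260, 261]⟩,
  ⟨⟨⟨c22x, c25x, c19x, c24x⟩, ⟨.ofNat 0, .ofNat 0, c123x⟩, ⟨.negSucc 0, .ofNat 0, c224x⟩, ⟨.ofNat 0, .ofNat 1, c222x⟩⟩, [261, 262, 267, 268]⟩,
  ⟨⟨⟨c25x, c28x, c29x, c18x⟩, ⟨.ofNat 0, .ofNat 0, c123x⟩, ⟨.ofNat 1, .ofNat 0, c124x⟩, ⟨.ofNat 0, .negSucc 0, c18x⟩⟩, [14, 15, 16, 17, 18, 20]⟩,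
  ⟨⟨⟨c25x, c30x, c31x, c32x⟩, ⟨.ofNat 0, .ofNat 0, c123x⟩, ⟨.ofNat 0, .ofNat 1, c121x⟩, ⟨.ofNat 1, .ofNat 0, c124x⟩⟩, [22, 23, 24, 25, 257, 258, 259, 260]⟩,
  ⟨⟨⟨c25x, c28x, c19x, c33x⟩, ⟨.ofNat 0, .ofNat 0, c123x⟩, ⟨.negSucc 0, .ofNat 0, c224x⟩, ⟨.ofNat 0, .ofNat 1, c222x⟩⟩, [262, 264, 265, 266, 267, 268]⟩,
  ⟨⟨⟨c28x, c34x, c35x, c18x⟩, ⟨.ofNat 0, .ofNat 0, c123x⟩, ⟨.ofNat 1, .ofNat 0, c124x⟩, ⟨.ofNat 0, .negSucc 0, c18x⟩⟩, [17, 18, 19, 20]⟩,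
  ⟨⟨⟨c28x, c34x, c19x, c36x⟩, ⟨.ofNat 0, .ofNat 0, c123x⟩, ⟨.negSucc 0, .ofNat 0, c224x⟩, ⟨.ofNat 0, .ofNat 1, c222x⟩⟩, [262, 263, 264, 265]⟩,
  ⟨⟨⟨c37x, c38x, c39x, c121x⟩, ⟨.ofNat 0, .ofNat 0, c1x⟩, ⟨.ofNat 0, .negSucc 0, c121x⟩, ⟨.ofNat 1, .ofNat 0, c124x⟩⟩, [29, 30]⟩,
  ⟨⟨⟨c37x, c38x, c121x, c5x⟩, ⟨.ofNat 0, .ofNat 1, c18x⟩, ⟨.ofNat 0, .ofNat 0, c1x⟩, ⟨.ofNat 1, .ofNat 0, c124x⟩⟩, [27, 28, 29]⟩,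
  ⟨⟨⟨c37x, c38x, c6x, c225x⟩, ⟨.ofNat 0, .negSucc 0, c225x⟩, ⟨.ofNat 0, .ofNat 0, c146x⟩, ⟨.ofNat 1, .ofNat 0, c124x⟩⟩, [253, 254, 255]⟩,
  ⟨⟨⟨c37x, c38x, c225x, c40x⟩, ⟨.ofNat 0, .ofNat 0, c1x⟩, ⟨.ofNat 0, .negSucc 0, c156x⟩, ⟨.ofNat 1, .ofNat 0, c124x⟩⟩, [252, 253]⟩,
  ⟨⟨⟨c38x, c30x, c39x, c121x⟩, ⟨.ofNat 0, .ofNat 0, c1x⟩, ⟨.ofNat 0, .negSucc 0, c121x⟩, ⟨.ofNat 1, .ofNat 0, c124x⟩⟩, [30]⟩,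
  ⟨⟨⟨c38x, c30x, c121x, c18x⟩, ⟨.ofNat 0, .ofNat 1, c18x⟩, ⟨.ofNat 0, .ofNat 0, c1x⟩, ⟨.ofNat 1, .ofNat 0, c124x⟩⟩, [27, 28]⟩,
  ⟨⟨⟨c38x, c30x, c18x, c14x⟩, ⟨.ofNat 0, .ofNat 0, c123x⟩, ⟨.ofNat 0, .ofNat 1, c121x⟩, ⟨.ofNat 1, .ofNat 0, c124x⟩⟩, [25, 26, 27]⟩,
  ⟨⟨⟨c38x, c30x, c15x, c19x⟩, ⟨.ofNat 0, .ofNat 0, c123x⟩, ⟨.ofNat 0, .ofNat 1, c121x⟩, ⟨.ofNat 1, .ofNat 0, c124x⟩⟩, [255, 256, 257]⟩,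
  ⟨⟨⟨c38x, c30x, c19x, c225x⟩, ⟨.ofNat 0, .negSucc 0, c225x⟩, ⟨.ofNat 0, .ofNat 0, c146x⟩, ⟨.ofNat 1, .ofNat 0, c124x⟩⟩, [254, 255]⟩,
  ⟨⟨⟨c38x, c30x, c225x, c40x⟩, ⟨.ofNat 0, .ofNat 0, c1x⟩, ⟨.ofNat 0, .negSucc 0, c156x⟩, ⟨.ofNat 1, .ofNat 0, c124x⟩⟩, [252]⟩,
  ⟨⟨⟨c30x, c41x, c39x, c121x⟩, ⟨.ofNat 0, .ofNat 0, c1x⟩, ⟨.ofNat 0, .negSucc 0, c121x⟩, ⟨.ofNat 1, .ofNat 0, c124x⟩⟩, [30, 31]⟩,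
  ⟨⟨⟨c30x, c41x, c121x, c18x⟩, ⟨.ofNat 0, .ofNat 1, c18x⟩, ⟨.ofNat 0, .ofNat 0, c1x⟩, ⟨.ofNat 1, .ofNat 0, c124x⟩⟩, [31, 32]⟩,
  ⟨⟨⟨c30x, c41x, c18x, c19x⟩, ⟨.ofNat 0, .ofNat 0, c123x⟩, ⟨.ofNat 0, .ofNat 1, c121x⟩, ⟨.ofNat 1, .ofNat 0, c124x⟩⟩, [24, 25, 26, 256, 257, 258]⟩,
  ⟨⟨⟨c30x, c41x, c19x, c225x⟩, ⟨.ofNat 0, .negSucc 0, c225x⟩, ⟨.ofNat 0, .ofNat 0, c146x⟩, ⟨.ofNat 1, .ofNat 0, c124x⟩⟩, [250, 251]⟩,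
  ⟨⟨⟨c30x, c41x, c225x, c40x⟩, ⟨.ofNat 0, .ofNat 0, c1x⟩, ⟨.ofNat 0, .negSucc 0, c156x⟩, ⟨.ofNat 1, .ofNat 0, c124x⟩⟩, [251, 252]⟩,
  ⟨⟨⟨c41x, c42x, c11x, c18x⟩, ⟨.ofNat 0, .ofNat 1, c18x⟩, ⟨.ofNat 0, .ofNat 0, c1x⟩, ⟨.ofNat 1, .ofNat 0, c124x⟩⟩, [31, 32, 33]⟩,
  ⟨⟨⟨c41x, c42x, c18x, c19x⟩, ⟨.ofNat 0, .ofNat 0, c123x⟩, ⟨.ofNat 0, .ofNat 1, c121x⟩, ⟨.ofNat 1, .ofNat 0, c124x⟩⟩, []⟩,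
  ⟨⟨⟨c41x, c42x, c19x, c12x⟩, ⟨.ofNat 0, .negSucc 0, c225x⟩, ⟨.ofNat 0, .ofNat 0, c146x⟩, ⟨.ofNat 1, .ofNat 0, c124x⟩⟩, [249, 250, 251]⟩,
  ⟨⟨⟨c42x, c43x, c1x, c18x⟩, ⟨.ofNat 0, .ofNat 1, c18x⟩, ⟨.ofNat 0, .ofNat 0, c1x⟩, ⟨.ofNat 1, .ofNat 0, c124x⟩⟩, [32, 33, 34]⟩,
  ⟨⟨⟨c42x, c43x, c18x, c19x⟩, ⟨.ofNat 0, .ofNat 0, c123x⟩, ⟨.ofNat 0, .ofNat 1, c121x⟩, ⟨.ofNat 1, .ofNat 0, c124x⟩⟩, []⟩,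
  ⟨⟨⟨c42x, c43x, c19x, c3x⟩, ⟨.ofNat 0, .negSucc 0, c225x⟩, ⟨.ofNat 0, .ofNat 0, c146x⟩, ⟨.ofNat 1, .ofNat 0, c124x⟩⟩, [247, 248, 249, 250]⟩,
  ⟨⟨⟨c43x, c44x, c1x, c18x⟩, ⟨.ofNat 0, .ofNat 1, c18x⟩, ⟨.ofNat 0, .ofNat 0, c1x⟩, ⟨.ofNat 1, .ofNat 0, c124x⟩⟩, [34, 35]⟩,
  ⟨⟨⟨c43x, c44x, c18x, c19x⟩, ⟨.ofNat 0, .ofNat 0, c123x⟩, ⟨.ofNat 0, .ofNat 1, c121x⟩, ⟨.ofNat 1, .ofNat 0, c124x⟩⟩, []⟩,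
  ⟨⟨⟨c43x, c44x, c19x, c225x⟩, ⟨.ofNat 0, .negSucc 0, c225x⟩, ⟨.ofNat 0, .ofNat 0, c146x⟩, ⟨.ofNat 1, .ofNat 0, c124x⟩⟩, [247, 248]⟩,
  ⟨⟨⟨c43x, c44x, c225x, c156x⟩, ⟨.ofNat 0, .ofNat 0, c1x⟩, ⟨.ofNat 0, .negSucc 0, c156x⟩, ⟨.ofNat 1, .ofNat 0, c124x⟩⟩, [247]⟩,
  ⟨⟨⟨c43x, c44x, c156x, c45x⟩, ⟨.ofNat 0, .ofNat 1, c226x⟩, ⟨.ofNat 0, .ofNat 0, c1x⟩, ⟨.ofNat 1, .ofNat 0, c124x⟩⟩, [244, 245, 246, 247]⟩,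
  ⟨⟨⟨c44x, c46x, c5x, c18x⟩, ⟨.ofNat 0, .ofNat 1, c18x⟩, ⟨.ofNat 0, .ofNat 0, c1x⟩, ⟨.ofNat 1, .ofNat 0, c124x⟩⟩, [34, 35, 36, 37]⟩,
  ⟨⟨⟨c44x, c46x, c18x, c19x⟩, ⟨.ofNat 0, .ofNat 0, c123x⟩, ⟨.ofNat 0, .ofNat 1, c121x⟩, ⟨.ofNat 1, .ofNat 0, c124x⟩⟩, [37, 38]⟩,
  ⟨⟨⟨c44x, c46x, c19x, c225x⟩, ⟨.ofNat 0, .negSucc 0, c225x⟩, ⟨.ofNat 0, .ofNat 0, c146x⟩, ⟨.ofNat 1, .ofNat 0, c124x⟩⟩, []⟩,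
  ⟨⟨⟨c44x, c46x, c225x, c156x⟩, ⟨.ofNat 0, .ofNat 0, c1x⟩, ⟨.ofNat 0, .negSucc 0, c156x⟩, ⟨.ofNat 1, .ofNat 0, c124x⟩⟩, []⟩,
  ⟨⟨⟨c44x, c46x, c156x, c47x⟩, ⟨.ofNat 0, .ofNat 1, c226x⟩, ⟨.ofNat 0, .ofNat 0, c1x⟩, ⟨.ofNat 1, .ofNat 0, c124x⟩⟩, [243, 244, 245]⟩,
  ⟨⟨⟨c46x, c48x, c8x, c19x⟩, ⟨.ofNat 0, .ofNat 0, c123x⟩, ⟨.ofNat 0, .ofNat 1, c121x⟩, ⟨.ofNat 1, .ofNat 0, c124x⟩⟩, [37, 38, 39]⟩,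
  ⟨⟨⟨c46x, c48x, c19x, c225x⟩, ⟨.ofNat 0, .negSucc 0, c225x⟩, ⟨.ofNat 0, .ofNat 0, c146x⟩, ⟨.ofNat 1, .ofNat 0, c124x⟩⟩, []⟩,
  ⟨⟨⟨c46x, c48x, c225x, c156x⟩, ⟨.ofNat 0, .ofNat 0, c1x⟩, ⟨.ofNat 0, .negSucc 0, c156x⟩, ⟨.ofNat 1, .ofNat 0, c124x⟩⟩, []⟩,
  ⟨⟨⟨c46x, c48x, c156x, c56x⟩, ⟨.ofNat 0, .ofNat 1, c226x⟩, ⟨.ofNat 0, .ofNat 0, c1x⟩, ⟨.ofNat 1, .ofNat 0, c124x⟩⟩, [240, 241, 243, 244]⟩,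
  ⟨⟨⟨c46x, c48x, c56x, c49x⟩, ⟨.ofNat 0, .ofNat 0, c123x⟩, ⟨.ofNat 0, .ofNat 1, c227x⟩, ⟨.ofNat 1, .ofNat 0, c124x⟩⟩, [241, 242, 243]⟩,
  ⟨⟨⟨c48x, c50x, c11x, c18x⟩, ⟨.ofNat 0, .ofNat 1, c18x⟩, ⟨.ofNat 0, .ofNat 0, c1x⟩, ⟨.ofNat 1, .ofNat 0, c124x⟩⟩, [39, 40, 41]⟩,
  ⟨⟨⟨c48x, c50x, c18x, c19x⟩, ⟨.ofNat 0, .ofNat 0, c123x⟩, ⟨.ofNat 0, .ofNat 1, c121x⟩, ⟨.ofNat 1, .ofNat 0, c124x⟩⟩, [38, 39, 41, 42]⟩,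
  ⟨⟨⟨c48x, c50x, c19x, c225x⟩, ⟨.ofNat 0, .negSucc 0, c225x⟩, ⟨.ofNat 0, .ofNat 0, c146x⟩, ⟨.ofNat 1, .ofNat 0, c124x⟩⟩, []⟩,
  ⟨⟨⟨c48x, c50x, c225x, c156x⟩, ⟨.ofNat 0, .ofNat 0, c1x⟩, ⟨.ofNat 0, .negSucc 0, c156x⟩, ⟨.ofNat 1, .ofNat 0, c124x⟩⟩, []⟩,
  ⟨⟨⟨c48x, c50x, c156x, c51x⟩, ⟨.ofNat 0, .ofNat 1, c226x⟩, ⟨.ofNat 0, .ofNat 0, c1x⟩, ⟨.ofNat 1, .ofNat 0, c124x⟩⟩, [239, 240, 241]⟩,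
  ⟨⟨⟨c50x, c52x, c14x, c19x⟩, ⟨.ofNat 0, .ofNat 0, c123x⟩, ⟨.ofNat 0, .ofNat 1, c121x⟩, ⟨.ofNat 1, .ofNat 0, c124x⟩⟩, [41, 42]⟩,
  ⟨⟨⟨c50x, c52x, c19x, c225x⟩, ⟨.ofNat 0, .negSucc 0, c225x⟩, ⟨.ofNat 0, .ofNat 0, c146x⟩, ⟨.ofNat 1, .ofNat 0, c124x⟩⟩, []⟩,
  ⟨⟨⟨c50x, c52x, c225x, c156x⟩, ⟨.ofNat 0, .ofNat 0, c1x⟩, ⟨.ofNat 0, .negSucc 0, c156x⟩, ⟨.ofNat 1, .ofNat 0, c124x⟩⟩, [234, 235]⟩,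
  ⟨⟨⟨c50x, c52x, c156x, c56x⟩, ⟨.ofNat 0, .ofNat 1, c226x⟩, ⟨.ofNat 0, .ofNat 0, c1x⟩, ⟨.ofNat 1, .ofNat 0, c124x⟩⟩, [235, 236, 239, 240]⟩,
  ⟨⟨⟨c50x, c52x, c56x, c53x⟩, ⟨.ofNat 0, .ofNat 0, c123x⟩, ⟨.ofNat 0, .ofNat 1, c227x⟩, ⟨.ofNat 1, .ofNat 0, c124x⟩⟩, [235, 236, 238, 239]⟩,
  ⟨⟨⟨c52x, c54x, c17x, c121x⟩, ⟨.ofNat 0, .ofNat 0, c1x⟩, ⟨.ofNat 0, .negSucc 0, c121x⟩, ⟨.ofNat 1, .ofNat 0, c124x⟩⟩, [45, 46]⟩,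
  ⟨⟨⟨c52x, c54x, c121x, c18x⟩, ⟨.ofNat 0, .ofNat 1, c18x⟩, ⟨.ofNat 0, .ofNat 0, c1x⟩, ⟨.ofNat 1, .ofNat 0, c124x⟩⟩, [43, 44, 45]⟩,
  ⟨⟨⟨c52x, c54x, c14x, c19x⟩, ⟨.ofNat 0, .ofNat 0, c123x⟩, ⟨.ofNat 0, .ofNat 1, c121x⟩, ⟨.ofNat 1, .ofNat 0, c124x⟩⟩, [42, 43]⟩,
  ⟨⟨⟨c52x, c54x, c19x, c225x⟩, ⟨.ofNat 0, .negSucc 0, c225x⟩, ⟨.ofNat 0, .ofNat 0, c146x⟩, ⟨.ofNat 1, .ofNat 0, c124x⟩⟩, []⟩,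
  ⟨⟨⟨c52x, c54x, c225x, c55x⟩, ⟨.ofNat 0, .ofNat 0, c1x⟩, ⟨.ofNat 0, .negSucc 0, c156x⟩, ⟨.ofNat 1, .ofNat 0, c124x⟩⟩, [234, 235]⟩,
  ⟨⟨⟨c52x, c54x, c56x, c53x⟩, ⟨.ofNat 0, .ofNat 0, c123x⟩, ⟨.ofNat 0, .ofNat 1, c227x⟩, ⟨.ofNat 1, .ofNat 0, c124x⟩⟩, [235, 236, 237, 238]⟩,
  ⟨⟨⟨c54x, c57x, c17x, c121x⟩, ⟨.ofNat 0, .ofNat 0, c1x⟩, ⟨.ofNat 0, .negSucc 0, c121x⟩, ⟨.ofNat 1, .ofNat 0, c124x⟩⟩, [46, 47]⟩,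
  ⟨⟨⟨c54x, c57x, c121x, c18x⟩, ⟨.ofNat 0, .ofNat 1, c18x⟩, ⟨.ofNat 0, .ofNat 0, c1x⟩, ⟨.ofNat 1, .ofNat 0, c124x⟩⟩, [43, 44]⟩,
  ⟨⟨⟨c54x, c57x, c18x, c19x⟩, ⟨.ofNat 0, .ofNat 0, c123x⟩, ⟨.ofNat 0, .ofNat 1, c121x⟩, ⟨.ofNat 1, .ofNat 0, c124x⟩⟩, [42, 43, 44]⟩,
  ⟨⟨⟨c54x, c57x, c19x, c225x⟩, ⟨.ofNat 0, .negSucc 0, c225x⟩, ⟨.ofNat 0, .ofNat 0, c146x⟩, ⟨.ofNat 1, .ofNat 0, c124x⟩⟩, []⟩,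
  ⟨⟨⟨c54x, c57x, c225x, c55x⟩, ⟨.ofNat 0, .ofNat 0, c1x⟩, ⟨.ofNat 0, .negSucc 0, c156x⟩, ⟨.ofNat 1, .ofNat 0, c124x⟩⟩, [232, 233, 234]⟩,
  ⟨⟨⟨c57x, c58x, c23x, c121x⟩, ⟨.ofNat 0, .ofNat 0, c1x⟩, ⟨.ofNat 0, .negSucc 0, c121x⟩, ⟨.ofNat 1, .ofNat 0, c124x⟩⟩, [46, 47, 48]⟩,
  ⟨⟨⟨c57x, c58x, c121x, c18x⟩, ⟨.ofNat 0, .ofNat 1, c18x⟩, ⟨.ofNat 0, .ofNat 0, c1x⟩, ⟨.ofNat 1, .ofNat 0, c124x⟩⟩, [54, 55]⟩,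
  ⟨⟨⟨c57x, c58x, c18x, c19x⟩, ⟨.ofNat 0, .ofNat 0, c123x⟩, ⟨.ofNat 0, .ofNat 1, c121x⟩, ⟨.ofNat 1, .ofNat 0, c124x⟩⟩, [54, 55, 56]⟩,
  ⟨⟨⟨c57x, c58x, c19x, c225x⟩, ⟨.ofNat 0, .negSucc 0, c225x⟩, ⟨.ofNat 0, .ofNat 0, c146x⟩, ⟨.ofNat 1, .ofNat 0, c124x⟩⟩, []⟩,
  ⟨⟨⟨c57x, c58x, c225x, c59x⟩, ⟨.ofNat 0, .ofNat 0, c1x⟩, ⟨.ofNat 0, .negSucc 0, c156x⟩, ⟨.ofNat 1, .ofNat 0, c124x⟩⟩, [232, 233]⟩,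
  ⟨⟨⟨c58x, c60x, c23x, c121x⟩, ⟨.ofNat 0, .ofNat 0, c1x⟩, ⟨.ofNat 0, .negSucc 0, c121x⟩, ⟨.ofNat 1, .ofNat 0, c124x⟩⟩, [48, 49]⟩,
  ⟨⟨⟨c58x, c60x, c121x, c18x⟩, ⟨.ofNat 0, .ofNat 1, c18x⟩, ⟨.ofNat 0, .ofNat 0, c1x⟩, ⟨.ofNat 1, .ofNat 0, c124x⟩⟩, [54, 55]⟩,
  ⟨⟨⟨c58x, c60x, c26x, c19x⟩, ⟨.ofNat 0, .ofNat 0, c123x⟩, ⟨.ofNat 0, .ofNat 1, c121x⟩, ⟨.ofNat 1, .ofNat 0, c124x⟩⟩, [55, 56, 57]⟩,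
  ⟨⟨⟨c58x, c60x, c19x, c225x⟩, ⟨.ofNat 0, .negSucc 0, c225x⟩, ⟨.ofNat 0, .ofNat 0, c146x⟩, ⟨.ofNat 1, .ofNat 0, c124x⟩⟩, []⟩,
  ⟨⟨⟨c58x, c60x, c225x, c59x⟩, ⟨.ofNat 0, .ofNat 0, c1x⟩, ⟨.ofNat 0, .negSucc 0, c156x⟩, ⟨.ofNat 1, .ofNat 0, c124x⟩⟩, [230, 231, 232]⟩,
  ⟨⟨⟨c58x, c60x, c56x, c61x⟩, ⟨.ofNat 0, .ofNat 0, c123x⟩, ⟨.ofNat 0, .ofNat 1, c227x⟩, ⟨.ofNat 1, .ofNat 0, c124x⟩⟩, [222, 223, 224, 225, 226]⟩,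
  ⟨⟨⟨c60x, c62x, c29x, c121x⟩, ⟨.ofNat 0, .ofNat 0, c1x⟩, ⟨.ofNat 0, .negSucc 0, c121x⟩, ⟨.ofNat 1, .ofNat 0, c124x⟩⟩, [48, 49, 50, 51, 52]⟩,
  ⟨⟨⟨c60x, c62x, c121x, c18x⟩, ⟨.ofNat 0, .ofNat 1, c18x⟩, ⟨.ofNat 0, .ofNat 0, c1x⟩, ⟨.ofNat 1, .ofNat 0, c124x⟩⟩, [54]⟩,
  ⟨⟨⟨c60x, c62x, c31x, c19x⟩, ⟨.ofNat 0, .ofNat 0, c123x⟩, ⟨.ofNat 0, .ofNat 1, c121x⟩, ⟨.ofNat 1, .ofNat 0, c124x⟩⟩, [56, 57, 58]⟩,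
  ⟨⟨⟨c60x, c62x, c19x, c225x⟩, ⟨.ofNat 0, .negSucc 0, c225x⟩, ⟨.ofNat 0, .ofNat 0, c146x⟩, ⟨.ofNat 1, .ofNat 0, c124x⟩⟩, []⟩,
  ⟨⟨⟨c60x, c62x, c225x, c63x⟩, ⟨.ofNat 0, .ofNat 0, c1x⟩, ⟨.ofNat 0, .negSucc 0, c156x⟩, ⟨.ofNat 1, .ofNat 0, c124x⟩⟩, [229, 230, 231]⟩,
  ⟨⟨⟨c60x, c64x, c56x, c65x⟩, ⟨.ofNat 0, .ofNat 0, c123x⟩, ⟨.ofNat 0, .ofNat 1, c227x⟩, ⟨.ofNat 1, .ofNat 0, c124x⟩⟩, [222, 223, 226, 227]⟩,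
  ⟨⟨⟨c62x, c64x, c35x, c121x⟩, ⟨.ofNat 0, .ofNat 0, c1x⟩, ⟨.ofNat 0, .negSucc 0, c121x⟩, ⟨.ofNat 1, .ofNat 0, c124x⟩⟩, [51, 52, 53]⟩,
  ⟨⟨⟨c62x, c64x, c121x, c18x⟩, ⟨.ofNat 0, .ofNat 1, c18x⟩, ⟨.ofNat 0, .ofNat 0, c1x⟩, ⟨.ofNat 1, .ofNat 0, c124x⟩⟩, [53, 54]⟩,
  ⟨⟨⟨c62x, c64x, c31x, c19x⟩, ⟨.ofNat 0, .ofNat 0, c123x⟩, ⟨.ofNat 0, .ofNat 1, c121x⟩, ⟨.ofNat 1, .ofNat 0, c124x⟩⟩, [58]⟩,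
  ⟨⟨⟨c62x, c64x, c19x, c225x⟩, ⟨.ofNat 0, .negSucc 0, c225x⟩, ⟨.ofNat 0, .ofNat 0, c146x⟩, ⟨.ofNat 1, .ofNat 0, c124x⟩⟩, []⟩,
  ⟨⟨⟨c62x, c64x, c225x, c66x⟩, ⟨.ofNat 0, .ofNat 0, c1x⟩, ⟨.ofNat 0, .negSucc 0, c156x⟩, ⟨.ofNat 1, .ofNat 0, c124x⟩⟩, [227, 228, 229, 230]⟩,
  ⟨⟨⟨c64x, c67x, c31x, c19x⟩, ⟨.ofNat 0, .ofNat 0, c123x⟩, ⟨.ofNat 0, .ofNat 1, c121x⟩, ⟨.ofNat 1, .ofNat 0, c124x⟩⟩, [58]⟩,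
  ⟨⟨⟨c64x, c67x, c19x, c225x⟩, ⟨.ofNat 0, .negSucc 0, c225x⟩, ⟨.ofNat 0, .ofNat 0, c146x⟩, ⟨.ofNat 1, .ofNat 0, c124x⟩⟩, []⟩,
  ⟨⟨⟨c64x, c67x, c225x, c156x⟩, ⟨.ofNat 0, .ofNat 0, c1x⟩, ⟨.ofNat 0, .negSucc 0, c156x⟩, ⟨.ofNat 1, .ofNat 0, c124x⟩⟩, [216, 217, 227, 228]⟩,
  ⟨⟨⟨c64x, c67x, c156x, c56x⟩, ⟨.ofNat 0, .ofNat 1, c226x⟩, ⟨.ofNat 0, .ofNat 0, c1x⟩, ⟨.ofNat 1, .ofNat 0, c124x⟩⟩, [217, 218, 226, 227]⟩,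
  ⟨⟨⟨c64x, c67x, c56x, c65x⟩, ⟨.ofNat 0, .ofNat 0, c123x⟩, ⟨.ofNat 0, .ofNat 1, c227x⟩, ⟨.ofNat 1, .ofNat 0, c124x⟩⟩, [222, 226, 227]⟩,
  ⟨⟨⟨c67x, c68x, c39x, c121x⟩, ⟨.ofNat 0, .ofNat 0, c1x⟩, ⟨.ofNat 0, .negSucc 0, c121x⟩, ⟨.ofNat 1, .ofNat 0, c124x⟩⟩, [63, 64]⟩,
  ⟨⟨⟨c67x, c68x, c121x, c5x⟩, ⟨.ofNat 0, .ofNat 1, c18x⟩, ⟨.ofNat 0, .ofNat 0, c1x⟩, ⟨.ofNat 1, .ofNat 0, c124x⟩⟩, [61, 62, 63]⟩,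
  ⟨⟨⟨c67x, c69x, c31x, c19x⟩, ⟨.ofNat 0, .ofNat 0, c123x⟩, ⟨.ofNat 0, .ofNat 1, c121x⟩, ⟨.ofNat 1, .ofNat 0, c124x⟩⟩, [58, 59]⟩,
  ⟨⟨⟨c67x, c69x, c19x, c225x⟩, ⟨.ofNat 0, .negSucc 0, c225x⟩, ⟨.ofNat 0, .ofNat 0, c146x⟩, ⟨.ofNat 1, .ofNat 0, c124x⟩⟩, []⟩,
  ⟨⟨⟨c67x, c69x, c225x, c70x⟩, ⟨.ofNat 0, .ofNat 0, c1x⟩, ⟨.ofNat 0, .negSucc 0, c156x⟩, ⟨.ofNat 1, .ofNat 0, c124x⟩⟩, [216, 217]⟩,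
  ⟨⟨⟨c67x, c68x, c47x, c56x⟩, ⟨.ofNat 0, .ofNat 1, c226x⟩, ⟨.ofNat 0, .ofNat 0, c1x⟩, ⟨.ofNat 1, .ofNat 0, c124x⟩⟩, [217, 218, 219]⟩,
  ⟨⟨⟨c67x, c68x, c56x, c65x⟩, ⟨.ofNat 0, .ofNat 0, c123x⟩, ⟨.ofNat 0, .ofNat 1, c227x⟩, ⟨.ofNat 1, .ofNat 0, c124x⟩⟩, [219, 220, 222]⟩,
  ⟨⟨⟨c68x, c69x, c39x, c121x⟩, ⟨.ofNat 0, .ofNat 0, c1x⟩, ⟨.ofNat 0, .negSucc 0, c121x⟩, ⟨.ofNat 1, .ofNat 0, c124x⟩⟩, [64]⟩,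
  ⟨⟨⟨c68x, c69x, c121x, c18x⟩, ⟨.ofNat 0, .ofNat 1, c18x⟩, ⟨.ofNat 0, .ofNat 0, c1x⟩, ⟨.ofNat 1, .ofNat 0, c124x⟩⟩, [61, 62]⟩,
  ⟨⟨⟨c68x, c69x, c18x, c14x⟩, ⟨.ofNat 0, .ofNat 0, c123x⟩, ⟨.ofNat 0, .ofNat 1, c121x⟩, ⟨.ofNat 1, .ofNat 0, c124x⟩⟩, [59, 60, 61]⟩,
  ⟨⟨⟨c68x, c69x, c53x, c65x⟩, ⟨.ofNat 0, .ofNat 0, c123x⟩, ⟨.ofNat 0, .ofNat 1, c227x⟩, ⟨.ofNat 1, .ofNat 0, c124x⟩⟩, [219, 220, 221, 222]⟩,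
  ⟨⟨⟨c69x, c71x, c39x, c121x⟩, ⟨.ofNat 0, .ofNat 0, c1x⟩, ⟨.ofNat 0, .negSucc 0, c121x⟩, ⟨.ofNat 1, .ofNat 0, c124x⟩⟩, [64, 65]⟩,
  ⟨⟨⟨c69x, c71x, c121x, c18x⟩, ⟨.ofNat 0, .ofNat 1, c18x⟩, ⟨.ofNat 0, .ofNat 0, c1x⟩, ⟨.ofNat 1, .ofNat 0, c124x⟩⟩, [65, 66]⟩,
  ⟨⟨⟨c69x, c71x, c18x, c19x⟩, ⟨.ofNat 0, .ofNat 0, c123x⟩, ⟨.ofNat 0, .ofNat 1, c121x⟩, ⟨.ofNat 1, .ofNat 0, c124x⟩⟩, [58, 59, 60]⟩,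
  ⟨⟨⟨c69x, c71x, c19x, c225x⟩, ⟨.ofNat 0, .negSucc 0, c225x⟩, ⟨.ofNat 0, .ofNat 0, c146x⟩, ⟨.ofNat 1, .ofNat 0, c124x⟩⟩, []⟩,
  ⟨⟨⟨c69x, c71x, c225x, c70x⟩, ⟨.ofNat 0, .ofNat 0, c1x⟩, ⟨.ofNat 0, .negSucc 0, c156x⟩, ⟨.ofNat 1, .ofNat 0, c124x⟩⟩, [215, 216]⟩,
  ⟨⟨⟨c71x, c72x, c11x, c18x⟩, ⟨.ofNat 0, .ofNat 1, c18x⟩, ⟨.ofNat 0, .ofNat 0, c1x⟩, ⟨.ofNat 1, .ofNat 0, c124x⟩⟩, [65, 66, 67]⟩,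
  ⟨⟨⟨c71x, c72x, c18x, c19x⟩, ⟨.ofNat 0, .ofNat 0, c123x⟩, ⟨.ofNat 0, .ofNat 1, c121x⟩, ⟨.ofNat 1, .ofNat 0, c124x⟩⟩, []⟩,
  ⟨⟨⟨c71x, c72x, c19x, c225x⟩, ⟨.ofNat 0, .negSucc 0, c225x⟩, ⟨.ofNat 0, .ofNat 0, c146x⟩, ⟨.ofNat 1, .ofNat 0, c124x⟩⟩, []⟩,
  ⟨⟨⟨c71x, c72x, c225x, c156x⟩, ⟨.ofNat 0, .ofNat 0, c1x⟩, ⟨.ofNat 0, .negSucc 0, c156x⟩, ⟨.ofNat 1, .ofNat 0, c124x⟩⟩, [215, 216]⟩,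
  ⟨⟨⟨c71x, c72x, c156x, c51x⟩, ⟨.ofNat 0, .ofNat 1, c226x⟩, ⟨.ofNat 0, .ofNat 0, c1x⟩, ⟨.ofNat 1, .ofNat 0, c124x⟩⟩, [212, 213, 214, 215]⟩,
  ⟨⟨⟨c72x, c73x, c1x, c18x⟩, ⟨.ofNat 0, .ofNat 1, c18x⟩, ⟨.ofNat 0, .ofNat 0, c1x⟩, ⟨.ofNat 1, .ofNat 0, c124x⟩⟩, [66, 67, 68, 69]⟩,
  ⟨⟨⟨c72x, c73x, c18x, c19x⟩, ⟨.ofNat 0, .ofNat 0, c123x⟩, ⟨.ofNat 0, .ofNat 1, c121x⟩, ⟨.ofNat 1, .ofNat 0, c124x⟩⟩, [69]⟩,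
  ⟨⟨⟨c72x, c73x, c19x, c225x⟩, ⟨.ofNat 0, .negSucc 0, c225x⟩, ⟨.ofNat 0, .ofNat 0, c146x⟩, ⟨.ofNat 1, .ofNat 0, c124x⟩⟩, [69, 70]⟩,
  ⟨⟨⟨c72x, c73x, c225x, c156x⟩, ⟨.ofNat 0, .ofNat 0, c1x⟩, ⟨.ofNat 0, .negSucc 0, c156x⟩, ⟨.ofNat 1, .ofNat 0, c124x⟩⟩, []⟩,
  ⟨⟨⟨c72x, c73x, c156x, c45x⟩, ⟨.ofNat 0, .ofNat 1, c226x⟩, ⟨.ofNat 0, .ofNat 0, c1x⟩, ⟨.ofNat 1, .ofNat 0, c124x⟩⟩, [211, 212, 213]⟩,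
  ⟨⟨⟨c73x, c74x, c3x, c225x⟩, ⟨.ofNat 0, .negSucc 0, c225x⟩, ⟨.ofNat 0, .ofNat 0, c146x⟩, ⟨.ofNat 1, .ofNat 0, c124x⟩⟩, [69, 70, 71, 72]⟩,
  ⟨⟨⟨c73x, c74x, c225x, c156x⟩, ⟨.ofNat 0, .ofNat 0, c1x⟩, ⟨.ofNat 0, .negSucc 0, c156x⟩, ⟨.ofNat 1, .ofNat 0, c124x⟩⟩, []⟩,
  ⟨⟨⟨c73x, c74x, c156x, c56x⟩, ⟨.ofNat 0, .ofNat 1, c226x⟩, ⟨.ofNat 0, .ofNat 0, c1x⟩, ⟨.ofNat 1, .ofNat 0, c124x⟩⟩, [211, 212]⟩,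
  ⟨⟨⟨c73x, c74x, c56x, c85x⟩, ⟨.ofNat 0, .ofNat 0, c123x⟩, ⟨.ofNat 0, .ofNat 1, c227x⟩, ⟨.ofNat 1, .ofNat 0, c124x⟩⟩, [211]⟩,
  ⟨⟨⟨c73x, c74x, c85x, c75x⟩, ⟨.ofNat 0, .negSucc 0, c134x⟩, ⟨.ofNat 0, .ofNat 0, c146x⟩, ⟨.ofNat 1, .ofNat 0, c124x⟩⟩, [209, 210, 211]⟩,
  ⟨⟨⟨c74x, c76x, c6x, c225x⟩, ⟨.ofNat 0, .negSucc 0, c225x⟩, ⟨.ofNat 0, .ofNat 0, c146x⟩, ⟨.ofNat 1, .ofNat 0, c124x⟩⟩, [71, 72, 73]⟩,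
  ⟨⟨⟨c74x, c76x, c225x, c156x⟩, ⟨.ofNat 0, .ofNat 0, c1x⟩, ⟨.ofNat 0, .negSucc 0, c156x⟩, ⟨.ofNat 1, .ofNat 0, c124x⟩⟩, []⟩,
  ⟨⟨⟨c74x, c76x, c156x, c56x⟩, ⟨.ofNat 0, .ofNat 1, c226x⟩, ⟨.ofNat 0, .ofNat 0, c1x⟩, ⟨.ofNat 1, .ofNat 0, c124x⟩⟩, []⟩,
  ⟨⟨⟨c74x, c76x, c56x, c85x⟩, ⟨.ofNat 0, .ofNat 0, c123x⟩, ⟨.ofNat 0, .ofNat 1, c227x⟩, ⟨.ofNat 1, .ofNat 0, c124x⟩⟩, [206, 207]⟩,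
  ⟨⟨⟨c74x, c76x, c85x, c77x⟩, ⟨.ofNat 0, .negSucc 0, c134x⟩, ⟨.ofNat 0, .ofNat 0, c146x⟩, ⟨.ofNat 1, .ofNat 0, c124x⟩⟩, [207, 208, 209, 210]⟩,
  ⟨⟨⟨c76x, c78x, c9x, c19x⟩, ⟨.ofNat 0, .ofNat 0, c123x⟩, ⟨.ofNat 0, .ofNat 1, c121x⟩, ⟨.ofNat 1, .ofNat 0, c124x⟩⟩, [73, 74, 75]⟩,
  ⟨⟨⟨c76x, c78x, c19x, c225x⟩, ⟨.ofNat 0, .negSucc 0, c225x⟩, ⟨.ofNat 0, .ofNat 0, c146x⟩, ⟨.ofNat 1, .ofNat 0, c124x⟩⟩, [72, 73, 75, 76]⟩,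
  ⟨⟨⟨c76x, c78x, c225x, c156x⟩, ⟨.ofNat 0, .ofNat 0, c1x⟩, ⟨.ofNat 0, .negSucc 0, c156x⟩, ⟨.ofNat 1, .ofNat 0, c124x⟩⟩, []⟩,
  ⟨⟨⟨c76x, c78x, c156x, c56x⟩, ⟨.ofNat 0, .ofNat 1, c226x⟩, ⟨.ofNat 0, .ofNat 0, c1x⟩, ⟨.ofNat 1, .ofNat 0, c124x⟩⟩, []⟩,
  ⟨⟨⟨c76x, c78x, c56x, c79x⟩, ⟨.ofNat 0, .ofNat 0, c123x⟩, ⟨.ofNat 0, .ofNat 1, c227x⟩, ⟨.ofNat 1, .ofNat 0, c124x⟩⟩, [205, 206, 207]⟩,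
  ⟨⟨⟨c78x, c80x, c12x, c225x⟩, ⟨.ofNat 0, .negSucc 0, c225x⟩, ⟨.ofNat 0, .ofNat 0, c146x⟩, ⟨.ofNat 1, .ofNat 0, c124x⟩⟩, [75, 76, 77]⟩,
  ⟨⟨⟨c78x, c80x, c225x, c156x⟩, ⟨.ofNat 0, .ofNat 0, c1x⟩, ⟨.ofNat 0, .negSucc 0, c156x⟩, ⟨.ofNat 1, .ofNat 0, c124x⟩⟩, []⟩,
  ⟨⟨⟨c78x, c80x, c156x, c56x⟩, ⟨.ofNat 0, .ofNat 1, c226x⟩, ⟨.ofNat 0, .ofNat 0, c1x⟩, ⟨.ofNat 1, .ofNat 0, c124x⟩⟩, []⟩,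
  ⟨⟨⟨c78x, c80x, c56x, c85x⟩, ⟨.ofNat 0, .ofNat 0, c123x⟩, ⟨.ofNat 0, .ofNat 1, c227x⟩, ⟨.ofNat 1, .ofNat 0, c124x⟩⟩, [202, 203, 205, 206]⟩,
  ⟨⟨⟨c78x, c80x, c85x, c81x⟩, ⟨.ofNat 0, .negSucc 0, c134x⟩, ⟨.ofNat 0, .ofNat 0, c146x⟩, ⟨.ofNat 1, .ofNat 0, c124x⟩⟩, [203, 204, 205]⟩,
  ⟨⟨⟨c80x, c82x, c15x, c19x⟩, ⟨.ofNat 0, .ofNat 0, c123x⟩, ⟨.ofNat 0, .ofNat 1, c121x⟩, ⟨.ofNat 1, .ofNat 0, c124x⟩⟩, [77, 78, 80, 81]⟩,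
  ⟨⟨⟨c80x, c82x, c19x, c225x⟩, ⟨.ofNat 0, .negSucc 0, c225x⟩, ⟨.ofNat 0, .ofNat 0, c146x⟩, ⟨.ofNat 1, .ofNat 0, c124x⟩⟩, [76, 77, 80, 81]⟩,
  ⟨⟨⟨c80x, c82x, c225x, c156x⟩, ⟨.ofNat 0, .ofNat 0, c1x⟩, ⟨.ofNat 0, .negSucc 0, c156x⟩, ⟨.ofNat 1, .ofNat 0, c124x⟩⟩, [81, 82]⟩,
  ⟨⟨⟨c80x, c82x, c156x, c56x⟩, ⟨.ofNat 0, .ofNat 1, c226x⟩, ⟨.ofNat 0, .ofNat 0, c1x⟩, ⟨.ofNat 1, .ofNat 0, c124x⟩⟩, []⟩,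
  ⟨⟨⟨c80x, c82x, c56x, c83x⟩, ⟨.ofNat 0, .ofNat 0, c123x⟩, ⟨.ofNat 0, .ofNat 1, c227x⟩, ⟨.ofNat 1, .ofNat 0, c124x⟩⟩, [202, 203]⟩,
  ⟨⟨⟨c82x, c84x, c15x, c19x⟩, ⟨.ofNat 0, .ofNat 0, c123x⟩, ⟨.ofNat 0, .ofNat 1, c121x⟩, ⟨.ofNat 1, .ofNat 0, c124x⟩⟩, [78, 79, 80, 81]⟩,
  ⟨⟨⟨c82x, c84x, c20x, c156x⟩, ⟨.ofNat 0, .ofNat 0, c1x⟩, ⟨.ofNat 0, .negSucc 0, c156x⟩, ⟨.ofNat 1, .ofNat 0, c124x⟩⟩, [81, 82]⟩,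
  ⟨⟨⟨c82x, c84x, c156x, c56x⟩, ⟨.ofNat 0, .ofNat 1, c226x⟩, ⟨.ofNat 0, .ofNat 0, c1x⟩, ⟨.ofNat 1, .ofNat 0, c124x⟩⟩, []⟩,
  ⟨⟨⟨c82x, c84x, c56x, c83x⟩, ⟨.ofNat 0, .ofNat 0, c123x⟩, ⟨.ofNat 0, .ofNat 1, c227x⟩, ⟨.ofNat 1, .ofNat 0, c124x⟩⟩, [201, 202]⟩,
  ⟨⟨⟨c82x, c84x, c85x, c134x⟩, ⟨.ofNat 0, .negSucc 0, c134x⟩, ⟨.ofNat 0, .ofNat 0, c146x⟩, ⟨.ofNat 1, .ofNat 0, c124x⟩⟩, [199, 200, 201]⟩,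
  ⟨⟨⟨c82x, c84x, c134x, c86x⟩, ⟨.ofNat 0, .ofNat 0, c1x⟩, ⟨.ofNat 0, .negSucc 0, c228x⟩, ⟨.ofNat 1, .ofNat 0, c124x⟩⟩, [198, 199]⟩,
  ⟨⟨⟨c84x, c87x, c20x, c156x⟩, ⟨.ofNat 0, .ofNat 0, c1x⟩, ⟨.ofNat 0, .negSucc 0, c156x⟩, ⟨.ofNat 1, .ofNat 0, c124x⟩⟩, [82, 83, 84]⟩,
  ⟨⟨⟨c84x, c87x, c156x, c56x⟩, ⟨.ofNat 0, .ofNat 1, c226x⟩, ⟨.ofNat 0, .ofNat 0, c1x⟩, ⟨.ofNat 1, .ofNat 0, c124x⟩⟩, []⟩,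
  ⟨⟨⟨c84x, c87x, c56x, c85x⟩, ⟨.ofNat 0, .ofNat 0, c123x⟩, ⟨.ofNat 0, .ofNat 1, c227x⟩, ⟨.ofNat 1, .ofNat 0, c124x⟩⟩, [200, 201, 202]⟩,
  ⟨⟨⟨c84x, c87x, c85x, c134x⟩, ⟨.ofNat 0, .negSucc 0, c134x⟩, ⟨.ofNat 0, .ofNat 0, c146x⟩, ⟨.ofNat 1, .ofNat 0, c124x⟩⟩, [200, 201]⟩,
  ⟨⟨⟨c84x, c87x, c134x, c86x⟩, ⟨.ofNat 0, .ofNat 0, c1x⟩, ⟨.ofNat 0, .negSucc 0, c228x⟩, ⟨.ofNat 1, .ofNat 0, c124x⟩⟩, [197, 198]⟩,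
  ⟨⟨⟨c87x, c88x, c24x, c156x⟩, ⟨.ofNat 0, .ofNat 0, c1x⟩, ⟨.ofNat 0, .negSucc 0, c156x⟩, ⟨.ofNat 1, .ofNat 0, c124x⟩⟩, [83, 84]⟩,
  ⟨⟨⟨c87x, c88x, c156x, c56x⟩, ⟨.ofNat 0, .ofNat 1, c226x⟩, ⟨.ofNat 0, .ofNat 0, c1x⟩, ⟨.ofNat 1, .ofNat 0, c124x⟩⟩, []⟩,
  ⟨⟨⟨c87x, c88x, c56x, c85x⟩, ⟨.ofNat 0, .ofNat 0, c123x⟩, ⟨.ofNat 0, .ofNat 1, c227x⟩, ⟨.ofNat 1, .ofNat 0, c124x⟩⟩, [188, 189, 190]⟩,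
  ⟨⟨⟨c87x, c88x, c85x, c134x⟩, ⟨.ofNat 0, .negSucc 0, c134x⟩, ⟨.ofNat 0, .ofNat 0, c146x⟩, ⟨.ofNat 1, .ofNat 0, c124x⟩⟩, [189, 190]⟩,
  ⟨⟨⟨c87x, c88x, c134x, c89x⟩, ⟨.ofNat 0, .ofNat 0, c1x⟩, ⟨.ofNat 0, .negSucc 0, c228x⟩, ⟨.ofNat 1, .ofNat 0, c124x⟩⟩, [196, 197, 198]⟩,
  ⟨⟨⟨c88x, c90x, c27x, c19x⟩, ⟨.ofNat 0, .ofNat 0, c123x⟩, ⟨.ofNat 0, .ofNat 1, c121x⟩, ⟨.ofNat 1, .ofNat 0, c124x⟩⟩, [90, 91, 92, 93, 94]⟩,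
  ⟨⟨⟨c88x, c90x, c24x, c156x⟩, ⟨.ofNat 0, .ofNat 0, c1x⟩, ⟨.ofNat 0, .negSucc 0, c156x⟩, ⟨.ofNat 1, .ofNat 0, c124x⟩⟩, [84, 85, 86]⟩,
  ⟨⟨⟨c88x, c90x, c156x, c56x⟩, ⟨.ofNat 0, .ofNat 1, c226x⟩, ⟨.ofNat 0, .ofNat 0, c1x⟩, ⟨.ofNat 1, .ofNat 0, c124x⟩⟩, []⟩,
  ⟨⟨⟨c88x, c90x, c56x, c91x⟩, ⟨.ofNat 0, .ofNat 0, c123x⟩, ⟨.ofNat 0, .ofNat 1, c227x⟩, ⟨.ofNat 1, .ofNat 0, c124x⟩⟩, [187, 188, 189]⟩,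
  ⟨⟨⟨c88x, c90x, c85x, c134x⟩, ⟨.ofNat 0, .negSucc 0, c134x⟩, ⟨.ofNat 0, .ofNat 0, c146x⟩, ⟨.ofNat 1, .ofNat 0, c124x⟩⟩, [189, 190]⟩,
  ⟨⟨⟨c88x, c90x, c134x, c89x⟩, ⟨.ofNat 0, .ofNat 0, c1x⟩, ⟨.ofNat 0, .negSucc 0, c228x⟩, ⟨.ofNat 1, .ofNat 0, c124x⟩⟩, [195, 196]⟩,
  ⟨⟨⟨c90x, c92x, c32x, c19x⟩, ⟨.ofNat 0, .ofNat 0, c123x⟩, ⟨.ofNat 0, .ofNat 1, c121x⟩, ⟨.ofNat 1, .ofNat 0, c124x⟩⟩, [89, 90, 93, 94]⟩,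
  ⟨⟨⟨c90x, c93x, c33x, c156x⟩, ⟨.ofNat 0, .ofNat 0, c1x⟩, ⟨.ofNat 0, .negSucc 0, c156x⟩, ⟨.ofNat 1, .ofNat 0, c124x⟩⟩, [85, 86, 87]⟩,
  ⟨⟨⟨c90x, c93x, c156x, c56x⟩, ⟨.ofNat 0, .ofNat 1, c226x⟩, ⟨.ofNat 0, .ofNat 0, c1x⟩, ⟨.ofNat 1, .ofNat 0, c124x⟩⟩, []⟩,
  ⟨⟨⟨c90x, c93x, c56x, c94x⟩, ⟨.ofNat 0, .ofNat 0, c123x⟩, ⟨.ofNat 0, .ofNat 1, c227x⟩, ⟨.ofNat 1, .ofNat 0, c124x⟩⟩, [186, 187, 188]⟩,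
  ⟨⟨⟨c90x, c93x, c85x, c134x⟩, ⟨.ofNat 0, .negSucc 0, c134x⟩, ⟨.ofNat 0, .ofNat 0, c146x⟩, ⟨.ofNat 1, .ofNat 0, c124x⟩⟩, [190]⟩,
  ⟨⟨⟨c90x, c93x, c134x, c95x⟩, ⟨.ofNat 0, .ofNat 0, c1x⟩, ⟨.ofNat 0, .negSucc 0, c228x⟩, ⟨.ofNat 1, .ofNat 0, c124x⟩⟩, [192, 193, 194, 195, 196]⟩,
  ⟨⟨⟨c93x, c92x, c36x, c156x⟩, ⟨.ofNat 0, .ofNat 0, c1x⟩, ⟨.ofNat 0, .negSucc 0, c156x⟩, ⟨.ofNat 1, .ofNat 0, c124x⟩⟩, [86, 87, 88, 89]⟩,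
  ⟨⟨⟨c93x, c92x, c156x, c56x⟩, ⟨.ofNat 0, .ofNat 1, c226x⟩, ⟨.ofNat 0, .ofNat 0, c1x⟩, ⟨.ofNat 1, .ofNat 0, c124x⟩⟩, []⟩,
  ⟨⟨⟨c93x, c92x, c56x, c94x⟩, ⟨.ofNat 0, .ofNat 0, c123x⟩, ⟨.ofNat 0, .ofNat 1, c227x⟩, ⟨.ofNat 1, .ofNat 0, c124x⟩⟩, [186]⟩,
  ⟨⟨⟨c93x, c92x, c85x, c134x⟩, ⟨.ofNat 0, .negSucc 0, c134x⟩, ⟨.ofNat 0, .ofNat 0, c146x⟩, ⟨.ofNat 1, .ofNat 0, c124x⟩⟩, [190, 191]⟩,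
  ⟨⟨⟨c93x, c92x, c134x, c96x⟩, ⟨.ofNat 0, .ofNat 0, c1x⟩, ⟨.ofNat 0, .negSucc 0, c228x⟩, ⟨.ofNat 1, .ofNat 0, c124x⟩⟩, [191, 192, 193]⟩,
  ⟨⟨⟨c92x, c97x, c32x, c19x⟩, ⟨.ofNat 0, .ofNat 0, c123x⟩, ⟨.ofNat 0, .ofNat 1, c121x⟩, ⟨.ofNat 1, .ofNat 0, c124x⟩⟩, [89, 90, 94]⟩,
  ⟨⟨⟨c92x, c97x, c19x, c225x⟩, ⟨.ofNat 0, .negSucc 0, c225x⟩, ⟨.ofNat 0, .ofNat 0, c146x⟩, ⟨.ofNat 1, .ofNat 0, c124x⟩⟩, [89, 90, 98, 99]⟩,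
  ⟨⟨⟨c92x, c97x, c225x, c156x⟩, ⟨.ofNat 0, .ofNat 0, c1x⟩, ⟨.ofNat 0, .negSucc 0, c156x⟩, ⟨.ofNat 1, .ofNat 0, c124x⟩⟩, [88, 89, 99, 100]⟩,
  ⟨⟨⟨c92x, c97x, c156x, c56x⟩, ⟨.ofNat 0, .ofNat 1, c226x⟩, ⟨.ofNat 0, .ofNat 0, c1x⟩, ⟨.ofNat 1, .ofNat 0, c124x⟩⟩, []⟩,
  ⟨⟨⟨c92x, c97x, c56x, c94x⟩, ⟨.ofNat 0, .ofNat 0, c123x⟩, ⟨.ofNat 0, .ofNat 1, c227x⟩, ⟨.ofNat 1, .ofNat 0, c124x⟩⟩, [186]⟩,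
  ⟨⟨⟨c97x, c98x, c32x, c19x⟩, ⟨.ofNat 0, .ofNat 0, c123x⟩, ⟨.ofNat 0, .ofNat 1, c121x⟩, ⟨.ofNat 1, .ofNat 0, c124x⟩⟩, [94, 96, 97]⟩,
  ⟨⟨⟨c97x, c98x, c19x, c6x⟩, ⟨.ofNat 0, .negSucc 0, c225x⟩, ⟨.ofNat 0, .ofNat 0, c146x⟩, ⟨.ofNat 1, .ofNat 0, c124x⟩⟩, [97, 98, 99]⟩,
  ⟨⟨⟨c97x, c99x, c40x, c156x⟩, ⟨.ofNat 0, .ofNat 0, c1x⟩, ⟨.ofNat 0, .negSucc 0, c156x⟩, ⟨.ofNat 1, .ofNat 0, c124x⟩⟩, [99, 100]⟩,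
  ⟨⟨⟨c97x, c99x, c156x, c56x⟩, ⟨.ofNat 0, .ofNat 1, c226x⟩, ⟨.ofNat 0, .ofNat 0, c1x⟩, ⟨.ofNat 1, .ofNat 0, c124x⟩⟩, []⟩,
  ⟨⟨⟨c97x, c99x, c56x, c94x⟩, ⟨.ofNat 0, .ofNat 0, c123x⟩, ⟨.ofNat 0, .ofNat 1, c227x⟩, ⟨.ofNat 1, .ofNat 0, c124x⟩⟩, [185, 186]⟩,
  ⟨⟨⟨c97x, c98x, c77x, c134x⟩, ⟨.ofNat 0, .negSucc 0, c134x⟩, ⟨.ofNat 0, .ofNat 0, c146x⟩, ⟨.ofNat 1, .ofNat 0, c124x⟩⟩, [181, 182, 183]⟩,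
  ⟨⟨⟨c97x, c98x, c134x, c100x⟩, ⟨.ofNat 0, .ofNat 0, c1x⟩, ⟨.ofNat 0, .negSucc 0, c228x⟩, ⟨.ofNat 1, .ofNat 0, c124x⟩⟩, [180, 181]⟩,
  ⟨⟨⟨c98x, c99x, c32x, c15x⟩, ⟨.ofNat 0, .ofNat 0, c123x⟩, ⟨.ofNat 0, .ofNat 1, c121x⟩, ⟨.ofNat 1, .ofNat 0, c124x⟩⟩, [94, 95, 96, 97]⟩,
  ⟨⟨⟨c98x, c99x, c83x, c85x⟩, ⟨.ofNat 0, .ofNat 0, c123x⟩, ⟨.ofNat 0, .ofNat 1, c227x⟩, ⟨.ofNat 1, .ofNat 0, c124x⟩⟩, [183, 184, 185]⟩,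
  ⟨⟨⟨c98x, c99x, c85x, c134x⟩, ⟨.ofNat 0, .negSucc 0, c134x⟩, ⟨.ofNat 0, .ofNat 0, c146x⟩, ⟨.ofNat 1, .ofNat 0, c124x⟩⟩, [182, 183]⟩,
  ⟨⟨⟨c98x, c99x, c134x, c100x⟩, ⟨.ofNat 0, .ofNat 0, c1x⟩, ⟨.ofNat 0, .negSucc 0, c228x⟩, ⟨.ofNat 1, .ofNat 0, c124x⟩⟩, [180]⟩,
  ⟨⟨⟨c99x, c101x, c40x, c156x⟩, ⟨.ofNat 0, .ofNat 0, c1x⟩, ⟨.ofNat 0, .negSucc 0, c156x⟩, ⟨.ofNat 1, .ofNat 0, c124x⟩⟩, [100, 101]⟩,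
  ⟨⟨⟨c99x, c101x, c156x, c56x⟩, ⟨.ofNat 0, .ofNat 1, c226x⟩, ⟨.ofNat 0, .ofNat 0, c1x⟩, ⟨.ofNat 1, .ofNat 0, c124x⟩⟩, []⟩,
  ⟨⟨⟨c99x, c101x, c56x, c85x⟩, ⟨.ofNat 0, .ofNat 0, c123x⟩, ⟨.ofNat 0, .ofNat 1, c227x⟩, ⟨.ofNat 1, .ofNat 0, c124x⟩⟩, [184, 185, 186]⟩,
  ⟨⟨⟨c99x, c101x, c85x, c134x⟩, ⟨.ofNat 0, .negSucc 0, c134x⟩, ⟨.ofNat 0, .ofNat 0, c146x⟩, ⟨.ofNat 1, .ofNat 0, c124x⟩⟩, [178, 179]⟩,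
  ⟨⟨⟨c99x, c101x, c134x, c100x⟩, ⟨.ofNat 0, .ofNat 0, c1x⟩, ⟨.ofNat 0, .negSucc 0, c228x⟩, ⟨.ofNat 1, .ofNat 0, c124x⟩⟩, [179, 180]⟩,
  ⟨⟨⟨c101x, c102x, c12x, c225x⟩, ⟨.ofNat 0, .negSucc 0, c225x⟩, ⟨.ofNat 0, .ofNat 0, c146x⟩, ⟨.ofNat 1, .ofNat 0, c124x⟩⟩, [101, 102, 103, 104]⟩,
  ⟨⟨⟨c101x, c102x, c225x, c156x⟩, ⟨.ofNat 0, .ofNat 0, c1x⟩, ⟨.ofNat 0, .negSucc 0, c156x⟩, ⟨.ofNat 1, .ofNat 0, c124x⟩⟩, [100, 101]⟩,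
  ⟨⟨⟨c101x, c102x, c156x, c56x⟩, ⟨.ofNat 0, .ofNat 1, c226x⟩, ⟨.ofNat 0, .ofNat 0, c1x⟩, ⟨.ofNat 1, .ofNat 0, c124x⟩⟩, []⟩,
  ⟨⟨⟨c101x, c102x, c56x, c85x⟩, ⟨.ofNat 0, .ofNat 0, c123x⟩, ⟨.ofNat 0, .ofNat 1, c227x⟩, ⟨.ofNat 1, .ofNat 0, c124x⟩⟩, []⟩,
  ⟨⟨⟨c101x, c102x, c85x, c81x⟩, ⟨.ofNat 0, .negSucc 0, c134x⟩, ⟨.ofNat 0, .ofNat 0, c146x⟩, ⟨.ofNat 1, .ofNat 0, c124x⟩⟩, [177, 178, 179]⟩,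
  ⟨⟨⟨c102x, c103x, c3x, c225x⟩, ⟨.ofNat 0, .negSucc 0, c225x⟩, ⟨.ofNat 0, .ofNat 0, c146x⟩, ⟨.ofNat 1, .ofNat 0, c124x⟩⟩, [103, 104, 105]⟩,
  ⟨⟨⟨c102x, c103x, c225x, c156x⟩, ⟨.ofNat 0, .ofNat 0, c1x⟩, ⟨.ofNat 0, .negSucc 0, c156x⟩, ⟨.ofNat 1, .ofNat 0, c124x⟩⟩, [105]⟩,
  ⟨⟨⟨c102x, c103x, c156x, c56x⟩, ⟨.ofNat 0, .ofNat 1, c226x⟩, ⟨.ofNat 0, .ofNat 0, c1x⟩, ⟨.ofNat 1, .ofNat 0, c124x⟩⟩, [105, 106]⟩,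
  ⟨⟨⟨c102x, c103x, c56x, c85x⟩, ⟨.ofNat 0, .ofNat 0, c123x⟩, ⟨.ofNat 0, .ofNat 1, c227x⟩, ⟨.ofNat 1, .ofNat 0, c124x⟩⟩, []⟩,
  ⟨⟨⟨c102x, c103x, c85x, c75x⟩, ⟨.ofNat 0, .negSucc 0, c134x⟩, ⟨.ofNat 0, .ofNat 0, c146x⟩, ⟨.ofNat 1, .ofNat 0, c124x⟩⟩, [176, 177, 178]⟩,
  ⟨⟨⟨c103x, c104x, c45x, c56x⟩, ⟨.ofNat 0, .ofNat 1, c226x⟩, ⟨.ofNat 0, .ofNat 0, c1x⟩, ⟨.ofNat 1, .ofNat 0, c124x⟩⟩, [105, 106, 107]⟩,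
  ⟨⟨⟨c103x, c104x, c56x, c85x⟩, ⟨.ofNat 0, .ofNat 0, c123x⟩, ⟨.ofNat 0, .ofNat 1, c227x⟩, ⟨.ofNat 1, .ofNat 0, c124x⟩⟩, []⟩,
  ⟨⟨⟨c103x, c104x, c85x, c75x⟩, ⟨.ofNat 0, .negSucc 0, c134x⟩, ⟨.ofNat 0, .ofNat 0, c146x⟩, ⟨.ofNat 1, .ofNat 0, c124x⟩⟩, [175, 176]⟩,
  ⟨⟨⟨c104x, c105x, c47x, c56x⟩, ⟨.ofNat 0, .ofNat 1, c226x⟩, ⟨.ofNat 0, .ofNat 0, c1x⟩, ⟨.ofNat 1, .ofNat 0, c124x⟩⟩, [106, 107, 108, 109]⟩,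
  ⟨⟨⟨c104x, c105x, c56x, c85x⟩, ⟨.ofNat 0, .ofNat 0, c123x⟩, ⟨.ofNat 0, .ofNat 1, c227x⟩, ⟨.ofNat 1, .ofNat 0, c124x⟩⟩, [109, 110, 172, 173]⟩,
  ⟨⟨⟨c104x, c105x, c85x, c77x⟩, ⟨.ofNat 0, .negSucc 0, c134x⟩, ⟨.ofNat 0, .ofNat 0, c146x⟩, ⟨.ofNat 1, .ofNat 0, c124x⟩⟩, [173, 174, 175, 176]⟩,
  ⟨⟨⟨c105x, c106x, c49x, c79x⟩, ⟨.ofNat 0, .ofNat 0, c123x⟩, ⟨.ofNat 0, .ofNat 1, c227x⟩, ⟨.ofNat 1, .ofNat 0, c124x⟩⟩, [109, 110, 111, 171, 172, 173]⟩,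
  ⟨⟨⟨c106x, c107x, c51x, c56x⟩, ⟨.ofNat 0, .ofNat 1, c226x⟩, ⟨.ofNat 0, .ofNat 0, c1x⟩, ⟨.ofNat 1, .ofNat 0, c124x⟩⟩, [111, 112, 113]⟩,
  ⟨⟨⟨c106x, c107x, c56x, c85x⟩, ⟨.ofNat 0, .ofNat 0, c123x⟩, ⟨.ofNat 0, .ofNat 1, c227x⟩, ⟨.ofNat 1, .ofNat 0, c124x⟩⟩, [110, 111, 113, 114, 168, 169, 171, 172]⟩,
  ⟨⟨⟨c106x, c107x, c85x, c81x⟩, ⟨.ofNat 0, .negSucc 0, c134x⟩, ⟨.ofNat 0, .ofNat 0, c146x⟩, ⟨.ofNat 1, .ofNat 0, c124x⟩⟩, [169, 170, 171]⟩,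
  ⟨⟨⟨c107x, c108x, c53x, c83x⟩, ⟨.ofNat 0, .ofNat 0, c123x⟩, ⟨.ofNat 0, .ofNat 1, c227x⟩, ⟨.ofNat 1, .ofNat 0, c124x⟩⟩, [113, 114, 115, 167, 168, 169]⟩,
  ⟨⟨⟨c109x, c108x, c55x, c56x⟩, ⟨.ofNat 0, .ofNat 0, c123x⟩, ⟨.negSucc 0, .ofNat 0, c108x⟩, ⟨.ofNat 0, .ofNat 1, c229x⟩⟩, [115, 116, 117, 118]⟩,
  ⟨⟨⟨c109x, c108x, c85x, c86x⟩, ⟨.ofNat 0, .ofNat 0, c123x⟩, ⟨.ofNat 1, .ofNat 0, c230x⟩, ⟨.ofNat 0, .negSucc 0, c231x⟩⟩, [164, 165, 166, 167]⟩,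
  ⟨⟨⟨c108x, c110x, c55x, c56x⟩, ⟨.negSucc 0, .ofNat 0, c111x⟩, ⟨.ofNat 0, .ofNat 0, c1x⟩, ⟨.ofNat 0, .ofNat 1, c229x⟩⟩, [115, 116, 118, 119]⟩,
  ⟨⟨⟨c108x, c110x, c56x, c85x⟩, ⟨.negSucc 0, .ofNat 0, c111x⟩, ⟨.ofNat 0, .ofNat 1, c227x⟩, ⟨.ofNat 0, .ofNat 0, c232x⟩⟩, [114, 115, 116, 166, 167, 168]⟩,
  ⟨⟨⟨c108x, c110x, c85x, c86x⟩, ⟨.negSucc 0, .ofNat 0, c111x⟩, ⟨.ofNat 0, .ofNat 0, c146x⟩, ⟨.ofNat 0, .negSucc 0, c231x⟩⟩, [163, 164, 166, 167]⟩,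
  ⟨⟨⟨c110x, c111x, c59x, c56x⟩, ⟨.negSucc 0, .ofNat 0, c111x⟩, ⟨.ofNat 0, .ofNat 0, c1x⟩, ⟨.ofNat 0, .ofNat 1, c229x⟩⟩, [118, 119, 120, 126, 127]⟩,
  ⟨⟨⟨c110x, c111x, c56x, c85x⟩, ⟨.negSucc 0, .ofNat 0, c111x⟩, ⟨.ofNat 0, .ofNat 1, c227x⟩, ⟨.ofNat 0, .ofNat 0, c232x⟩⟩, [126, 127, 128, 154, 155, 156]⟩,
  ⟨⟨⟨c110x, c111x, c85x, c89x⟩, ⟨.negSucc 0, .ofNat 0, c111x⟩, ⟨.ofNat 0, .ofNat 0, c146x⟩, ⟨.ofNat 0, .negSucc 0, c231x⟩⟩, [155, 156, 162, 163, 164]⟩,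
  ⟨⟨⟨c111x, c112x, c59x, c56x⟩, ⟨.ofNat 0, .ofNat 0, c1x⟩, ⟨.ofNat 1, .ofNat 0, c233x⟩, ⟨.ofNat 0, .ofNat 1, c229x⟩⟩, [120, 121, 126, 127]⟩,
  ⟨⟨⟨c111x, c112x, c61x, c91x⟩, ⟨.ofNat 0, .ofNat 0, c1x⟩, ⟨.ofNat 0, .ofNat 1, c227x⟩, ⟨.negSucc 0, .ofNat 0, c234x⟩⟩, [127, 128, 129, 153, 154, 155]⟩,
  ⟨⟨⟨c111x, c112x, c85x, c89x⟩, ⟨.ofNat 0, .ofNat 0, c1x⟩, ⟨.negSucc 0, .ofNat 0, c235x⟩, ⟨.ofNat 0, .negSucc 0, c231x⟩⟩, [155, 156, 161, 162]⟩,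
  ⟨⟨⟨c112x, c113x, c63x, c56x⟩, ⟨.ofNat 0, .ofNat 0, c1x⟩, ⟨.ofNat 1, .ofNat 0, c233x⟩, ⟨.ofNat 0, .ofNat 1, c229x⟩⟩, [120, 121, 122, 123, 124, 126]⟩,
  ⟨⟨⟨c112x, c114x, c65x, c94x⟩, ⟨.ofNat 0, .ofNat 0, c1x⟩, ⟨.ofNat 0, .ofNat 1, c227x⟩, ⟨.negSucc 0, .ofNat 0, c234x⟩⟩, [128, 129, 130, 131, 151, 152, 153, 154]⟩,
  ⟨⟨⟨c112x, c113x, c85x, c95x⟩, ⟨.ofNat 0, .ofNat 0, c1x⟩, ⟨.negSucc 0, .ofNat 0, c235x⟩, ⟨.ofNat 0, .negSucc 0, c231x⟩⟩, [156, 158, 159, 160, 161, 162]⟩,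
  ⟨⟨⟨c113x, c115x, c66x, c56x⟩, ⟨.ofNat 0, .ofNat 0, c1x⟩, ⟨.ofNat 1, .ofNat 0, c233x⟩, ⟨.ofNat 0, .ofNat 1, c229x⟩⟩, [123, 124, 125, 126]⟩,
  ⟨⟨⟨c113x, c115x, c85x, c96x⟩, ⟨.ofNat 0, .ofNat 0, c1x⟩, ⟨.negSucc 0, .ofNat 0, c235x⟩, ⟨.ofNat 0, .negSucc 0, c231x⟩⟩, [156, 157, 158, 159]⟩,
  ⟨⟨⟨c116x, c117x, c70x, c156x⟩, ⟨.ofNat 0, .ofNat 0, c123x⟩, ⟨.ofNat 0, .negSucc 0, c156x⟩, ⟨.negSucc 0, .ofNat 0, c234x⟩⟩, [135, 136]⟩,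
  ⟨⟨⟨c116x, c117x, c156x, c47x⟩, ⟨.ofNat 0, .negSucc 0, c56x⟩, ⟨.ofNat 0, .ofNat 0, c1x⟩, ⟨.negSucc 0, .ofNat 0, c234x⟩⟩, [133, 134, 135]⟩,
  ⟨⟨⟨c116x, c117x, c77x, c134x⟩, ⟨.ofNat 0, .ofNat 1, c128x⟩, ⟨.ofNat 0, .ofNat 0, c146x⟩, ⟨.negSucc 0, .ofNat 0, c234x⟩⟩, [147, 148, 149]⟩,
  ⟨⟨⟨c116x, c117x, c134x, c100x⟩, ⟨.ofNat 0, .ofNat 0, c123x⟩, ⟨.ofNat 0, .negSucc 0, c228x⟩, ⟨.negSucc 0, .ofNat 0, c234x⟩⟩, [146, 147]⟩,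
  ⟨⟨⟨c117x, c114x, c70x, c156x⟩, ⟨.ofNat 0, .ofNat 0, c123x⟩, ⟨.ofNat 0, .negSucc 0, c156x⟩, ⟨.negSucc 0, .ofNat 0, c234x⟩⟩, [136]⟩,
  ⟨⟨⟨c117x, c114x, c156x, c56x⟩, ⟨.ofNat 0, .negSucc 0, c56x⟩, ⟨.ofNat 0, .ofNat 0, c1x⟩, ⟨.negSucc 0, .ofNat 0, c234x⟩⟩, [133, 134]⟩,
  ⟨⟨⟨c117x, c114x, c56x, c53x⟩, ⟨.ofNat 0, .ofNat 0, c1x⟩, ⟨.ofNat 0, .ofNat 1, c227x⟩, ⟨.negSucc 0, .ofNat 0, c234x⟩⟩, [131, 132, 133]⟩,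
  ⟨⟨⟨c117x, c114x, c83x, c85x⟩, ⟨.ofNat 0, .ofNat 0, c1x⟩, ⟨.ofNat 0, .ofNat 1, c227x⟩, ⟨.negSucc 0, .ofNat 0, c234x⟩⟩, [149, 150, 151]⟩,
  ⟨⟨⟨c117x, c114x, c85x, c134x⟩, ⟨.ofNat 0, .ofNat 1, c128x⟩, ⟨.ofNat 0, .ofNat 0, c146x⟩, ⟨.negSucc 0, .ofNat 0, c234x⟩⟩, [148, 149]⟩,
  ⟨⟨⟨c117x, c114x, c134x, c100x⟩, ⟨.ofNat 0, .ofNat 0, c123x⟩, ⟨.ofNat 0, .negSucc 0, c228x⟩, ⟨.negSucc 0, .ofNat 0, c234x⟩⟩, [146]⟩,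
  ⟨⟨⟨c114x, c118x, c70x, c156x⟩, ⟨.ofNat 0, .ofNat 0, c123x⟩, ⟨.ofNat 0, .negSucc 0, c156x⟩, ⟨.negSucc 0, .ofNat 0, c234x⟩⟩, [136, 137]⟩,
  ⟨⟨⟨c114x, c118x, c156x, c56x⟩, ⟨.ofNat 0, .negSucc 0, c56x⟩, ⟨.ofNat 0, .ofNat 0, c1x⟩, ⟨.negSucc 0, .ofNat 0, c234x⟩⟩, [137, 138]⟩,
  ⟨⟨⟨c114x, c118x, c56x, c85x⟩, ⟨.ofNat 0, .ofNat 0, c1x⟩, ⟨.ofNat 0, .ofNat 1, c227x⟩, ⟨.negSucc 0, .ofNat 0, c234x⟩⟩, [130, 131, 132, 150, 151, 152]⟩,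
  ⟨⟨⟨c114x, c118x, c85x, c134x⟩, ⟨.ofNat 0, .ofNat 1, c128x⟩, ⟨.ofNat 0, .ofNat 0, c146x⟩, ⟨.negSucc 0, .ofNat 0, c234x⟩⟩, [144, 145]⟩,
  ⟨⟨⟨c114x, c118x, c134x, c100x⟩, ⟨.ofNat 0, .ofNat 0, c123x⟩, ⟨.ofNat 0, .negSucc 0, c228x⟩, ⟨.negSucc 0, .ofNat 0, c234x⟩⟩, [145, 146]⟩,
  ⟨⟨⟨c118x, c119x, c51x, c56x⟩, ⟨.ofNat 0, .negSucc 0, c56x⟩, ⟨.ofNat 0, .ofNat 0, c1x⟩, ⟨.negSucc 0, .ofNat 0, c234x⟩⟩, [137, 138, 139]⟩,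
  ⟨⟨⟨c118x, c119x, c56x, c85x⟩, ⟨.ofNat 0, .ofNat 0, c1x⟩, ⟨.ofNat 0, .ofNat 1, c227x⟩, ⟨.negSucc 0, .ofNat 0, c234x⟩⟩, []⟩,
  ⟨⟨⟨c118x, c119x, c85x, c81x⟩, ⟨.ofNat 0, .ofNat 1, c128x⟩, ⟨.ofNat 0, .ofNat 0, c146x⟩, ⟨.negSucc 0, .ofNat 0, c234x⟩⟩, [143, 144, 145]⟩,
  ⟨⟨⟨c119x, c120x, c45x, c56x⟩, ⟨.ofNat 0, .negSucc 0, c56x⟩, ⟨.ofNat 0, .ofNat 0, c1x⟩, ⟨.negSucc 0, .ofNat 0, c234x⟩⟩, [138, 139, 140, 141]⟩,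
  ⟨⟨⟨c119x, c120x, c56x, c85x⟩, ⟨.ofNat 0, .ofNat 0, c1x⟩, ⟨.ofNat 0, .ofNat 1, c227x⟩, ⟨.negSucc 0, .ofNat 0, c234x⟩⟩, [141]⟩,
  ⟨⟨⟨c119x, c120x, c85x, c75x⟩, ⟨.ofNat 0, .ofNat 1, c128x⟩, ⟨.ofNat 0, .ofNat 0, c146x⟩, ⟨.negSucc 0, .ofNat 0, c234x⟩⟩, [141, 142, 143, 144]⟩]

def own : List ℕ := [0, 0, 0, 1, 1, 1, 2, 3, 3, 3, 4, 5, 6, 7, 7, 7, 8, 8, 8, 9, 10, 11, 12, 13, 14, 15, 16, 17, 17, 18, 18, 19, 19, 19, 20, 20, 20, 21, 21, 21, 21, 21, 22, 22, 22, 23, 23, 23, 24, 24, 24, 24, 24, 25, 25, 25, 25, 25, 26, 26, 26, 26, 26, 27, 27, 27, 27, 27, 28, 28, 28, 28, 28, 29, 29, 30, 30, 30, 31, 32, 32, 32, 32, 32, 33, 33, 33, 33, 33, 34, 34, 35, 35, 35, 36, 37, 37, 38, 38, 38, 39, 40, 40,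 41, 41, 41, 42, 42, 42, 42, 42, 43, 43, 44, 44, 44, 45, 45, 46, 46, 46, 47, 48, 48, 48, 48, 48, 49, 49, 49, 49, 49, 50, 50, 50, 50, 50, 51, 51, 51, 51, 51, 52, 52, 52, 52, 52, 53, 53, 53, 53, 53, 54, 54, 54, 54, 54, 55, 55, 55, 55, 55, 56, 57, 57, 57, 58, 58, 59, 59, 59, 59, 59, 60, 60, 60, 60, 60, 61, 62, 62, 62, 63, 63, 64, 65, 65, 65, 66, 66, 67, 67, 67, 68, 68, 69, 69, 69, 69, 69, 70, 70, 71, 71, 71, 72, 72, 73, 74, 74, 74, 75, 75, 75, 75, 75, 76, 76, 76, 76, 76, 77, 77, 77, 77, 77, 78, 78, 78, 79, 79, 79, 80, 81, 81, 81, 82, 83, 84, 85, 85, 85, 86, 86, 86, 87, 88, 89, 90, 91, 92, 93, 94, 95, 95, 96, 96, 97, 97, 97, 98, 98, 98, 99, 99, 99, 99, 99, 100, 100, 100, 101, 101, 101]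

def ct : List Tr := [
  .sy c18x (.leaf 0) (.sy c19x (.leaf 1) (.leaf 2)),
  .sy c18x (.leaf 3) (.sy c19x (.leaf 4) (.leaf 5)),
  .leaf 6,
  .sy c18x (.leaf 7) (.sy c19x (.leaf 8) (.leaf 9)),
  .leaf 10,
  .leaf 11,
  .leaf 12,
  .sy c18x (.leaf 13) (.sy c19x (.leaf 14) (.leaf 15)),
  .sy c18x (.leaf 16) (.sy c19x (.leaf 17) (.leaf 18)),
  .leaf 19,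
  .leaf 20,
  .leaf 21,
  .leaf 22,
  .leaf 23,
  .leaf 24,
  .leaf 25,
  .leaf 26,
  .sy c121x (.leaf 27) (.leaf 28),
  .sy c225x (.leaf 29) (.leaf 30),
  .sy c121x (.leaf 31) (.sy c18x (.leaf 32) (.leaf 33)),
  .sy c19x (.leaf 34) (.sy c225x (.leaf 35) (.leaf 36)),
  .sy c18x (.sy c121x (.leaf 37) (.leaf 38)) (.sy c19x (.leaf 39) (.sy c225x (.leaf 40) (.leaf 41))),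
  .sy c18x (.leaf 42) (.sy c19x (.leaf 43) (.leaf 44)),
  .sy c18x (.leaf 45) (.sy c19x (.leaf 46) (.leaf 47)),
  .sy c19x (.sy c18x (.leaf 48) (.leaf 49)) (.sy c225x (.leaf 50) (.sy c156x (.leaf 51) (.leaf 52))),
  .sy c19x (.sy c18x (.leaf 53) (.leaf 54)) (.sy c225x (.leaf 55) (.sy c156x (.leaf 56) (.leaf 57))),
  .sy c225x (.sy c19x (.leaf 58) (.leaf 59)) (.sy c156x (.leaf 60) (.sy c56x (.leaf 61) (.leaf 62))),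
  .sy c19x (.sy c18x (.leaf 63) (.leaf 64)) (.sy c225x (.leaf 65) (.sy c156x (.leaf 66) (.leaf 67))),
  .sy c225x (.sy c19x (.leaf 68) (.leaf 69)) (.sy c156x (.leaf 70) (.sy c56x (.leaf 71) (.leaf 72))),
  .sy c121x (.leaf 73) (.leaf 74),
  .sy c19x (.leaf 75) (.sy c225x (.leaf 76) (.leaf 77)),
  .leaf 78,
  .sy c18x (.sy c121x (.leaf 79) (.leaf 80)) (.sy c19x (.leaf 81) (.sy c225x (.leaf 82) (.leaf 83))),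
  .sy c18x (.sy c121x (.leaf 84) (.leaf 85)) (.sy c19x (.leaf 86) (.sy c225x (.leaf 87) (.leaf 88))),
  .sy c121x (.leaf 89) (.leaf 90),
  .sy c19x (.leaf 91) (.sy c225x (.leaf 92) (.leaf 93)),
  .leaf 94,
  .sy c121x (.leaf 95) (.leaf 96),
  .sy c19x (.leaf 97) (.sy c225x (.leaf 98) (.leaf 99)),
  .leaf 100,
  .sy c121x (.leaf 101) (.leaf 102),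
  .sy c19x (.leaf 103) (.sy c225x (.leaf 104) (.leaf 105)),
  .sy c225x (.sy c19x (.leaf 106) (.leaf 107)) (.sy c156x (.leaf 108) (.sy c56x (.leaf 109) (.leaf 110))),
  .sy c121x (.leaf 111) (.leaf 112),
  .sy c19x (.leaf 113) (.sy c225x (.leaf 114) (.leaf 115)),
  .sy c56x (.leaf 116) (.leaf 117),
  .sy c121x (.leaf 118) (.sy c18x (.leaf 119) (.leaf 120)),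
  .leaf 121,
  .sy c18x (.sy c121x (.leaf 122) (.leaf 123)) (.sy c19x (.leaf 124) (.sy c225x (.leaf 125) (.leaf 126))),
  .sy c19x (.sy c18x (.leaf 127) (.leaf 128)) (.sy c225x (.leaf 129) (.sy c156x (.leaf 130) (.leaf 131))),
  .sy c19x (.sy c18x (.leaf 132) (.leaf 133)) (.sy c225x (.leaf 134) (.sy c156x (.leaf 135) (.leaf 136))),
  .sy c156x (.sy c225x (.leaf 137) (.leaf 138)) (.sy c56x (.leaf 139) (.sy c85x (.leaf 140) (.leaf 141))),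
  .sy c156x (.sy c225x (.leaf 142) (.leaf 143)) (.sy c56x (.leaf 144) (.sy c85x (.leaf 145) (.leaf 146))),
  .sy c225x (.sy c19x (.leaf 147) (.leaf 148)) (.sy c156x (.leaf 149) (.sy c56x (.leaf 150) (.leaf 151))),
  .sy c156x (.sy c225x (.leaf 152) (.leaf 153)) (.sy c56x (.leaf 154) (.sy c85x (.leaf 155) (.leaf 156))),
  .sy c225x (.sy c19x (.leaf 157) (.leaf 158)) (.sy c156x (.leaf 159) (.sy c56x (.leaf 160) (.leaf 161))),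
  .leaf 162,
  .sy c156x (.leaf 163) (.sy c56x (.leaf 164) (.leaf 165)),
  .sy c134x (.leaf 166) (.leaf 167),
  .sy c56x (.sy c156x (.leaf 168) (.leaf 169)) (.sy c85x (.leaf 170) (.sy c134x (.leaf 171) (.leaf 172))),
  .sy c56x (.sy c156x (.leaf 173) (.leaf 174)) (.sy c85x (.leaf 175) (.sy c134x (.leaf 176) (.leaf 177))),
  .leaf 178,
  .sy c156x (.leaf 179) (.sy c56x (.leaf 180) (.leaf 181)),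
  .sy c134x (.leaf 182) (.leaf 183),
  .leaf 184,
  .sy c156x (.leaf 185) (.sy c56x (.leaf 186) (.leaf 187)),
  .sy c134x (.leaf 188) (.leaf 189),
  .sy c156x (.leaf 190) (.sy c56x (.leaf 191) (.leaf 192)),
  .sy c134x (.leaf 193) (.leaf 194),
  .sy c225x (.sy c19x (.leaf 195) (.leaf 196)) (.sy c156x (.leaf 197) (.sy c56x (.leaf 198) (.leaf 199))),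
  .sy c19x (.leaf 200) (.leaf 201),
  .sy c156x (.leaf 202) (.sy c56x (.leaf 203) (.leaf 204)),
  .sy c134x (.leaf 205) (.leaf 206),
  .leaf 207,
  .sy c85x (.leaf 208) (.sy c134x (.leaf 209) (.leaf 210)),
  .sy c56x (.sy c156x (.leaf 211) (.leaf 212)) (.sy c85x (.leaf 213) (.sy c134x (.leaf 214) (.leaf 215))),
  .sy c156x (.sy c225x (.leaf 216) (.leaf 217)) (.sy c56x (.leaf 218) (.sy c85x (.leaf 219) (.leaf 220))),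
  .sy c156x (.sy c225x (.leaf 221) (.leaf 222)) (.sy c56x (.leaf 223) (.sy c85x (.leaf 224) (.leaf 225))),
  .sy c56x (.leaf 226) (.sy c85x (.leaf 227) (.leaf 228)),
  .sy c56x (.leaf 229) (.sy c85x (.leaf 230) (.leaf 231)),
  .leaf 232,
  .sy c56x (.leaf 233) (.sy c85x (.leaf 234) (.leaf 235)),
  .leaf 236,
  .leaf 237,
  .leaf 238,
  .sy c56x (.leaf 239) (.sy c85x (.leaf 240) (.leaf 241)),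
  .sy c56x (.leaf 242) (.sy c85x (.leaf 243) (.leaf 244)),
  .leaf 245,
  .leaf 246,
  .leaf 247,
  .leaf 248,
  .leaf 249,
  .leaf 250,
  .leaf 251,
  .leaf 252,
  .sy c156x (.leaf 253) (.leaf 254),
  .sy c134x (.leaf 255) (.leaf 256),
  .sy c156x (.leaf 257) (.sy c56x (.leaf 258) (.leaf 259)),
  .sy c85x (.leaf 260) (.sy c134x (.leaf 261) (.leaf 262)),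
  .sy c56x (.sy c156x (.leaf 263) (.leaf 264)) (.sy c85x (.leaf 265) (.sy c134x (.leaf 266) (.leaf 267))),
  .sy c56x (.leaf 268) (.sy c85x (.leaf 269) (.leaf 270)),
  .sy c56x (.leaf 271) (.sy c85x (.leaf 272) (.leaf 273))]

def t0x : Tr :=
  .sy c54x (.sy c165x (.sy c149x (.sy c141x (.sy c142x (.sx c144x (.leaf 11) (.sx c143x (.leaf 10) (.leaf 12))) (.leaf 8)) (.sx c150x (.sy c151x (.leaf 27) (.sy c152x (.leaf 31) (.leaf 37))) (.sx c32x (.leaf 6) (.sy c151x (.leaf 30) (.sy c152x (.leaf 36) (.leaf 41)))))) (.sy c155x (.sy c153x (.leaf 4) (.sy c13x (.leaf 1) (.leaf 51))) (.sy c162x (.sy c140x (.leaf 56) (.leaf 60)) (.sy c161x (.leaf 66) (.leaf 70))))) (.sy c236x (.sy c237x (.sx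 c238x (.sy c126x (.leaf 73) (.leaf 79)) (.sy c126x (.leaf 77) (.leaf 83))) (.sy c43x (.sx c239x (.leaf 84) (.leaf 88)) (.sy c240x (.sx c239x (.leaf 89) (.leaf 93)) (.sx c241x (.leaf 95) (.leaf 99))))) (.sy c242x (.sy c243x (.sy c244x (.sx c245x (.leaf 101) (.leaf 105)) (.leaf 108)) (.sx c150x (.sy c246x (.leaf 111) (.leaf 118)) (.leaf 115))) (.sy c247x (.sx c150x (.leaf 122) (.leaf 126)) (.sy c248x (.leaf 130) (.leaf 135)))))) (.sy c249x (.sy c250x (.sy c251x (.sy c252x (.sy c253x (.leaf 138) (.leaf 143)) (.sy c254x (.leaf 149) (.leaf 153))) (.sy c255x (.sy c256x (.leaf 159) (.sx c201x (.leaf 163) (.leaf 167))) (.sx c201x (.leaf 168) (.leaf 172)))) (.sy c257x (.sx c258x (.sy c73x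 (.leaf 173) (.leaf 179)) (.sy c73x (.leaf 177) (.leaf 183))) (.sy c259x (.sx c200x (.leaf 185) (.leaf 189)) (.sy c260x (.sx c261x (.leaf 190) (.leaf 194)) (.leaf 197))))) (.sy c262x (.sy c263x (.sx c32x (.sy c264x (.leaf 202) (.leaf 211)) (.sy c265x (.leaf 206) (.sy c264x (.leaf 210) (.leaf 215)))) (.sy c84x (.sy c266x (.leaf 217) (.leaf 222)) (.sy c267x (.sy c268x (.leaf 272) (.leaf 269)) (.leaf 265)))) (.sx c8x (.sx c144x (.sy c269x (.leaf 259) (.leaf 245)) (.leaf 248)) (.sx c173x (.sy c270x (.leaf 249) (.sx c142x (.leaf 251) (.sx c174x (.leaf 246) (.leaf 252)))) (.sx c143x (.leaf 250) (.sy c269x (.leaf 260) (.leaf 247)))))))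

def t1x : Tr :=
  .sy c54x (.sy c161x (.sy c152x (.sx c8x (.sx c144x (.sy c151x (.leaf 19) (.leaf 33)) (.leaf 22)) (.sx c173x (.sy c144x (.sx c142x (.leaf 25) (.sx c174x (.leaf 20) (.leaf 26))) (.leaf 23)) (.sx c143x (.leaf 24) (.sy c151x (.leaf 21) (.leaf 34))))) (.sy c155x (.sy c153x (.sy c149x (.leaf 39) (.leaf 43)) (.sy c13x (.leaf 46) (.leaf 49))) (.sy c140x (.leaf 54) (.sy c162x (.sx c150x (.leaf 62) (.leaf 58)) (.leaf 64))))) (.sy c244x (.sy c237x (.sy c165x (.sx c144x (.leaf 72) (.leaf 68)) (.sy c126x (.sx c144x (.leaf 78) (.leaf 75)) (.leaf 81))) (.sy c240x (.sy c43x (.leaf 86) (.sx c142x (.leaf 94) (.leaf 91))) (.sx c8x (.leaf 100) (.sy c236x (.leaf 97) (.leaf 103)))))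 (.sy c242x (.sx c8x (.sy c246x (.sy c243x (.leaf 110) (.leaf 117)) (.sx c144x (.leaf 120) (.leaf 121))) (.sy c243x (.leaf 106) (.leaf 113))) (.sy c247x (.leaf 124) (.sy c248x (.leaf 128) (.leaf 133)))))) (.sy c249x (.sy c255x (.sy c254x (.sy c252x (.sy c253x (.leaf 140) (.leaf 145)) (.sx c32x (.leaf 151) (.leaf 147))) (.sy c256x (.sy c251x (.leaf 155) (.sx c143x (.leaf 161) (.leaf 157))) (.sx c143x (.leaf 165) (.leaf 162)))) (.sy c257x (.sy c73x (.sy c250x (.leaf 170) (.leaf 175)) (.sx c174x (.leaf 181) (.leaf 178))) (.sx c173x (.sy c259x (.leaf 187) (.sy c260x (.leaf 192) (.leaf 199))) (.sy c260x (.leaf 184) (.leaf 195))))) (.sy c267x (.sy c264x (.sx c173x (.leaf 204) (.sy c265x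 (.leaf 200) (.sx c143x (.leaf 207) (.leaf 208)))) (.sy c266x (.sy c263x (.leaf 213) (.leaf 219)) (.sy c84x (.leaf 224) (.sy c268x (.leaf 227) (.leaf 230))))) (.sy c271x (.sx c150x (.sy c269x (.sy c262x (.leaf 263) (.leaf 257)) (.leaf 253)) (.sx c32x (.leaf 232) (.sy c269x (.sy c262x (.leaf 267) (.leaf 262)) (.leaf 256)))) (.sy c272x (.leaf 234) (.sx c144x (.leaf 237) (.sx c143x (.leaf 236) (.leaf 238)))))))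

def t2x : Tr :=
  .sy c247x (.sy c140x (.sy c153x (.sy c151x (.sx c181x (.sy c142x (.leaf 13) (.sy c141x (.leaf 7) (.leaf 28))) (.leaf 16)) (.sy c149x (.sy c152x (.leaf 32) (.leaf 38)) (.sx c182x (.leaf 3) (.leaf 42)))) (.sy c13x (.sx c18x (.leaf 0) (.leaf 45)) (.sy c155x (.sx c18x (.leaf 52) (.leaf 48)) (.sx c181x (.leaf 57) (.leaf 53))))) (.sy c43x (.sy c161x (.sy c162x (.leaf 61) (.sx c182x (.leaf 67) (.leaf 63))) (.sy c126x (.sy c165x (.leaf 71) (.leaf 74)) (.sy c237x (.leaf 80) (.leaf 85)))) (.sy c243x (.sy c236x (.sy c240x (.leaf 90) (.leaf 96)) (.sy c244x (.leaf 102) (.leaf 109))) (.sy c246x (.sx c181x (.leaf 112) (.leaf 116)) (.sy c242x (.leaf 119) (.leaf 123)))))) (.sy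 c260x (.sy c254x (.sy c54x (.sy c248x (.sx c182x (.leaf 131) (.leaf 127)) (.sx c18x (.leaf 136) (.leaf 132))) (.sy c253x (.leaf 139) (.sy c252x (.leaf 144) (.leaf 150)))) (.sy c250x (.sy c256x (.sy c251x (.leaf 154) (.leaf 160)) (.sy c255x (.leaf 164) (.leaf 169))) (.sy c257x (.sy c73x (.leaf 174) (.leaf 180)) (.sy c259x (.leaf 186) (.leaf 191))))) (.sy c268x (.sy c263x (.sy c249x (.leaf 198) (.sy c264x (.leaf 203) (.leaf 212))) (.sy c84x (.sy c266x (.leaf 218) (.leaf 223)) (.sx c18x (.leaf 271) (.leaf 226)))) (.sy c269x (.sy c267x (.sx c181x (.leaf 268) (.leaf 229)) (.sy c262x (.leaf 264) (.leaf 258))) (.sx c182x (.leaf 242) (.sy c271x (.leaf 254) (.sy c272x (.leaf 233) (.leaf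 239)))))))

def t3x : Tr :=
  .sy c252x (.sy c165x (.sy c153x (.sy c151x (.sx c181x (.sy c142x (.leaf 15) (.sy c141x (.leaf 9) (.leaf 29))) (.leaf 18)) (.sy c149x (.sy c152x (.leaf 35) (.leaf 40)) (.sx c182x (.leaf 5) (.leaf 44)))) (.sy c155x (.sy c13x (.sx c18x (.leaf 2) (.leaf 47)) (.leaf 50)) (.sy c162x (.sy c140x (.leaf 55) (.leaf 59)) (.sy c161x (.leaf 65) (.leaf 69))))) (.sy c243x (.sy c43x (.sy c126x (.leaf 76) (.sy c237x (.leaf 82) (.leaf 87))) (.sy c236x (.sy c240x (.leaf 92) (.leaf 98)) (.sy c244x (.leaf 104) (.leaf 107)))) (.sy c54x (.sy c247x (.sy c242x (.leaf 114) (.leaf 125)) (.sy c248x (.leaf 129) (.leaf 134))) (.sy c253x (.sx c18x (.leaf 137) (.leaf 141)) (.sx c181x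 (.leaf 142) (.leaf 146)))))) (.sy c264x (.sy c73x (.sy c251x (.sy c254x (.leaf 148) (.sx c182x (.leaf 152) (.leaf 156))) (.sy c255x (.sy c256x (.leaf 158) (.leaf 166)) (.sy c250x (.leaf 171) (.leaf 176)))) (.sy c260x (.sy c257x (.leaf 182) (.sy c259x (.leaf 188) (.leaf 193))) (.sy c249x (.leaf 196) (.sy c265x (.sx c181x (.leaf 205) (.leaf 201)) (.leaf 209))))) (.sy c268x (.sy c266x (.sy c263x (.leaf 214) (.sx c182x (.leaf 216) (.leaf 220))) (.sx c18x (.sy c84x (.leaf 221) (.leaf 273)) (.sy c84x (.leaf 225) (.leaf 228)))) (.sy c269x (.sy c267x (.sx c181x (.leaf 270) (.leaf 231)) (.sy c262x (.leaf 266) (.leaf 261))) (.sx c182x (.leaf 244) (.sy c271x (.leaf 255) (.sy c272x (.leaf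 235) (.leaf 241)))))))

def t4x : Tr :=
  .sx c181x (.leaf 14) (.leaf 17)

def t5x : Tr :=
  .sx c182x (.leaf 243) (.leaf 240)

def bx : BoxData := ⟨c123x, c146x, c232x, own, ps, ct, t0x, t1x, t2x, t3x, t4x, t5x⟩

end Pool.Agent.Box3.BC
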