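import Pool.Agent.Box3.Check
set_option linter.all false
set_option autoImplicit false

namespace Pool.Agent.Box3

deriving instance DecidableEq for R, Co, Pc, PB

end Pool.Agent.Box3
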