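import Mathlib
set_option linter.all false
set_option autoImplicit false

namespace Pool.Agent.Box3

/-- the plane -/
abbrev Pl := EuclideanSpace ℝ (Fin 2)
/-- the space -/
abbrev Sp := EuclideanSpace ℝ (Fin 3)

/-- the surface of the box `[0,a] × [0,b] × [0,c]` -/
def surface (a b c : ℝ) : Set Sp :=
  {w | (0 ≤ w 0 ∧ w 0 ≤ a) ∧ (0 ≤ w 1 ∧ w 1 ≤ b) ∧ (0 ≤ w 2 ∧ w 2 ≤ c) ∧
    (w 0 = 0 ∨ w 0 = a ∨ w 1 = 0 ∨ w 1 = b ∨ w 2 = 0 ∨ w 2 = c)}

/-- `P` is a closed region bounded by a simple closed polygonal curve -/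
def IsPolygon (P : Set Pl) : Prop :=
  IsCompact P ∧ (interior P).Nonempty ∧ ∃ (n : ℕ) (v : ℕ → Pl), 3 ≤ n ∧ v n = v 0 ∧
    (∀ i, i < n → v i ≠ v (i + 1)) ∧
    (∀ i j, i < j → j < n → ∀ p, p ∈ segment ℝ (v i) (v (i + 1)) →
      p ∈ segment ℝ (v j) (v (j + 1)) →
      (j = i + 1 ∧ p = v j) ∨ (i = 0 ∧ j + 1 = n ∧ p = v 0)) ∧
    ∀ p, p ∈ frontier P ↔ ∃ i, i < n ∧ p ∈ segment ℝ (v i) (v (i + 1))

/-- `P` folds into the box `a × b × c`, in the sense of the problem file -/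
def FoldsInto (P : Set Pl) (a b c : ℝ) : Prop :=
  ∃ f : Pl → Sp, ContinuousOn f P ∧ f '' P = surface a b c ∧
    (∀ γ : ℝ → Pl, ContinuousOn γ (Set.Icc 0 1) → (∀ t ∈ Set.Icc (0 : ℝ) 1, γ t ∈ P) →
      eVariationOn (fun t => f (γ t)) (Set.Icc 0 1) = eVariationOn γ (Set.Icc 0 1)) ∧
    ∀ p, p ∈ interior P → ∀ q, q ∈ P → f q = f p → q = p

/-- a symbolic length `a g₁ + b g₂ + c g₃` with positive real generators `g₁ g₂ g₃` -/
structure L where
  a : ℤ
  b : ℤ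
  c : ℤ
deriving DecidableEq

namespace L
def ev (g : Fin 3 → ℝ) (l : L) : ℝ := l.a * g 0 + l.b * g 1 + l.c * g 2
def add (l m : L) : L := ⟨l.a + m.a, l.b + m.b, l.c + m.c⟩
def sub (l m : L) : L := ⟨l.a - m.a, l.b - m.b, l.c - m.c⟩
def neg (l : L) : L := ⟨-l.a, -l.b, -l.c⟩
def zero : L := ⟨0, 0, 0⟩
/-- coefficientwise `≤`; sound for `≤` when all generators are positive -/
def le (l m : L) : Bool := decide (l.a ≤ m.a) && decide (l.b ≤ m.b) && decide (l.c ≤ m.c)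
def eq (l m : L) : Bool := decide (l.a = m.a) && decide (l.b = m.b) && decide (l.c = m.c)
/-- sound for `<` -/
def lt (l m : L) : Bool := l.le m && !(l.eq m)
/-- `max`, only used when comparable (check both bounds when in doubt) -/
def mx (l m : L) : L := if l.le m then m else l
def mn (l m : L) : L := if l.le m then l else m
end L

/-- a closed symbolic rectangle `[x0,x1] × [y0,y1]` (degenerate allowed) -/
structure R where
  x0 : L
  x1 : L
  y0 : L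
  y1 : L

def R.set (g : Fin 3 → ℝ) (q : R) : Set Pl :=
  {p | q.x0.ev g ≤ p 0 ∧ p 0 ≤ q.x1.ev g ∧ q.y0.ev g ≤ p 1 ∧ p 1 ≤ q.y1.ev g}

/-- one coordinate function `ex · x + ey · y + k`, with `ex, ey ∈ {-1, 0, 1}` -/
structure Co where
  ex : ℤ
  ey : ℤ
  k : L

def Co.ev (g : Fin 3 → ℝ) (f : Co) (p : Pl) : ℝ := f.ex * p 0 + f.ey * p 1 + f.k.ev g

/-- a piece: a rectangle with the three coordinate functions of its placement in space -/
structure Pc where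
  q : R
  f0 : Co
  f1 : Co
  f2 : Co

noncomputable def Pc.map (g : Fin 3 → ℝ) (c : Pc) (p : Pl) : Sp :=
  WithLp.toLp 2 ![c.f0.ev g p, c.f1.ev g p, c.f2.ev g p]

/-- an axis-parallel closed region with optional (infinite) sides, for the complement of `P` -/
structure Q where
  x0 : Option L
  x1 : Option L
  y0 : Option L
  y1 : Option L

def Q.set (g : Fin 3 → ℝ) (q : Q) : Set Pl :=
  {p | (∀ l ∈ q.x0, l.ev g ≤ p 0) ∧ (∀ l ∈ q.x1, p 0 ≤ l.ev g) ∧
    (∀ l ∈ q.y0, l.ev g ≤ p 1) ∧ (∀ l ∈ q.y1, p 1 ≤ l.ev g)}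

/-- cover trees: `leaf i`, or a split of the `x`-range (`sx`) or `y`-range (`sy`) at `l` -/
inductive Tr where
  | leaf (i : ℕ)
  | sx (l : L) (s t : Tr)
  | sy (l : L) (s t : Tr)

end Pool.Agent.Box3
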