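import Pool.Agent.Box3.PartC
import Pool.Agent.Box3.BBT
import Pool.Agent.Box3.Dec
set_option linter.all false
set_option autoImplicit false

/-!
# Fast versions of the two quadratic checks on the polygon

`ok2F` (edges pairwise disjoint) and `ok3F` (complement pieces against cells) use bounding box
trees over the edges (with their indices) and over the cells.
-/

namespace Pool.Agent.Box3


/-- adjacent edges are met only at the common vertex -/
def adjOk : List R → List (L × L) → Bool
  | [], _ => true
  | [_], _ => true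
  | e :: f :: t, v :: w :: vt => meetPt e f w && adjOk (f :: t) (w :: vt)
  | _ :: _ :: _, _ => false

/-- pairs of adjacent indices -/
def adjP (n : ℕ) (x y : R × ℕ) : Bool :=
  decide (y.2 = x.2 + 1) || (decide (x.2 = 0) && decide (y.2 + 1 = n))

abbrev ET := BT (R × ℕ) R
abbrev CT := BT R R

def opE : BOps (R × ℕ) R := opR Prod.fst
def opC : BOps R R := opR id

def PolyData.ok2F (X : PolyData) (te : ET) : Bool :=
  decide (te.flat = X.es.zipIdx) && te.wf opE && te.self opE (adjP X.es.length) &&
  adjOk X.es X.vs &&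
  (match X.es.head?, X.es.getLast?, X.vs.head? with
    | some e, some f, some v => meetPt e f v
    | _, _, _ => false)

/-- the complement piece misses the box -/
def qdj (q : Q) (c : R) : Bool :=
  (match q.x0 with | some l => c.x1.lt l | none => false) ||
  (match q.x1 with | some l => l.lt c.x0 | none => false) ||
  (match q.y0 with | some l => c.y1.lt l | none => false) ||
  (match q.y1 with | some l => l.lt c.y0 | none => false)

def PolyData.ok3F (X : PolyData) (tc : CT) : Bool :=
  decide (tc.flat = X.cs) && tc.wf opC &&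
  X.qs.all (fun z => z.1.fat && tc.allP (fun c => qcOk X.es z.2 z.1 c) (qdj z.1))

namespace PC
open Set
variable {g : Fin 3 → ℝ}

theorem qdj_mono {q : Q} {c b : R} (h : qdj q b = true) (hs : c.sub b = true) :
    qdj q c = true := by
  simp only [R.sub, Bool.and_eq_true] at hs
  obtain ⟨⟨⟨s1, s2⟩, s3⟩, s4⟩ := hs
  simp only [qdj, Bool.or_eq_true] at *
  rcases h with ((h | h) | h) | h
  · left; left; left
    cases hq : q.x0 with
    | none => rw [hq] at h; exact h
    | some l => rw [hq] at h; exact L.lt_of_le_lt s2 h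
  · left; left; right
    cases hq : q.x1 with
    | none => rw [hq] at h; exact h
    | some l => rw [hq] at h; exact L.lt_of_lt_le h s1
  · left; right
    cases hq : q.y0 with
    | none => rw [hq] at h; exact h
    | some l => rw [hq] at h; exact L.lt_of_le_lt s4 h
  · right
    cases hq : q.y1 with
    | none => rw [hq] at h; exact h
    | some l => rw [hq] at h; exact L.lt_of_lt_le h s3

theorem qdj_ok {es : List R} {ei : List ℕ} {q : Q} {c : R} (h : qdj q c = true) :
    qcOk es ei q c = true := by
  simp only [qdj, Bool.or_eq_true] at h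
  simp only [qcOk, Bool.or_eq_true]
  tauto

theorem ok3_of_fast {X : PolyData} {tc : CT} (h : X.ok3F tc = true) : X.ok3 = true := by
  simp only [PolyData.ok3F, Bool.and_eq_true, decide_eq_true_eq, List.all_eq_true] at h
  obtain ⟨⟨h1, h2⟩, h3⟩ := h
  simp only [PolyData.ok3, List.all_eq_true, Bool.and_eq_true]
  intro z hz
  refine ⟨(h3 z hz).1, ?_⟩
  intro c hc
  rw [← h1] at hc
  exact BT.allP_sound (o := opC) (opR_good id) (f := fun c => qcOk X.es z.2 z.1 c)
    (h := qdj z.1) (fun b x hb hx => qdj_ok (qdj_mono hb hx)) tc h2 (h3 z hz).2 c hc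

theorem adj_sound (dR : R) (dV : L × L) : ∀ (es : List R) (vs : List (L × L)),
    adjOk es vs = true → ∀ i, i + 1 < es.length →
    meetPt (es.getD i dR) (es.getD (i + 1) dR) (vs.getD (i + 1) dV) = true := by
  intro es
  induction es with
  | nil => intro vs _ i hi; simp at hi
  | cons e t ih =>
    intro vs h i hi
    cases t with
    | nil => simp at hi
    | cons f u =>
      cases vs with
      | nil => simp [adjOk] at h
      | cons v vt =>
        cases vt with
        | nil => simp [adjOk] at h
        | cons w vt' =>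
          simp only [adjOk, Bool.and_eq_true] at h
          cases i with
          | zero => simpa using h.1
          | succ i' =>
            have := ih (w :: vt') h.2 i' (by simpa using hi)
            simpa only [List.getD_cons_succ] using this

theorem rowsF_sound (hg : ∀ k, 0 < g k) {X : PolyData} {te : ET} (h1 : X.ok1 = true)
    (h : X.ok2F te = true) :
    ∀ i j, i < j → j < X.es.length → ∀ p, p ∈ R.set g (X.es.getD i R.default) →
      p ∈ R.set g (X.es.getD j R.default) →
      (j = i + 1 ∧ p = pt g (X.vs.getD j (L.zero, L.zero))) ∨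
      (i = 0 ∧ j + 1 = X.es.length ∧ p = pt g (X.vs.getD 0 (L.zero, L.zero))) := by
  simp only [PolyData.ok2F, Bool.and_eq_true, decide_eq_true_eq] at h
  obtain ⟨⟨⟨⟨hf, hw⟩, hs⟩, ha⟩, hl⟩ := h
  intro i j hij hj p hpi hpj
  have hpw := BT.self_sound (o := opE) (opR_good Prod.fst) te hw hs
  rw [hf, List.pairwise_iff_getElem] at hpw
  have hi' : i < X.es.zipIdx.length := by simpa using lt_trans hij hj
  have hj' : j < X.es.zipIdx.length := by simpa using hj
  have hh := hpw i j hi' hj' hij
  simp only [List.getElem_zipIdx, opE, opR, adjP, Bool.or_eq_true, Bool.and_eq_true,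
    decide_eq_true_eq, zero_add] at hh
  rcases hh with hh | hh | hh
  · exfalso
    rw [List.getD_eq_getElem _ _ (lt_trans hij hj)] at hpi
    rw [List.getD_eq_getElem _ _ hj] at hpj
    exact dj_sound hg hh hpi hpj
  · left
    refine ⟨hh, ?_⟩
    subst hh
    exact meet_sound (adj_sound R.default (L.zero, L.zero) _ _ ha i hj) hpi hpj
  · right
    obtain ⟨h0, hn⟩ := hh
    subst h0
    refine ⟨rfl, hn, ?_⟩
    have hne : X.es ≠ [] := by
      intro hc
      rw [hc] at hj
      simp at hj
    have hhd : X.es.head? = some (X.es.getD 0 R.default) := by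
      rw [List.getD_eq_getElem _ _ (by omega), List.head?_eq_getElem?,
        List.getElem?_eq_getElem (by omega)]
    have hlast : X.es.getLast? = some (X.es.getD j R.default) := by
      rw [List.getD_eq_getElem _ _ hj, List.getLast?_eq_getElem?,
        List.getElem?_eq_getElem (by omega)]
      congr 1
      congr 1
      omega
    rw [hhd, hlast] at hl
    simp only [PolyData.ok1, PolyData.es1, Bool.and_eq_true, decide_eq_true_eq,
      List.all_eq_true] at h1
    obtain ⟨⟨⟨hn3, hl2⟩, _⟩, _⟩ := h1
    have hvs : X.vs.head? = some (X.vs.getD 0 (L.zero, L.zero)) := by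
      rw [List.getD_eq_getElem _ _ (by omega), List.head?_eq_getElem?,
        List.getElem?_eq_getElem (by omega)]
    rw [hvs] at hl
    simp only at hl
    exact meet_sound hl hpi hpj

/-- the polygon theorem with the semantic form of the edge check -/
theorem isPolygonF (hg : ∀ k, 0 < g k) (X : PolyData) (te : ET)
    (h1 : X.ok1 = true) (h2 : X.ok2F te = true) (h3 : X.ok3 = true) (h4 : X.ok4 = true)
    (h5 : X.ok5 = true) (h6 : X.ok6 = true) : IsPolygon (X.P g) := by
  have hclosed : IsClosed (X.P g) := closed_list X.cs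
  have hfr : ∀ p, p ∈ frontier (X.P g) ↔ p ∈ Bd g X.es := by
    intro p
    rw [hclosed.frontier_eq]
    constructor
    · rintro ⟨hP, hi⟩
      by_contra hb
      apply hi
      have hU : IsOpen {q : Pl | ∃ z ∈ X.qs, q ∈ Q.set g z.1}ᶜ := (closed_listQ X.qs).isOpen_compl
      refine mem_interior.2 ⟨_, ?_, hU, ?_⟩
      · intro q hq
        simp only [PolyData.ok5, Bool.and_eq_true] at h5
        obtain ⟨i, hi', hqi⟩ := cov_sound hg _ _ _ _ h5.2 h5.1 q
          (show q ∈ Q.set g ⟨none, none, none, none⟩ from ⟨by simp, by simp, by simp, by simp⟩)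
        by_cases hc : i < X.cs.length
        · simp only [hc, if_true] at hqi
          exact ⟨_, getD_mem hc _, mem_toQ.1 hqi⟩
        · simp only [hc, if_false] at hqi
          exact (hq ⟨_, getD_mem (by omega) _, hqi⟩).elim
      · rintro ⟨z, hz, hpz⟩
        exact hb (piece_out hg h3 hz hpz hP)
    · rintro ⟨e, he, hp⟩
      refine ⟨?_, edge_not_int hg X h1 h3 h4 e he p hp⟩
      simp only [PolyData.ok4, Bool.and_eq_true, decide_eq_true_eq, List.all_eq_true] at h4
      obtain ⟨o, ho⟩ := zip_mem h4.1 he
      obtain ⟨⟨⟨a1, a2⟩, a3⟩, a4⟩ := h4.2 _ ho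
      obtain ⟨j, hj, hpj⟩ := cov_sound hg _ _ _ _ a2 a1 p (mem_toQ.2 hp)
      exact ⟨_, getD_mem hj _, mem_toQ.1 hpj⟩
  have hes := h1
  simp only [PolyData.ok1, PolyData.es1, Bool.and_eq_true, decide_eq_true_eq,
    List.all_eq_true] at hes
  obtain ⟨⟨⟨hn, hl⟩, _⟩, _⟩ := hes
  refine ⟨compact_list X.cs, ?_, X.es.length, fun i => pt g (X.vs.getD i (L.zero, L.zero)), hn,
    closed_loop h1, ?_, ?_, ?_⟩
  · -- nonempty interior
    have h6' := h6
    simp only [PolyData.ok6] at h6'
    cases hcs : X.cs with
    | nil => rw [hcs] at h6'; simp at h6'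
    | cons c t =>
      rw [hcs] at h6'
      simp only [Bool.and_eq_true] at h6'
      have hf : (c.toQ).fat = true := by
        simp only [Q.fat, R.toQ, Bool.and_eq_true]
        exact h6'
      obtain ⟨p, hp⟩ := fat_interior hg hf
      refine ⟨p, interior_mono ?_ hp⟩
      intro q hq
      exact ⟨c, by rw [hcs]; exact List.mem_cons_self, mem_toQ.1 hq⟩
  · intro i hi
    exact (edge_sound hg (edge_at h1 hi)).2.1
  · intro i j hij hj p hpi hpj
    have e1 := ((edge_sound hg (edge_at h1 (lt_trans hij hj))).1 p).2 hpi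
    have e2 := ((edge_sound hg (edge_at h1 hj)).1 p).2 hpj
    exact rowsF_sound hg h1 h2 i j hij hj p e1 e2
  · intro p
    rw [hfr p]
    constructor
    · rintro ⟨e, he, hp⟩
      obtain ⟨i, hi, rfl⟩ := List.getElem_of_mem he
      refine ⟨i, hi, ((edge_sound hg (edge_at h1 hi)).1 p).1 ?_⟩
      rwa [List.getD_eq_getElem _ _ hi]
    · rintro ⟨i, hi, hp⟩
      exact ⟨_, getD_mem hi _, ((edge_sound hg (edge_at h1 hi)).1 p).2 hp⟩

end PC

/-- PART C1, fast form -/
theorem isPolygon_of_dataF (g : Fin 3 → ℝ) (hg : ∀ k, 0 < g k) (X : PolyData) (te : ET) (tc : CT)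
    (h1 : X.ok1 = true) (h2 : X.ok2F te = true) (h3 : X.ok3F tc = true) (h4 : X.ok4 = true)
    (h5 : X.ok5 = true) (h6 : X.ok6 = true) : IsPolygon (X.P g) :=
  PC.isPolygonF hg X te h1 h2 (PC.ok3_of_fast h3) h4 h5 h6

/-- PART C2, fast form -/
theorem edge_not_interiorF (g : Fin 3 → ℝ) (hg : ∀ k, 0 < g k) (X : PolyData) (tc : CT)
    (h1 : X.ok1 = true) (h3 : X.ok3F tc = true) (h4 : X.ok4 = true) :
    ∀ e ∈ X.es, ∀ p ∈ R.set g e, p ∉ interior (X.P g) :=
  PC.edge_not_int hg X h1 (PC.ok3_of_fast h3) h4

end Pool.Agent.Box3
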