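import Pool.Agent.Box3.Poly
import Pool.Agent.Box3.DataA
set_option linter.all false
set_option autoImplicit false

namespace Pool.Agent.Box3

theorem okA1y : BA.bx.ok1 cs = true := by decide +kernel

theorem okA2y : BA.bx.ok2 cs = true := by decide +kernel

theorem okA3y : BA.bx.ok3 cs = true := by decide +kernel

theorem okA4y : BA.bx.ok4 = true := by decide +kernel

theorem rowsA0x : rowsOk es BA.ps 0 50 = true := by decide +kernel

theorem rowsA50x : rowsOk es BA.ps 50 50 = true := by decide +kernel

theorem rowsA100x : rowsOk es BA.ps 100 50 = true := by decide +kernel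

end Pool.Agent.Box3
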