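import Pool.Agent.Box3.Poly
import Pool.Agent.Box3.DataC
set_option linter.all false
set_option autoImplicit false

namespace Pool.Agent.Box3

theorem okC1y : BC.bx.ok1 cs = true := by decide +kernel

theorem okC2y : BC.bx.ok2 cs = true := by decide +kernel

theorem okC3y : BC.bx.ok3 cs = true := by decide +kernel

theorem okC4y : BC.bx.ok4 = true := by decide +kernel

theorem rowsC0x : rowsOk es BC.ps 0 25 = true := by decide +kernel

theorem rowsC25x : rowsOk es BC.ps 25 25 = true := by decide +kernel

end Pool.Agent.Box3
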