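import Pool.Agent.Box3.Poly
import Pool.Agent.Box3.DataC
set_option linter.all false
set_option autoImplicit false

namespace Pool.Agent.Box3

theorem rowsC125x : rowsOk es BC.ps 125 50 = true := by decide +kernel

theorem rowsC175x : rowsOk es BC.ps 175 50 = true := by decide +kernel

theorem rowsC225x : rowsOk es BC.ps 225 49 = true := by decide +kernel

end Pool.Agent.Box3
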