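import Pool.Agent.Box3.Check
set_option linter.all false
set_option autoImplicit false

namespace Pool.Agent.Box3
namespace PC

open Set

variable {g : Fin 3 → ℝ}

theorem le_ev (hg : ∀ k, 0 < g k) {l m : L} (h : l.le m = true) : l.ev g ≤ m.ev g := by
  simp only [L.le, Bool.and_eq_true, decide_eq_true_eq] at h
  obtain ⟨⟨h1, h2⟩, h3⟩ := h
  have h1' : (l.a : ℝ) ≤ m.a := by exact_mod_cast h1
  have h2' : (l.b : ℝ) ≤ m.b := by exact_mod_cast h2
  have h3' : (l.c : ℝ) ≤ m.c := by exact_mod_cast h3
  simp only [L.ev]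
  have a1 := mul_le_mul_of_nonneg_right h1' (hg 0).le
  have a2 := mul_le_mul_of_nonneg_right h2' (hg 1).le
  have a3 := mul_le_mul_of_nonneg_right h3' (hg 2).le
  linarith

theorem eq_ev {l m : L} (h : l.eq m = true) : l.ev g = m.ev g := by
  simp only [L.eq, Bool.and_eq_true, decide_eq_true_eq] at h
  obtain ⟨⟨h1, h2⟩, h3⟩ := h
  simp [L.ev, h1, h2, h3]

theorem lt_ev (hg : ∀ k, 0 < g k) {l m : L} (h : l.lt m = true) : l.ev g < m.ev g := by
  simp only [L.lt, Bool.and_eq_true, Bool.not_eq_true'] at h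
  obtain ⟨h1, h2⟩ := h
  have h0 := h1
  simp only [L.le, Bool.and_eq_true, decide_eq_true_eq] at h1
  obtain ⟨⟨b1, b2⟩, b3⟩ := h1
  have hs : l.a < m.a ∨ l.b < m.b ∨ l.c < m.c := by
    by_contra hc
    simp only [not_or, not_lt] at hc
    obtain ⟨c1, c2, c3⟩ := hc
    have : l.eq m = true := by
      simp only [L.eq, Bool.and_eq_true, decide_eq_true_eq]
      exact ⟨⟨le_antisymm b1 c1, le_antisymm b2 c2⟩, le_antisymm b3 c3⟩
    rw [this] at h2
    exact Bool.noConfusion h2
  have h1' : (l.a : ℝ) ≤ m.a := by exact_mod_cast b1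
  have h2' : (l.b : ℝ) ≤ m.b := by exact_mod_cast b2
  have h3' : (l.c : ℝ) ≤ m.c := by exact_mod_cast b3
  have a1 := mul_le_mul_of_nonneg_right h1' (hg 0).le
  have a2 := mul_le_mul_of_nonneg_right h2' (hg 1).le
  have a3 := mul_le_mul_of_nonneg_right h3' (hg 2).le
  simp only [L.ev]
  rcases hs with hs | hs | hs
  · have : (l.a : ℝ) < m.a := by exact_mod_cast hs
    have := mul_lt_mul_of_pos_right this (hg 0)
    linarith
  · have : (l.b : ℝ) < m.b := by exact_mod_cast hs
    have := mul_lt_mul_of_pos_right this (hg 1)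
    linarith
  · have : (l.c : ℝ) < m.c := by exact_mod_cast hs
    have := mul_lt_mul_of_pos_right this (hg 2)
    linarith

theorem mx_le {l m : L} {x : ℝ} (h1 : l.ev g ≤ x) (h2 : m.ev g ≤ x) : (L.mx l m).ev g ≤ x := by
  simp only [L.mx]
  split
  · exact h2
  · exact h1

theorem le_mn {l m : L} {x : ℝ} (h1 : x ≤ l.ev g) (h2 : x ≤ m.ev g) : x ≤ (L.mn l m).ev g := by
  simp only [L.mn]
  split
  · exact h1
  · exact h2

theorem mem_R {q : R} {p : Pl} : p ∈ R.set g q ↔
    q.x0.ev g ≤ p 0 ∧ p 0 ≤ q.x1.ev g ∧ q.y0.ev g ≤ p 1 ∧ p 1 ≤ q.y1.ev g := Iff.rfl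

theorem sub_R (hg : ∀ k, 0 < g k) {p q : R} (h : p.sub q = true) : R.set g p ⊆ R.set g q := by
  simp only [R.sub, Bool.and_eq_true] at h
  obtain ⟨⟨⟨h1, h2⟩, h3⟩, h4⟩ := h
  intro z hz
  obtain ⟨a, b, c, d⟩ := hz
  exact ⟨(le_ev hg h1).trans a, b.trans (le_ev hg h2), (le_ev hg h3).trans c,
    d.trans (le_ev hg h4)⟩

theorem loOk_ev (hg : ∀ k, 0 < g k) {a b : Option L} {x : ℝ} (h : loOk a b = true)
    (hb : ∀ l ∈ b, l.ev g ≤ x) : ∀ l ∈ a, l.ev g ≤ x := by
  intro l hl
  cases a with
  | none => exact absurd hl (by simp)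
  | some y =>
    cases b with
    | none => simp [loOk] at h
    | some z =>
      simp only [Option.mem_def, Option.some.injEq] at hl hb
      subst hl
      simp only [loOk] at h
      exact (le_ev hg h).trans (hb z rfl)

theorem hiOk_ev (hg : ∀ k, 0 < g k) {a b : Option L} {x : ℝ} (h : hiOk a b = true)
    (hb : ∀ l ∈ b, x ≤ l.ev g) : ∀ l ∈ a, x ≤ l.ev g := by
  intro l hl
  cases a with
  | none => exact absurd hl (by simp)
  | some y =>
    cases b with
    | none => simp [hiOk] at h
    | some z =>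
      simp only [Option.mem_def, Option.some.injEq] at hl hb
      subst hl
      simp only [hiOk] at h
      exact (hb z rfl).trans (le_ev hg h)

theorem sub_Q (hg : ∀ k, 0 < g k) {p q : Q} (h : p.sub q = true) : Q.set g p ⊆ Q.set g q := by
  simp only [Q.sub, Bool.and_eq_true] at h
  obtain ⟨⟨⟨h1, h2⟩, h3⟩, h4⟩ := h
  intro z hz
  obtain ⟨a, b, c, d⟩ := hz
  exact ⟨loOk_ev hg h1 a, hiOk_ev hg h2 b, loOk_ev hg h3 c, hiOk_ev hg h4 d⟩

theorem mem_toQ {r : R} {p : Pl} : p ∈ Q.set g r.toQ ↔ p ∈ R.set g r := by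
  constructor
  · rintro ⟨a, b, c, d⟩
    exact ⟨a _ rfl, b _ rfl, c _ rfl, d _ rfl⟩
  · rintro ⟨a, b, c, d⟩
    refine ⟨?_, ?_, ?_, ?_⟩ <;>
    · intro l hl
      simp only [R.toQ, Option.mem_def, Option.some.injEq] at hl
      subst hl
      assumption

theorem cov_sound (hg : ∀ k, 0 < g k) (f : ℕ → Q) (n : ℕ) : ∀ (t : Tr) (q : Q),
    t.cov f q = true → t.leavesLt n = true → ∀ p ∈ Q.set g q, ∃ i, i < n ∧ p ∈ Q.set g (f i) := by
  intro t
  induction t with
  | leaf i =>
    intro q h1 h2 p hp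
    simp only [Tr.cov] at h1
    simp only [Tr.leavesLt, decide_eq_true_eq] at h2
    exact ⟨i, h2, sub_Q hg h1 hp⟩
  | sx l s t ihs iht =>
    intro q h1 h2 p hp
    simp only [Tr.cov, Bool.and_eq_true] at h1
    simp only [Tr.leavesLt, Bool.and_eq_true] at h2
    obtain ⟨a, b, c, d⟩ := hp
    rcases le_total (p 0) (l.ev g) with h | h
    · refine ihs _ h1.1 h2.1 p ⟨a, ?_, c, d⟩
      intro l' hl'
      simp only [Option.mem_def, Option.some.injEq] at hl'
      subst hl'
      exact h
    · refine iht _ h1.2 h2.2 p ⟨?_, b, c, d⟩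
      intro l' hl'
      simp only [Option.mem_def, Option.some.injEq] at hl'
      subst hl'
      exact h
  | sy l s t ihs iht =>
    intro q h1 h2 p hp
    simp only [Tr.cov, Bool.and_eq_true] at h1
    simp only [Tr.leavesLt, Bool.and_eq_true] at h2
    obtain ⟨a, b, c, d⟩ := hp
    rcases le_total (p 1) (l.ev g) with h | h
    · refine ihs _ h1.1 h2.1 p ⟨a, b, c, ?_⟩
      intro l' hl'
      simp only [Option.mem_def, Option.some.injEq] at hl'
      subst hl'
      exact h
    · refine iht _ h1.2 h2.2 p ⟨a, b, ?_, d⟩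
      intro l' hl'
      simp only [Option.mem_def, Option.some.injEq] at hl'
      subst hl'
      exact h

theorem cont0 (k : Fin 2) : Continuous (fun p : Pl => p k) := by fun_prop

theorem closed_R (q : R) : IsClosed (R.set g q) := by
  have h : R.set g q = {p : Pl | q.x0.ev g ≤ p 0} ∩ ({p : Pl | p 0 ≤ q.x1.ev g} ∩
      ({p : Pl | q.y0.ev g ≤ p 1} ∩ {p : Pl | p 1 ≤ q.y1.ev g})) := rfl
  rw [h]
  exact (isClosed_le continuous_const (cont0 0)).inter
    ((isClosed_le (cont0 0) continuous_const).inter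
      ((isClosed_le continuous_const (cont0 1)).inter (isClosed_le (cont0 1) continuous_const)))

theorem closed_Q (q : Q) : IsClosed (Q.set g q) := by
  obtain ⟨x0, x1, y0, y1⟩ := q
  have a1 : ∀ (o : Option L) (k : Fin 2), IsClosed {p : Pl | ∀ l ∈ o, l.ev g ≤ p k} := by
    intro o k
    cases o with
    | none => simp
    | some z => simpa using isClosed_le continuous_const (cont0 k)
  have a2 : ∀ (o : Option L) (k : Fin 2), IsClosed {p : Pl | ∀ l ∈ o, p k ≤ l.ev g} := by
    intro o k
    cases o with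
    | none => simp
    | some z => simpa using isClosed_le (cont0 k) continuous_const
  have h : Q.set g ⟨x0, x1, y0, y1⟩ = {p : Pl | ∀ l ∈ x0, l.ev g ≤ p 0} ∩
      ({p : Pl | ∀ l ∈ x1, p 0 ≤ l.ev g} ∩ ({p : Pl | ∀ l ∈ y0, l.ev g ≤ p 1} ∩
        {p : Pl | ∀ l ∈ y1, p 1 ≤ l.ev g})) := rfl
  rw [h]
  exact (a1 x0 0).inter ((a2 x1 0).inter ((a1 y0 1).inter (a2 y1 1)))

theorem convex_Q (q : Q) : Convex ℝ (Q.set g q) := by
  intro x hx y hy s t hs ht hst
  obtain ⟨a, b, c, d⟩ := hx
  obtain ⟨a', b', c', d'⟩ := hy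
  have e : ∀ r : ℝ, r = s * r + t * r := fun r => by rw [← add_mul, hst, one_mul]
  refine ⟨?_, ?_, ?_, ?_⟩ <;> intro l hl
  · simp only [PiLp.add_apply, PiLp.smul_apply, smul_eq_mul]
    rw [e (L.ev g l)]
    exact add_le_add (mul_le_mul_of_nonneg_left (a l hl) hs) (mul_le_mul_of_nonneg_left (a' l hl) ht)
  · simp only [PiLp.add_apply, PiLp.smul_apply, smul_eq_mul]
    rw [e (L.ev g l)]
    exact add_le_add (mul_le_mul_of_nonneg_left (b l hl) hs) (mul_le_mul_of_nonneg_left (b' l hl) ht)
  · simp only [PiLp.add_apply, PiLp.smul_apply, smul_eq_mul]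
    rw [e (L.ev g l)]
    exact add_le_add (mul_le_mul_of_nonneg_left (c l hl) hs) (mul_le_mul_of_nonneg_left (c' l hl) ht)
  · simp only [PiLp.add_apply, PiLp.smul_apply, smul_eq_mul]
    rw [e (L.ev g l)]
    exact add_le_add (mul_le_mul_of_nonneg_left (d l hl) hs) (mul_le_mul_of_nonneg_left (d' l hl) ht)

/-- one-dimensional: strict bounds can be met -/
theorem exists_strict (hg : ∀ k, 0 < g k) (a b : Option L)
    (h : (match a, b with | some l, some m => l.lt m | _, _ => true) = true) :
    ∃ x : ℝ, (∀ l ∈ a, l.ev g < x) ∧ (∀ l ∈ b, x < l.ev g) := by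
  cases a with
  | none =>
    cases b with
    | none => exact ⟨0, by simp, by simp⟩
    | some m => exact ⟨m.ev g - 1, by simp, by simp⟩
  | some l =>
    cases b with
    | none => exact ⟨l.ev g + 1, by simp, by simp⟩
    | some m =>
      have h' := lt_ev hg h
      refine ⟨(l.ev g + m.ev g) / 2, ?_, ?_⟩
      · intro z hz
        simp only [Option.mem_def, Option.some.injEq] at hz
        subst hz
        linarith
      · intro z hz
        simp only [Option.mem_def, Option.some.injEq] at hz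
        subst hz
        linarith

theorem fat_interior (hg : ∀ k, 0 < g k) {q : Q} (h : q.fat = true) :
    (interior (Q.set g q)).Nonempty := by
  obtain ⟨x0, x1, y0, y1⟩ := q
  simp only [Q.fat, Bool.and_eq_true] at h
  obtain ⟨x, hx0, hx1⟩ := exists_strict hg x0 x1 h.1
  obtain ⟨y, hy0, hy1⟩ := exists_strict hg y0 y1 h.2
  have b1 : ∀ (o : Option L) (k : Fin 2), IsOpen {p : Pl | ∀ l ∈ o, l.ev g < p k} := by
    intro o k
    cases o with
    | none => simp
    | some z => simpa using isOpen_lt continuous_const (cont0 k)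
  have b2 : ∀ (o : Option L) (k : Fin 2), IsOpen {p : Pl | ∀ l ∈ o, p k < l.ev g} := by
    intro o k
    cases o with
    | none => simp
    | some z => simpa using isOpen_lt (cont0 k) continuous_const
  have ho : IsOpen ({p : Pl | ∀ l ∈ x0, l.ev g < p 0} ∩
      ({p : Pl | ∀ l ∈ x1, p 0 < l.ev g} ∩ ({p : Pl | ∀ l ∈ y0, l.ev g < p 1} ∩
        {p : Pl | ∀ l ∈ y1, p 1 < l.ev g}))) :=
    (b1 x0 0).inter ((b2 x1 0).inter ((b1 y0 1).inter (b2 y1 1)))
  refine ⟨WithLp.toLp 2 ![x, y], mem_interior.2 ⟨_, ?_, ho, ?_⟩⟩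
  · rintro p ⟨h1, h2, h3, h4⟩
    exact ⟨fun l hl => (h1 l hl).le, fun l hl => (h2 l hl).le, fun l hl => (h3 l hl).le,
      fun l hl => (h4 l hl).le⟩
  · refine ⟨?_, ?_, ?_, ?_⟩
    · intro l hl; simpa using hx0 l hl
    · intro l hl; simpa using hx1 l hl
    · intro l hl; simpa using hy0 l hl
    · intro l hl; simpa using hy1 l hl

theorem compact_R (q : R) : IsCompact (R.set g q) := by
  have h : R.set g q = (fun z : Fin 2 → ℝ => (WithLp.toLp 2 z : Pl)) ''
      (Set.Icc ![q.x0.ev g, q.y0.ev g] ![q.x1.ev g, q.y1.ev g]) := by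
    ext p
    constructor
    · rintro ⟨a, b, c, d⟩
      refine ⟨p, ⟨?_, ?_⟩, ?_⟩
      · intro i
        fin_cases i <;> simpa
      · intro i
        fin_cases i <;> simpa
      · rfl
    · rintro ⟨z, ⟨h1, h2⟩, rfl⟩
      have e1 := h1 0
      have e2 := h1 1
      have e3 := h2 0
      have e4 := h2 1
      simp at e1 e2 e3 e4
      exact ⟨e1, e3, e2, e4⟩
  rw [h]
  exact isCompact_Icc.image (by fun_prop)

theorem getD_mem {α : Type} {l : List α} {i : ℕ} (h : i < l.length) (d : α) : l.getD i d ∈ l := by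
  rw [List.getD_eq_getElem _ _ h]
  exact List.getElem_mem h

theorem onBd_sound (hg : ∀ k, 0 < g k) {es : List R} {bi : List ℕ} {r : R}
    (h : onBd es bi r = true) {p : Pl} (hp : p ∈ R.set g r) : ∃ e ∈ es, p ∈ R.set g e := by
  simp only [onBd, List.any_eq_true, Bool.and_eq_true, decide_eq_true_eq] at h
  obtain ⟨i, hi, h1, h2⟩ := h
  exact ⟨_, getD_mem h2 _, sub_R hg h1 hp⟩

theorem qc_sound (hg : ∀ k, 0 < g k) {es : List R} {ei : List ℕ} {q : Q} {c : R}
    (h : qcOk es ei q c = true) {p : Pl} (hq : p ∈ Q.set g q) (hc : p ∈ R.set g c) :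
    ∃ e ∈ es, p ∈ R.set g e := by
  obtain ⟨x0, x1, y0, y1⟩ := q
  obtain ⟨a, b, c1, d⟩ := hq
  obtain ⟨a', b', c', d'⟩ := hc
  simp only [qcOk, Bool.or_eq_true] at h
  rcases h with (((h | h) | h) | h) | h
  · cases x0 with
    | none => simp at h
    | some l =>
      have := lt_ev hg h
      have := a l rfl
      linarith
  · cases x1 with
    | none => simp at h
    | some l =>
      have := lt_ev hg h
      have := b l rfl
      linarith
  · cases y0 with
    | none => simp at h
    | some l =>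
      have := lt_ev hg h
      have := c1 l rfl
      linarith
  · cases y1 with
    | none => simp at h
    | some l =>
      have := lt_ev hg h
      have := d l rfl
      linarith
  · refine onBd_sound hg h ⟨?_, ?_, ?_, ?_⟩
    · cases x0 with
      | none => exact a'
      | some l => exact mx_le (a l rfl) a'
    · cases x1 with
      | none => exact b'
      | some l => exact le_mn (b l rfl) b'
    · cases y0 with
      | none => exact c'
      | some l => exact mx_le (c1 l rfl) c'
    · cases y1 with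
      | none => exact d'
      | some l => exact le_mn (d l rfl) d'

/-! ### segments -/

def pt (g : Fin 3 → ℝ) (v : L × L) : Pl := WithLp.toLp 2 ![v.1.ev g, v.2.ev g]

theorem seg_v {c a b : ℝ} (h : a < b) (p : Pl) :
    p ∈ segment ℝ (WithLp.toLp 2 ![c, a] : Pl) (WithLp.toLp 2 ![c, b] : Pl) ↔
      c ≤ p 0 ∧ p 0 ≤ c ∧ a ≤ p 1 ∧ p 1 ≤ b := by
  constructor
  · rintro ⟨s, t, hs, ht, hst, rfl⟩
    have e0 : (s • (WithLp.toLp 2 ![c, a] : Pl) + t • (WithLp.toLp 2 ![c, b] : Pl)) 0 =
        s * c + t * c := by simp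
    have e1 : (s • (WithLp.toLp 2 ![c, a] : Pl) + t • (WithLp.toLp 2 ![c, b] : Pl)) 1 =
        s * a + t * b := by simp
    rw [e0, e1]
    have hs' : s = 1 - t := by linarith
    subst hs'
    refine ⟨by linarith, by linarith, ?_, ?_⟩
    · nlinarith
    · nlinarith
  · rintro ⟨h1, h2, h3, h4⟩
    have hb : 0 < b - a := by linarith
    refine ⟨1 - (p 1 - a) / (b - a), (p 1 - a) / (b - a), ?_, ?_, by ring, ?_⟩
    · rw [sub_nonneg, div_le_one hb]; linarith
    · exact div_nonneg (by linarith) hb.le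
    · have hc : p 0 = c := le_antisymm h2 h1
      ext i
      fin_cases i
      · simp [hc]
        ring
      · simp
        field_simp
        ring

theorem seg_h {c a b : ℝ} (h : a < b) (p : Pl) :
    p ∈ segment ℝ (WithLp.toLp 2 ![a, c] : Pl) (WithLp.toLp 2 ![b, c] : Pl) ↔
      a ≤ p 0 ∧ p 0 ≤ b ∧ c ≤ p 1 ∧ p 1 ≤ c := by
  constructor
  · rintro ⟨s, t, hs, ht, hst, rfl⟩
    have e0 : (s • (WithLp.toLp 2 ![a, c] : Pl) + t • (WithLp.toLp 2 ![b, c] : Pl)) 0 =
        s * a + t * b := by simp
    have e1 : (s • (WithLp.toLp 2 ![a, c] : Pl) + t • (WithLp.toLp 2 ![b, c] : Pl)) 1 =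
        s * c + t * c := by simp
    rw [e0, e1]
    have hs' : s = 1 - t := by linarith
    subst hs'
    refine ⟨?_, ?_, by linarith, by linarith⟩
    · nlinarith
    · nlinarith
  · rintro ⟨h1, h2, h3, h4⟩
    have hb : 0 < b - a := by linarith
    refine ⟨1 - (p 0 - a) / (b - a), (p 0 - a) / (b - a), ?_, ?_, by ring, ?_⟩
    · rw [sub_nonneg, div_le_one hb]; linarith
    · exact div_nonneg (by linarith) hb.le
    · have hc : p 1 = c := le_antisymm h4 h3
      ext i
      fin_cases i
      · simp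
        field_simp
        ring
      · simp [hc]
        ring

/-- a degenerate rectangle that is the segment between two different points -/
theorem edge_sound (hg : ∀ k, 0 < g k) {e : R} {v w : L × L} (h : edgeIs e v w = true) :
    (∀ p, p ∈ R.set g e ↔ p ∈ segment ℝ (pt g v) (pt g w)) ∧ pt g v ≠ pt g w ∧
      (e.x0.ev g = e.x1.ev g ∨ e.y0.ev g = e.y1.ev g) := by
  obtain ⟨v1, v2⟩ := v
  obtain ⟨w1, w2⟩ := w
  simp only [edgeIs, Bool.or_eq_true, Bool.and_eq_true] at h
  rcases h with ((h | h) | h) | h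
  · obtain ⟨⟨⟨⟨⟨h1, h2⟩, h3⟩, h4⟩, h5⟩, h6⟩ := h
    have e1 := eq_ev (g := g) h1
    have e2 := lt_ev hg h2
    have e3 := eq_ev (g := g) h3
    have e4 := eq_ev (g := g) h4
    have e5 := eq_ev (g := g) h5
    have e6 := eq_ev (g := g) h6
    refine ⟨fun p => ?_, ?_, Or.inl (e3.trans e4.symm)⟩
    · simp only [pt, ← e1]
      rw [seg_v e2, mem_R, e3, e4, e5, e6]
    · intro hh
      have := congrArg (fun z : Pl => z 1) hh
      simp [pt] at this
      linarith
  · obtain ⟨⟨⟨⟨⟨h1, h2⟩, h3⟩, h4⟩, h5⟩, h6⟩ := h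
    have e1 := eq_ev (g := g) h1
    have e2 := lt_ev hg h2
    have e3 := eq_ev (g := g) h3
    have e4 := eq_ev (g := g) h4
    have e5 := eq_ev (g := g) h5
    have e6 := eq_ev (g := g) h6
    refine ⟨fun p => ?_, ?_, Or.inl (e3.trans e4.symm)⟩
    · simp only [pt, ← e1]
      rw [segment_symm, seg_v e2, mem_R, e3, e4, e5, e6]
    · intro hh
      have := congrArg (fun z : Pl => z 1) hh
      simp [pt] at this
      linarith
  · obtain ⟨⟨⟨⟨⟨h1, h2⟩, h3⟩, h4⟩, h5⟩, h6⟩ := h
    have e1 := eq_ev (g := g) h1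
    have e2 := lt_ev hg h2
    have e3 := eq_ev (g := g) h3
    have e4 := eq_ev (g := g) h4
    have e5 := eq_ev (g := g) h5
    have e6 := eq_ev (g := g) h6
    refine ⟨fun p => ?_, ?_, Or.inr (e3.trans e4.symm)⟩
    · simp only [pt, ← e1]
      rw [seg_h e2, mem_R, e3, e4, e5, e6]
    · intro hh
      have := congrArg (fun z : Pl => z 0) hh
      simp [pt] at this
      linarith
  · obtain ⟨⟨⟨⟨⟨h1, h2⟩, h3⟩, h4⟩, h5⟩, h6⟩ := h
    have e1 := eq_ev (g := g) h1
    have e2 := lt_ev hg h2
    have e3 := eq_ev (g := g) h3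
    have e4 := eq_ev (g := g) h4
    have e5 := eq_ev (g := g) h5
    have e6 := eq_ev (g := g) h6
    refine ⟨fun p => ?_, ?_, Or.inr (e3.trans e4.symm)⟩
    · simp only [pt, ← e1]
      rw [segment_symm, seg_h e2, mem_R, e3, e4, e5, e6]
    · intro hh
      have := congrArg (fun z : Pl => z 0) hh
      simp [pt] at this
      linarith

theorem dj_sound (hg : ∀ k, 0 < g k) {c d : R} (h : c.dj d = true) {p : Pl}
    (h1 : p ∈ R.set g c) (h2 : p ∈ R.set g d) : False := by
  obtain ⟨a1, b1, c1, d1⟩ := h1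
  obtain ⟨a2, b2, c2, d2⟩ := h2
  simp only [R.dj, Bool.or_eq_true] at h
  rcases h with ((h | h) | h) | h <;>
  · have := lt_ev hg h
    linarith

theorem meet_sound {e f : R} {v : L × L} (h : meetPt e f v = true) {p : Pl}
    (h1 : p ∈ R.set g e) (h2 : p ∈ R.set g f) : p = pt g v := by
  obtain ⟨a1, b1, c1, d1⟩ := h1
  obtain ⟨a2, b2, c2, d2⟩ := h2
  simp only [meetPt, Bool.and_eq_true] at h
  obtain ⟨⟨⟨h3, h4⟩, h5⟩, h6⟩ := h
  have e3 := eq_ev (g := g) h3
  have e4 := eq_ev (g := g) h4
  have e5 := eq_ev (g := g) h5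
  have e6 := eq_ev (g := g) h6
  have f3 := mx_le a1 a2
  have f4 := le_mn b1 b2
  have f5 := mx_le c1 c2
  have f6 := le_mn d1 d2
  rw [e3] at f3
  rw [e4] at f4
  rw [e5] at f5
  rw [e6] at f6
  ext i
  fin_cases i
  · simpa [pt] using le_antisymm f4 f3
  · simpa [pt] using le_antisymm f6 f5

theorem rows_sound (hg : ∀ k, 0 < g k) (n : ℕ) (dR : R) (dV : L × L) :
    ∀ (es : List R) (vs : List (L × L)) (k : ℕ), edgeRows n k es vs = true →
    ∀ i j, i < j → j < es.length → ∀ p, p ∈ R.set g (es.getD i dR) → p ∈ R.set g (es.getD j dR) →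
      (j = i + 1 ∧ p = pt g (vs.getD j dV)) ∨
      (i = 0 ∧ k = 0 ∧ j + 1 = es.length ∧ p = pt g (vs.getD 0 dV)) := by
  intro es
  induction es with
  | nil => intro vs k _ i j _ hj; simp at hj
  | cons e t ih =>
    intro vs k h i j hij hj p hpi hpj
    cases vs with
    | nil => simp [edgeRows] at h
    | cons v vt =>
      simp only [edgeRows, Bool.and_eq_true] at h
      obtain ⟨h1, h2⟩ := h
      obtain ⟨j', rfl⟩ : ∃ j', j = j' + 1 := ⟨j - 1, by omega⟩
      have hj' : j' < t.length := by simpa using hj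
      rw [List.getD_cons_succ] at hpj
      cases i with
      | succ i' =>
        rw [List.getD_cons_succ] at hpi
        rcases ih vt (k + 1) h2 i' j' (by omega) hj' p hpi hpj with ⟨a, b⟩ | ⟨_, b, _⟩
        · left
          refine ⟨by omega, ?_⟩
          rw [List.getD_cons_succ]
          exact b
        · exact absurd b (by omega)
      | zero =>
        rw [List.getD_cons_zero] at hpi
        cases t with
        | nil => simp at hj'
        | cons f u =>
          cases vt with
          | nil => simp at h1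
          | cons w vt' =>
            simp only [Bool.and_eq_true] at h1
            obtain ⟨h3, h4⟩ := h1
            cases j' with
            | zero =>
              left
              refine ⟨rfl, ?_⟩
              rw [List.getD_cons_zero] at hpj
              simpa using meet_sound h3 hpi hpj
            | succ j'' =>
              rw [List.getD_cons_succ] at hpj
              have hj'' : j'' < u.length := by simpa using hj'
              by_cases hk : k = 0
              · rw [if_pos hk] at h4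
                simp only [Bool.and_eq_true, List.all_eq_true] at h4
                obtain ⟨h5, h6⟩ := h4
                by_cases hlast : j'' + 1 < u.length
                · exfalso
                  have hm : u.getD j'' dR ∈ u.dropLast := by
                    rw [List.getD_eq_getElem _ _ hj'']
                    have : j'' < u.dropLast.length := by simp; omega
                    have e1 : u.dropLast[j''] = u[j''] := by simp
                    rw [← e1]
                    exact List.getElem_mem this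
                  exact dj_sound hg (h5 _ hm) hpi hpj
                · right
                  have hl : j'' + 1 = u.length := by omega
                  refine ⟨rfl, hk, by simp; omega, ?_⟩
                  have hu : u ≠ [] := by
                    rintro rfl
                    simp at hj''
                  have hgl : u.getLast? = some (u.getD j'' dR) := by
                    rw [List.getLast?_eq_getElem?, List.getD_eq_getElem _ _ hj'']
                    rw [List.getElem?_eq_getElem (by omega)]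
                    congr 1
                    congr 1
                    omega
                  rw [hgl] at h6
                  simp only at h6
                  rw [List.getD_cons_zero]
                  exact meet_sound h6 hpi hpj
              · rw [if_neg hk] at h4
                simp only [List.all_eq_true] at h4
                exact (dj_sound hg (h4 _ (getD_mem hj'' dR)) hpi hpj).elim

theorem zip_mem {α β : Type} {l : List α} {m : List β} (h : l.length = m.length) {b : β}
    (hb : b ∈ m) : ∃ a, (a, b) ∈ l.zip m := by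
  obtain ⟨i, hi, rfl⟩ := List.getElem_of_mem hb
  refine ⟨l[i]'(by omega), ?_⟩
  have hz : i < (l.zip m).length := by simp; omega
  have e : (l.zip m)[i] = (l[i]'(by omega), m[i]) := by simp
  rw [← e]
  exact List.getElem_mem hz

/-- the boundary as a set -/
def Bd (g : Fin 3 → ℝ) (es : List R) : Set Pl := {p | ∃ e ∈ es, p ∈ R.set g e}

theorem closed_list (cs : List R) : IsClosed {p : Pl | ∃ c ∈ cs, p ∈ R.set g c} := by
  induction cs with
  | nil => simp
  | cons c t ih =>
    have : {p : Pl | ∃ d ∈ c :: t, p ∈ R.set g d} = R.set g c ∪ {p : Pl | ∃ d ∈ t, p ∈ R.set g d} := by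
      ext p; simp
    rw [this]
    exact (closed_R c).union ih

theorem compact_list (cs : List R) : IsCompact {p : Pl | ∃ c ∈ cs, p ∈ R.set g c} := by
  induction cs with
  | nil => simp
  | cons c t ih =>
    have : {p : Pl | ∃ d ∈ c :: t, p ∈ R.set g d} = R.set g c ∪ {p : Pl | ∃ d ∈ t, p ∈ R.set g d} := by
      ext p; simp
    rw [this]
    exact (compact_R c).union ih

theorem closed_listQ {α : Type} (qs : List (Q × α)) :
    IsClosed {p : Pl | ∃ z ∈ qs, p ∈ Q.set g z.1} := by
  induction qs with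
  | nil => simp
  | cons c t ih =>
    have : {p : Pl | ∃ d ∈ c :: t, p ∈ Q.set g d.1} =
        Q.set g c.1 ∪ {p : Pl | ∃ d ∈ t, p ∈ Q.set g d.1} := by
      ext p; simp
    rw [this]
    exact (closed_Q c.1).union ih

theorem line_interior (k : Fin 2) (c : ℝ) : interior {p : Pl | p k = c} = ∅ := by
  rw [Set.eq_empty_iff_forall_notMem]
  intro p hp
  have hc : Continuous (fun t : ℝ => p + t • (EuclideanSpace.single k (1 : ℝ) : Pl)) := by
    fun_prop
  have ho := isOpen_interior (s := {p : Pl | p k = c}) |>.preimage hc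
  have h0 : (0 : ℝ) ∈ (fun t : ℝ => p + t • (EuclideanSpace.single k (1 : ℝ) : Pl)) ⁻¹'
      interior {p : Pl | p k = c} := by
    simpa using hp
  obtain ⟨ε, he, hb⟩ := Metric.isOpen_iff.1 ho 0 h0
  have h1 : (ε / 2 : ℝ) ∈ Metric.ball (0 : ℝ) ε := by
    rw [Metric.mem_ball, dist_zero_right, Real.norm_eq_abs, abs_of_pos (by linarith)]
    linarith
  have h2 := interior_subset (hb h1)
  have h3 := interior_subset hp
  simp at h2 h3
  linarith

theorem deg_interior {e : R} (h : e.x0.ev g = e.x1.ev g ∨ e.y0.ev g = e.y1.ev g) :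
    interior (R.set g e) = ∅ := by
  rcases h with h | h
  · have : R.set g e ⊆ {p : Pl | p 0 = e.x0.ev g} := by
      rintro p ⟨a, b, c, d⟩
      exact le_antisymm (b.trans h.symm.le) a
    exact Set.subset_empty_iff.1 ((interior_mono this).trans (line_interior _ _).subset)
  · have : R.set g e ⊆ {p : Pl | p 1 = e.y0.ev g} := by
      rintro p ⟨a, b, c, d⟩
      exact le_antisymm (d.trans h.symm.le) c
    exact Set.subset_empty_iff.1 ((interior_mono this).trans (line_interior _ _).subset)

theorem bd_interior (es : List R)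
    (h : ∀ e ∈ es, e.x0.ev g = e.x1.ev g ∨ e.y0.ev g = e.y1.ev g) :
    interior (Bd g es) = ∅ := by
  induction es with
  | nil => simp [Bd]
  | cons c t ih =>
    have : Bd g (c :: t) = R.set g c ∪ Bd g t := by
      ext p; simp [Bd]
    rw [this, interior_union_isClosed_of_interior_empty (closed_R c)
      (ih (fun e he => h e (List.mem_cons_of_mem _ he)))]
    exact deg_interior (h c List.mem_cons_self)

theorem edge_at {X : PolyData} (h : X.es1 = true) {i : ℕ} (hi : i < X.es.length) :
    edgeIs (X.es.getD i R.default) (X.vs.getD i (L.zero, L.zero))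
      (X.vs.getD (i + 1) (L.zero, L.zero)) = true := by
  simp only [PolyData.es1, Bool.and_eq_true, decide_eq_true_eq, List.all_eq_true] at h
  obtain ⟨⟨⟨h1, h2⟩, h3⟩, h4⟩ := h
  have hv : i < X.vs.length := by omega
  have hv' : i + 1 < X.vs.length := by omega
  have hz : i < (X.es.zip (X.vs.zip X.vs.tail)).length := by simp; omega
  have := h4 _ (List.getElem_mem hz)
  rw [List.getD_eq_getElem _ _ hi, List.getD_eq_getElem _ _ hv, List.getD_eq_getElem _ _ hv']
  simpa using this

theorem closed_loop {X : PolyData} (h : X.es1 = true) :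
    pt g (X.vs.getD X.es.length (L.zero, L.zero)) = pt g (X.vs.getD 0 (L.zero, L.zero)) := by
  simp only [PolyData.es1, Bool.and_eq_true, decide_eq_true_eq, List.all_eq_true] at h
  obtain ⟨⟨⟨h1, h2⟩, h3⟩, h4⟩ := h
  have hv : 0 < X.vs.length := by omega
  have hv' : X.es.length < X.vs.length := by omega
  have e1 : X.vs.head? = some X.vs[0] := by
    rw [List.head?_eq_getElem?, List.getElem?_eq_getElem hv]
  have e2 : X.vs.getLast? = some X.vs[X.es.length] := by
    rw [List.getLast?_eq_getElem?, List.getElem?_eq_getElem (by omega)]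
    congr 1
    congr 1
    omega
  rw [e1, e2] at h3
  simp only [Bool.and_eq_true] at h3
  rw [List.getD_eq_getElem _ _ hv, List.getD_eq_getElem _ _ hv']
  simp only [pt, eq_ev (g := g) h3.1, eq_ev (g := g) h3.2]

/-- the complement pieces minus the boundary do not meet the polygon -/
theorem piece_out (hg : ∀ k, 0 < g k) {X : PolyData} (h3 : X.ok3 = true) {z : Q × List ℕ}
    (hz : z ∈ X.qs) {p : Pl} (hp : p ∈ Q.set g z.1) (hP : p ∈ X.P g) : p ∈ Bd g X.es := by
  simp only [PolyData.ok3, List.all_eq_true, Bool.and_eq_true] at h3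
  obtain ⟨c, hc, hpc⟩ := hP
  exact qc_sound hg ((h3 z hz).2 c hc) hp hpc

theorem edges_deg (hg : ∀ k, 0 < g k) {X : PolyData} (h1 : X.ok1 = true) :
    ∀ e ∈ X.es, e.x0.ev g = e.x1.ev g ∨ e.y0.ev g = e.y1.ev g := by
  intro e he
  obtain ⟨i, hi, rfl⟩ := List.getElem_of_mem he
  have := (edge_sound hg (edge_at h1 hi)).2.2
  rwa [List.getD_eq_getElem _ _ hi] at this

theorem edge_not_int (hg : ∀ k, 0 < g k) (X : PolyData)
    (h1 : X.ok1 = true) (h3 : X.ok3 = true) (h4 : X.ok4 = true) :
    ∀ e ∈ X.es, ∀ p ∈ R.set g e, p ∉ interior (X.P g) := by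
  intro e he p hp hpi
  have h3' := h3
  simp only [PolyData.ok3, List.all_eq_true, Bool.and_eq_true] at h3
  simp only [PolyData.ok4, Bool.and_eq_true, decide_eq_true_eq, List.all_eq_true] at h4
  obtain ⟨o, ho⟩ := zip_mem h4.1 he
  obtain ⟨⟨⟨a1, a2⟩, a3⟩, a4⟩ := h4.2 _ ho
  obtain ⟨j, hj, hpj⟩ := cov_sound hg _ _ _ _ a4 a3 p (mem_toQ.2 hp)
  have hm := getD_mem hj ((⟨none, none, none, none⟩, []) : Q × List ℕ)
  set z := X.qs.getD j (⟨none, none, none, none⟩, []) with hzdef
  have hfat := (h3 z hm).1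
  have hcl : p ∈ closure (interior (Q.set g z.1)) := by
    rw [(convex_Q z.1).closure_interior_eq_closure_of_nonempty_interior (fat_interior hg hfat)]
    exact subset_closure hpj
  have hdense : Dense (Bd g X.es)ᶜ := by
    rw [← interior_eq_empty_iff_dense_compl]
    exact bd_interior _ (edges_deg hg h1)
  have hcl2 : p ∈ closure (interior (Q.set g z.1) ∩ (Bd g X.es)ᶜ) := by
    have := hdense.open_subset_closure_inter (isOpen_interior (s := Q.set g z.1))
    exact closure_minimal this isClosed_closure hcl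
  obtain ⟨y, hy1, hy2, hy3⟩ := mem_closure_iff.1 hcl2 _ isOpen_interior hpi
  exact hy3 (piece_out hg h3' hm (interior_subset hy2) (interior_subset hy1))

theorem isPolygon (hg : ∀ k, 0 < g k) (X : PolyData)
    (h1 : X.ok1 = true) (h2 : X.ok2 = true) (h3 : X.ok3 = true) (h4 : X.ok4 = true)
    (h5 : X.ok5 = true) (h6 : X.ok6 = true) : IsPolygon (X.P g) := by
  have hclosed : IsClosed (X.P g) := closed_list X.cs
  have hfr : ∀ p, p ∈ frontier (X.P g) ↔ p ∈ Bd g X.es := by
    intro p
    rw [hclosed.frontier_eq]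
    constructor
    · rintro ⟨hP, hi⟩
      by_contra hb
      apply hi
      have hU : IsOpen {q : Pl | ∃ z ∈ X.qs, q ∈ Q.set g z.1}ᶜ := (closed_listQ X.qs).isOpen_compl
      refine mem_interior.2 ⟨_, ?_, hU, ?_⟩
      · intro q hq
        simp only [PolyData.ok5, Bool.and_eq_true] at h5
        obtain ⟨i, hi', hqi⟩ := cov_sound hg _ _ _ _ h5.2 h5.1 q
          (show q ∈ Q.set g ⟨none, none, none, none⟩ from ⟨by simp, by simp, by simp, by simp⟩)
        by_cases hc : i < X.cs.length
        · simp only [hc, if_true] at hqi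
          exact ⟨_, getD_mem hc _, mem_toQ.1 hqi⟩
        · simp only [hc, if_false] at hqi
          exact (hq ⟨_, getD_mem (by omega) _, hqi⟩).elim
      · rintro ⟨z, hz, hpz⟩
        exact hb (piece_out hg h3 hz hpz hP)
    · rintro ⟨e, he, hp⟩
      refine ⟨?_, edge_not_int hg X h1 h3 h4 e he p hp⟩
      simp only [PolyData.ok4, Bool.and_eq_true, decide_eq_true_eq, List.all_eq_true] at h4
      obtain ⟨o, ho⟩ := zip_mem h4.1 he
      obtain ⟨⟨⟨a1, a2⟩, a3⟩, a4⟩ := h4.2 _ ho
      obtain ⟨j, hj, hpj⟩ := cov_sound hg _ _ _ _ a2 a1 p (mem_toQ.2 hp)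
      exact ⟨_, getD_mem hj _, mem_toQ.1 hpj⟩
  have hes := h1
  simp only [PolyData.ok1, PolyData.es1, Bool.and_eq_true, decide_eq_true_eq,
    List.all_eq_true] at hes
  obtain ⟨⟨⟨hn, hl⟩, _⟩, _⟩ := hes
  refine ⟨compact_list X.cs, ?_, X.es.length, fun i => pt g (X.vs.getD i (L.zero, L.zero)), hn,
    closed_loop h1, ?_, ?_, ?_⟩
  · -- nonempty interior
    have h6' := h6
    simp only [PolyData.ok6] at h6'
    cases hcs : X.cs with
    | nil => rw [hcs] at h6'; simp at h6'
    | cons c t =>
      rw [hcs] at h6'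
      simp only [Bool.and_eq_true] at h6'
      have hf : (c.toQ).fat = true := by
        simp only [Q.fat, R.toQ, Bool.and_eq_true]
        exact h6'
      obtain ⟨p, hp⟩ := fat_interior hg hf
      refine ⟨p, interior_mono ?_ hp⟩
      intro q hq
      exact ⟨c, by rw [hcs]; exact List.mem_cons_self, mem_toQ.1 hq⟩
  · intro i hi
    exact (edge_sound hg (edge_at h1 hi)).2.1
  · intro i j hij hj p hpi hpj
    have e1 := ((edge_sound hg (edge_at h1 (lt_trans hij hj))).1 p).2 hpi
    have e2 := ((edge_sound hg (edge_at h1 hj)).1 p).2 hpj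
    rcases rows_sound hg X.es.length R.default (L.zero, L.zero) X.es X.vs 0 h2 i j hij hj p e1 e2
      with ⟨a, b⟩ | ⟨a, _, b, c⟩
    · exact Or.inl ⟨a, b⟩
    · exact Or.inr ⟨a, b, c⟩
  · intro p
    rw [hfr p]
    constructor
    · rintro ⟨e, he, hp⟩
      obtain ⟨i, hi, rfl⟩ := List.getElem_of_mem he
      refine ⟨i, hi, ((edge_sound hg (edge_at h1 hi)).1 p).1 ?_⟩
      rwa [List.getD_eq_getElem _ _ hi]
    · rintro ⟨i, hi, hp⟩
      exact ⟨_, getD_mem hi _, ((edge_sound hg (edge_at h1 hi)).1 p).2 hp⟩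

end PC

/-- PART C1 -/
theorem isPolygon_of_data (g : Fin 3 → ℝ) (hg : ∀ k, 0 < g k) (X : PolyData)
    (h1 : X.ok1 = true) (h2 : X.ok2 = true) (h3 : X.ok3 = true) (h4 : X.ok4 = true)
    (h5 : X.ok5 = true) (h6 : X.ok6 = true) : IsPolygon (X.P g) :=
  PC.isPolygon hg X h1 h2 h3 h4 h5 h6

/-- PART C2 -/
theorem edge_not_interior (g : Fin 3 → ℝ) (hg : ∀ k, 0 < g k) (X : PolyData)
    (h1 : X.ok1 = true) (h2 : X.ok2 = true) (h3 : X.ok3 = true) (h4 : X.ok4 = true)
    (h5 : X.ok5 = true) (h6 : X.ok6 = true) :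
    ∀ e ∈ X.es, ∀ p ∈ R.set g e, p ∉ interior (X.P g) :=
  PC.edge_not_int hg X h1 h3 h4

end Pool.Agent.Box3
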