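import Pool.Agent.Box3.Base
import Pool.Agent.Box3.PartC
set_option linter.all false
set_option autoImplicit false

namespace Pool.Agent.Box3

open Set

theorem sq_one {a b c : ℤ} (h : a * a + b * b + c * c = 1) :
    ((a = 1 ∨ a = -1) ∧ b = 0 ∧ c = 0) ∨ (a = 0 ∧ (b = 1 ∨ b = -1) ∧ c = 0) ∨
      (a = 0 ∧ b = 0 ∧ (c = 1 ∨ c = -1)) := by
  have a1 : a ≤ 1 := by nlinarith [mul_self_nonneg b, mul_self_nonneg c]
  have a2 : -1 ≤ a := by nlinarith [mul_self_nonneg b, mul_self_nonneg c]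
  have b1 : b ≤ 1 := by nlinarith [mul_self_nonneg a, mul_self_nonneg c]
  have b2 : -1 ≤ b := by nlinarith [mul_self_nonneg a, mul_self_nonneg c]
  have c1 : c ≤ 1 := by nlinarith [mul_self_nonneg b, mul_self_nonneg a]
  have c2 : -1 ≤ c := by nlinarith [mul_self_nonneg b, mul_self_nonneg a]
  interval_cases a <;> interval_cases b <;> interval_cases c <;> simp_all

/-- membership of a point of space in the symbolic box of a piece -/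
def B3.memb (g : Fin 3 → ℝ) (m : B3) (w : Sp) : Prop :=
  (m.l0.ev g ≤ w 0 ∧ w 0 ≤ m.h0.ev g) ∧ (m.l1.ev g ≤ w 1 ∧ w 1 ≤ m.h1.ev g) ∧
    (m.l2.ev g ≤ w 2 ∧ w 2 ≤ m.h2.ev g)

theorem img_sur {g : Fin 3 → ℝ} (c : Pc) (ho : c.orth = true) (w : Sp)
    (h : c.img.memb g w) : ∃ p, p ∈ R.set g c.q ∧ c.map g p = w := by
  obtain ⟨q, ⟨e0, f0, k0⟩, ⟨e1, f1, k1⟩, ⟨e2, f2, k2⟩⟩ := c
  simp only [Pc.orth, Bool.and_eq_true, decide_eq_true_eq] at ho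
  obtain ⟨⟨h1, h2⟩, h3⟩ := ho
  obtain ⟨⟨a0, b0⟩, ⟨a1, b1⟩, ⟨a2, b2⟩⟩ := h
  simp only [Pc.img, Co.lo, Co.hi, L.ev_add] at a0 b0 a1 b1 a2 b2
  refine ⟨WithLp.toLp 2 ![(e0 : ℝ) * (w 0 - k0.ev g) + e1 * (w 1 - k1.ev g) + e2 * (w 2 - k2.ev g),
    (f0 : ℝ) * (w 0 - k0.ev g) + f1 * (w 1 - k1.ev g) + f2 * (w 2 - k2.ev g)], ?_, ?_⟩
  · show _ ∧ _
    rcases sq_one h1 with ⟨he | he, he', he''⟩ | ⟨he', he | he, he''⟩ | ⟨he', he'', he | he⟩ <;>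
    rcases sq_one h2 with ⟨hf | hf, hf', hf''⟩ | ⟨hf', hf | hf, hf''⟩ | ⟨hf', hf'', hf | hf⟩ <;>
    subst he <;> subst he' <;> subst he'' <;> subst hf <;> subst hf' <;> subst hf'' <;>
    simp [lo1, hi1, L.ev_sm] at h3 a0 b0 a1 b1 a2 b2 ⊢ <;>
    refine ⟨?_, ?_, ?_, ?_⟩ <;> linarith
  · have key : ∀ i : Fin 3, (Pc.map g ⟨q, ⟨e0, f0, k0⟩, ⟨e1, f1, k1⟩, ⟨e2, f2, k2⟩⟩
        (WithLp.toLp 2 ![(e0 : ℝ) * (w 0 - k0.ev g) + e1 * (w 1 - k1.ev g) + e2 * (w 2 - k2.ev g),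
        (f0 : ℝ) * (w 0 - k0.ev g) + f1 * (w 1 - k1.ev g) + f2 * (w 2 - k2.ev g)])) i = w i := by
      rcases sq_one h1 with ⟨he | he, he', he''⟩ | ⟨he', he | he, he''⟩ | ⟨he', he'', he | he⟩ <;>
      rcases sq_one h2 with ⟨hf | hf, hf', hf''⟩ | ⟨hf', hf | hf, hf''⟩ | ⟨hf', hf'', hf | hf⟩ <;>
      subst he <;> subst he' <;> subst he'' <;> subst hf <;> subst hf' <;> subst hf'' <;>
      simp [lo1, hi1, L.ev_sm] at h3 a0 b0 a1 b1 a2 b2 <;>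
      intro i <;> fin_cases i <;> simp [Pc.map, Co.ev] <;> linarith
    ext i
    exact key i

theorem bad_empty {g : Fin 3 → ℝ} (hg : ∀ k, 0 < g k) {z : Pl}
    (h : z ∈ Q.set g ⟨some ⟨1, 0, 0⟩, some L.zero, some L.zero, some L.zero⟩) : False := by
  obtain ⟨a, b, _, _⟩ := h
  have a' := a ⟨1, 0, 0⟩ rfl
  have b' := b L.zero rfl
  simp only [L.ev, L.zero] at a' b'
  have := hg 0
  push_cast at a' b'
  linarith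

theorem face0 {g : Fin 3 → ℝ} (hg : ∀ k, 0 < g k) {c : Pc} {v : L} {z : Pl}
    (h : z ∈ Q.set g (c.face 0 v)) : (c.img.l0.ev g = v.ev g ∧ c.img.h0.ev g = v.ev g) ∧
      (c.img.l1.ev g ≤ z 0 ∧ z 0 ≤ c.img.h1.ev g) ∧ (c.img.l2.ev g ≤ z 1 ∧ z 1 ≤ c.img.h2.ev g) := by
  simp only [Pc.face] at h
  split_ifs at h with hh
  · simp only [Bool.and_eq_true] at hh
    obtain ⟨a1, a2, a3, a4⟩ := h
    exact ⟨⟨by rw [L.eq_of hh.1], by rw [L.eq_of hh.2]⟩, ⟨a1 _ rfl, a2 _ rfl⟩, ⟨a3 _ rfl, a4 _ rfl⟩⟩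
  · exact (bad_empty hg h).elim

theorem face1 {g : Fin 3 → ℝ} (hg : ∀ k, 0 < g k) {c : Pc} {v : L} {z : Pl}
    (h : z ∈ Q.set g (c.face 1 v)) : (c.img.l1.ev g = v.ev g ∧ c.img.h1.ev g = v.ev g) ∧
      (c.img.l0.ev g ≤ z 0 ∧ z 0 ≤ c.img.h0.ev g) ∧ (c.img.l2.ev g ≤ z 1 ∧ z 1 ≤ c.img.h2.ev g) := by
  simp only [Pc.face] at h
  split_ifs at h with hh
  · simp only [Bool.and_eq_true] at hh
    obtain ⟨a1, a2, a3, a4⟩ := h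
    exact ⟨⟨by rw [L.eq_of hh.1], by rw [L.eq_of hh.2]⟩, ⟨a1 _ rfl, a2 _ rfl⟩, ⟨a3 _ rfl, a4 _ rfl⟩⟩
  · exact (bad_empty hg h).elim

theorem face2 {g : Fin 3 → ℝ} (hg : ∀ k, 0 < g k) {c : Pc} {v : L} {z : Pl}
    (h : z ∈ Q.set g (c.face 2 v)) : (c.img.l2.ev g = v.ev g ∧ c.img.h2.ev g = v.ev g) ∧
      (c.img.l0.ev g ≤ z 0 ∧ z 0 ≤ c.img.h0.ev g) ∧ (c.img.l1.ev g ≤ z 1 ∧ z 1 ≤ c.img.h1.ev g) := by
  simp only [Pc.face] at h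
  split_ifs at h with hh
  · simp only [Bool.and_eq_true] at hh
    obtain ⟨a1, a2, a3, a4⟩ := h
    exact ⟨⟨by rw [L.eq_of hh.1], by rw [L.eq_of hh.2]⟩, ⟨a1 _ rfl, a2 _ rfl⟩, ⟨a3 _ rfl, a4 _ rfl⟩⟩
  · exact (bad_empty hg h).elim

theorem start_mem {g : Fin 3 → ℝ} {u1 u2 : L} {x y : ℝ} (h1 : 0 ≤ x) (h2 : x ≤ u1.ev g)
    (h3 : 0 ≤ y) (h4 : y ≤ u2.ev g) :
    (WithLp.toLp 2 ![x, y] : Pl) ∈ Q.set g ⟨some L.zero, some u1, some L.zero, some u2⟩ := by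
  refine ⟨?_, ?_, ?_, ?_⟩ <;> intro l hl <;>
    simp only [Option.mem_def, Option.some.injEq] at hl <;> subst hl <;>
    simp [L.ev_zero] <;> assumption

/-- PART D3 -/
theorem hsur_of_ok4 (g : Fin 3 → ℝ) (hg : ∀ k, 0 < g k) (B : BoxData)
    (ho : ∀ c ∈ B.ps, c.p.orth = true) (h4 : B.ok4 = true) :
    ∀ w, w ∈ surface (B.a.ev g) (B.b.ev g) (B.c.ev g) →
      ∃ i : Fin B.ps.length, ∃ p, p ∈ R.set g B.ps[i].p.q ∧ B.ps[i].p.map g p = w := by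
  intro w hw
  simp only [BoxData.ok4, Bool.and_eq_true] at h4
  obtain ⟨⟨⟨⟨⟨⟨⟨⟨⟨⟨⟨l0, c0⟩, l1⟩, c1⟩, l2⟩, c2⟩, l3⟩, c3⟩, l4⟩, c4⟩, l5⟩, c5⟩ := h4
  obtain ⟨⟨w0, w0'⟩, ⟨w1, w1'⟩, ⟨w2, w2'⟩, hf⟩ := hw
  have fin : ∀ i, i < B.ps.length → (B.ps.getD i PB.default).p.img.memb g w →
      ∃ i : Fin B.ps.length, ∃ p, p ∈ R.set g B.ps[i].p.q ∧ B.ps[i].p.map g p = w := by
    intro i hi hm
    have he : B.ps.getD i PB.default = B.ps[i] := List.getD_eq_getElem _ _ hi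
    rw [he] at hm
    obtain ⟨p, hp, hp'⟩ := img_sur (g := g) B.ps[i].p (ho _ (List.getElem_mem hi)) w hm
    exact ⟨⟨i, hi⟩, p, hp, hp'⟩
  have hz : ∀ v : L, v = L.zero → v.ev g = 0 := fun v hv => by rw [hv, L.ev_zero]
  rcases hf with hf | hf | hf | hf | hf | hf
  · obtain ⟨i, hi, hm⟩ := PC.cov_sound hg _ _ _ _ c0 l0 _ (start_mem w1 w1' w2 w2')
    obtain ⟨⟨e1, e2⟩, e3, e4⟩ := face0 hg hm
    refine fin i hi ⟨?_, by simpa using e3, by simpa using e4⟩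
    rw [e1, e2, hf, L.ev_zero]
    exact ⟨le_rfl, le_rfl⟩
  · obtain ⟨i, hi, hm⟩ := PC.cov_sound hg _ _ _ _ c1 l1 _ (start_mem w1 w1' w2 w2')
    obtain ⟨⟨e1, e2⟩, e3, e4⟩ := face0 hg hm
    refine fin i hi ⟨?_, by simpa using e3, by simpa using e4⟩
    rw [e1, e2, hf]
    exact ⟨le_rfl, le_rfl⟩
  · obtain ⟨i, hi, hm⟩ := PC.cov_sound hg _ _ _ _ c2 l2 _ (start_mem w0 w0' w2 w2')
    obtain ⟨⟨e1, e2⟩, e3, e4⟩ := face1 hg hm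
    refine fin i hi ⟨by simpa using e3, ?_, by simpa using e4⟩
    rw [e1, e2, hf, L.ev_zero]
    exact ⟨le_rfl, le_rfl⟩
  · obtain ⟨i, hi, hm⟩ := PC.cov_sound hg _ _ _ _ c3 l3 _ (start_mem w0 w0' w2 w2')
    obtain ⟨⟨e1, e2⟩, e3, e4⟩ := face1 hg hm
    refine fin i hi ⟨by simpa using e3, ?_, by simpa using e4⟩
    rw [e1, e2, hf]
    exact ⟨le_rfl, le_rfl⟩
  · obtain ⟨i, hi, hm⟩ := PC.cov_sound hg _ _ _ _ c4 l4 _ (start_mem w0 w0' w1 w1')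
    obtain ⟨⟨e1, e2⟩, e3, e4⟩ := face2 hg hm
    refine fin i hi ⟨by simpa using e3, by simpa using e4, ?_⟩
    rw [e1, e2, hf, L.ev_zero]
    exact ⟨le_rfl, le_rfl⟩
  · obtain ⟨i, hi, hm⟩ := PC.cov_sound hg _ _ _ _ c5 l5 _ (start_mem w0 w0' w1 w1')
    obtain ⟨⟨e1, e2⟩, e3, e4⟩ := face2 hg hm
    refine fin i hi ⟨by simpa using e3, by simpa using e4, ?_⟩
    rw [e1, e2, hf]
    exact ⟨le_rfl, le_rfl⟩

end Pool.Agent.Box3
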