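import Pool.Agent.Box3.PartD2
import Pool.Agent.Box3.PartD3
set_option linter.all false
set_option autoImplicit false

namespace Pool.Agent.Box3

/-- PART D: the checks on one box are sound -/
theorem box_of_data (g : Fin 3 → ℝ) (hg : ∀ k, 0 < g k) (X : PolyData) (B : BoxData)
    (hb : ∀ e ∈ X.es, ∀ p ∈ R.set g e, p ∉ interior (X.P g))
    (h1 : B.ok1 X.cs = true) (h2 : B.ok2 X.cs = true) (h3 : B.ok3 X.cs = true)
    (h4 : B.ok4 = true)
    (hr : ∀ i, i < B.ps.length → ∃ j n, j ≤ i ∧ i < j + n ∧ rowsOk X.es B.ps j n = true) :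
    FoldsInto (X.P g) (B.a.ev g) (B.b.ev g) (B.c.ev g) := by
  have ho : ∀ c ∈ B.ps, c.p.orth = true := by
    intro c hc
    have h := List.all_eq_true.1 h1 c hc
    simp only [Bool.and_eq_true] at h
    exact h.1
  exact box_of_data_of_sur g hg X B hb h1 h2 h3 (hsur_of_ok4 g hg B ho h4) hr

end Pool.Agent.Box3
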