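import Pool.Agent.Box3.PartC
import Pool.Agent.Box3.PartD
import Pool.Agent.Box3.OkP
import Pool.Agent.Box3.OkQ
import Pool.Agent.Box3.OkA
import Pool.Agent.Box3.OkB
import Pool.Agent.Box3.OkC
import Pool.Agent.Box3.OkD
import Pool.Agent.Box3.OkE
set_option linter.all false
set_option autoImplicit false

namespace Pool.Agent.Box3

theorem lenA : BA.bx.ps.length = 150 := by decide +kernel

theorem rowsA : ∀ i, i < BA.bx.ps.length → ∃ j n, j ≤ i ∧ i < j + n ∧
    rowsOk poly.es BA.bx.ps j n = true := by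
  intro i hi
  have hi' : i < 150 := by rw [← lenA]; exact hi
  rcases lt_or_ge i 50 with h | h
  · exact ⟨0, 50, by omega, by omega, rowsA0x⟩
  rcases lt_or_ge i 100 with h2 | h2
  · exact ⟨50, 50, by omega, by omega, rowsA50x⟩
  · exact ⟨100, 50, by omega, by omega, rowsA100x⟩

theorem lenB : BB.bx.ps.length = 138 := by decide +kernel

theorem rowsB : ∀ i, i < BB.bx.ps.length → ∃ j n, j ≤ i ∧ i < j + n ∧
    rowsOk poly.es BB.bx.ps j n = true := by
  intro i hi
  have hi' : i < 138 := by rw [← lenB]; exact hi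
  rcases lt_or_ge i 50 with h | h
  · exact ⟨0, 50, by omega, by omega, rowsB0x⟩
  rcases lt_or_ge i 100 with h2 | h2
  · exact ⟨50, 50, by omega, by omega, rowsB50x⟩
  · exact ⟨100, 38, by omega, by omega, rowsB100x⟩

theorem lenC : BC.bx.ps.length = 274 := by decide +kernel

theorem rowsC : ∀ i, i < BC.bx.ps.length → ∃ j n, j ≤ i ∧ i < j + n ∧
    rowsOk poly.es BC.bx.ps j n = true := by
  intro i hi
  have hi' : i < 274 := by rw [← lenC]; exact hi
  rcases lt_or_ge i 25 with h | h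
  · exact ⟨0, 25, by omega, by omega, rowsC0x⟩
  rcases lt_or_ge i 50 with h2 | h2
  · exact ⟨25, 25, by omega, by omega, rowsC25x⟩
  rcases lt_or_ge i 75 with h3 | h3
  · exact ⟨50, 25, by omega, by omega, rowsC50x⟩
  rcases lt_or_ge i 100 with h4 | h4
  · exact ⟨75, 25, by omega, by omega, rowsC75x⟩
  rcases lt_or_ge i 125 with h5 | h5
  · exact ⟨100, 25, by omega, by omega, rowsC100x⟩
  rcases lt_or_ge i 175 with h6 | h6
  · exact ⟨125, 50, by omega, by omega, rowsC125x⟩
  rcases lt_or_ge i 225 with h7 | h7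
  · exact ⟨175, 50, by omega, by omega, rowsC175x⟩
  · exact ⟨225, 49, by omega, by omega, rowsC225x⟩

/-- the common net, in terms of the generators -/
theorem main_g (g : Fin 3 → ℝ) (hg : ∀ k, 0 < g k) :
    IsPolygon (poly.P g) ∧
    FoldsInto (poly.P g) (BA.bx.a.ev g) (BA.bx.b.ev g) (BA.bx.c.ev g) ∧
    FoldsInto (poly.P g) (BB.bx.a.ev g) (BB.bx.b.ev g) (BB.bx.c.ev g) ∧
    FoldsInto (poly.P g) (BC.bx.a.ev g) (BC.bx.b.ev g) (BC.bx.c.ev g) := by
  have hb := edge_not_interior g hg poly poly_ok1 poly_ok2 poly_ok3 poly_ok4 poly_ok5 poly_ok6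
  exact ⟨isPolygon_of_data g hg poly poly_ok1 poly_ok2 poly_ok3 poly_ok4 poly_ok5 poly_ok6,
    box_of_data g hg poly BA.bx hb okA1y okA2y okA3y okA4y rowsA,
    box_of_data g hg poly BB.bx hb okB1y okB2y okB3y okB4y rowsB,
    box_of_data g hg poly BC.bx hb okC1y okC2y okC3y okC4y rowsC⟩

theorem exists_net (r w X : ℝ) (hr : 0 < r) (hw : 4 * r < w) (hX : 4 * w + 6 * r < X) :
    ∃ P : Set Pl, IsPolygon P ∧ FoldsInto P (6 * r) (18 * w - 6 * r) (3 * X - 6 * r) ∧
      FoldsInto P (6 * w + 6 * r) (12 * w - 6 * r) (3 * X - 4 * w - 2 * r) ∧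
      FoldsInto P (6 * r) (X - 6 * r) (54 * w - 6 * r) := by
  set g : Fin 3 → ℝ := ![r, w - 4 * r, X - 4 * w - 6 * r] with hgd
  have g0 : g 0 = r := rfl
  have g1 : g 1 = w - 4 * r := rfl
  have g2 : g 2 = X - 4 * w - 6 * r := rfl
  have hg : ∀ k, 0 < g k := by
    intro k
    fin_cases k
    · exact hr
    · show 0 < w - 4 * r; linarith
    · show 0 < X - 4 * w - 6 * r; linarith
  obtain ⟨h0, h1, h2, h3⟩ := main_g g hg
  refine ⟨poly.P g, h0, ?_, ?_, ?_⟩
  · have e1 : BA.bx.a.ev g = 6 * r := by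
      simp only [BA.bx, L.ev, c123x, g0, g1, g2]; push_cast; ring
    have e2 : BA.bx.b.ev g = 18 * w - 6 * r := by
      simp only [BA.bx, L.ev, c126x, g0, g1, g2]; push_cast; ring
    have e3 : BA.bx.c.ev g = 3 * X - 6 * r := by
      simp only [BA.bx, L.ev, c129x, g0, g1, g2]; push_cast; ring
    rw [e1, e2, e3] at h1; exact h1
  · have e1 : BB.bx.a.ev g = 6 * w + 6 * r := by
      simp only [BB.bx, L.ev, c187x, g0, g1, g2]; push_cast; ring
    have e2 : BB.bx.b.ev g = 12 * w - 6 * r := by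
      simp only [BB.bx, L.ev, c188x, g0, g1, g2]; push_cast; ring
    have e3 : BB.bx.c.ev g = 3 * X - 4 * w - 2 * r := by
      simp only [BB.bx, L.ev, c191x, g0, g1, g2]; push_cast; ring
    rw [e1, e2, e3] at h2; exact h2
  · have e1 : BC.bx.a.ev g = 6 * r := by
      simp only [BC.bx, L.ev, c123x, g0, g1, g2]; push_cast; ring
    have e2 : BC.bx.b.ev g = X - 6 * r := by
      simp only [BC.bx, L.ev, c146x, g0, g1, g2]; push_cast; ring
    have e3 : BC.bx.c.ev g = 54 * w - 6 * r := by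
      simp only [BC.bx, L.ev, c232x, g0, g1, g2]; push_cast; ring
    rw [e1, e2, e3] at h3; exact h3

end Pool.Agent.Box3
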