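import Pool.Agent.Box3.Len
import Mathlib.Topology.LocallyFinite
import Mathlib.Topology.MetricSpace.Isometry

set_option linter.all false

/-!
# Gluing isometries given on the pieces of a finite closed cover
-/

namespace Pool.Agent.Box3

open Set Topology
open scoped ENNReal

variable {E F : Type*} [PseudoMetricSpace E] [PseudoMetricSpace F]

/-- A folding map of `P` onto `B`: continuous, onto, preserving the length of every curve, and every
point which is the image of an interior point of `P` has only one preimage. -/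
def FoldMap (P : Set E) (B : Set F) (f : E → F) : Prop :=
  ContinuousOn f P ∧ f '' P = B ∧
    (∀ c : ℝ → E, ContinuousOn c (Icc 0 1) → (∀ t ∈ Icc (0 : ℝ) 1, c t ∈ P) →
      eVariationOn (f ∘ c) (Icc 0 1) = eVariationOn c (Icc 0 1)) ∧
    ∀ p ∈ interior P, ∀ q ∈ P, f q = f p → q = p

theorem foldMap_of_pieces {ι : Type*} [Finite ι] (P : Set E) (B : Set F) (K : ι → Set E)
    (g : ι → E → F) (hK : ∀ i, IsClosed (K i)) (hP : P = ⋃ i, K i)
    (hg : ∀ i, ∀ x ∈ K i, ∀ y ∈ K i, edist (g i x) (g i y) = edist x y)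
    (hag : ∀ i j, ∀ x ∈ K i, x ∈ K j → g i x = g j x)
    (hB : ⋃ i, g i '' K i = B)
    (hinj : ∀ i j, ∀ x ∈ K i, ∀ y ∈ K j, x ∈ interior P → g j y = g i x → y = x) [Nonempty ι] :
    ∃ f : E → F, FoldMap P B f ∧ ∀ i, ∀ x ∈ K i, f x = g i x := by
  classical
  obtain ⟨i0⟩ := ‹Nonempty ι›
  · set f : E → F := fun x => if h : ∃ i, x ∈ K i then g h.choose x else g i0 x with hf
    have hfg : ∀ i, ∀ x ∈ K i, f x = g i x := by
      intro i x hx
      have h : ∃ i, x ∈ K i := ⟨i, hx⟩
      simp only [hf, dif_pos h]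
      exact hag _ _ x h.choose_spec hx
    have hfd : ∀ i, ∀ x ∈ K i, ∀ y ∈ K i, edist (f x) (f y) = edist x y := by
      intro i x hx y hy
      rw [hfg i x hx, hfg i y hy, hg i x hx y hy]
    refine ⟨f, ⟨?_, ?_, ?_, ?_⟩, hfg⟩
    · rw [hP]
      refine (locallyFinite_of_finite K).continuousOn_iUnion hK fun i => ?_
      have : LipschitzOnWith 1 f (K i) := fun x hx y hy => by
        rw [hfd i x hx y hy]
        simp
      exact this.continuousOn
    · rw [hP, image_iUnion, ← hB]
      exact iUnion_congr fun i => image_congr (hfg i)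
    · intro c hc hcP
      refine length_eq K hK f hfd c 0 1 hc fun t ht => ?_
      have := hcP t ht
      rw [hP] at this
      exact mem_iUnion.1 this
    · intro p hp q hq hqp
      have h1 := interior_subset hp
      rw [hP] at h1 hq
      obtain ⟨i, hi⟩ := mem_iUnion.1 h1
      obtain ⟨j, hj⟩ := mem_iUnion.1 hq
      rw [hfg i p hi, hfg j q hj] at hqp
      exact hinj i j p hi q hj hp hqp

end Pool.Agent.Box3
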