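import Mathlib.Topology.EMetricSpace.BoundedVariation
import Mathlib.Topology.Order.Compact
import Mathlib.Topology.Order.DenselyOrdered
import Mathlib.Data.Set.Finite.Lattice

set_option linter.all false

/-!
# Maps which are isometric on the pieces of a finite closed cover preserve lengths of curves
-/

namespace Pool.Agent.Box3

open Set Topology
open scoped ENNReal

variable {E F G : Type*} [PseudoEMetricSpace F] [PseudoEMetricSpace G]

theorem edist_le_var {ι : Type*} (g : ℝ → F) (h : ℝ → G) (T : ι → Set ℝ) (hT : ∀ i, IsClosed (T i))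
    (H : ∀ i, ∀ u ∈ T i, ∀ v ∈ T i, edist (g u) (g v) ≤ edist (h u) (h v)) (I : Finset ι) :
    ∀ s t : ℝ, s ≤ t → Icc s t ⊆ ⋃ i ∈ I, T i → edist (g s) (g t) ≤ eVariationOn h (Icc s t) := by
  classical
  induction I using Finset.strongInduction with
  | H I ih =>
    intro s t hst hc
    have hs := hc ⟨le_rfl, hst⟩
    simp only [mem_iUnion] at hs
    obtain ⟨i, hi, hsi⟩ := hs
    have hcomp : IsCompact (T i ∩ Icc s t) := isCompact_Icc.inter_left (hT i)
    have hne : (T i ∩ Icc s t).Nonempty := ⟨s, hsi, le_rfl, hst⟩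
    have hm := hcomp.sSup_mem hne
    set m := sSup (T i ∩ Icc s t) with hmdef
    have hub : ∀ u ∈ T i ∩ Icc s t, u ≤ m := fun u hu => le_csSup hcomp.bddAbove hu
    have h1 : edist (g s) (g m) ≤ eVariationOn h (Icc s m) :=
      (H i s hsi m hm.1).trans (eVariationOn.edist_le h ⟨le_rfl, hm.2.1⟩ ⟨hm.2.1, le_rfl⟩)
    have h2 : edist (g m) (g t) ≤ eVariationOn h (Icc m t) := by
      rcases eq_or_lt_of_le hm.2.2 with he | hlt
      · rw [← he]
        simp
      · refine ih (I.erase i) (Finset.erase_ssubset hi) m t hm.2.2 ?_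
        have hcl : IsClosed (⋃ j ∈ I.erase i, T j) :=
          isClosed_biUnion_finset fun j _ => hT j
        have h3 : Ioc m t ⊆ ⋃ j ∈ I.erase i, T j := by
          intro u hu
          have hu' := hc ⟨hm.2.1.trans hu.1.le, hu.2⟩
          simp only [mem_iUnion] at hu' ⊢
          obtain ⟨j, hj, huj⟩ := hu'
          have hji : j ≠ i := by
            rintro rfl
            exact absurd (hub u ⟨huj, hm.2.1.trans hu.1.le, hu.2⟩) (not_le.2 hu.1)
          exact ⟨j, Finset.mem_erase.2 ⟨hji, hj⟩, huj⟩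
        have h4 := closure_minimal h3 hcl
        rwa [closure_Ioc hlt.ne] at h4
    have h5 := eVariationOn.Icc_add_Icc h (s := univ) hm.2.1 hm.2.2 (mem_univ m)
    simp only [univ_inter] at h5
    calc edist (g s) (g t) ≤ edist (g s) (g m) + edist (g m) (g t) := edist_triangle _ _ _
      _ ≤ eVariationOn h (Icc s m) + eVariationOn h (Icc m t) := add_le_add h1 h2
      _ = _ := h5

theorem var_le {ι : Type*} [Finite ι] (g : ℝ → F) (h : ℝ → G) (T : ι → Set ℝ)
    (hT : ∀ i, IsClosed (T i))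
    (H : ∀ i, ∀ u ∈ T i, ∀ v ∈ T i, edist (g u) (g v) ≤ edist (h u) (h v)) (a b : ℝ)
    (hc : Icc a b ⊆ ⋃ i, T i) : eVariationOn g (Icc a b) ≤ eVariationOn h (Icc a b) := by
  have : Fintype ι := Fintype.ofFinite ι
  unfold eVariationOn
  refine iSup_le ?_
  rintro ⟨n, u, hu, hus⟩
  have h1 : ∀ k ∈ Finset.range n, edist (g (u (k + 1))) (g (u k)) ≤
      eVariationOn h (Icc (u k) (u (k + 1))) := by
    intro k _
    rw [edist_comm]
    refine edist_le_var g h T hT H Finset.univ _ _ (hu (Nat.le_succ k)) ?_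
    refine (Icc_subset_Icc (hus k).1 (hus (k + 1)).2).trans (hc.trans ?_)
    simp
  refine (Finset.sum_le_sum h1).trans ?_
  rw [eVariationOn.sum' h hu]
  exact eVariationOn.mono h (Icc_subset_Icc (hus 0).1 (hus n).2)

/-- A map which is isometric on each piece of a finite closed cover of `P` preserves the length of
every curve in `P`. -/
theorem length_eq {E : Type*} [PseudoEMetricSpace E] {ι : Type*} [Finite ι] (K : ι → Set E)
    (hK : ∀ i, IsClosed (K i)) (f : E → F)
    (hf : ∀ i, ∀ x ∈ K i, ∀ y ∈ K i, edist (f x) (f y) = edist x y) (c : ℝ → E) (a b : ℝ)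
    (hcont : ContinuousOn c (Icc a b)) (hcov : ∀ t ∈ Icc a b, ∃ i, c t ∈ K i) :
    eVariationOn (f ∘ c) (Icc a b) = eVariationOn c (Icc a b) := by
  have hT : ∀ i, IsClosed (Icc a b ∩ c ⁻¹' K i) := fun i =>
    hcont.preimage_isClosed_of_isClosed isClosed_Icc (hK i)
  have hc : Icc a b ⊆ ⋃ i, Icc a b ∩ c ⁻¹' K i := by
    intro t ht
    obtain ⟨i, hi⟩ := hcov t ht
    exact mem_iUnion.2 ⟨i, ht, hi⟩
  refine le_antisymm ?_ ?_
  · exact var_le (f ∘ c) c _ hT (fun i u hu v hv => (hf i _ hu.2 _ hv.2).le) a b hc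
  · exact var_le c (f ∘ c) _ hT (fun i u hu v hv => (hf i _ hu.2 _ hv.2).ge) a b hc

end Pool.Agent.Box3
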