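import Pool.Agent.Box3.Check
set_option linter.all false
set_option autoImplicit false

namespace Pool.Agent.Box3

def c1x : L := ⟨.ofNat 0, .ofNat 0, .ofNat 0⟩
def c2x : L := ⟨.ofNat 5, .ofNat 1, .ofNat 0⟩
def c3x : L := ⟨.ofNat 22, .ofNat 4, .ofNat 1⟩
def c4x : L := ⟨.ofNat 11, .ofNat 3, .ofNat 0⟩
def c5x : L := ⟨.negSucc 0, .ofNat 0, .ofNat 0⟩
def c6x : L := ⟨.ofNat 23, .ofNat 4, .ofNat 1⟩
def c7x : L := ⟨.ofNat 19, .ofNat 5, .ofNat 0⟩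
def c8x : L := ⟨.ofNat 7, .ofNat 2, .ofNat 0⟩
def c9x : L := ⟨.ofNat 15, .ofNat 2, .ofNat 1⟩
def c10x : L := ⟨.ofNat 25, .ofNat 7, .ofNat 0⟩
def c11x : L := ⟨.ofNat 1, .ofNat 0, .ofNat 0⟩
def c12x : L := ⟨.ofNat 21, .ofNat 4, .ofNat 1⟩
def c13x : L := ⟨.ofNat 33, .ofNat 9, .ofNat 0⟩
def c14x : L := ⟨.ofNat 9, .ofNat 2, .ofNat 0⟩
def c15x : L := ⟨.ofNat 13, .ofNat 2, .ofNat 1⟩
def c16x : L := ⟨.ofNat 27, .ofNat 7, .ofNat 0⟩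
def c17x : L := ⟨.negSucc 4, .negSucc 1, .ofNat 0⟩
def c18x : L := ⟨.ofNat 3, .ofNat 0, .ofNat 0⟩
def c19x : L := ⟨.ofNat 19, .ofNat 4, .ofNat 1⟩
def c20x : L := ⟨.ofNat 27, .ofNat 6, .ofNat 1⟩
def c21x : L := ⟨.ofNat 35, .ofNat 9, .ofNat 0⟩
def c22x : L := ⟨.ofNat 39, .ofNat 9, .ofNat 0⟩
def c23x : L := ⟨.negSucc 11, .negSucc 3, .ofNat 0⟩
def c24x : L := ⟨.ofNat 34, .ofNat 8, .ofNat 1⟩
def c25x : L := ⟨.ofNat 45, .ofNat 11, .ofNat 0⟩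
def c26x : L := ⟨.ofNat 11, .ofNat 2, .ofNat 0⟩
def c27x : L := ⟨.ofNat 11, .ofNat 2, .ofNat 1⟩
def c28x : L := ⟨.ofNat 46, .ofNat 11, .ofNat 0⟩
def c29x : L := ⟨.negSucc 12, .negSucc 3, .ofNat 0⟩
def c30x : L := ⟨.ofNat 55, .ofNat 13, .ofNat 0⟩
def c31x : L := ⟨.ofNat 10, .ofNat 2, .ofNat 0⟩
def c32x : L := ⟨.ofNat 12, .ofNat 2, .ofNat 1⟩
def c33x : L := ⟨.ofNat 35, .ofNat 8, .ofNat 1⟩
def c34x : L := ⟨.ofNat 47, .ofNat 11, .ofNat 0⟩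
def c35x : L := ⟨.negSucc 2, .negSucc 1, .ofNat 0⟩
def c36x : L := ⟨.ofNat 25, .ofNat 6, .ofNat 1⟩
def c37x : L := ⟨.ofNat 53, .ofNat 13, .ofNat 0⟩
def c38x : L := ⟨.ofNat 54, .ofNat 13, .ofNat 0⟩
def c39x : L := ⟨.negSucc 6, .negSucc 1, .ofNat 0⟩
def c40x : L := ⟨.ofNat 29, .ofNat 6, .ofNat 1⟩
def c41x : L := ⟨.ofNat 61, .ofNat 15, .ofNat 0⟩
def c42x : L := ⟨.ofNat 67, .ofNat 17, .ofNat 0⟩
def c43x : L := ⟨.ofNat 72, .ofNat 18, .ofNat 0⟩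
def c44x : L := ⟨.ofNat 77, .ofNat 19, .ofNat 0⟩
def c45x : L := ⟨.ofNat 44, .ofNat 8, .ofNat 2⟩
def c46x : L := ⟨.ofNat 83, .ofNat 21, .ofNat 0⟩
def c47x : L := ⟨.ofNat 43, .ofNat 8, .ofNat 2⟩
def c48x : L := ⟨.ofNat 91, .ofNat 23, .ofNat 0⟩
def c49x : L := ⟨.ofNat 51, .ofNat 10, .ofNat 2⟩
def c50x : L := ⟨.ofNat 97, .ofNat 25, .ofNat 0⟩
def c51x : L := ⟨.ofNat 45, .ofNat 8, .ofNat 2⟩
def c52x : L := ⟨.ofNat 99, .ofNat 25, .ofNat 0⟩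
def c53x : L := ⟨.ofNat 53, .ofNat 10, .ofNat 2⟩
def c54x : L := ⟨.ofNat 105, .ofNat 27, .ofNat 0⟩
def c55x : L := ⟨.ofNat 39, .ofNat 6, .ofNat 2⟩
def c56x : L := ⟨.ofNat 47, .ofNat 8, .ofNat 2⟩
def c57x : L := ⟨.ofNat 107, .ofNat 27, .ofNat 0⟩
def c58x : L := ⟨.ofNat 111, .ofNat 27, .ofNat 0⟩
def c59x : L := ⟨.ofNat 32, .ofNat 4, .ofNat 2⟩
def c60x : L := ⟨.ofNat 117, .ofNat 29, .ofNat 0⟩
def c61x : L := ⟨.ofNat 55, .ofNat 10, .ofNat 2⟩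
def c62x : L := ⟨.ofNat 118, .ofNat 29, .ofNat 0⟩
def c63x : L := ⟨.ofNat 31, .ofNat 4, .ofNat 2⟩
def c64x : L := ⟨.ofNat 119, .ofNat 29, .ofNat 0⟩
def c65x : L := ⟨.ofNat 54, .ofNat 10, .ofNat 2⟩
def c66x : L := ⟨.ofNat 41, .ofNat 6, .ofNat 2⟩
def c67x : L := ⟨.ofNat 125, .ofNat 31, .ofNat 0⟩
def c68x : L := ⟨.ofNat 126, .ofNat 31, .ofNat 0⟩
def c69x : L := ⟨.ofNat 127, .ofNat 31, .ofNat 0⟩
def c70x : L := ⟨.ofNat 37, .ofNat 6, .ofNat 2⟩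
def c71x : L := ⟨.ofNat 133, .ofNat 33, .ofNat 0⟩
def c72x : L := ⟨.ofNat 139, .ofNat 35, .ofNat 0⟩
def c73x : L := ⟨.ofNat 144, .ofNat 36, .ofNat 0⟩
def c74x : L := ⟨.ofNat 149, .ofNat 37, .ofNat 0⟩
def c75x : L := ⟨.ofNat 66, .ofNat 12, .ofNat 3⟩
def c76x : L := ⟨.ofNat 155, .ofNat 39, .ofNat 0⟩
def c77x : L := ⟨.ofNat 67, .ofNat 12, .ofNat 3⟩
def c78x : L := ⟨.ofNat 163, .ofNat 41, .ofNat 0⟩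
def c79x : L := ⟨.ofNat 59, .ofNat 10, .ofNat 3⟩
def c80x : L := ⟨.ofNat 169, .ofNat 43, .ofNat 0⟩
def c81x : L := ⟨.ofNat 65, .ofNat 12, .ofNat 3⟩
def c82x : L := ⟨.ofNat 171, .ofNat 43, .ofNat 0⟩
def c83x : L := ⟨.ofNat 57, .ofNat 10, .ofNat 3⟩
def c84x : L := ⟨.ofNat 177, .ofNat 45, .ofNat 0⟩
def c85x : L := ⟨.ofNat 63, .ofNat 12, .ofNat 3⟩
def c86x : L := ⟨.ofNat 71, .ofNat 14, .ofNat 3⟩
def c87x : L := ⟨.ofNat 179, .ofNat 45, .ofNat 0⟩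
def c88x : L := ⟨.ofNat 183, .ofNat 45, .ofNat 0⟩
def c89x : L := ⟨.ofNat 78, .ofNat 16, .ofNat 3⟩
def c90x : L := ⟨.ofNat 189, .ofNat 47, .ofNat 0⟩
def c91x : L := ⟨.ofNat 55, .ofNat 10, .ofNat 3⟩
def c92x : L := ⟨.ofNat 191, .ofNat 47, .ofNat 0⟩
def c93x : L := ⟨.ofNat 190, .ofNat 47, .ofNat 0⟩
def c94x : L := ⟨.ofNat 56, .ofNat 10, .ofNat 3⟩
def c95x : L := ⟨.ofNat 79, .ofNat 16, .ofNat 3⟩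
def c96x : L := ⟨.ofNat 69, .ofNat 14, .ofNat 3⟩
def c97x : L := ⟨.ofNat 197, .ofNat 49, .ofNat 0⟩
def c98x : L := ⟨.ofNat 198, .ofNat 49, .ofNat 0⟩
def c99x : L := ⟨.ofNat 199, .ofNat 49, .ofNat 0⟩
def c100x : L := ⟨.ofNat 73, .ofNat 14, .ofNat 3⟩
def c101x : L := ⟨.ofNat 205, .ofNat 51, .ofNat 0⟩
def c102x : L := ⟨.ofNat 211, .ofNat 53, .ofNat 0⟩
def c103x : L := ⟨.ofNat 216, .ofNat 54, .ofNat 0⟩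
def c104x : L := ⟨.ofNat 221, .ofNat 55, .ofNat 0⟩
def c105x : L := ⟨.ofNat 227, .ofNat 57, .ofNat 0⟩
def c106x : L := ⟨.ofNat 235, .ofNat 59, .ofNat 0⟩
def c107x : L := ⟨.ofNat 241, .ofNat 61, .ofNat 0⟩
def c108x : L := ⟨.ofNat 249, .ofNat 63, .ofNat 0⟩
def c109x : L := ⟨.ofNat 243, .ofNat 61, .ofNat 0⟩
def c110x : L := ⟨.ofNat 251, .ofNat 63, .ofNat 0⟩
def c111x : L := ⟨.ofNat 255, .ofNat 63, .ofNat 0⟩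
def c112x : L := ⟨.ofNat 261, .ofNat 65, .ofNat 0⟩
def c113x : L := ⟨.ofNat 262, .ofNat 65, .ofNat 0⟩
def c114x : L := ⟨.ofNat 271, .ofNat 67, .ofNat 0⟩
def c115x : L := ⟨.ofNat 263, .ofNat 65, .ofNat 0⟩
def c116x : L := ⟨.ofNat 269, .ofNat 67, .ofNat 0⟩
def c117x : L := ⟨.ofNat 270, .ofNat 67, .ofNat 0⟩
def c118x : L := ⟨.ofNat 277, .ofNat 69, .ofNat 0⟩
def c119x : L := ⟨.ofNat 283, .ofNat 71, .ofNat 0⟩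
def c120x : L := ⟨.ofNat 288, .ofNat 72, .ofNat 0⟩
def c121x : L := ⟨.negSucc 2, .ofNat 0, .ofNat 0⟩
def c122x : L := ⟨.negSucc 32, .negSucc 8, .ofNat 0⟩
def c123x : L := ⟨.ofNat 6, .ofNat 0, .ofNat 0⟩
def c124x : L := ⟨.negSucc 38, .negSucc 8, .ofNat 0⟩
def c125x : L := ⟨.ofNat 63, .ofNat 18, .ofNat 0⟩
def c126x : L := ⟨.ofNat 66, .ofNat 18, .ofNat 0⟩
def c127x : L := ⟨.negSucc 110, .negSucc 26, .ofNat 0⟩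
def c128x : L := ⟨.negSucc 62, .negSucc 11, .negSucc 2⟩
def c129x : L := ⟨.ofNat 60, .ofNat 12, .ofNat 3⟩
def c130x : L := ⟨.negSucc 116, .negSucc 32, .ofNat 3⟩
def c131x : L := ⟨.negSucc 176, .negSucc 44, .ofNat 0⟩
def c132x : L := ⟨.negSucc 182, .negSucc 44, .ofNat 0⟩
def c133x : L := ⟨.ofNat 243, .ofNat 57, .ofNat 3⟩
def c134x : L := ⟨.ofNat 69, .ofNat 12, .ofNat 3⟩
def c135x : L := ⟨.ofNat 129, .ofNat 24, .ofNat 6⟩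
def c136x : L := ⟨.ofNat 129, .ofNat 30, .ofNat 3⟩
def c137x : L := ⟨.negSucc 188, .negSucc 50, .ofNat 3⟩
def c138x : L := ⟨.ofNat 321, .ofNat 81, .ofNat 0⟩
def c139x : L := ⟨.ofNat 315, .ofNat 75, .ofNat 3⟩
def c140x : L := ⟨.ofNat 44, .ofNat 12, .ofNat 0⟩
def c141x : L := ⟨.ofNat 14, .ofNat 4, .ofNat 0⟩
def c142x : L := ⟨.ofNat 8, .ofNat 2, .ofNat 0⟩
def c143x : L := ⟨.ofNat 10, .ofNat 2, .ofNat 1⟩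
def c144x : L := ⟨.ofNat 6, .ofNat 2, .ofNat 0⟩
def c145x : L := ⟨.ofNat 54, .ofNat 10, .ofNat 3⟩
def c146x : L := ⟨.ofNat 16, .ofNat 4, .ofNat 1⟩
def c147x : L := ⟨.ofNat 24, .ofNat 6, .ofNat 1⟩
def c148x : L := ⟨.ofNat 18, .ofNat 4, .ofNat 1⟩
def c149x : L := ⟨.ofNat 22, .ofNat 6, .ofNat 0⟩
def c150x : L := ⟨.ofNat 4, .ofNat 2, .ofNat 0⟩
def c151x : L := ⟨.ofNat 15, .ofNat 4, .ofNat 0⟩
def c152x : L := ⟨.ofNat 16, .ofNat 4, .ofNat 0⟩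
def c153x : L := ⟨.ofNat 28, .ofNat 8, .ofNat 0⟩
def c154x : L := ⟨.ofNat 20, .ofNat 4, .ofNat 1⟩
def c155x : L := ⟨.ofNat 38, .ofNat 10, .ofNat 0⟩
def c156x : L := ⟨.ofNat 41, .ofNat 8, .ofNat 2⟩
def c157x : L := ⟨.ofNat 42, .ofNat 8, .ofNat 2⟩
def c158x : L := ⟨.ofNat 50, .ofNat 14, .ofNat 0⟩
def c159x : L := ⟨.ofNat 34, .ofNat 6, .ofNat 2⟩
def c160x : L := ⟨.ofNat 51, .ofNat 14, .ofNat 0⟩
def c161x : L := ⟨.ofNat 58, .ofNat 16, .ofNat 0⟩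
def c162x : L := ⟨.ofNat 52, .ofNat 14, .ofNat 0⟩
def c163x : L := ⟨.ofNat 50, .ofNat 10, .ofNat 2⟩
def c164x : L := ⟨.ofNat 40, .ofNat 8, .ofNat 2⟩
def c165x : L := ⟨.ofNat 60, .ofNat 16, .ofNat 0⟩
def c166x : L := ⟨.ofNat 59, .ofNat 16, .ofNat 0⟩
def c167x : L := ⟨.ofNat 38, .ofNat 6, .ofNat 2⟩
def c168x : L := ⟨.ofNat 28, .ofNat 4, .ofNat 2⟩
def c169x : L := ⟨.ofNat 29, .ofNat 4, .ofNat 2⟩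
def c170x : L := ⟨.ofNat 53, .ofNat 10, .ofNat 3⟩
def c171x : L := ⟨.ofNat 52, .ofNat 10, .ofNat 2⟩
def c172x : L := ⟨.ofNat 52, .ofNat 10, .ofNat 3⟩
def c173x : L := ⟨.ofNat 9, .ofNat 2, .ofNat 1⟩
def c174x : L := ⟨.ofNat 8, .ofNat 2, .ofNat 1⟩
def c175x : L := ⟨.ofNat 31, .ofNat 8, .ofNat 1⟩
def c176x : L := ⟨.ofNat 32, .ofNat 8, .ofNat 1⟩
def c177x : L := ⟨.ofNat 22, .ofNat 6, .ofNat 1⟩
def c178x : L := ⟨.ofNat 26, .ofNat 6, .ofNat 1⟩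
def c179x : L := ⟨.ofNat 48, .ofNat 10, .ofNat 2⟩
def c180x : L := ⟨.ofNat 36, .ofNat 6, .ofNat 2⟩
def c181x : L := ⟨.ofNat 2, .ofNat 0, .ofNat 0⟩
def c182x : L := ⟨.ofNat 4, .ofNat 0, .ofNat 0⟩
def c183x : L := ⟨.negSucc 8, .negSucc 1, .ofNat 0⟩
def c184x : L := ⟨.negSucc 24, .negSucc 6, .ofNat 0⟩
def c185x : L := ⟨.ofNat 21, .ofNat 4, .ofNat 0⟩
def c186x : L := ⟨.negSucc 54, .negSucc 12, .ofNat 0⟩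
def c187x : L := ⟨.ofNat 30, .ofNat 6, .ofNat 0⟩
def c188x : L := ⟨.ofNat 42, .ofNat 12, .ofNat 0⟩
def c189x : L := ⟨.ofNat 33, .ofNat 10, .ofNat 0⟩
def c190x : L := ⟨.negSucc 56, .negSucc 9, .negSucc 2⟩
def c191x : L := ⟨.ofNat 48, .ofNat 8, .ofNat 3⟩
def c192x : L := ⟨.negSucc 168, .negSucc 42, .ofNat 0⟩
def c193x : L := ⟨.ofNat 87, .ofNat 16, .ofNat 3⟩
def c194x : L := ⟨.negSucc 150, .negSucc 40, .ofNat 3⟩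
def c195x : L := ⟨.negSucc 198, .negSucc 48, .ofNat 0⟩
def c196x : L := ⟨.ofNat 99, .ofNat 22, .ofNat 3⟩
def c197x : L := ⟨.negSucc 222, .negSucc 58, .ofNat 3⟩
def c198x : L := ⟨.ofNat 313, .ofNat 79, .ofNat 0⟩
def c199x : L := ⟨.ofNat 20, .ofNat 6, .ofNat 0⟩
def c200x : L := ⟨.ofNat 6, .ofNat 0, .ofNat 1⟩
def c201x : L := ⟨.ofNat 14, .ofNat 2, .ofNat 1⟩
def c202x : L := ⟨.ofNat 30, .ofNat 8, .ofNat 0⟩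
def c203x : L := ⟨.ofNat 35, .ofNat 6, .ofNat 2⟩
def c204x : L := ⟨.ofNat 36, .ofNat 10, .ofNat 0⟩
def c205x : L := ⟨.ofNat 17, .ofNat 5, .ofNat 0⟩
def c206x : L := ⟨.ofNat 12, .ofNat 4, .ofNat 0⟩
def c207x : L := ⟨.ofNat 14, .ofNat 2, .ofNat 0⟩
def c208x : L := ⟨.ofNat 4, .ofNat 0, .ofNat 1⟩
def c209x : L := ⟨.ofNat 3, .ofNat 0, .ofNat 1⟩
def c210x : L := ⟨.ofNat 20, .ofNat 4, .ofNat 0⟩
def c211x : L := ⟨.ofNat 2, .ofNat 0, .ofNat 1⟩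
def c212x : L := ⟨.ofNat 22, .ofNat 4, .ofNat 0⟩
def c213x : L := ⟨.ofNat 47, .ofNat 8, .ofNat 3⟩
def c214x : L := ⟨.ofNat 46, .ofNat 8, .ofNat 3⟩
def c215x : L := ⟨.ofNat 28, .ofNat 6, .ofNat 0⟩
def c216x : L := ⟨.ofNat 29, .ofNat 6, .ofNat 0⟩
def c217x : L := ⟨.ofNat 22, .ofNat 2, .ofNat 2⟩
def c218x : L := ⟨.ofNat 23, .ofNat 2, .ofNat 2⟩
def c219x : L := ⟨.ofNat 46, .ofNat 8, .ofNat 2⟩
def c220x : L := ⟨.ofNat 30, .ofNat 4, .ofNat 2⟩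
def c221x : L := ⟨.ofNat 21, .ofNat 6, .ofNat 0⟩
def c222x : L := ⟨.negSucc 18, .negSucc 3, .negSucc 0⟩
def c223x : L := ⟨.negSucc 16, .negSucc 4, .ofNat 1⟩
def c224x : L := ⟨.ofNat 55, .ofNat 13, .ofNat 1⟩
def c225x : L := ⟨.ofNat 25, .ofNat 4, .ofNat 1⟩
def c226x : L := ⟨.negSucc 40, .negSucc 7, .negSucc 1⟩
def c227x : L := ⟨.negSucc 46, .negSucc 7, .negSucc 1⟩
def c228x : L := ⟨.ofNat 85, .ofNat 16, .ofNat 4⟩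
def c229x : L := ⟨.ofNat 163, .ofNat 46, .negSucc 1⟩
def c230x : L := ⟨.negSucc 232, .negSucc 58, .ofNat 1⟩
def c231x : L := ⟨.ofNat 273, .ofNat 66, .ofNat 3⟩
def c232x : L := ⟨.ofNat 210, .ofNat 54, .ofNat 0⟩
def c233x : L := ⟨.negSucc 254, .negSucc 62, .ofNat 0⟩
def c234x : L := ⟨.ofNat 465, .ofNat 117, .ofNat 0⟩
def c235x : L := ⟨.ofNat 271, .ofNat 67, .ofNat 1⟩
def c236x : L := ⟨.ofNat 79, .ofNat 20, .ofNat 0⟩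
def c237x : L := ⟨.ofNat 68, .ofNat 18, .ofNat 0⟩
def c238x : L := ⟨.ofNat 2, .ofNat 2, .ofNat 0⟩
def c239x : L := ⟨.ofNat 9, .ofNat 4, .ofNat 0⟩
def c240x : L := ⟨.ofNat 78, .ofNat 20, .ofNat 0⟩
def c241x : L := ⟨.ofNat 10, .ofNat 4, .ofNat 0⟩
def c242x : L := ⟨.ofNat 88, .ofNat 22, .ofNat 0⟩
def c243x : L := ⟨.ofNat 86, .ofNat 22, .ofNat 0⟩
def c244x : L := ⟨.ofNat 80, .ofNat 20, .ofNat 0⟩
def c245x : L := ⟨.ofNat 0, .ofNat 2, .ofNat 0⟩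
def c246x : L := ⟨.ofNat 87, .ofNat 22, .ofNat 0⟩
def c247x : L := ⟨.ofNat 94, .ofNat 24, .ofNat 0⟩
def c248x : L := ⟨.ofNat 100, .ofNat 26, .ofNat 0⟩
def c249x : L := ⟨.ofNat 158, .ofNat 40, .ofNat 0⟩
def c250x : L := ⟨.ofNat 140, .ofNat 36, .ofNat 0⟩
def c251x : L := ⟨.ofNat 130, .ofNat 34, .ofNat 0⟩
def c252x : L := ⟨.ofNat 116, .ofNat 30, .ofNat 0⟩
def c253x : L := ⟨.ofNat 110, .ofNat 28, .ofNat 0⟩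
def c254x : L := ⟨.ofNat 124, .ofNat 32, .ofNat 0⟩
def c255x : L := ⟨.ofNat 138, .ofNat 36, .ofNat 0⟩
def c256x : L := ⟨.ofNat 132, .ofNat 34, .ofNat 0⟩
def c257x : L := ⟨.ofNat 150, .ofNat 38, .ofNat 0⟩
def c258x : L := ⟨.ofNat 7, .ofNat 0, .ofNat 1⟩
def c259x : L := ⟨.ofNat 151, .ofNat 38, .ofNat 0⟩
def c260x : L := ⟨.ofNat 152, .ofNat 38, .ofNat 0⟩
def c261x : L := ⟨.ofNat 16, .ofNat 2, .ofNat 1⟩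
def c262x : L := ⟨.ofNat 194, .ofNat 50, .ofNat 0⟩
def c263x : L := ⟨.ofNat 166, .ofNat 42, .ofNat 0⟩
def c264x : L := ⟨.ofNat 160, .ofNat 40, .ofNat 0⟩
def c265x : L := ⟨.ofNat 159, .ofNat 40, .ofNat 0⟩
def c266x : L := ⟨.ofNat 172, .ofNat 44, .ofNat 0⟩
def c267x : L := ⟨.ofNat 188, .ofNat 48, .ofNat 0⟩
def c268x : L := ⟨.ofNat 182, .ofNat 46, .ofNat 0⟩
def c269x : L := ⟨.ofNat 195, .ofNat 50, .ofNat 0⟩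
def c270x : L := ⟨.ofNat 204, .ofNat 52, .ofNat 0⟩
def c271x : L := ⟨.ofNat 196, .ofNat 50, .ofNat 0⟩
def c272x : L := ⟨.ofNat 202, .ofNat 52, .ofNat 0⟩

end Pool.Agent.Box3
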