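import Pool.Agent.Box3.Defs
import Pool.Agent.Box3.Len

set_option linter.all false
set_option autoImplicit false

/-!
# Folding maps from isometries of the pieces
-/

namespace Pool.Agent.Box3

open Set Topology

theorem foldsInto_of_pieces {ι : Type} [Finite ι] (K : ι → Set Pl) (F : ι → Pl → Sp) (a b c : ℝ)
    (hK : ∀ i, IsClosed (K i))
    (hiso : ∀ i, ∀ p ∈ K i, ∀ q ∈ K i, dist (F i p) (F i q) = dist p q)
    (hagr : ∀ i j, ∀ p, p ∈ K i → p ∈ K j → F i p = F j p)
    (himg : ∀ i, ∀ p ∈ K i, F i p ∈ surface a b c)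
    (hsur : ∀ w ∈ surface a b c, ∃ i, ∃ p ∈ K i, F i p = w)
    (hinj : ∀ i j, ∀ p ∈ K i, ∀ q ∈ K j, F i p = F j q → q = p ∨ p ∉ interior (⋃ k, K k)) :
    FoldsInto (⋃ i, K i) a b c := by
  classical
  set f : Pl → Sp := fun x => if h : ∃ i, x ∈ K i then F h.choose x else 0 with hf
  have hfg : ∀ i, ∀ x ∈ K i, f x = F i x := by
    intro i x hx
    have h : ∃ i, x ∈ K i := ⟨i, hx⟩
    simp only [hf, dif_pos h]
    exact hagr _ _ x h.choose_spec hx
  have hfd : ∀ i, ∀ x ∈ K i, ∀ y ∈ K i, edist (f x) (f y) = edist x y := by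
    intro i x hx y hy
    rw [hfg i x hx, hfg i y hy, edist_dist, edist_dist, hiso i x hx y hy]
  refine ⟨f, ?_, ?_, ?_, ?_⟩
  · refine (locallyFinite_of_finite K).continuousOn_iUnion hK fun i => ?_
    have : LipschitzOnWith 1 f (K i) := fun x hx y hy => by
      rw [hfd i x hx y hy]
      simp
    exact this.continuousOn
  · apply Subset.antisymm
    · rintro w ⟨p, hp, rfl⟩
      obtain ⟨i, hi⟩ := mem_iUnion.1 hp
      rw [hfg i p hi]
      exact himg i p hi
    · intro w hw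
      obtain ⟨i, p, hp, h⟩ := hsur w hw
      exact ⟨p, mem_iUnion.2 ⟨i, hp⟩, by rw [hfg i p hp, h]⟩
  · intro γ hγ hγP
    exact length_eq K hK f hfd γ 0 1 hγ fun t ht => mem_iUnion.1 (hγP t ht)
  · intro p hp q hq hqp
    obtain ⟨i, hi⟩ := mem_iUnion.1 (interior_subset hp)
    obtain ⟨j, hj⟩ := mem_iUnion.1 hq
    rw [hfg i p hi, hfg j q hj] at hqp
    rcases hinj i j p hi q hj hqp.symm with h | h
    · exact h
    · exact absurd hp h

end Pool.Agent.Box3
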