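import Pool.Agent.Box3.Base

set_option linter.all false
set_option autoImplicit false

/-!
# Soundness of the pair checks of a folding
-/

namespace Pool.Agent.Box3

theorem Co.agr_sound {g : Fin 3 → ℝ} {X0 X1 Y0 Y1 : L} {f h : Co}
    (H : Co.agr X0 X1 Y0 Y1 f h = true) {p : Pl} (h1 : X0.ev g ≤ p 0) (h2 : p 0 ≤ X1.ev g)
    (h3 : Y0.ev g ≤ p 1) (h4 : p 1 ≤ Y1.ev g) : f.ev g p = h.ev g p := by
  simp only [Co.agr, Bool.and_eq_true, Bool.or_eq_true, decide_eq_true_eq] at H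
  obtain ⟨⟨hx, hy⟩, hk⟩ := H
  have hk' := congrArg (L.ev g) (L.eq_of hk)
  simp only [L.ev_add, L.ev_sub, L.ev_sm, L.ev_zero] at hk'
  push_cast at hk'
  have ex : ((f.ex : ℝ) - h.ex) * p 0 = ((f.ex : ℝ) - h.ex) * X0.ev g := by
    rcases hx with hx | hx
    · rw [hx]; ring
    · have := congrArg (L.ev g) (L.eq_of hx)
      have : p 0 = X0.ev g := by linarith
      rw [this]
  have ey : ((f.ey : ℝ) - h.ey) * p 1 = ((f.ey : ℝ) - h.ey) * Y0.ev g := by
    rcases hy with hy | hy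
    · rw [hy]; ring
    · have := congrArg (L.ev g) (L.eq_of hy)
      have : p 1 = Y0.ev g := by linarith
      rw [this]
  simp only [Co.ev]
  linarith

theorem Pc.agr_sound {g : Fin 3 → ℝ} (hg : ∀ k, 0 < g k) {c d : Pc} (h : c.agr d = true) {p : Pl}
    (hc : p ∈ R.set g c.q) (hd : p ∈ R.set g d.q) : c.map g p = d.map g p := by
  simp only [Pc.agr, Bool.or_eq_true, Bool.and_eq_true] at h
  rcases h with h | ⟨⟨h0, h1⟩, h2⟩
  · exact (R.dj_sound hg h hc hd).elim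
  · obtain ⟨a1, a2, a3, a4⟩ := hc
    obtain ⟨b1, b2, b3, b4⟩ := hd
    have c1 := L.mx_le a1 b1
    have c2 := L.le_mn a2 b2
    have c3 := L.mx_le a3 b3
    have c4 := L.le_mn a4 b4
    exact Sp.ext (Co.agr_sound h0 c1 c2 c3 c4) (Co.agr_sound h1 c1 c2 c3 c4)
      (Co.agr_sound h2 c1 c2 c3 c4)

theorem Pc.inv {g : Fin 3 → ℝ} {c : Pc} (ho : c.orth = true) (p : Pl) :
    p 0 = c.f0.ex * c.map g p 0 + c.f1.ex * c.map g p 1 + c.f2.ex * c.map g p 2 - c.kx.ev g ∧
    p 1 = c.f0.ey * c.map g p 0 + c.f1.ey * c.map g p 1 + c.f2.ey * c.map g p 2 - c.ky.ev g := by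
  simp only [Pc.orth, Bool.and_eq_true, decide_eq_true_eq] at ho
  obtain ⟨⟨h1, h2⟩, h3⟩ := ho
  have h1' : (c.f0.ex : ℝ) * c.f0.ex + c.f1.ex * c.f1.ex + c.f2.ex * c.f2.ex = 1 := by
    exact_mod_cast h1
  have h2' : (c.f0.ey : ℝ) * c.f0.ey + c.f1.ey * c.f1.ey + c.f2.ey * c.f2.ey = 1 := by
    exact_mod_cast h2
  have h3' : (c.f0.ex : ℝ) * c.f0.ey + c.f1.ex * c.f1.ey + c.f2.ex * c.f2.ey = 0 := by
    exact_mod_cast h3
  simp only [Pc.map_apply0, Pc.map_apply1, Pc.map_apply2, Co.ev, Pc.kx, Pc.ky, L.ev_add, L.ev_sm]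
  constructor
  · linear_combination (-(p 0)) * h1' - (p 1) * h3'
  · linear_combination (-(p 1)) * h2' - (p 0) * h3'

theorem term_eq {x lo hi : ℝ} {e e' : ℤ} (h : e = e' ∨ lo = hi) (h1 : lo ≤ x) (h2 : x ≤ hi) :
    ((e : ℝ) - e') * x = ((e : ℝ) - e') * lo := by
  rcases h with h | h
  · rw [h]; ring
  · have : x = lo := by linarith
    rw [this]

theorem invAgr_sound {g : Fin 3 → ℝ} {D : B3} {e0 e1 e2 e0' e1' e2' : ℤ} {k k' : L}
    (H : invAgr D e0 e1 e2 k e0' e1' e2' k' = true) {w : Sp} (hw : D.mem g w) :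
    e0 * w 0 + e1 * w 1 + e2 * w 2 - k.ev g = e0' * w 0 + e1' * w 1 + e2' * w 2 - k'.ev g := by
  simp only [invAgr, Bool.and_eq_true, Bool.or_eq_true, decide_eq_true_eq] at H
  obtain ⟨⟨⟨h0, h1⟩, h2⟩, hk⟩ := H
  have hk' := congrArg (L.ev g) (L.eq_of hk)
  simp only [L.ev_add, L.ev_sub, L.ev_sm, L.ev_zero] at hk'
  push_cast at hk'
  obtain ⟨⟨a1, a2⟩, ⟨a3, a4⟩, a5, a6⟩ := hw
  have t0 := term_eq (h0.imp id fun h => congrArg (L.ev g) (L.eq_of h)) a1 a2
  have t1 := term_eq (h1.imp id fun h => congrArg (L.ev g) (L.eq_of h)) a3 a4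
  have t2 := term_eq (h2.imp id fun h => congrArg (L.ev g) (L.eq_of h)) a5 a6
  linarith

theorem Pc.same_sound {g : Fin 3 → ℝ} {D : B3} {c d : Pc} (hc : c.orth = true) (hd : d.orth = true)
    (H : Pc.same D c d = true) {p q : Pl} (hpq : c.map g p = d.map g q)
    (hD : D.mem g (c.map g p)) : q = p := by
  simp only [Pc.same, Bool.and_eq_true] at H
  obtain ⟨hx, hy⟩ := H
  obtain ⟨p0, p1⟩ := Pc.inv (g := g) hc p
  obtain ⟨q0, q1⟩ := Pc.inv (g := g) hd q
  rw [← hpq] at q0 q1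
  refine Pl.ext ?_ ?_
  · rw [p0, q0]
    exact (invAgr_sound hx hD).symm
  · rw [p1, q1]
    exact (invAgr_sound hy hD).symm

theorem Pc.pre_sound {g : Fin 3 → ℝ} {D : B3} {c : Pc} (hc : c.orth = true) {p : Pl}
    (hD : D.mem g (c.map g p)) : p ∈ R.set g (c.pre D) := by
  obtain ⟨p0, p1⟩ := Pc.inv (g := g) hc p
  obtain ⟨⟨a1, a2⟩, ⟨a3, a4⟩, a5, a6⟩ := hD
  refine ⟨?_, ?_, ?_, ?_⟩
  · rw [p0]
    simp only [Pc.pre, L.ev_sub, L.ev_add]
    have := lo1_le (g := g) c.f0.ex a1 a2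
    have := lo1_le (g := g) c.f1.ex a3 a4
    have := lo1_le (g := g) c.f2.ex a5 a6
    linarith
  · rw [p0]
    simp only [Pc.pre, L.ev_sub, L.ev_add]
    have := le_hi1 (g := g) c.f0.ex a1 a2
    have := le_hi1 (g := g) c.f1.ex a3 a4
    have := le_hi1 (g := g) c.f2.ex a5 a6
    linarith
  · rw [p1]
    simp only [Pc.pre, L.ev_sub, L.ev_add]
    have := lo1_le (g := g) c.f0.ey a1 a2
    have := lo1_le (g := g) c.f1.ey a3 a4
    have := lo1_le (g := g) c.f2.ey a5 a6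
    linarith
  · rw [p1]
    simp only [Pc.pre, L.ev_sub, L.ev_add]
    have := le_hi1 (g := g) c.f0.ey a1 a2
    have := le_hi1 (g := g) c.f1.ey a3 a4
    have := le_hi1 (g := g) c.f2.ey a5 a6
    linarith

/-- soundness of the check of one pair -/
theorem pair_sound {g : Fin 3 → ℝ} (hg : ∀ k, 0 < g k) {es : List R} {P : Set Pl}
    (hb : ∀ e ∈ es, ∀ p ∈ R.set g e, p ∉ interior P) {c d : PB} (hc : c.p.orth = true)
    (hd : d.p.orth = true) (h : PB.ok es c d = true) :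
    (∀ p, p ∈ R.set g c.p.q → p ∈ R.set g d.p.q → c.p.map g p = d.p.map g p) ∧
    ∀ p ∈ R.set g c.p.q, ∀ q ∈ R.set g d.p.q, c.p.map g p = d.p.map g q →
      q = p ∨ (p ∉ interior P ∧ q ∉ interior P) := by
  simp only [PB.ok, Bool.and_eq_true, Bool.or_eq_true] at h
  obtain ⟨hag, hin⟩ := h
  refine ⟨fun p h1 h2 => Pc.agr_sound hg hag h1 h2, ?_⟩
  intro p hp q hq hpq
  have m1 := Pc.map_mem_img (g := g) c.p hp
  have m2 := Pc.map_mem_img (g := g) d.p hq
  rw [← hpq] at m2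
  rcases hin with h | h | ⟨h1, h2⟩
  · exact (B3.dj_sound hg h m1 m2).elim
  · exact Or.inl (Pc.same_sound hc hd h hpq (B3.cap_sound m1 m2))
  · right
    have hD := B3.cap_sound m1 m2
    refine ⟨?_, ?_⟩
    · obtain ⟨e, he, hx⟩ := onBd_sound hg h1 (Pc.pre_sound hc hD)
      exact hb e he p hx
    · have hD' := hD
      rw [hpq] at hD'
      obtain ⟨e, he, hx⟩ := onBd_sound hg h2 (Pc.pre_sound hd hD')
      exact hb e he q hx

theorem rowsOk_sound {es : List R} {ps : List PB} :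
    ∀ n j, rowsOk es ps j n = true → ∀ i, j ≤ i → i < j + n → ∀ k, ∀ (hik : i < k),
      ∀ (hk : k < ps.length), PB.ok es (ps[i]'(by omega)) ps[k] = true := by
  intro n
  induction n with
  | zero => intro j _ i h1 h2; omega
  | succ n ih =>
    intro j h i h1 h2 k hik hk
    have hi : i < ps.length := by omega
    rw [rowsOk, Bool.and_eq_true] at h
    obtain ⟨ha, hr⟩ := h
    rcases Nat.eq_or_lt_of_le h1 with he | hlt
    · subst he
      rw [List.drop_eq_getElem_cons hi] at ha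
      simp only [List.all_eq_true] at ha
      apply ha
      have : ps[k] = (ps.drop (j + 1))[k - (j + 1)]'(by simp; omega) := by
        rw [List.getElem_drop]
        congr 1
        omega
      rw [this]
      exact List.getElem_mem _
    · exact ih (j + 1) hr i hlt (by omega) k hik hk

/-- agreement and injectivity for all pairs of pieces -/
theorem pairs_sound (g : Fin 3 → ℝ) (hg : ∀ k, 0 < g k) (es : List R) (P : Set Pl) (ps : List PB)
    (hb : ∀ e ∈ es, ∀ p ∈ R.set g e, p ∉ interior P)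
    (ho : ∀ c ∈ ps, c.p.orth = true)
    (hr : ∀ i, i < ps.length → ∃ j n, j ≤ i ∧ i < j + n ∧ rowsOk es ps j n = true) :
    (∀ i j : Fin ps.length, ∀ p, p ∈ R.set g ps[i].p.q → p ∈ R.set g ps[j].p.q →
      ps[i].p.map g p = ps[j].p.map g p) ∧
    ∀ i j : Fin ps.length, ∀ p ∈ R.set g ps[i].p.q, ∀ q ∈ R.set g ps[j].p.q,
      ps[i].p.map g p = ps[j].p.map g q → q = p ∨ p ∉ interior P := by
  have key : ∀ i j : Fin ps.length, i.1 < j.1 → PB.ok es ps[i] ps[j] = true := by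
    intro i j hij
    obtain ⟨a, n, h1, h2, h3⟩ := hr i.1 i.2
    exact rowsOk_sound n a h3 i.1 h1 h2 j.1 hij j.2
  have ho' : ∀ i : Fin ps.length, ps[i].p.orth = true := fun i => ho _ (List.getElem_mem _)
  constructor
  · intro i j p hi hj
    rcases lt_trichotomy i.1 j.1 with h | h | h
    · exact (pair_sound hg hb (ho' i) (ho' j) (key i j h)).1 p hi hj
    · have : i = j := Fin.ext h
      rw [this]
    · exact ((pair_sound hg hb (ho' j) (ho' i) (key j i h)).1 p hj hi).symm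
  · intro i j p hp q hq hpq
    rcases lt_trichotomy i.1 j.1 with h | h | h
    · exact ((pair_sound hg hb (ho' i) (ho' j) (key i j h)).2 p hp q hq hpq).imp id fun h => h.1
    · have hij : i = j := Fin.ext h
      subst hij
      left
      obtain ⟨p0, p1⟩ := Pc.inv (g := g) (ho' i) p
      obtain ⟨q0, q1⟩ := Pc.inv (g := g) (ho' i) q
      rw [← hpq] at q0 q1
      exact Pl.ext (by rw [q0, ← p0]) (by rw [q1, ← p1])
    · rcases (pair_sound hg hb (ho' j) (ho' i) (key j i h)).2 q hq p hp hpq.symm with h | h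
      · exact Or.inl h.symm
      · exact Or.inr h.2

end Pool.Agent.Box3
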