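import Pool.Agent.Box3.PartA
import Pool.Agent.Box3.PartC
import Pool.Agent.Box3.PartD1

set_option linter.all false
set_option autoImplicit false

/-!
# Soundness of the checks of one box, except the covering of the faces
-/

namespace Pool.Agent.Box3

theorem Pc.dist_map {g : Fin 3 → ℝ} {c : Pc} (ho : c.orth = true) (p q : Pl) :
    dist (c.map g p) (c.map g q) = dist p q := by
  simp only [Pc.orth, Bool.and_eq_true, decide_eq_true_eq] at ho
  obtain ⟨⟨h1, h2⟩, h3⟩ := ho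
  have h1' : (c.f0.ex : ℝ) * c.f0.ex + c.f1.ex * c.f1.ex + c.f2.ex * c.f2.ex = 1 := by
    exact_mod_cast h1
  have h2' : (c.f0.ey : ℝ) * c.f0.ey + c.f1.ey * c.f1.ey + c.f2.ey * c.f2.ey = 1 := by
    exact_mod_cast h2
  have h3' : (c.f0.ex : ℝ) * c.f0.ey + c.f1.ex * c.f1.ey + c.f2.ex * c.f2.ey = 0 := by
    exact_mod_cast h3
  rw [EuclideanSpace.dist_eq, EuclideanSpace.dist_eq]
  congr 1
  rw [Fin.sum_univ_three, Fin.sum_univ_two]
  simp only [Real.dist_eq, sq_abs, Pc.map_apply0, Pc.map_apply1, Pc.map_apply2, Co.ev]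
  linear_combination (p 0 - q 0) ^ 2 * h1' + (p 1 - q 1) ^ 2 * h2' +
    2 * (p 0 - q 0) * (p 1 - q 1) * h3'

theorem Pc.inSurf_sound {g : Fin 3 → ℝ} (hg : ∀ k, 0 < g k) {a b c : L} {d : Pc}
    (h : d.inSurf a b c = true) {p : Pl} (hp : p ∈ R.set g d.q) :
    d.map g p ∈ surface (a.ev g) (b.ev g) (c.ev g) := by
  simp only [Pc.inSurf, Bool.and_eq_true, Bool.or_eq_true] at h
  obtain ⟨⟨⟨⟨⟨⟨l0, h0⟩, l1⟩, h1⟩, l2⟩, h2⟩, hs⟩ := h
  obtain ⟨⟨a1, a2⟩, ⟨a3, a4⟩, a5, a6⟩ := Pc.map_mem_img (g := g) d hp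
  have l0' := L.le_ev hg l0
  have h0' := L.le_ev hg h0
  have l1' := L.le_ev hg l1
  have h1' := L.le_ev hg h1
  have l2' := L.le_ev hg l2
  have h2' := L.le_ev hg h2
  rw [L.ev_zero] at l0' l1' l2'
  refine ⟨⟨by linarith, by linarith⟩, ⟨by linarith, by linarith⟩, ⟨by linarith, by linarith⟩, ?_⟩
  rcases hs with ((((hs | hs) | hs) | hs) | hs) | hs
  · have := L.le_ev hg hs
    rw [L.ev_zero] at this
    left; linarith
  · have := L.le_ev hg hs
    right; left; linarith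
  · have := L.le_ev hg hs
    rw [L.ev_zero] at this
    right; right; left; linarith
  · have := L.le_ev hg hs
    right; right; right; left; linarith
  · have := L.le_ev hg hs
    rw [L.ev_zero] at this
    right; right; right; right; left; linarith
  · have := L.le_ev hg hs
    right; right; right; right; right; linarith

/-- the pieces cover exactly the polygon -/
theorem union_pieces {g : Fin 3 → ℝ} (hg : ∀ k, 0 < g k) (X : PolyData) (B : BoxData)
    (h2 : B.ok2 X.cs = true) (h3 : B.ok3 X.cs = true) :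
    X.P g = ⋃ i : Fin B.ps.length, R.set g B.ps[i].p.q := by
  simp only [BoxData.ok2, Bool.and_eq_true, decide_eq_true_eq] at h2
  simp only [BoxData.ok3, Bool.and_eq_true, decide_eq_true_eq] at h3
  obtain ⟨h21, h22⟩ := h2
  obtain ⟨h31, h32⟩ := h3
  ext p
  simp only [PolyData.P, Set.mem_setOf_eq, Set.mem_iUnion]
  constructor
  · rintro ⟨c, hc, hp⟩
    obtain ⟨t, ht⟩ := PC.zip_mem h31 hc
    have h := List.all_eq_true.1 h32 _ ht
    simp only [Bool.and_eq_true] at h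
    obtain ⟨i, hi, hpi⟩ := PC.cov_sound hg _ _ t _ h.2 h.1 p (PC.mem_toQ.2 hp)
    rw [PC.mem_toQ, List.getD_eq_getElem _ _ hi] at hpi
    exact ⟨⟨i, hi⟩, hpi⟩
  · rintro ⟨i, hp⟩
    have hm : B.ps[i] ∈ B.ps := List.getElem_mem _
    obtain ⟨k, hk⟩ := PC.zip_mem h21 hm
    have h := List.all_eq_true.1 h22 _ hk
    simp only [Bool.and_eq_true, decide_eq_true_eq] at h
    refine ⟨X.cs.getD k R.default, PC.getD_mem h.1 _, R.sub_sound hg h.2 hp⟩

/-- everything except surjectivity -/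
theorem box_of_data_of_sur (g : Fin 3 → ℝ) (hg : ∀ k, 0 < g k) (X : PolyData) (B : BoxData)
    (hb : ∀ e ∈ X.es, ∀ p ∈ R.set g e, p ∉ interior (X.P g))
    (h1 : B.ok1 X.cs = true) (h2 : B.ok2 X.cs = true) (h3 : B.ok3 X.cs = true)
    (hsur : ∀ w ∈ surface (B.a.ev g) (B.b.ev g) (B.c.ev g), ∃ i : Fin B.ps.length,
      ∃ p ∈ R.set g B.ps[i].p.q, B.ps[i].p.map g p = w)
    (hr : ∀ i, i < B.ps.length → ∃ j n, j ≤ i ∧ i < j + n ∧ rowsOk X.es B.ps j n = true) :
    FoldsInto (X.P g) (B.a.ev g) (B.b.ev g) (B.c.ev g) := by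
  have ho : ∀ c ∈ B.ps, c.p.orth = true ∧ c.p.inSurf B.a B.b B.c = true := by
    intro c hc
    have h := List.all_eq_true.1 h1 c hc
    simpa only [Bool.and_eq_true] using h
  obtain ⟨q1, q2⟩ := pairs_sound g hg X.es (X.P g) B.ps hb (fun c hc => (ho c hc).1) hr
  have hU := union_pieces hg X B h2 h3
  rw [hU] at q2 ⊢
  refine foldsInto_of_pieces (fun i : Fin B.ps.length => R.set g B.ps[i].p.q)
    (fun i => B.ps[i].p.map g) _ _ _ (fun i => PC.closed_R _) ?_ q1 ?_ hsur q2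
  · intro i p _ q _
    exact Pc.dist_map (ho _ (List.getElem_mem _)).1 p q
  · intro i p hp
    exact Pc.inSurf_sound hg (ho _ (List.getElem_mem _)).2 hp

end Pool.Agent.Box3
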