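import Pool.Agent.Box3.Num
set_option linter.all false
set_option autoImplicit false

namespace Pool.Agent.Box3

def cs : List R := [
  ⟨c1x, c2x, c1x, c3x⟩,
  ⟨c2x, c4x, c5x, c6x⟩,
  ⟨c4x, c7x, c8x, c9x⟩,
  ⟨c7x, c10x, c11x, c12x⟩,
  ⟨c10x, c13x, c14x, c15x⟩,
  ⟨c16x, c13x, c17x, c18x⟩,
  ⟨c16x, c13x, c19x, c20x⟩,
  ⟨c13x, c21x, c17x, c20x⟩,
  ⟨c21x, c22x, c23x, c24x⟩,
  ⟨c22x, c25x, c23x, c18x⟩,
  ⟨c22x, c25x, c26x, c27x⟩,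
  ⟨c22x, c25x, c19x, c24x⟩,
  ⟨c25x, c28x, c29x, c18x⟩,
  ⟨c25x, c30x, c31x, c32x⟩,
  ⟨c25x, c28x, c19x, c33x⟩,
  ⟨c28x, c34x, c35x, c18x⟩,
  ⟨c28x, c34x, c19x, c36x⟩,
  ⟨c37x, c38x, c39x, c5x⟩,
  ⟨c37x, c38x, c6x, c40x⟩,
  ⟨c38x, c30x, c39x, c14x⟩,
  ⟨c38x, c30x, c15x, c40x⟩,
  ⟨c30x, c41x, c39x, c40x⟩,
  ⟨c41x, c42x, c11x, c12x⟩,
  ⟨c42x, c43x, c1x, c3x⟩,
  ⟨c43x, c44x, c1x, c45x⟩,
  ⟨c44x, c46x, c5x, c47x⟩,
  ⟨c46x, c48x, c8x, c49x⟩,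
  ⟨c48x, c50x, c11x, c51x⟩,
  ⟨c50x, c52x, c14x, c53x⟩,
  ⟨c52x, c54x, c17x, c18x⟩,
  ⟨c52x, c54x, c14x, c55x⟩,
  ⟨c52x, c54x, c56x, c53x⟩,
  ⟨c54x, c57x, c17x, c55x⟩,
  ⟨c57x, c58x, c23x, c59x⟩,
  ⟨c58x, c60x, c23x, c18x⟩,
  ⟨c58x, c60x, c26x, c59x⟩,
  ⟨c58x, c60x, c56x, c61x⟩,
  ⟨c60x, c62x, c29x, c18x⟩,
  ⟨c60x, c62x, c31x, c63x⟩,
  ⟨c60x, c64x, c56x, c65x⟩,
  ⟨c62x, c64x, c35x, c18x⟩,
  ⟨c62x, c64x, c31x, c66x⟩,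
  ⟨c64x, c67x, c31x, c65x⟩,
  ⟨c67x, c68x, c39x, c5x⟩,
  ⟨c67x, c69x, c31x, c70x⟩,
  ⟨c67x, c68x, c47x, c65x⟩,
  ⟨c68x, c69x, c39x, c14x⟩,
  ⟨c68x, c69x, c53x, c65x⟩,
  ⟨c69x, c71x, c39x, c70x⟩,
  ⟨c71x, c72x, c11x, c51x⟩,
  ⟨c72x, c73x, c1x, c45x⟩,
  ⟨c73x, c74x, c3x, c75x⟩,
  ⟨c74x, c76x, c6x, c77x⟩,
  ⟨c76x, c78x, c9x, c79x⟩,
  ⟨c78x, c80x, c12x, c81x⟩,
  ⟨c80x, c82x, c15x, c83x⟩,
  ⟨c82x, c84x, c15x, c19x⟩,
  ⟨c82x, c84x, c20x, c83x⟩,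
  ⟨c82x, c84x, c85x, c86x⟩,
  ⟨c84x, c87x, c20x, c86x⟩,
  ⟨c87x, c88x, c24x, c89x⟩,
  ⟨c88x, c90x, c27x, c19x⟩,
  ⟨c88x, c90x, c24x, c91x⟩,
  ⟨c88x, c90x, c85x, c89x⟩,
  ⟨c90x, c92x, c32x, c19x⟩,
  ⟨c90x, c93x, c33x, c94x⟩,
  ⟨c90x, c93x, c85x, c95x⟩,
  ⟨c93x, c92x, c36x, c94x⟩,
  ⟨c93x, c92x, c85x, c96x⟩,
  ⟨c92x, c97x, c32x, c94x⟩,
  ⟨c97x, c98x, c32x, c6x⟩,
  ⟨c97x, c99x, c40x, c94x⟩,
  ⟨c97x, c98x, c77x, c100x⟩,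
  ⟨c98x, c99x, c32x, c15x⟩,
  ⟨c98x, c99x, c83x, c100x⟩,
  ⟨c99x, c101x, c40x, c100x⟩,
  ⟨c101x, c102x, c12x, c81x⟩,
  ⟨c102x, c103x, c3x, c75x⟩,
  ⟨c103x, c104x, c45x, c75x⟩,
  ⟨c104x, c105x, c47x, c77x⟩,
  ⟨c105x, c106x, c49x, c79x⟩,
  ⟨c106x, c107x, c51x, c81x⟩,
  ⟨c107x, c108x, c53x, c83x⟩,
  ⟨c109x, c108x, c55x, c56x⟩,
  ⟨c109x, c108x, c85x, c86x⟩,
  ⟨c108x, c110x, c55x, c86x⟩,
  ⟨c110x, c111x, c59x, c89x⟩,
  ⟨c111x, c112x, c59x, c56x⟩,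
  ⟨c111x, c112x, c61x, c91x⟩,
  ⟨c111x, c112x, c85x, c89x⟩,
  ⟨c112x, c113x, c63x, c56x⟩,
  ⟨c112x, c114x, c65x, c94x⟩,
  ⟨c112x, c113x, c85x, c95x⟩,
  ⟨c113x, c115x, c66x, c56x⟩,
  ⟨c113x, c115x, c85x, c96x⟩,
  ⟨c116x, c117x, c70x, c47x⟩,
  ⟨c116x, c117x, c77x, c100x⟩,
  ⟨c117x, c114x, c70x, c53x⟩,
  ⟨c117x, c114x, c83x, c100x⟩,
  ⟨c114x, c118x, c70x, c100x⟩,
  ⟨c118x, c119x, c51x, c81x⟩,
  ⟨c119x, c120x, c45x, c75x⟩]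

def es : List R := [
  ⟨c1x, c2x, c1x, c1x⟩,
  ⟨c2x, c2x, c5x, c1x⟩,
  ⟨c2x, c4x, c5x, c5x⟩,
  ⟨c4x, c4x, c5x, c8x⟩,
  ⟨c4x, c7x, c8x, c8x⟩,
  ⟨c7x, c7x, c11x, c8x⟩,
  ⟨c7x, c10x, c11x, c11x⟩,
  ⟨c10x, c10x, c11x, c14x⟩,
  ⟨c10x, c13x, c14x, c14x⟩,
  ⟨c13x, c13x, c18x, c14x⟩,
  ⟨c16x, c13x, c18x, c18x⟩,
  ⟨c16x, c16x, c17x, c18x⟩,
  ⟨c16x, c21x, c17x, c17x⟩,
  ⟨c21x, c21x, c23x, c17x⟩,
  ⟨c21x, c25x, c23x, c23x⟩,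
  ⟨c25x, c25x, c29x, c23x⟩,
  ⟨c25x, c28x, c29x, c29x⟩,
  ⟨c28x, c28x, c29x, c35x⟩,
  ⟨c28x, c34x, c35x, c35x⟩,
  ⟨c34x, c34x, c35x, c18x⟩,
  ⟨c22x, c34x, c18x, c18x⟩,
  ⟨c22x, c22x, c18x, c26x⟩,
  ⟨c22x, c25x, c26x, c26x⟩,
  ⟨c25x, c25x, c31x, c26x⟩,
  ⟨c25x, c30x, c31x, c31x⟩,
  ⟨c30x, c30x, c14x, c31x⟩,
  ⟨c38x, c30x, c14x, c14x⟩,
  ⟨c38x, c38x, c5x, c14x⟩,
  ⟨c37x, c38x, c5x, c5x⟩,
  ⟨c37x, c37x, c39x, c5x⟩,
  ⟨c37x, c41x, c39x, c39x⟩,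
  ⟨c41x, c41x, c39x, c11x⟩,
  ⟨c41x, c42x, c11x, c11x⟩,
  ⟨c42x, c42x, c1x, c11x⟩,
  ⟨c42x, c44x, c1x, c1x⟩,
  ⟨c44x, c44x, c5x, c1x⟩,
  ⟨c44x, c46x, c5x, c5x⟩,
  ⟨c46x, c46x, c5x, c8x⟩,
  ⟨c46x, c48x, c8x, c8x⟩,
  ⟨c48x, c48x, c11x, c8x⟩,
  ⟨c48x, c50x, c11x, c11x⟩,
  ⟨c50x, c50x, c11x, c14x⟩,
  ⟨c50x, c54x, c14x, c14x⟩,
  ⟨c54x, c54x, c18x, c14x⟩,
  ⟨c52x, c54x, c18x, c18x⟩,
  ⟨c52x, c52x, c17x, c18x⟩,
  ⟨c52x, c57x, c17x, c17x⟩,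
  ⟨c57x, c57x, c23x, c17x⟩,
  ⟨c57x, c60x, c23x, c23x⟩,
  ⟨c60x, c60x, c29x, c23x⟩,
  ⟨c60x, c62x, c29x, c29x⟩,
  ⟨c62x, c62x, c29x, c35x⟩,
  ⟨c62x, c64x, c35x, c35x⟩,
  ⟨c64x, c64x, c35x, c18x⟩,
  ⟨c58x, c64x, c18x, c18x⟩,
  ⟨c58x, c58x, c18x, c26x⟩,
  ⟨c58x, c60x, c26x, c26x⟩,
  ⟨c60x, c60x, c31x, c26x⟩,
  ⟨c60x, c69x, c31x, c31x⟩,
  ⟨c69x, c69x, c14x, c31x⟩,
  ⟨c68x, c69x, c14x, c14x⟩,
  ⟨c68x, c68x, c5x, c14x⟩,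
  ⟨c67x, c68x, c5x, c5x⟩,
  ⟨c67x, c67x, c39x, c5x⟩,
  ⟨c67x, c71x, c39x, c39x⟩,
  ⟨c71x, c71x, c39x, c11x⟩,
  ⟨c71x, c72x, c11x, c11x⟩,
  ⟨c72x, c72x, c1x, c11x⟩,
  ⟨c72x, c73x, c1x, c1x⟩,
  ⟨c73x, c73x, c1x, c3x⟩,
  ⟨c73x, c74x, c3x, c3x⟩,
  ⟨c74x, c74x, c3x, c6x⟩,
  ⟨c74x, c76x, c6x, c6x⟩,
  ⟨c76x, c76x, c9x, c6x⟩,
  ⟨c76x, c78x, c9x, c9x⟩,
  ⟨c78x, c78x, c9x, c12x⟩,
  ⟨c78x, c80x, c12x, c12x⟩,
  ⟨c80x, c80x, c15x, c12x⟩,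
  ⟨c80x, c84x, c15x, c15x⟩,
  ⟨c84x, c84x, c15x, c19x⟩,
  ⟨c82x, c84x, c19x, c19x⟩,
  ⟨c82x, c82x, c19x, c20x⟩,
  ⟨c82x, c87x, c20x, c20x⟩,
  ⟨c87x, c87x, c20x, c24x⟩,
  ⟨c87x, c90x, c24x, c24x⟩,
  ⟨c90x, c90x, c24x, c33x⟩,
  ⟨c90x, c93x, c33x, c33x⟩,
  ⟨c93x, c93x, c36x, c33x⟩,
  ⟨c93x, c92x, c36x, c36x⟩,
  ⟨c92x, c92x, c19x, c36x⟩,
  ⟨c88x, c92x, c19x, c19x⟩,
  ⟨c88x, c88x, c27x, c19x⟩,
  ⟨c88x, c90x, c27x, c27x⟩,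
  ⟨c90x, c90x, c27x, c32x⟩,
  ⟨c90x, c99x, c32x, c32x⟩,
  ⟨c99x, c99x, c32x, c15x⟩,
  ⟨c98x, c99x, c15x, c15x⟩,
  ⟨c98x, c98x, c15x, c6x⟩,
  ⟨c97x, c98x, c6x, c6x⟩,
  ⟨c97x, c97x, c6x, c40x⟩,
  ⟨c97x, c101x, c40x, c40x⟩,
  ⟨c101x, c101x, c12x, c40x⟩,
  ⟨c101x, c102x, c12x, c12x⟩,
  ⟨c102x, c102x, c12x, c3x⟩,
  ⟨c102x, c103x, c3x, c3x⟩,
  ⟨c103x, c103x, c3x, c45x⟩,
  ⟨c103x, c104x, c45x, c45x⟩,
  ⟨c104x, c104x, c47x, c45x⟩,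
  ⟨c104x, c105x, c47x, c47x⟩,
  ⟨c105x, c105x, c47x, c49x⟩,
  ⟨c105x, c106x, c49x, c49x⟩,
  ⟨c106x, c106x, c51x, c49x⟩,
  ⟨c106x, c107x, c51x, c51x⟩,
  ⟨c107x, c107x, c51x, c53x⟩,
  ⟨c107x, c108x, c53x, c53x⟩,
  ⟨c108x, c108x, c56x, c53x⟩,
  ⟨c109x, c108x, c56x, c56x⟩,
  ⟨c109x, c109x, c55x, c56x⟩,
  ⟨c109x, c110x, c55x, c55x⟩,
  ⟨c110x, c110x, c59x, c55x⟩,
  ⟨c110x, c112x, c59x, c59x⟩,
  ⟨c112x, c112x, c63x, c59x⟩,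
  ⟨c112x, c113x, c63x, c63x⟩,
  ⟨c113x, c113x, c63x, c66x⟩,
  ⟨c113x, c115x, c66x, c66x⟩,
  ⟨c115x, c115x, c66x, c56x⟩,
  ⟨c111x, c115x, c56x, c56x⟩,
  ⟨c111x, c111x, c56x, c61x⟩,
  ⟨c111x, c112x, c61x, c61x⟩,
  ⟨c112x, c112x, c65x, c61x⟩,
  ⟨c112x, c114x, c65x, c65x⟩,
  ⟨c114x, c114x, c53x, c65x⟩,
  ⟨c117x, c114x, c53x, c53x⟩,
  ⟨c117x, c117x, c47x, c53x⟩,
  ⟨c116x, c117x, c47x, c47x⟩,
  ⟨c116x, c116x, c70x, c47x⟩,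
  ⟨c116x, c118x, c70x, c70x⟩,
  ⟨c118x, c118x, c70x, c51x⟩,
  ⟨c118x, c119x, c51x, c51x⟩,
  ⟨c119x, c119x, c45x, c51x⟩,
  ⟨c119x, c120x, c45x, c45x⟩,
  ⟨c120x, c120x, c45x, c75x⟩,
  ⟨c119x, c120x, c75x, c75x⟩,
  ⟨c119x, c119x, c81x, c75x⟩,
  ⟨c118x, c119x, c81x, c81x⟩,
  ⟨c118x, c118x, c81x, c100x⟩,
  ⟨c116x, c118x, c100x, c100x⟩,
  ⟨c116x, c116x, c77x, c100x⟩,
  ⟨c116x, c117x, c77x, c77x⟩,
  ⟨c117x, c117x, c83x, c77x⟩,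
  ⟨c117x, c114x, c83x, c83x⟩,
  ⟨c114x, c114x, c94x, c83x⟩,
  ⟨c112x, c114x, c94x, c94x⟩,
  ⟨c112x, c112x, c91x, c94x⟩,
  ⟨c111x, c112x, c91x, c91x⟩,
  ⟨c111x, c111x, c91x, c85x⟩,
  ⟨c111x, c115x, c85x, c85x⟩,
  ⟨c115x, c115x, c85x, c96x⟩,
  ⟨c113x, c115x, c96x, c96x⟩,
  ⟨c113x, c113x, c96x, c95x⟩,
  ⟨c112x, c113x, c95x, c95x⟩,
  ⟨c112x, c112x, c89x, c95x⟩,
  ⟨c110x, c112x, c89x, c89x⟩,
  ⟨c110x, c110x, c86x, c89x⟩,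
  ⟨c109x, c110x, c86x, c86x⟩,
  ⟨c109x, c109x, c85x, c86x⟩,
  ⟨c109x, c108x, c85x, c85x⟩,
  ⟨c108x, c108x, c83x, c85x⟩,
  ⟨c107x, c108x, c83x, c83x⟩,
  ⟨c107x, c107x, c83x, c81x⟩,
  ⟨c106x, c107x, c81x, c81x⟩,
  ⟨c106x, c106x, c79x, c81x⟩,
  ⟨c105x, c106x, c79x, c79x⟩,
  ⟨c105x, c105x, c79x, c77x⟩,
  ⟨c104x, c105x, c77x, c77x⟩,
  ⟨c104x, c104x, c75x, c77x⟩,
  ⟨c102x, c104x, c75x, c75x⟩,
  ⟨c102x, c102x, c81x, c75x⟩,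
  ⟨c101x, c102x, c81x, c81x⟩,
  ⟨c101x, c101x, c81x, c100x⟩,
  ⟨c97x, c101x, c100x, c100x⟩,
  ⟨c97x, c97x, c77x, c100x⟩,
  ⟨c97x, c98x, c77x, c77x⟩,
  ⟨c98x, c98x, c83x, c77x⟩,
  ⟨c98x, c99x, c83x, c83x⟩,
  ⟨c99x, c99x, c94x, c83x⟩,
  ⟨c90x, c99x, c94x, c94x⟩,
  ⟨c90x, c90x, c91x, c94x⟩,
  ⟨c88x, c90x, c91x, c91x⟩,
  ⟨c88x, c88x, c91x, c85x⟩,
  ⟨c88x, c92x, c85x, c85x⟩,
  ⟨c92x, c92x, c85x, c96x⟩,
  ⟨c93x, c92x, c96x, c96x⟩,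
  ⟨c93x, c93x, c96x, c95x⟩,
  ⟨c90x, c93x, c95x, c95x⟩,
  ⟨c90x, c90x, c89x, c95x⟩,
  ⟨c87x, c90x, c89x, c89x⟩,
  ⟨c87x, c87x, c86x, c89x⟩,
  ⟨c82x, c87x, c86x, c86x⟩,
  ⟨c82x, c82x, c85x, c86x⟩,
  ⟨c82x, c84x, c85x, c85x⟩,
  ⟨c84x, c84x, c83x, c85x⟩,
  ⟨c80x, c84x, c83x, c83x⟩,
  ⟨c80x, c80x, c83x, c81x⟩,
  ⟨c78x, c80x, c81x, c81x⟩,
  ⟨c78x, c78x, c79x, c81x⟩,
  ⟨c76x, c78x, c79x, c79x⟩,
  ⟨c76x, c76x, c79x, c77x⟩,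
  ⟨c74x, c76x, c77x, c77x⟩,
  ⟨c74x, c74x, c75x, c77x⟩,
  ⟨c73x, c74x, c75x, c75x⟩,
  ⟨c73x, c73x, c45x, c75x⟩,
  ⟨c72x, c73x, c45x, c45x⟩,
  ⟨c72x, c72x, c45x, c51x⟩,
  ⟨c71x, c72x, c51x, c51x⟩,
  ⟨c71x, c71x, c70x, c51x⟩,
  ⟨c67x, c71x, c70x, c70x⟩,
  ⟨c67x, c67x, c70x, c47x⟩,
  ⟨c67x, c68x, c47x, c47x⟩,
  ⟨c68x, c68x, c47x, c53x⟩,
  ⟨c68x, c69x, c53x, c53x⟩,
  ⟨c69x, c69x, c53x, c65x⟩,
  ⟨c60x, c69x, c65x, c65x⟩,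
  ⟨c60x, c60x, c65x, c61x⟩,
  ⟨c58x, c60x, c61x, c61x⟩,
  ⟨c58x, c58x, c56x, c61x⟩,
  ⟨c58x, c64x, c56x, c56x⟩,
  ⟨c64x, c64x, c66x, c56x⟩,
  ⟨c62x, c64x, c66x, c66x⟩,
  ⟨c62x, c62x, c63x, c66x⟩,
  ⟨c60x, c62x, c63x, c63x⟩,
  ⟨c60x, c60x, c63x, c59x⟩,
  ⟨c57x, c60x, c59x, c59x⟩,
  ⟨c57x, c57x, c59x, c55x⟩,
  ⟨c52x, c57x, c55x, c55x⟩,
  ⟨c52x, c52x, c55x, c56x⟩,
  ⟨c52x, c54x, c56x, c56x⟩,
  ⟨c54x, c54x, c56x, c53x⟩,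
  ⟨c50x, c54x, c53x, c53x⟩,
  ⟨c50x, c50x, c51x, c53x⟩,
  ⟨c48x, c50x, c51x, c51x⟩,
  ⟨c48x, c48x, c51x, c49x⟩,
  ⟨c46x, c48x, c49x, c49x⟩,
  ⟨c46x, c46x, c47x, c49x⟩,
  ⟨c44x, c46x, c47x, c47x⟩,
  ⟨c44x, c44x, c47x, c45x⟩,
  ⟨c43x, c44x, c45x, c45x⟩,
  ⟨c43x, c43x, c3x, c45x⟩,
  ⟨c42x, c43x, c3x, c3x⟩,
  ⟨c42x, c42x, c12x, c3x⟩,
  ⟨c41x, c42x, c12x, c12x⟩,
  ⟨c41x, c41x, c12x, c40x⟩,
  ⟨c37x, c41x, c40x, c40x⟩,
  ⟨c37x, c37x, c6x, c40x⟩,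
  ⟨c37x, c38x, c6x, c6x⟩,
  ⟨c38x, c38x, c15x, c6x⟩,
  ⟨c38x, c30x, c15x, c15x⟩,
  ⟨c30x, c30x, c32x, c15x⟩,
  ⟨c25x, c30x, c32x, c32x⟩,
  ⟨c25x, c25x, c27x, c32x⟩,
  ⟨c22x, c25x, c27x, c27x⟩,
  ⟨c22x, c22x, c27x, c19x⟩,
  ⟨c22x, c34x, c19x, c19x⟩,
  ⟨c34x, c34x, c19x, c36x⟩,
  ⟨c28x, c34x, c36x, c36x⟩,
  ⟨c28x, c28x, c36x, c33x⟩,
  ⟨c25x, c28x, c33x, c33x⟩,
  ⟨c25x, c25x, c24x, c33x⟩,
  ⟨c21x, c25x, c24x, c24x⟩,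
  ⟨c21x, c21x, c20x, c24x⟩,
  ⟨c16x, c21x, c20x, c20x⟩,
  ⟨c16x, c16x, c19x, c20x⟩,
  ⟨c16x, c13x, c19x, c19x⟩,
  ⟨c13x, c13x, c15x, c19x⟩,
  ⟨c10x, c13x, c15x, c15x⟩,
  ⟨c10x, c10x, c15x, c12x⟩,
  ⟨c7x, c10x, c12x, c12x⟩,
  ⟨c7x, c7x, c9x, c12x⟩,
  ⟨c4x, c7x, c9x, c9x⟩,
  ⟨c4x, c4x, c9x, c6x⟩,
  ⟨c2x, c4x, c6x, c6x⟩,
  ⟨c2x, c2x, c3x, c6x⟩,
  ⟨c1x, c2x, c3x, c3x⟩,
  ⟨c1x, c1x, c1x, c3x⟩]

def vs : List (L × L) := [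
  (c1x, c1x),
  (c2x, c1x),
  (c2x, c5x),
  (c4x, c5x),
  (c4x, c8x),
  (c7x, c8x),
  (c7x, c11x),
  (c10x, c11x),
  (c10x, c14x),
  (c13x, c14x),
  (c13x, c18x),
  (c16x, c18x),
  (c16x, c17x),
  (c21x, c17x),
  (c21x, c23x),
  (c25x, c23x),
  (c25x, c29x),
  (c28x, c29x),
  (c28x, c35x),
  (c34x, c35x),
  (c34x, c18x),
  (c22x, c18x),
  (c22x, c26x),
  (c25x, c26x),
  (c25x, c31x),
  (c30x, c31x),
  (c30x, c14x),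
  (c38x, c14x),
  (c38x, c5x),
  (c37x, c5x),
  (c37x, c39x),
  (c41x, c39x),
  (c41x, c11x),
  (c42x, c11x),
  (c42x, c1x),
  (c44x, c1x),
  (c44x, c5x),
  (c46x, c5x),
  (c46x, c8x),
  (c48x, c8x),
  (c48x, c11x),
  (c50x, c11x),
  (c50x, c14x),
  (c54x, c14x),
  (c54x, c18x),
  (c52x, c18x),
  (c52x, c17x),
  (c57x, c17x),
  (c57x, c23x),
  (c60x, c23x),
  (c60x, c29x),
  (c62x, c29x),
  (c62x, c35x),
  (c64x, c35x),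
  (c64x, c18x),
  (c58x, c18x),
  (c58x, c26x),
  (c60x, c26x),
  (c60x, c31x),
  (c69x, c31x),
  (c69x, c14x),
  (c68x, c14x),
  (c68x, c5x),
  (c67x, c5x),
  (c67x, c39x),
  (c71x, c39x),
  (c71x, c11x),
  (c72x, c11x),
  (c72x, c1x),
  (c73x, c1x),
  (c73x, c3x),
  (c74x, c3x),
  (c74x, c6x),
  (c76x, c6x),
  (c76x, c9x),
  (c78x, c9x),
  (c78x, c12x),
  (c80x, c12x),
  (c80x, c15x),
  (c84x, c15x),
  (c84x, c19x),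
  (c82x, c19x),
  (c82x, c20x),
  (c87x, c20x),
  (c87x, c24x),
  (c90x, c24x),
  (c90x, c33x),
  (c93x, c33x),
  (c93x, c36x),
  (c92x, c36x),
  (c92x, c19x),
  (c88x, c19x),
  (c88x, c27x),
  (c90x, c27x),
  (c90x, c32x),
  (c99x, c32x),
  (c99x, c15x),
  (c98x, c15x),
  (c98x, c6x),
  (c97x, c6x),
  (c97x, c40x),
  (c101x, c40x),
  (c101x, c12x),
  (c102x, c12x),
  (c102x, c3x),
  (c103x, c3x),
  (c103x, c45x),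
  (c104x, c45x),
  (c104x, c47x),
  (c105x, c47x),
  (c105x, c49x),
  (c106x, c49x),
  (c106x, c51x),
  (c107x, c51x),
  (c107x, c53x),
  (c108x, c53x),
  (c108x, c56x),
  (c109x, c56x),
  (c109x, c55x),
  (c110x, c55x),
  (c110x, c59x),
  (c112x, c59x),
  (c112x, c63x),
  (c113x, c63x),
  (c113x, c66x),
  (c115x, c66x),
  (c115x, c56x),
  (c111x, c56x),
  (c111x, c61x),
  (c112x, c61x),
  (c112x, c65x),
  (c114x, c65x),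
  (c114x, c53x),
  (c117x, c53x),
  (c117x, c47x),
  (c116x, c47x),
  (c116x, c70x),
  (c118x, c70x),
  (c118x, c51x),
  (c119x, c51x),
  (c119x, c45x),
  (c120x, c45x),
  (c120x, c75x),
  (c119x, c75x),
  (c119x, c81x),
  (c118x, c81x),
  (c118x, c100x),
  (c116x, c100x),
  (c116x, c77x),
  (c117x, c77x),
  (c117x, c83x),
  (c114x, c83x),
  (c114x, c94x),
  (c112x, c94x),
  (c112x, c91x),
  (c111x, c91x),
  (c111x, c85x),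
  (c115x, c85x),
  (c115x, c96x),
  (c113x, c96x),
  (c113x, c95x),
  (c112x, c95x),
  (c112x, c89x),
  (c110x, c89x),
  (c110x, c86x),
  (c109x, c86x),
  (c109x, c85x),
  (c108x, c85x),
  (c108x, c83x),
  (c107x, c83x),
  (c107x, c81x),
  (c106x, c81x),
  (c106x, c79x),
  (c105x, c79x),
  (c105x, c77x),
  (c104x, c77x),
  (c104x, c75x),
  (c102x, c75x),
  (c102x, c81x),
  (c101x, c81x),
  (c101x, c100x),
  (c97x, c100x),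
  (c97x, c77x),
  (c98x, c77x),
  (c98x, c83x),
  (c99x, c83x),
  (c99x, c94x),
  (c90x, c94x),
  (c90x, c91x),
  (c88x, c91x),
  (c88x, c85x),
  (c92x, c85x),
  (c92x, c96x),
  (c93x, c96x),
  (c93x, c95x),
  (c90x, c95x),
  (c90x, c89x),
  (c87x, c89x),
  (c87x, c86x),
  (c82x, c86x),
  (c82x, c85x),
  (c84x, c85x),
  (c84x, c83x),
  (c80x, c83x),
  (c80x, c81x),
  (c78x, c81x),
  (c78x, c79x),
  (c76x, c79x),
  (c76x, c77x),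
  (c74x, c77x),
  (c74x, c75x),
  (c73x, c75x),
  (c73x, c45x),
  (c72x, c45x),
  (c72x, c51x),
  (c71x, c51x),
  (c71x, c70x),
  (c67x, c70x),
  (c67x, c47x),
  (c68x, c47x),
  (c68x, c53x),
  (c69x, c53x),
  (c69x, c65x),
  (c60x, c65x),
  (c60x, c61x),
  (c58x, c61x),
  (c58x, c56x),
  (c64x, c56x),
  (c64x, c66x),
  (c62x, c66x),
  (c62x, c63x),
  (c60x, c63x),
  (c60x, c59x),
  (c57x, c59x),
  (c57x, c55x),
  (c52x, c55x),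
  (c52x, c56x),
  (c54x, c56x),
  (c54x, c53x),
  (c50x, c53x),
  (c50x, c51x),
  (c48x, c51x),
  (c48x, c49x),
  (c46x, c49x),
  (c46x, c47x),
  (c44x, c47x),
  (c44x, c45x),
  (c43x, c45x),
  (c43x, c3x),
  (c42x, c3x),
  (c42x, c12x),
  (c41x, c12x),
  (c41x, c40x),
  (c37x, c40x),
  (c37x, c6x),
  (c38x, c6x),
  (c38x, c15x),
  (c30x, c15x),
  (c30x, c32x),
  (c25x, c32x),
  (c25x, c27x),
  (c22x, c27x),
  (c22x, c19x),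
  (c34x, c19x),
  (c34x, c36x),
  (c28x, c36x),
  (c28x, c33x),
  (c25x, c33x),
  (c25x, c24x),
  (c21x, c24x),
  (c21x, c20x),
  (c16x, c20x),
  (c16x, c19x),
  (c13x, c19x),
  (c13x, c15x),
  (c10x, c15x),
  (c10x, c12x),
  (c7x, c12x),
  (c7x, c9x),
  (c4x, c9x),
  (c4x, c6x),
  (c2x, c6x),
  (c2x, c3x),
  (c1x, c3x),
  (c1x, c1x)]

def qs : List (Q × List ℕ) := [
  (⟨some c1x, some c2x, none, some c1x⟩, [0, 1, 2, 283]),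
  (⟨some c1x, some c2x, some c3x, none⟩, [280, 281, 282, 283]),
  (⟨some c2x, some c4x, none, some c5x⟩, [1, 2, 3]),
  (⟨some c2x, some c4x, some c6x, none⟩, [279, 280, 281]),
  (⟨some c4x, some c7x, none, some c8x⟩, [2, 3, 4, 5, 6]),
  (⟨some c4x, some c7x, some c9x, none⟩, [276, 277, 278, 279, 280]),
  (⟨some c7x, some c10x, none, some c11x⟩, [5, 6, 7]),
  (⟨some c7x, some c10x, some c12x, none⟩, [275, 276, 277]),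
  (⟨some c10x, some c16x, none, some c14x⟩, [6, 7, 8, 10, 11, 12]),
  (⟨some c10x, some c16x, some c15x, none⟩, [270, 271, 272, 274, 275, 276]),
  (⟨some c16x, some c21x, none, some c17x⟩, [11, 12, 13, 14]),
  (⟨some c16x, some c13x, some c18x, some c14x⟩, [8, 9, 10, 11]),
  (⟨some c16x, some c13x, some c15x, some c19x⟩, [271, 272, 273, 274]),
  (⟨some c16x, some c21x, some c20x, none⟩, [268, 269, 270, 271]),
  (⟨some c21x, some c25x, none, some c23x⟩, [13, 14, 15, 16]),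
  (⟨some c21x, some c25x, some c24x, none⟩, [266, 267, 268, 269]),
  (⟨some c22x, some c25x, some c18x, some c26x⟩, [20, 21, 22, 23, 24]),
  (⟨some c22x, some c25x, some c27x, some c19x⟩, [258, 259, 260, 261, 262]),
  (⟨some c25x, some c28x, none, some c29x⟩, [15, 16, 17]),
  (⟨some c25x, some c34x, some c18x, some c31x⟩, [19, 20, 23, 24]),
  (⟨some c25x, some c34x, some c32x, some c19x⟩, [258, 259, 262, 263]),
  (⟨some c25x, some c28x, some c33x, none⟩, [265, 266, 267]),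
  (⟨some c28x, some c34x, none, some c35x⟩, [16, 17, 18, 19]),
  (⟨some c28x, some c34x, some c36x, none⟩, [263, 264, 265, 266]),
  (⟨some c34x, some c37x, none, some c31x⟩, [18, 19, 20, 24, 28, 29, 30]),
  (⟨some c34x, some c37x, some c32x, none⟩, [252, 253, 254, 258, 262, 263, 264]),
  (⟨some c37x, some c41x, none, some c39x⟩, [29, 30, 31]),
  (⟨some c37x, some c38x, some c5x, some c31x⟩, [24, 26, 27, 28, 29]),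
  (⟨some c37x, some c38x, some c32x, some c6x⟩, [253, 254, 255, 256, 258]),
  (⟨some c37x, some c41x, some c40x, none⟩, [251, 252, 253]),
  (⟨some c38x, some c30x, some c14x, some c31x⟩, [24, 25, 26, 27]),
  (⟨some c38x, some c30x, some c32x, some c15x⟩, [255, 256, 257, 258]),
  (⟨some c41x, some c42x, none, some c11x⟩, [30, 31, 32, 33, 34]),
  (⟨some c41x, some c42x, some c12x, none⟩, [248, 249, 250, 251, 252]),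
  (⟨some c42x, some c44x, none, some c1x⟩, [33, 34, 35, 36]),
  (⟨some c42x, some c43x, some c3x, none⟩, [246, 247, 248, 249]),
  (⟨some c43x, some c44x, some c45x, none⟩, [245, 246, 247]),
  (⟨some c44x, some c46x, none, some c5x⟩, [35, 36, 37]),
  (⟨some c44x, some c46x, some c47x, none⟩, [242, 243, 244, 245, 246]),
  (⟨some c46x, some c48x, none, some c8x⟩, [36, 37, 38, 39, 40]),
  (⟨some c46x, some c48x, some c49x, none⟩, [241, 242, 243]),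
  (⟨some c48x, some c50x, none, some c11x⟩, [39, 40, 41]),
  (⟨some c48x, some c50x, some c51x, none⟩, [238, 239, 240, 241, 242]),
  (⟨some c50x, some c52x, none, some c14x⟩, [40, 41, 42, 44, 45, 46]),
  (⟨some c50x, some c54x, some c53x, none⟩, [237, 238, 239]),
  (⟨some c52x, some c57x, none, some c17x⟩, [45, 46, 47, 48]),
  (⟨some c52x, some c54x, some c18x, some c14x⟩, [42, 43, 44, 45]),
  (⟨some c52x, some c54x, some c55x, some c56x⟩, [234, 235, 236, 237]),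
  (⟨some c54x, some c57x, some c55x, none⟩, [233, 234, 236, 237, 238]),
  (⟨some c57x, some c60x, none, some c23x⟩, [47, 48, 49, 50]),
  (⟨some c57x, some c58x, some c59x, none⟩, [224, 225, 226, 232, 233, 234]),
  (⟨some c58x, some c60x, some c18x, some c26x⟩, [54, 55, 56, 57, 58]),
  (⟨some c58x, some c60x, some c59x, some c56x⟩, [225, 226, 231, 232]),
  (⟨some c58x, some c60x, some c61x, none⟩, [223, 224, 225]),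
  (⟨some c60x, some c62x, none, some c29x⟩, [49, 50, 51]),
  (⟨some c60x, some c64x, some c18x, some c31x⟩, [53, 54, 57, 58]),
  (⟨some c60x, some c62x, some c63x, some c56x⟩, [226, 228, 229, 230, 231, 232]),
  (⟨some c60x, some c69x, some c65x, none⟩, [221, 222, 223, 224]),
  (⟨some c62x, some c64x, none, some c35x⟩, [50, 51, 52, 53]),
  (⟨some c62x, some c64x, some c66x, some c56x⟩, [226, 227, 228, 229]),
  (⟨some c64x, some c67x, none, some c31x⟩, [52, 53, 54, 58, 62, 63, 64]),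
  (⟨some c67x, some c71x, none, some c39x⟩, [63, 64, 65]),
  (⟨some c67x, some c68x, some c5x, some c31x⟩, [58, 60, 61, 62, 63]),
  (⟨some c67x, some c68x, some c70x, some c47x⟩, [216, 217, 218, 219]),
  (⟨some c68x, some c69x, some c14x, some c31x⟩, [58, 59, 60, 61]),
  (⟨some c68x, some c69x, some c70x, some c53x⟩, [216, 218, 219, 220, 221]),
  (⟨some c69x, some c71x, some c70x, none⟩, [214, 215, 216, 220, 221, 222]),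
  (⟨some c71x, some c72x, none, some c11x⟩, [64, 65, 66, 67, 68]),
  (⟨some c71x, some c72x, some c51x, none⟩, [213, 214, 215]),
  (⟨some c72x, some c73x, none, some c1x⟩, [67, 68, 69]),
  (⟨some c72x, some c73x, some c45x, none⟩, [210, 211, 212, 213, 214]),
  (⟨some c73x, some c74x, none, some c3x⟩, [68, 69, 70, 71]),
  (⟨some c73x, some c74x, some c75x, none⟩, [208, 209, 210, 211]),
  (⟨some c74x, some c76x, none, some c6x⟩, [70, 71, 72, 73, 74]),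
  (⟨some c74x, some c76x, some c77x, none⟩, [207, 208, 209]),
  (⟨some c76x, some c78x, none, some c9x⟩, [73, 74, 75]),
  (⟨some c76x, some c78x, some c79x, none⟩, [204, 205, 206, 207, 208]),
  (⟨some c78x, some c80x, none, some c12x⟩, [74, 75, 76, 77, 78]),
  (⟨some c78x, some c80x, some c81x, none⟩, [203, 204, 205]),
  (⟨some c80x, some c84x, none, some c15x⟩, [77, 78, 79]),
  (⟨some c80x, some c82x, some c83x, none⟩, [198, 199, 200, 202, 203, 204]),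
  (⟨some c82x, some c84x, some c19x, some c20x⟩, [79, 80, 81, 82]),
  (⟨some c82x, some c84x, some c83x, some c85x⟩, [199, 200, 201, 202]),
  (⟨some c82x, some c87x, some c86x, none⟩, [196, 197, 198, 199]),
  (⟨some c84x, some c87x, none, some c20x⟩, [78, 79, 80, 82, 83]),
  (⟨some c87x, some c88x, none, some c24x⟩, [82, 83, 84, 90, 91, 92]),
  (⟨some c87x, some c90x, some c89x, none⟩, [194, 195, 196, 197]),
  (⟨some c88x, some c90x, none, some c27x⟩, [91, 92, 93]),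
  (⟨some c88x, some c90x, some c19x, some c24x⟩, [84, 85, 90, 91]),
  (⟨some c88x, some c90x, some c91x, some c85x⟩, [186, 187, 188, 189, 190]),
  (⟨some c90x, some c99x, none, some c32x⟩, [92, 93, 94, 95]),
  (⟨some c90x, some c93x, some c19x, some c33x⟩, [84, 85, 86, 87, 88, 90]),
  (⟨some c90x, some c92x, some c94x, some c85x⟩, [186, 187, 190, 191]),
  (⟨some c90x, some c93x, some c95x, none⟩, [193, 194, 195]),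
  (⟨some c93x, some c92x, some c19x, some c36x⟩, [87, 88, 89, 90]),
  (⟨some c93x, some c92x, some c96x, none⟩, [191, 192, 193, 194]),
  (⟨some c92x, some c97x, some c94x, none⟩, [180, 181, 182, 186, 190, 191, 192]),
  (⟨some c97x, some c98x, some c6x, some c40x⟩, [97, 98, 99, 100]),
  (⟨some c97x, some c98x, some c94x, some c77x⟩, [181, 182, 183, 184, 186]),
  (⟨some c97x, some c101x, some c100x, none⟩, [179, 180, 181]),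
  (⟨some c98x, some c99x, some c15x, some c40x⟩, [95, 96, 97, 98, 100]),
  (⟨some c98x, some c99x, some c94x, some c83x⟩, [183, 184, 185, 186]),
  (⟨some c99x, some c101x, none, some c40x⟩, [94, 95, 96, 100, 101, 102]),
  (⟨some c101x, some c102x, none, some c12x⟩, [101, 102, 103]),
  (⟨some c101x, some c102x, some c81x, none⟩, [176, 177, 178, 179, 180]),
  (⟨some c102x, some c103x, none, some c3x⟩, [102, 103, 104, 105]),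
  (⟨some c102x, some c104x, some c75x, none⟩, [174, 175, 176, 177]),
  (⟨some c103x, some c104x, none, some c45x⟩, [104, 105, 106, 107, 108]),
  (⟨some c104x, some c105x, none, some c47x⟩, [107, 108, 109]),
  (⟨some c104x, some c105x, some c77x, none⟩, [173, 174, 175]),
  (⟨some c105x, some c106x, none, some c49x⟩, [108, 109, 110, 111, 112]),
  (⟨some c105x, some c106x, some c79x, none⟩, [170, 171, 172, 173, 174]),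
  (⟨some c106x, some c107x, none, some c51x⟩, [111, 112, 113]),
  (⟨some c106x, some c107x, some c81x, none⟩, [169, 170, 171]),
  (⟨some c107x, some c109x, none, some c53x⟩, [112, 113, 114, 116, 117, 118]),
  (⟨some c107x, some c109x, some c83x, none⟩, [164, 165, 166, 168, 169, 170]),
  (⟨some c109x, some c110x, none, some c55x⟩, [117, 118, 119, 120]),
  (⟨some c109x, some c108x, some c56x, some c53x⟩, [114, 115, 116, 117]),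
  (⟨some c109x, some c108x, some c83x, some c85x⟩, [165, 166, 167, 168]),
  (⟨some c109x, some c110x, some c86x, none⟩, [162, 163, 164, 165]),
  (⟨some c110x, some c112x, none, some c59x⟩, [119, 120, 121, 122]),
  (⟨some c110x, some c112x, some c89x, none⟩, [160, 161, 162, 163]),
  (⟨some c111x, some c112x, some c56x, some c61x⟩, [126, 127, 128, 129, 130]),
  (⟨some c111x, some c112x, some c91x, some c85x⟩, [152, 153, 154, 155, 156]),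
  (⟨some c112x, some c113x, none, some c63x⟩, [121, 122, 123]),
  (⟨some c112x, some c115x, some c56x, some c65x⟩, [125, 126, 129, 130]),
  (⟨some c112x, some c115x, some c94x, some c85x⟩, [152, 153, 156, 157]),
  (⟨some c112x, some c113x, some c95x, none⟩, [159, 160, 161]),
  (⟨some c113x, some c115x, none, some c66x⟩, [122, 123, 124, 125]),
  (⟨some c113x, some c115x, some c96x, none⟩, [157, 158, 159, 160]),
  (⟨some c115x, some c116x, none, some c65x⟩, [124, 125, 126, 130, 134, 135, 136]),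
  (⟨some c115x, some c116x, some c94x, none⟩, [146, 147, 148, 152, 156, 157, 158]),
  (⟨some c116x, some c118x, none, some c70x⟩, [135, 136, 137]),
  (⟨some c116x, some c117x, some c47x, some c65x⟩, [130, 132, 133, 134, 135]),
  (⟨some c116x, some c117x, some c94x, some c77x⟩, [147, 148, 149, 150, 152]),
  (⟨some c116x, some c118x, some c100x, none⟩, [145, 146, 147]),
  (⟨some c117x, some c114x, some c53x, some c65x⟩, [130, 131, 132, 133]),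
  (⟨some c117x, some c114x, some c94x, some c83x⟩, [149, 150, 151, 152]),
  (⟨some c118x, some c119x, none, some c51x⟩, [136, 137, 138, 139, 140]),
  (⟨some c118x, some c119x, some c81x, none⟩, [142, 143, 144, 145, 146]),
  (⟨some c119x, some c120x, none, some c45x⟩, [139, 140, 141]),
  (⟨some c119x, some c120x, some c75x, none⟩, [141, 142, 143]),
  (⟨none, some c1x, none, none⟩, [0, 282, 283]),
  (⟨some c120x, none, none, none⟩, [140, 141, 142])]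

def tr : Tr :=
  .sx c73x (.sx c44x (.sx c25x (.sx c10x (.sx c4x (.sx c2x (.sx c1x (.leaf 244) (.sy c1x (.leaf 102) (.sy c3x (.leaf 0) (.leaf 103)))) (.sy c5x (.leaf 104) (.sy c6x (.leaf 1) (.leaf 105)))) (.sx c7x (.sy c8x (.leaf 106) (.sy c9x (.leaf 2) (.leaf 107))) (.sy c11x (.leaf 108) (.sy c12x (.leaf 3) (.leaf 109))))) (.sx c21x (.sy c14x (.sx c16x (.leaf 110) (.sy c17x (.leaf 112) (.sx c13x (.sy c18x (.leaf 5) (.leaf 113)) (.leaf 7)))) (.sx c13x (.sy c15x (.leaf 4) (.sx c16x (.leaf 111) (.sy c19x (.leaf 114) (.sy c20x (.leaf 6) (.leaf 115))))) (.sy c20x (.leaf 7) (.leaf 115)))) (.sy c23x (.leaf 116) (.sy c24x (.sx c22x (.leaf 8) (.sy c26x (.sy c18x (.leaf 9) (.leaf 118)) (.sy c27x (.leaf 10) (.sy c19x (.leaf 119) (.leaf 11))))) (.leaf 117))))) (.sx c37x (.sy c31x (.sx c34x (.sy c18x (.sx c28x (.sy c29x (.leaf 120) (.leaf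 12)) (.sy c35x (.leaf 124) (.leaf 15))) (.leaf 121)) (.leaf 126)) (.sy c32x (.leaf 13) (.sx c34x (.sy c19x (.leaf 122) (.sx c28x (.sy c33x (.leaf 14) (.leaf 123)) (.sy c36x (.leaf 16) (.leaf 125)))) (.leaf 127)))) (.sx c41x (.sy c31x (.sy c39x (.leaf 128) (.sx c38x (.sy c5x (.leaf 17) (.leaf 129)) (.sx c30x (.sy c14x (.leaf 19) (.leaf 132)) (.leaf 21)))) (.sy c40x (.sx c30x (.sy c32x (.leaf 13) (.sx c38x (.sy c6x (.leaf 130) (.leaf 18)) (.sy c15x (.leaf 133) (.leaf 20)))) (.leaf 21)) (.leaf 131))) (.sx c42x (.sy c11x (.leaf 134) (.sy c12x (.leaf 22) (.leaf 135))) (.sy c1x (.leaf 136) (.sx c43x (.sy c3x (.leaf 23) (.leaf 137)) (.sy c45x (.leaf 24) (.leaf 138)))))))) (.sx c60x (.sx c50x (.sx c46x (.sy c5x (.leaf 139) (.sy c47x (.leaf 25) (.leaf 140))) (.sx c48x (.sy c8x (.leaf 141) (.sy c49x (.leaf 26) (.leaf 142))) (.sy c11x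 (.leaf 143) (.sy c51x (.leaf 27) (.leaf 144))))) (.sx c57x (.sy c14x (.sx c52x (.leaf 145) (.sy c17x (.leaf 147) (.sx c54x (.sy c18x (.leaf 29) (.leaf 148)) (.leaf 32)))) (.sx c54x (.sy c53x (.sx c52x (.leaf 28) (.sy c55x (.leaf 30) (.sy c56x (.leaf 149) (.leaf 31)))) (.leaf 146)) (.sy c55x (.leaf 32) (.leaf 150)))) (.sy c59x (.sy c23x (.leaf 151) (.sx c58x (.leaf 33) (.sy c18x (.leaf 34) (.sy c26x (.leaf 153) (.leaf 35))))) (.sx c58x (.leaf 152) (.sy c56x (.leaf 154) (.sy c61x (.leaf 36) (.leaf 155))))))) (.sx c67x (.sy c31x (.sx c64x (.sy c18x (.sx c62x (.sy c29x (.leaf 156) (.leaf 37)) (.sy c35x (.leaf 160) (.leaf 40))) (.leaf 157)) (.leaf 162)) (.sy c65x (.sx c64x (.sy c56x (.sx c62x (.sy c63x (.leaf 38) (.leaf 158)) (.sy c66x (.leaf 41) (.leaf 161))) (.leaf 39)) (.leaf 42)) (.leaf 159))) (.sx c71x (.sy c70x (.sy c39x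 (.leaf 163) (.sx c69x (.sy c31x (.sx c68x (.sy c5x (.leaf 43) (.leaf 164)) (.sy c14x (.leaf 46) (.leaf 166))) (.leaf 44)) (.leaf 48))) (.sx c69x (.sy c65x (.sx c68x (.sy c47x (.leaf 165) (.leaf 45)) (.sy c53x (.leaf 167) (.leaf 47))) (.leaf 159)) (.leaf 168))) (.sx c72x (.sy c11x (.leaf 169) (.sy c51x (.leaf 49) (.leaf 170))) (.sy c1x (.leaf 171) (.sy c45x (.leaf 50) (.leaf 172)))))))) (.sx c102x (.sx c90x (.sx c80x (.sx c76x (.sx c74x (.sy c3x (.leaf 173) (.sy c75x (.leaf 51) (.leaf 174))) (.sy c6x (.leaf 175) (.sy c77x (.leaf 52) (.leaf 176)))) (.sx c78x (.sy c9x (.leaf 177) (.sy c79x (.leaf 53) (.leaf 178))) (.sy c12x (.leaf 179) (.sy c81x (.leaf 54) (.leaf 180))))) (.sx c87x (.sy c83x (.sx c84x (.sy c15x (.leaf 181) (.sx c82x (.leaf 55) (.sy c19x (.leaf 56) (.sy c20x (.leaf 183) (.leaf 57))))) (.sy c20x (.leaf 186) (.leaf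 59))) (.sx c82x (.leaf 182) (.sy c86x (.sx c84x (.sy c85x (.leaf 184) (.leaf 58)) (.leaf 59)) (.leaf 185)))) (.sy c24x (.sx c88x (.leaf 187) (.sy c27x (.leaf 189) (.sy c19x (.leaf 61) (.leaf 190)))) (.sy c89x (.sx c88x (.leaf 60) (.sy c91x (.leaf 62) (.sy c85x (.leaf 191) (.leaf 63)))) (.leaf 188))))) (.sx c97x (.sy c94x (.sy c32x (.leaf 192) (.sx c92x (.sy c19x (.leaf 64) (.sx c93x (.sy c33x (.leaf 193) (.leaf 65)) (.sy c36x (.leaf 196) (.leaf 67)))) (.leaf 69))) (.sx c92x (.sy c85x (.leaf 194) (.sx c93x (.sy c95x (.leaf 66) (.leaf 195)) (.sy c96x (.leaf 68) (.leaf 197)))) (.leaf 198))) (.sy c40x (.sx c99x (.sy c32x (.leaf 192) (.sx c98x (.sy c6x (.leaf 70) (.leaf 199)) (.sy c15x (.leaf 73) (.leaf 202)))) (.sx c101x (.leaf 204) (.sy c12x (.leaf 205) (.leaf 76)))) (.sx c101x (.sy c100x (.sx c99x (.sy c94x (.leaf 71) (.sx c98x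 (.sy c77x (.leaf 200) (.leaf 72)) (.sy c83x (.leaf 203) (.leaf 74)))) (.leaf 75)) (.leaf 201)) (.sy c81x (.leaf 76) (.leaf 206)))))) (.sx c112x (.sx c107x (.sx c105x (.sx c104x (.sy c75x (.sx c103x (.sy c3x (.leaf 207) (.leaf 77)) (.sy c45x (.leaf 209) (.leaf 78))) (.leaf 208)) (.sy c47x (.leaf 210) (.sy c77x (.leaf 79) (.leaf 211)))) (.sx c106x (.sy c49x (.leaf 212) (.sy c79x (.leaf 80) (.leaf 213))) (.sy c51x (.leaf 214) (.sy c81x (.leaf 81) (.leaf 215))))) (.sx c110x (.sy c53x (.sx c109x (.leaf 216) (.sy c55x (.leaf 218) (.sx c108x (.sy c56x (.leaf 83) (.leaf 219)) (.leaf 85)))) (.sx c108x (.sy c83x (.leaf 82) (.sx c109x (.leaf 217) (.sy c85x (.leaf 220) (.sy c86x (.leaf 84) (.leaf 221))))) (.sy c86x (.leaf 85) (.leaf 221)))) (.sy c59x (.leaf 222) (.sy c89x (.sx c111x (.leaf 86) (.sy c61x (.sy c56x (.leaf 87) (.leaf 224))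 (.sy c91x (.leaf 88) (.sy c85x (.leaf 225) (.leaf 89))))) (.leaf 223))))) (.sx c116x (.sy c65x (.sx c115x (.sy c56x (.sx c113x (.sy c63x (.leaf 226) (.leaf 90)) (.sy c66x (.leaf 230) (.leaf 93))) (.leaf 227)) (.leaf 232)) (.sy c94x (.leaf 91) (.sx c115x (.sy c85x (.leaf 228) (.sx c113x (.sy c95x (.leaf 92) (.leaf 229)) (.sy c96x (.leaf 94) (.leaf 231)))) (.leaf 233)))) (.sx c118x (.sy c65x (.sy c70x (.leaf 234) (.sx c117x (.sy c47x (.leaf 95) (.leaf 235)) (.sx c114x (.sy c53x (.leaf 97) (.leaf 238)) (.leaf 99)))) (.sy c100x (.sx c114x (.sy c94x (.leaf 91) (.sx c117x (.sy c77x (.leaf 236) (.leaf 96)) (.sy c83x (.leaf 239) (.leaf 98)))) (.leaf 99)) (.leaf 237))) (.sx c119x (.sy c51x (.leaf 240) (.sy c81x (.leaf 100) (.leaf 241))) (.sx c120x (.sy c45x (.leaf 242) (.sy c75x (.leaf 101) (.leaf 243))) (.leaf 245)))))))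

def ow : List (Tr × Tr) := [
  (.leaf 0, .leaf 0),
  (.leaf 1, .leaf 0),
  (.leaf 1, .leaf 2),
  (.leaf 1, .leaf 4),
  (.leaf 2, .leaf 4),
  (.leaf 3, .leaf 4),
  (.leaf 3, .leaf 6),
  (.leaf 3, .leaf 8),
  (.leaf 4, .sx c16x (.leaf 8) (.leaf 11)),
  (.leaf 7, .leaf 11),
  (.leaf 5, .leaf 11),
  (.leaf 5, .leaf 8),
  (.sx c13x (.leaf 5) (.leaf 7), .leaf 10),
  (.leaf 8, .leaf 10),
  (.sx c22x (.leaf 8) (.leaf 9), .leaf 14),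
  (.leaf 12, .leaf 14),
  (.leaf 12, .leaf 18),
  (.leaf 12, .leaf 22),
  (.leaf 15, .leaf 22),
  (.leaf 15, .leaf 24),
  (.sx c25x (.leaf 9) (.sx c28x (.leaf 12) (.leaf 15)), .sx c25x (.leaf 16) (.leaf 19)),
  (.leaf 8, .leaf 16),
  (.leaf 10, .leaf 16),
  (.leaf 13, .leaf 16),
  (.leaf 13, .sx c37x (.sx c34x (.leaf 19) (.leaf 24)) (.sx c38x (.leaf 27) (.leaf 30))),
  (.leaf 21, .leaf 30),
  (.leaf 19, .leaf 30),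
  (.leaf 19, .leaf 27),
  (.leaf 17, .leaf 27),
  (.leaf 17, .leaf 24),
  (.sx c38x (.leaf 17) (.sx c30x (.leaf 19) (.leaf 21)), .leaf 26),
  (.leaf 21, .leaf 32),
  (.leaf 22, .leaf 32),
  (.leaf 23, .leaf 32),
  (.sx c43x (.leaf 23) (.leaf 24), .leaf 34),
  (.leaf 25, .leaf 34),
  (.leaf 25, .leaf 37),
  (.leaf 25, .leaf 39),
  (.leaf 26, .leaf 39),
  (.leaf 27, .leaf 39),
  (.leaf 27, .leaf 41),
  (.leaf 27, .leaf 43),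
  (.sx c52x (.leaf 28) (.leaf 30), .sx c52x (.leaf 43) (.leaf 46)),
  (.leaf 32, .leaf 46),
  (.leaf 29, .leaf 46),
  (.leaf 29, .leaf 43),
  (.sx c54x (.leaf 29) (.leaf 32), .leaf 45),
  (.leaf 33, .leaf 45),
  (.sx c58x (.leaf 33) (.leaf 34), .leaf 49),
  (.leaf 37, .leaf 49),
  (.leaf 37, .leaf 54),
  (.leaf 37, .leaf 58),
  (.leaf 40, .leaf 58),
  (.leaf 40, .leaf 60),
  (.sx c60x (.leaf 34) (.sx c62x (.leaf 37) (.leaf 40)), .sx c60x (.leaf 51) (.leaf 55)),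
  (.leaf 33, .leaf 51),
  (.leaf 35, .leaf 51),
  (.leaf 38, .leaf 51),
  (.sx c64x (.sx c62x (.leaf 38) (.leaf 41)) (.sx c67x (.leaf 42) (.leaf 44)), .sx c67x (.sx c64x (.leaf 55) (.leaf 60)) (.sx c68x (.leaf 62) (.leaf 64))),
  (.leaf 48, .leaf 64),
  (.leaf 46, .leaf 64),
  (.leaf 46, .leaf 62),
  (.leaf 43, .leaf 62),
  (.leaf 43, .leaf 60),
  (.sx c68x (.leaf 43) (.sx c69x (.leaf 46) (.leaf 48)), .leaf 61),
  (.leaf 48, .leaf 67),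
  (.leaf 49, .leaf 67),
  (.leaf 50, .leaf 67),
  (.leaf 50, .leaf 69),
  (.leaf 50, .leaf 71),
  (.leaf 51, .leaf 71),
  (.leaf 51, .leaf 73),
  (.leaf 52, .leaf 73),
  (.leaf 53, .leaf 73),
  (.leaf 53, .leaf 75),
  (.leaf 53, .leaf 77),
  (.leaf 54, .leaf 77),
  (.leaf 55, .leaf 77),
  (.sx c82x (.leaf 55) (.leaf 56), .leaf 79),
  (.leaf 56, .leaf 84),
  (.leaf 56, .leaf 81),
  (.leaf 55, .leaf 81),
  (.sx c84x (.leaf 57) (.leaf 59), .sx c84x (.leaf 81) (.leaf 84)),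
  (.leaf 59, .leaf 85),
  (.sx c88x (.leaf 60) (.leaf 62), .sx c88x (.leaf 85) (.leaf 88)),
  (.leaf 62, .leaf 91),
  (.leaf 65, .leaf 91),
  (.leaf 67, .leaf 91),
  (.leaf 67, .leaf 94),
  (.leaf 69, .leaf 94),
  (.sx c90x (.leaf 61) (.leaf 64), .sx c90x (.leaf 88) (.sx c93x (.leaf 91) (.leaf 94))),
  (.leaf 61, .leaf 85),
  (.leaf 61, .leaf 87),
  (.leaf 61, .leaf 90),
  (.sx c97x (.sx c92x (.leaf 64) (.leaf 69)) (.sx c98x (.leaf 70) (.leaf 73)), .leaf 90),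
  (.leaf 73, .leaf 102),
  (.leaf 73, .leaf 100),
  (.leaf 70, .leaf 100),
  (.leaf 70, .leaf 97),
  (.leaf 69, .leaf 97),
  (.sx c99x (.leaf 71) (.leaf 75), .sx c98x (.leaf 97) (.sx c99x (.leaf 100) (.leaf 102))),
  (.leaf 76, .leaf 102),
  (.leaf 76, .leaf 103),
  (.leaf 76, .leaf 105),
  (.leaf 77, .leaf 105),
  (.leaf 77, .leaf 107),
  (.leaf 78, .leaf 107),
  (.leaf 79, .leaf 107),
  (.leaf 79, .leaf 108),
  (.leaf 79, .leaf 110),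
  (.leaf 80, .leaf 110),
  (.leaf 81, .leaf 110),
  (.leaf 81, .leaf 112),
  (.leaf 81, .leaf 114),
  (.leaf 82, .sx c109x (.leaf 114) (.leaf 117)),
  (.leaf 85, .leaf 117),
  (.leaf 83, .leaf 117),
  (.leaf 83, .leaf 114),
  (.sx c108x (.leaf 83) (.leaf 85), .leaf 116),
  (.leaf 86, .leaf 116),
  (.sx c111x (.leaf 86) (.leaf 87), .leaf 120),
  (.leaf 90, .leaf 120),
  (.leaf 90, .leaf 124),
  (.leaf 90, .leaf 128),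
  (.leaf 93, .leaf 128),
  (.leaf 93, .leaf 130),
  (.sx c112x (.leaf 87) (.sx c113x (.leaf 90) (.leaf 93)), .sx c112x (.leaf 122) (.leaf 125)),
  (.leaf 86, .leaf 122),
  (.leaf 88, .leaf 122),
  (.leaf 91, .leaf 122),
  (.leaf 91, .sx c116x (.sx c115x (.leaf 125) (.leaf 130)) (.sx c117x (.leaf 133) (.leaf 136))),
  (.leaf 99, .leaf 136),
  (.leaf 97, .leaf 136),
  (.leaf 97, .leaf 133),
  (.leaf 95, .leaf 133),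
  (.leaf 95, .leaf 130),
  (.sx c117x (.leaf 95) (.sx c114x (.leaf 97) (.leaf 99)), .leaf 132),
  (.leaf 99, .leaf 138),
  (.leaf 100, .leaf 138),
  (.leaf 101, .leaf 138),
  (.leaf 101, .leaf 140),
  (.leaf 101, .leaf 143),
  (.leaf 101, .leaf 141),
  (.leaf 101, .leaf 139),
  (.leaf 100, .leaf 139),
  (.leaf 99, .leaf 139),
  (.sx c117x (.leaf 96) (.sx c114x (.leaf 98) (.leaf 99)), .leaf 135),
  (.leaf 96, .leaf 131),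
  (.leaf 96, .leaf 134),
  (.leaf 98, .leaf 134),
  (.leaf 98, .leaf 137),
  (.leaf 99, .leaf 137),
  (.leaf 91, .sx c116x (.sx c115x (.leaf 126) (.leaf 131)) (.sx c117x (.leaf 134) (.leaf 137))),
  (.leaf 91, .leaf 123),
  (.leaf 88, .leaf 123),
  (.leaf 86, .leaf 123),
  (.sx c112x (.leaf 89) (.sx c113x (.leaf 92) (.leaf 94)), .sx c112x (.leaf 123) (.leaf 126)),
  (.leaf 94, .leaf 131),
  (.leaf 94, .leaf 129),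
  (.leaf 92, .leaf 129),
  (.leaf 92, .leaf 127),
  (.leaf 92, .leaf 121),
  (.sx c111x (.leaf 86) (.leaf 89), .leaf 121),
  (.leaf 86, .leaf 119),
  (.sx c108x (.leaf 84) (.leaf 85), .leaf 119),
  (.leaf 84, .leaf 115),
  (.leaf 84, .leaf 118),
  (.leaf 85, .leaf 118),
  (.leaf 82, .sx c109x (.leaf 115) (.leaf 118)),
  (.leaf 81, .leaf 115),
  (.leaf 81, .leaf 113),
  (.leaf 81, .leaf 111),
  (.leaf 80, .leaf 111),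
  (.leaf 79, .leaf 111),
  (.leaf 79, .leaf 109),
  (.leaf 79, .leaf 106),
  (.sx c103x (.leaf 77) (.leaf 78), .leaf 106),
  (.leaf 77, .leaf 104),
  (.leaf 76, .leaf 104),
  (.leaf 75, .leaf 104),
  (.sx c98x (.leaf 72) (.sx c99x (.leaf 74) (.leaf 75)), .leaf 99),
  (.leaf 72, .leaf 96),
  (.leaf 72, .leaf 98),
  (.leaf 74, .leaf 98),
  (.leaf 74, .leaf 101),
  (.leaf 75, .leaf 101),
  (.sx c92x (.sx c93x (.leaf 65) (.leaf 67)) (.sx c97x (.leaf 69) (.leaf 71)), .sx c97x (.sx c92x (.leaf 92) (.leaf 96)) (.sx c98x (.leaf 98) (.leaf 101))),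
  (.leaf 65, .leaf 89),
  (.leaf 62, .leaf 89),
  (.leaf 60, .leaf 89),
  (.sx c90x (.leaf 63) (.sx c93x (.leaf 66) (.leaf 68)), .sx c90x (.leaf 89) (.leaf 92)),
  (.leaf 68, .leaf 96),
  (.leaf 68, .leaf 95),
  (.leaf 66, .leaf 95),
  (.leaf 66, .leaf 93),
  (.leaf 66, .leaf 86),
  (.sx c88x (.leaf 60) (.leaf 63), .leaf 86),
  (.leaf 60, .leaf 83),
  (.sx c84x (.leaf 58) (.leaf 59), .leaf 83),
  (.leaf 58, .leaf 80),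
  (.leaf 58, .leaf 82),
  (.leaf 59, .leaf 82),
  (.sx c82x (.leaf 55) (.leaf 57), .sx c82x (.leaf 80) (.leaf 82)),
  (.leaf 54, .leaf 80),
  (.leaf 54, .leaf 78),
  (.leaf 54, .leaf 76),
  (.leaf 53, .leaf 76),
  (.leaf 52, .leaf 76),
  (.leaf 52, .leaf 74),
  (.leaf 52, .leaf 72),
  (.leaf 51, .leaf 72),
  (.leaf 51, .leaf 70),
  (.leaf 50, .leaf 70),
  (.leaf 49, .leaf 70),
  (.leaf 49, .leaf 68),
  (.leaf 49, .leaf 66),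
  (.sx c69x (.leaf 44) (.leaf 48), .sx c68x (.leaf 63) (.sx c69x (.leaf 65) (.leaf 66))),
  (.leaf 42, .leaf 63),
  (.leaf 45, .leaf 63),
  (.leaf 45, .leaf 65),
  (.leaf 47, .leaf 65),
  (.leaf 47, .leaf 66),
  (.sx c67x (.sx c64x (.leaf 39) (.leaf 42)) (.sx c68x (.leaf 45) (.leaf 47)), .leaf 57),
  (.leaf 36, .leaf 57),
  (.leaf 36, .leaf 53),
  (.leaf 36, .leaf 50),
  (.sx c60x (.leaf 36) (.leaf 39), .sx c60x (.leaf 52) (.sx c62x (.leaf 56) (.leaf 59))),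
  (.leaf 42, .leaf 59),
  (.leaf 41, .leaf 59),
  (.leaf 41, .leaf 56),
  (.leaf 38, .leaf 56),
  (.leaf 35, .leaf 56),
  (.sx c58x (.leaf 33) (.leaf 35), .sx c58x (.leaf 50) (.leaf 52)),
  (.leaf 32, .leaf 50),
  (.sx c54x (.leaf 30) (.leaf 32), .sx c54x (.leaf 47) (.leaf 48)),
  (.leaf 28, .leaf 47),
  (.leaf 31, .leaf 47),
  (.leaf 31, .leaf 48),
  (.sx c52x (.leaf 28) (.leaf 31), .leaf 44),
  (.leaf 28, .leaf 42),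
  (.leaf 27, .leaf 42),
  (.leaf 26, .leaf 42),
  (.leaf 26, .leaf 40),
  (.leaf 26, .leaf 38),
  (.leaf 25, .leaf 38),
  (.leaf 24, .leaf 38),
  (.leaf 24, .leaf 36),
  (.leaf 24, .leaf 35),
  (.leaf 23, .leaf 35),
  (.leaf 23, .leaf 33),
  (.leaf 22, .leaf 33),
  (.leaf 21, .leaf 33),
  (.sx c38x (.leaf 18) (.sx c30x (.leaf 20) (.leaf 21)), .leaf 29),
  (.leaf 18, .leaf 25),
  (.leaf 18, .leaf 28),
  (.leaf 20, .leaf 28),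
  (.leaf 20, .leaf 31),
  (.leaf 21, .leaf 31),
  (.leaf 13, .sx c37x (.sx c34x (.leaf 20) (.leaf 25)) (.sx c38x (.leaf 28) (.leaf 31))),
  (.leaf 13, .leaf 17),
  (.leaf 10, .leaf 17),
  (.leaf 8, .leaf 17),
  (.sx c25x (.leaf 11) (.sx c28x (.leaf 14) (.leaf 16)), .sx c25x (.leaf 17) (.leaf 20)),
  (.leaf 16, .leaf 25),
  (.leaf 16, .leaf 23),
  (.leaf 14, .leaf 23),
  (.leaf 14, .leaf 21),
  (.leaf 14, .leaf 15),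
  (.sx c22x (.leaf 8) (.leaf 11), .leaf 15),
  (.leaf 8, .leaf 13),
  (.sx c13x (.leaf 6) (.leaf 7), .leaf 13),
  (.leaf 6, .leaf 9),
  (.leaf 6, .leaf 12),
  (.leaf 7, .leaf 12),
  (.leaf 4, .sx c16x (.leaf 9) (.leaf 12)),
  (.leaf 3, .leaf 9),
  (.leaf 3, .leaf 7),
  (.leaf 3, .leaf 5),
  (.leaf 2, .leaf 5),
  (.leaf 1, .leaf 5),
  (.leaf 1, .leaf 3),
  (.leaf 1, .leaf 1),
  (.leaf 0, .leaf 1),
  (.leaf 0, .leaf 142)]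

def poly : PolyData := ⟨cs, qs, tr, es, vs, ow⟩

end Pool.Agent.Box3
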