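import Pool.Agent.Box3.PartD
import Pool.Agent.Box3.BBT
import Pool.Agent.Box3.Dec
set_option linter.all false
set_option autoImplicit false

/-!
The pair check organised along a tree of bounding boxes.
-/

namespace Pool.Agent.Box3

/-- a tree of pieces; every node carries a rectangle containing its pieces and a box containing
their images -/
inductive PT where
  | leaf (r : R) (m : B3) (l : List PB)
  | node (r : R) (m : B3) (s t : PT)

def PT.r : PT → R
  | .leaf r _ _ => r
  | .node r _ _ _ => r

def PT.m : PT → B3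
  | .leaf _ m _ => m
  | .node _ m _ _ => m

def PT.list : PT → List PB
  | .leaf _ _ l => l
  | .node _ _ s t => s.list ++ t.list

def PT.valid : PT → Bool
  | .leaf r m l => l.all (fun c => c.p.q.sub r && c.p.img.sub m)
  | .node r m s t => s.r.sub r && t.r.sub r && s.m.sub m && t.m.sub m && s.valid && t.valid

def crossLL (es : List R) (l l' : List PB) : Bool := l.all (fun c => l'.all (c.ok es))

def PT.crossL (es : List R) (r : R) (m : B3) (l : List PB) : PT → Bool
  | .leaf r' m' l' => (r.dj r' && m.dj m') || crossLL es l l'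
  | .node r' m' s t => (r.dj r' && m.dj m') || (s.crossL es r m l && t.crossL es r m l)

def PT.cross (es : List R) : PT → PT → Bool
  | .leaf r m l, t => t.crossL es r m l
  | .node r m s1 s2, t => (r.dj t.r && m.dj t.m) ||
      (match t with
        | .leaf r' m' l' => s1.cross es (.leaf r' m' l') && s2.cross es (.leaf r' m' l')
        | .node _ _ t1 t2 => s1.cross es t1 && s1.cross es t2 && s2.cross es t1 && s2.cross es t2)

def selfL (es : List R) : List PB → Bool
  | [] => true
  | c :: l => l.all (c.ok es) && selfL es l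

def PT.self (es : List R) : PT → Bool
  | .leaf _ _ l => selfL es l
  | .node _ _ s t => s.self es && t.self es && s.cross es t

namespace TR

theorem le_iff {l m : L} : l.le m = true ↔ l.a ≤ m.a ∧ l.b ≤ m.b ∧ l.c ≤ m.c := by
  simp only [L.le, Bool.and_eq_true, decide_eq_true_eq, and_assoc]

theorem lt_iff {l m : L} : l.lt m = true ↔
    (l.a ≤ m.a ∧ l.b ≤ m.b ∧ l.c ≤ m.c) ∧ ¬ (l.a = m.a ∧ l.b = m.b ∧ l.c = m.c) := by
  simp only [L.lt, L.le, L.eq, Bool.and_eq_true, Bool.not_eq_true', decide_eq_true_eq,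
    Bool.and_eq_false_iff, decide_eq_false_iff_not]
  omega

theorem le_trans' {l m n : L} (h1 : l.le m = true) (h2 : m.le n = true) : l.le n = true := by
  rw [le_iff] at *
  omega

theorem le_lt_le {l l' m m' : L} (h1 : l.le l' = true) (h : l'.lt m' = true)
    (h2 : m'.le m = true) : l.lt m = true := by
  rw [le_iff] at h1 h2
  rw [lt_iff] at h ⊢
  omega

theorem R.sub_iff {p q : R} : p.sub q = true ↔ q.x0.le p.x0 = true ∧ p.x1.le q.x1 = true ∧
    q.y0.le p.y0 = true ∧ p.y1.le q.y1 = true := by
  simp only [R.sub, Bool.and_eq_true, and_assoc]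

theorem R.sub_trans {p q r : R} (h1 : p.sub q = true) (h2 : q.sub r = true) : p.sub r = true := by
  rw [R.sub_iff] at *
  exact ⟨le_trans' h2.1 h1.1, le_trans' h1.2.1 h2.2.1, le_trans' h2.2.2.1 h1.2.2.1,
    le_trans' h1.2.2.2 h2.2.2.2⟩

theorem B3.sub_iff {m n : B3} : m.sub n = true ↔ n.l0.le m.l0 = true ∧ m.h0.le n.h0 = true ∧
    n.l1.le m.l1 = true ∧ m.h1.le n.h1 = true ∧ n.l2.le m.l2 = true ∧ m.h2.le n.h2 = true := by
  simp only [B3.sub, Bool.and_eq_true, and_assoc]

theorem B3.sub_trans {p q r : B3} (h1 : p.sub q = true) (h2 : q.sub r = true) :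
    p.sub r = true := by
  rw [B3.sub_iff] at *
  exact ⟨le_trans' h2.1 h1.1, le_trans' h1.2.1 h2.2.1, le_trans' h2.2.2.1 h1.2.2.1,
    le_trans' h1.2.2.2.1 h2.2.2.2.1, le_trans' h2.2.2.2.2.1 h1.2.2.2.2.1,
    le_trans' h1.2.2.2.2.2 h2.2.2.2.2.2⟩

theorem R.dj_mono {p p' q q' : R} (h1 : p.sub p' = true) (h2 : q.sub q' = true)
    (h : p'.dj q' = true) : p.dj q = true := by
  rw [R.sub_iff] at h1 h2
  simp only [R.dj, Bool.or_eq_true] at h ⊢
  rcases h with ((h | h) | h) | h
  · exact Or.inl (Or.inl (Or.inl (le_lt_le h1.2.1 h h2.1)))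
  · exact Or.inl (Or.inl (Or.inr (le_lt_le h2.2.1 h h1.1)))
  · exact Or.inl (Or.inr (le_lt_le h1.2.2.2 h h2.2.2.1))
  · exact Or.inr (le_lt_le h2.2.2.2 h h1.2.2.1)

theorem B3.dj_mono {p p' q q' : B3} (h1 : p.sub p' = true) (h2 : q.sub q' = true)
    (h : p'.dj q' = true) : p.dj q = true := by
  rw [B3.sub_iff] at h1 h2
  simp only [B3.dj, Bool.or_eq_true] at h ⊢
  rcases h with ((((h | h) | h) | h) | h) | h
  · exact Or.inl (Or.inl (Or.inl (Or.inl (Or.inl (le_lt_le h1.2.1 h h2.1)))))
  · exact Or.inl (Or.inl (Or.inl (Or.inl (Or.inr (le_lt_le h2.2.1 h h1.1)))))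
  · exact Or.inl (Or.inl (Or.inl (Or.inr (le_lt_le h1.2.2.2.1 h h2.2.2.1))))
  · exact Or.inl (Or.inl (Or.inr (le_lt_le h2.2.2.2.1 h h1.2.2.1)))
  · exact Or.inl (Or.inr (le_lt_le h1.2.2.2.2.2 h h2.2.2.2.2.1))
  · exact Or.inr (le_lt_le h2.2.2.2.2.2 h h1.2.2.2.2.1)

theorem ok_of_far {es : List R} {c d : PB} (h1 : c.p.q.dj d.p.q = true)
    (h2 : c.p.img.dj d.p.img = true) : c.ok es d = true := by
  simp only [PB.ok, Pc.agr, h1, h2, Bool.true_or, Bool.and_self]

theorem bound {T : PT} (h : T.valid = true) :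
    ∀ c ∈ T.list, c.p.q.sub T.r = true ∧ c.p.img.sub T.m = true := by
  induction T with
  | leaf r m l =>
    intro c hc
    have h' := List.all_eq_true.1 h c hc
    rw [Bool.and_eq_true] at h'
    exact h'
  | node r m s t ihs iht =>
    intro c hc
    simp only [PT.valid, Bool.and_eq_true] at h
    obtain ⟨⟨⟨⟨⟨h1, h2⟩, h3⟩, h4⟩, h5⟩, h6⟩ := h
    rcases List.mem_append.1 hc with hc | hc
    · obtain ⟨a, b⟩ := ihs h5 c hc
      exact ⟨R.sub_trans a h1, B3.sub_trans b h3⟩
    · obtain ⟨a, b⟩ := iht h6 c hc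
      exact ⟨R.sub_trans a h2, B3.sub_trans b h4⟩

theorem far_sound {es : List R} {r r' : R} {m m' : B3} (h : (r.dj r' && m.dj m') = true)
    {c d : PB} (hc : c.p.q.sub r = true ∧ c.p.img.sub m = true)
    (hd : d.p.q.sub r' = true ∧ d.p.img.sub m' = true) : c.ok es d = true := by
  simp only [Bool.and_eq_true] at h
  exact ok_of_far (R.dj_mono hc.1 hd.1 h.1) (B3.dj_mono hc.2 hd.2 h.2)

theorem crossL_sound {es : List R} {r : R} {m : B3} {l : List PB}
    (hl : ∀ c ∈ l, c.p.q.sub r = true ∧ c.p.img.sub m = true) :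
    ∀ t : PT, t.valid = true → t.crossL es r m l = true → ∀ c ∈ l, ∀ d ∈ t.list,
      c.ok es d = true := by
  intro t
  induction t with
  | leaf r' m' l' =>
    intro hv h c hc d hd
    simp only [PT.crossL, Bool.or_eq_true] at h
    rcases h with h | h
    · exact far_sound h (hl c hc) (bound hv d hd)
    · exact List.all_eq_true.1 (List.all_eq_true.1 h c hc) d hd
  | node r' m' s t ihs iht =>
    intro hv h c hc d hd
    have hv' := hv
    simp only [PT.valid, Bool.and_eq_true] at hv'
    obtain ⟨⟨-, h5⟩, h6⟩ := hv'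
    simp only [PT.crossL, Bool.or_eq_true] at h
    rcases h with h | h
    · exact far_sound h (hl c hc) (bound hv d hd)
    · simp only [Bool.and_eq_true] at h
      rcases List.mem_append.1 hd with hd | hd
      · exact ihs h5 h.1 c hc d hd
      · exact iht h6 h.2 c hc d hd

theorem cross_sound {es : List R} : ∀ s t : PT, s.valid = true → t.valid = true →
    s.cross es t = true → ∀ c ∈ s.list, ∀ d ∈ t.list, c.ok es d = true := by
  intro s
  induction s with
  | leaf r m l =>
    intro t hs ht h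
    exact crossL_sound (bound hs) t ht h
  | node r m s1 s2 ih1 ih2 =>
    intro t hs ht h c hc d hd
    have hs' := hs
    simp only [PT.valid, Bool.and_eq_true] at hs'
    obtain ⟨⟨-, h5⟩, h6⟩ := hs'
    cases t with
      | leaf r' m' l' =>
        simp only [PT.cross, Bool.or_eq_true] at h
        rcases h with h | h
        · exact far_sound h (bound hs c hc) (bound ht d hd)
        simp only [Bool.and_eq_true] at h
        rcases List.mem_append.1 hc with hc | hc
        · exact ih1 _ h5 ht h.1 c hc d hd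
        · exact ih2 _ h6 ht h.2 c hc d hd
      | node r' m' t1 t2 =>
        have ht' := ht
        simp only [PT.valid, Bool.and_eq_true] at ht'
        obtain ⟨⟨-, g5⟩, g6⟩ := ht'
        simp only [PT.cross, Bool.or_eq_true] at h
        rcases h with h | h
        · exact far_sound h (bound hs c hc) (bound ht d hd)
        simp only [Bool.and_eq_true] at h
        obtain ⟨⟨⟨k1, k2⟩, k3⟩, k4⟩ := h
        rcases List.mem_append.1 hc with hc | hc <;> rcases List.mem_append.1 hd with hd | hd
        · exact ih1 _ h5 g5 k1 c hc d hd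
        · exact ih1 _ h5 g6 k2 c hc d hd
        · exact ih2 _ h6 g5 k3 c hc d hd
        · exact ih2 _ h6 g6 k4 c hc d hd

theorem selfL_sound {es : List R} : ∀ l : List PB, selfL es l = true →
    l.Pairwise (fun c d => c.ok es d = true) := by
  intro l
  induction l with
  | nil => intro _; exact List.Pairwise.nil
  | cons c l ih =>
    intro h
    simp only [selfL, Bool.and_eq_true] at h
    exact List.pairwise_cons.2 ⟨fun d hd => List.all_eq_true.1 h.1 d hd, ih h.2⟩

theorem self_sound {es : List R} : ∀ T : PT, T.valid = true → T.self es = true →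
    T.list.Pairwise (fun c d => c.ok es d = true) := by
  intro T
  induction T with
  | leaf r m l => intro _ h; exact selfL_sound l h
  | node r m s t ihs iht =>
    intro hv h
    have hv' := hv
    simp only [PT.valid, Bool.and_eq_true] at hv'
    obtain ⟨⟨-, h5⟩, h6⟩ := hv'
    simp only [PT.self, Bool.and_eq_true] at h
    obtain ⟨⟨a, b⟩, c⟩ := h
    exact List.pairwise_append.2 ⟨ihs h5 a, iht h6 b, cross_sound s t h5 h6 c⟩

theorem rows_of_pairwise {es : List R} {ps : List PB}
    (h : ps.Pairwise (fun c d => c.ok es d = true)) (i : ℕ) : rowsOk es ps i 1 = true := by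
  have h2 : (ps.drop i).Pairwise (fun c d => c.ok es d = true) := h.sublist (List.drop_sublist i ps)
  simp only [rowsOk, Bool.and_true]
  split
  · rfl
  · rename_i p t he
    rw [he] at h2
    exact List.all_eq_true.2 (List.pairwise_cons.1 h2).1

end TR

/-- the checks on one box with the pair check organised along a tree -/
theorem box_of_tree (g : Fin 3 → ℝ) (hg : ∀ k, 0 < g k) (X : PolyData) (B : BoxData) (T : PT)
    (hT : T.list = B.ps)
    (hb : ∀ e ∈ X.es, ∀ p ∈ R.set g e, p ∉ interior (X.P g))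
    (h1 : B.ok1 X.cs = true) (h2 : B.ok2 X.cs = true) (h3 : B.ok3 X.cs = true)
    (h4 : B.ok4 = true) (hv : T.valid = true) (hs : T.self X.es = true) :
    FoldsInto (X.P g) (B.a.ev g) (B.b.ev g) (B.c.ev g) := by
  have hp := TR.self_sound T hv hs
  rw [hT] at hp
  exact box_of_data g hg X B hb h1 h2 h3 h4
    (fun i _ => ⟨i, 1, le_rfl, by omega, TR.rows_of_pairwise hp i⟩)

end Pool.Agent.Box3
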