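import Pool.Agent.Box3.Tree
set_option linter.all false
set_option autoImplicit false

/-!
The pair check along a tree of bounding boxes, second version: every piece is stored together with
a box containing its image, and the boundary edges are looked up in a tree.
-/

namespace Pool.Agent.Box3

/-- a tree of edges, the number is the size of the left subtree -/
inductive EX where
  | leaf (e : R)
  | node (k : ℕ) (s t : EX)

def EX.flat : EX → List R
  | .leaf e => [e]
  | .node _ s t => s.flat ++ t.flat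

def EX.get : EX → ℕ → R
  | .leaf e, _ => e
  | .node k s t, i => bif Nat.blt i k then s.get i else t.get (i - k)

/-- a piece and a box containing its image -/
structure PI where
  b : PB
  m : B3

def onBdX (T : EX) (bi : List ℕ) (r : R) : Bool := bi.any fun i => r.sub (T.get i)

def PI.ok (T : EX) (c d : PI) : Bool :=
  c.b.p.agr d.b.p &&
  (c.m.dj d.m ||
   (let D := c.m.cap d.m
    Pc.same D c.b.p d.b.p || (onBdX T c.b.bi (c.b.p.pre D) && onBdX T d.b.bi (d.b.p.pre D))))

/-- a tree of pieces; every node carries a rectangle containing its pieces and a box containing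
their images -/
inductive QT where
  | leaf (r : R) (m : B3) (l : List PI)
  | node (r : R) (m : B3) (s t : QT)

def QT.r : QT → R
  | .leaf r _ _ => r
  | .node r _ _ _ => r

def QT.m : QT → B3
  | .leaf _ m _ => m
  | .node _ m _ _ => m

def QT.list : QT → List PI
  | .leaf _ _ l => l
  | .node _ _ s t => s.list ++ t.list

def QT.valid : QT → Bool
  | .leaf r m l => l.all (fun c => c.b.p.q.sub r && c.b.p.img.sub c.m && c.m.sub m)
  | .node r m s t => s.r.sub r && t.r.sub r && s.m.sub m && t.m.sub m && s.valid && t.valid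

def crossQ (T : EX) (l l' : List PI) : Bool := l.all (fun c => l'.all (c.ok T))

def QT.crossL (T : EX) (r : R) (m : B3) (l : List PI) : QT → Bool
  | .leaf r' m' l' => (r.dj r' && m.dj m') || crossQ T l l'
  | .node r' m' s t => (r.dj r' && m.dj m') || (s.crossL T r m l && t.crossL T r m l)

def QT.cross (T : EX) : QT → QT → Bool
  | .leaf r m l, t => t.crossL T r m l
  | .node r m s1 s2, t => (r.dj t.r && m.dj t.m) ||
      (match t with
        | .leaf r' m' l' => s1.cross T (.leaf r' m' l') && s2.cross T (.leaf r' m' l')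
        | .node _ _ t1 t2 => s1.cross T t1 && s1.cross T t2 && s2.cross T t1 && s2.cross T t2)

def selfQ (T : EX) : List PI → Bool
  | [] => true
  | c :: l => l.all (c.ok T) && selfQ T l

def QT.self (T : EX) : QT → Bool
  | .leaf _ _ l => selfQ T l
  | .node _ _ s t => s.self T && t.self T && s.cross T t

namespace TB

/-- what the check of a pair gives -/
def Good (g : Fin 3 → ℝ) (P : Set Pl) (c d : PB) : Prop :=
  (∀ p, p ∈ R.set g c.p.q → p ∈ R.set g d.p.q → c.p.map g p = d.p.map g p) ∧
  ∀ p ∈ R.set g c.p.q, ∀ q ∈ R.set g d.p.q, c.p.map g p = d.p.map g q →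
    q = p ∨ (p ∉ interior P ∧ q ∉ interior P)

theorem get_mem (T : EX) : ∀ i, T.get i ∈ T.flat := by
  induction T with
  | leaf e => intro i; simp [EX.get, EX.flat]
  | node k s t ihs iht =>
    intro i
    simp only [EX.get, EX.flat, List.mem_append]
    cases Nat.blt i k
    · right; exact iht _
    · left; exact ihs _

theorem onBdX_sound {g : Fin 3 → ℝ} (hg : ∀ k, 0 < g k) {T : EX} {bi : List ℕ} {r : R}
    (h : onBdX T bi r = true) {p : Pl} (hp : p ∈ R.set g r) :
    ∃ e ∈ T.flat, p ∈ R.set g e := by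
  obtain ⟨i, -, hi⟩ := List.any_eq_true.1 h
  exact ⟨T.get i, get_mem T i, R.sub_sound hg hi hp⟩


theorem B3.sub_mem {g : Fin 3 → ℝ} (hg : ∀ k, 0 < g k) {m n : B3} (h : m.sub n = true) {w : Sp}
    (hm : m.mem g w) : n.mem g w := by
  rw [TR.B3.sub_iff] at h
  obtain ⟨h1, h2, h3, h4, h5, h6⟩ := h
  obtain ⟨⟨a1, a2⟩, ⟨a3, a4⟩, a5, a6⟩ := hm
  have e1 := L.le_ev hg h1
  have e2 := L.le_ev hg h2
  have e3 := L.le_ev hg h3
  have e4 := L.le_ev hg h4
  have e5 := L.le_ev hg h5
  have e6 := L.le_ev hg h6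
  exact ⟨⟨by linarith, by linarith⟩, ⟨by linarith, by linarith⟩, by linarith, by linarith⟩

/-- soundness of the check of one pair -/
theorem pair_soundX {g : Fin 3 → ℝ} (hg : ∀ k, 0 < g k) {T : EX} {P : Set Pl}
    (hb : ∀ e ∈ T.flat, ∀ p ∈ R.set g e, p ∉ interior P) {c d : PI} (hc : c.b.p.orth = true)
    (hd : d.b.p.orth = true) (mc : c.b.p.img.sub c.m = true) (md : d.b.p.img.sub d.m = true)
    (h : PI.ok T c d = true) : Good g P c.b d.b := by
  simp only [PI.ok, Bool.and_eq_true, Bool.or_eq_true] at h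
  obtain ⟨hag, hin⟩ := h
  refine ⟨fun p h1 h2 => Pc.agr_sound hg hag h1 h2, ?_⟩
  intro p hp q hq hpq
  have m1 := B3.sub_mem hg mc (Pc.map_mem_img (g := g) c.b.p hp)
  have m2 := B3.sub_mem hg md (Pc.map_mem_img (g := g) d.b.p hq)
  rw [← hpq] at m2
  rcases hin with h | h | ⟨h1, h2⟩
  · exact (B3.dj_sound hg h m1 m2).elim
  · exact Or.inl (Pc.same_sound hc hd h hpq (B3.cap_sound m1 m2))
  · right
    have hD := B3.cap_sound m1 m2
    refine ⟨?_, ?_⟩
    · obtain ⟨e, he, hx⟩ := onBdX_sound hg h1 (Pc.pre_sound hc hD)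
      exact hb e he p hx
    · have hD' := hD
      rw [hpq] at hD'
      obtain ⟨e, he, hx⟩ := onBdX_sound hg h2 (Pc.pre_sound hd hD')
      exact hb e he q hx

theorem far_good {g : Fin 3 → ℝ} (hg : ∀ k, 0 < g k) {P : Set Pl} {c d : PB}
    (h1 : c.p.q.dj d.p.q = true) (h2 : c.p.img.dj d.p.img = true) : Good g P c d := by
  refine ⟨fun p hp hq => (R.dj_sound hg h1 hp hq).elim, ?_⟩
  intro p hp q hq hpq
  have m1 := Pc.map_mem_img (g := g) c.p hp
  have m2 := Pc.map_mem_img (g := g) d.p hq
  rw [← hpq] at m2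
  exact (B3.dj_sound hg h2 m1 m2).elim

/-- the data of one stored piece are right and lie within given bounds -/
def In (r : R) (m : B3) (c : PI) : Prop :=
  c.b.p.q.sub r = true ∧ c.b.p.img.sub c.m = true ∧ c.m.sub m = true

theorem bound {T : QT} (h : T.valid = true) : ∀ c ∈ T.list, In T.r T.m c := by
  induction T with
  | leaf r m l =>
    intro c hc
    have h' := List.all_eq_true.1 h c hc
    simp only [Bool.and_eq_true] at h'
    exact ⟨h'.1.1, h'.1.2, h'.2⟩
  | node r m s t ihs iht =>
    intro c hc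
    simp only [QT.valid, Bool.and_eq_true] at h
    obtain ⟨⟨⟨⟨⟨h1, h2⟩, h3⟩, h4⟩, h5⟩, h6⟩ := h
    rcases List.mem_append.1 hc with hc | hc
    · obtain ⟨a, b, e⟩ := ihs h5 c hc
      exact ⟨TR.R.sub_trans a h1, b, TR.B3.sub_trans e h3⟩
    · obtain ⟨a, b, e⟩ := iht h6 c hc
      exact ⟨TR.R.sub_trans a h2, b, TR.B3.sub_trans e h4⟩

section
variable {g : Fin 3 → ℝ} (hg : ∀ k, 0 < g k) {T : EX} {P : Set Pl}
    (hb : ∀ e ∈ T.flat, ∀ p ∈ R.set g e, p ∉ interior P)
include hg

theorem far_sound {r r' : R} {m m' : B3} (h : (r.dj r' && m.dj m') = true)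
    {c d : PI} (hc : In r m c) (hd : In r' m' d) : Good g P c.b d.b := by
  simp only [Bool.and_eq_true] at h
  exact far_good hg (TR.R.dj_mono hc.1 hd.1 h.1)
    (TR.B3.dj_mono (TR.B3.sub_trans hc.2.1 hc.2.2) (TR.B3.sub_trans hd.2.1 hd.2.2) h.2)

include hb

theorem crossL_sound {r : R} {m : B3} {l : List PI} (hl : ∀ c ∈ l, In r m c)
    (ho : ∀ c ∈ l, c.b.p.orth = true) :
    ∀ t : QT, t.valid = true → (∀ c ∈ t.list, c.b.p.orth = true) → t.crossL T r m l = true →
      ∀ c ∈ l, ∀ d ∈ t.list, Good g P c.b d.b := by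
  intro t
  induction t with
  | leaf r' m' l' =>
    intro hv hot h c hc d hd
    simp only [QT.crossL, Bool.or_eq_true] at h
    rcases h with h | h
    · exact far_sound hg h (hl c hc) (bound hv d hd)
    · exact pair_soundX hg hb (ho c hc) (hot d hd) (hl c hc).2.1 (bound hv d hd).2.1
        (List.all_eq_true.1 (List.all_eq_true.1 h c hc) d hd)
  | node r' m' s t ihs iht =>
    intro hv hot h c hc d hd
    have hv' := hv
    simp only [QT.valid, Bool.and_eq_true] at hv'
    obtain ⟨⟨-, h5⟩, h6⟩ := hv'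
    simp only [QT.crossL, Bool.or_eq_true] at h
    rcases h with h | h
    · exact far_sound hg h (hl c hc) (bound hv d hd)
    · simp only [Bool.and_eq_true] at h
      rcases List.mem_append.1 hd with hd | hd
      · exact ihs h5 (fun c hc => hot c (List.mem_append_left _ hc)) h.1 c hc d hd
      · exact iht h6 (fun c hc => hot c (List.mem_append_right _ hc)) h.2 c hc d hd

theorem cross_sound : ∀ s t : QT, s.valid = true → t.valid = true →
    (∀ c ∈ s.list, c.b.p.orth = true) → (∀ c ∈ t.list, c.b.p.orth = true) →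
    s.cross T t = true → ∀ c ∈ s.list, ∀ d ∈ t.list, Good g P c.b d.b := by
  intro s
  induction s with
  | leaf r m l =>
    intro t hs ht os ot h
    exact crossL_sound hg hb (bound hs) os t ht ot h
  | node r m s1 s2 ih1 ih2 =>
    intro t hs ht os ot h c hc d hd
    have hs' := hs
    simp only [QT.valid, Bool.and_eq_true] at hs'
    obtain ⟨⟨-, h5⟩, h6⟩ := hs'
    have o1 : ∀ c ∈ s1.list, c.b.p.orth = true := fun c hc => os c (List.mem_append_left _ hc)
    have o2 : ∀ c ∈ s2.list, c.b.p.orth = true := fun c hc => os c (List.mem_append_right _ hc)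
    cases t with
    | leaf r' m' l' =>
      simp only [QT.cross, Bool.or_eq_true] at h
      rcases h with h | h
      · exact far_sound hg h (bound hs c hc) (bound ht d hd)
      simp only [Bool.and_eq_true] at h
      rcases List.mem_append.1 hc with hc | hc
      · exact ih1 _ h5 ht o1 ot h.1 c hc d hd
      · exact ih2 _ h6 ht o2 ot h.2 c hc d hd
    | node r' m' t1 t2 =>
      have ht' := ht
      simp only [QT.valid, Bool.and_eq_true] at ht'
      obtain ⟨⟨-, g5⟩, g6⟩ := ht'
      have q1 : ∀ c ∈ t1.list, c.b.p.orth = true := fun c hc => ot c (List.mem_append_left _ hc)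
      have q2 : ∀ c ∈ t2.list, c.b.p.orth = true := fun c hc => ot c (List.mem_append_right _ hc)
      simp only [QT.cross, Bool.or_eq_true] at h
      rcases h with h | h
      · exact far_sound hg h (bound hs c hc) (bound ht d hd)
      simp only [Bool.and_eq_true] at h
      obtain ⟨⟨⟨k1, k2⟩, k3⟩, k4⟩ := h
      rcases List.mem_append.1 hc with hc | hc <;> rcases List.mem_append.1 hd with hd | hd
      · exact ih1 _ h5 g5 o1 q1 k1 c hc d hd
      · exact ih1 _ h5 g6 o1 q2 k2 c hc d hd
      · exact ih2 _ h6 g5 o2 q1 k3 c hc d hd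
      · exact ih2 _ h6 g6 o2 q2 k4 c hc d hd

theorem selfQ_sound : ∀ l : List PI, (∀ c ∈ l, c.b.p.orth = true) →
    (∀ c ∈ l, c.b.p.img.sub c.m = true) → selfQ T l = true →
    l.Pairwise (fun c d => Good g P c.b d.b) := by
  intro l
  induction l with
  | nil => intro _ _ _; exact List.Pairwise.nil
  | cons c l ih =>
    intro ho hm h
    simp only [selfQ, Bool.and_eq_true] at h
    refine List.pairwise_cons.2 ⟨fun d hd => ?_, ih (fun c hc => ho c (List.mem_cons_of_mem _ hc))
      (fun c hc => hm c (List.mem_cons_of_mem _ hc)) h.2⟩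
    exact pair_soundX hg hb (ho c List.mem_cons_self) (ho d (List.mem_cons_of_mem _ hd))
      (hm c List.mem_cons_self) (hm d (List.mem_cons_of_mem _ hd)) (List.all_eq_true.1 h.1 d hd)

theorem self_sound : ∀ S : QT, S.valid = true → (∀ c ∈ S.list, c.b.p.orth = true) →
    S.self T = true → S.list.Pairwise (fun c d => Good g P c.b d.b) := by
  intro S
  induction S with
  | leaf r m l => intro hv ho h; exact selfQ_sound hg hb l ho (fun c hc => (bound hv c hc).2.1) h
  | node r m s t ihs iht =>
    intro hv ho h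
    have hv' := hv
    simp only [QT.valid, Bool.and_eq_true] at hv'
    obtain ⟨⟨-, h5⟩, h6⟩ := hv'
    have o1 : ∀ c ∈ s.list, c.b.p.orth = true := fun c hc => ho c (List.mem_append_left _ hc)
    have o2 : ∀ c ∈ t.list, c.b.p.orth = true := fun c hc => ho c (List.mem_append_right _ hc)
    simp only [QT.self, Bool.and_eq_true] at h
    obtain ⟨⟨a, b⟩, c⟩ := h
    exact List.pairwise_append.2 ⟨ihs h5 o1 a, iht h6 o2 b, cross_sound hg hb s t h5 h6 o1 o2 c⟩

end

theorem Good.symm {g : Fin 3 → ℝ} {P : Set Pl} {c d : PB} (h : Good g P c d) : Good g P d c :=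
  ⟨fun p h1 h2 => (h.1 p h2 h1).symm, fun p hp q hq e => by
    rcases h.2 q hq p hp e.symm with h | h
    · exact Or.inl h.symm
    · exact Or.inr ⟨h.2, h.1⟩⟩

/-- agreement and injectivity for all pairs of pieces -/
theorem pairs_good (g : Fin 3 → ℝ) (P : Set Pl) (ps : List PB)
    (ho : ∀ c ∈ ps, c.p.orth = true) (hr : ps.Pairwise (Good g P)) :
    (∀ i j : Fin ps.length, ∀ p, p ∈ R.set g ps[i].p.q → p ∈ R.set g ps[j].p.q →
      ps[i].p.map g p = ps[j].p.map g p) ∧
    ∀ i j : Fin ps.length, ∀ p ∈ R.set g ps[i].p.q, ∀ q ∈ R.set g ps[j].p.q,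
      ps[i].p.map g p = ps[j].p.map g q → q = p ∨ p ∉ interior P := by
  have key : ∀ i j : Fin ps.length, i ≠ j → Good g P ps[i] ps[j] := by
    intro i j hij
    rw [List.pairwise_iff_getElem] at hr
    rcases lt_or_gt_of_ne (fun h => hij (Fin.ext h) : i.1 ≠ j.1) with h | h
    · exact hr i.1 j.1 i.2 j.2 h
    · exact (hr j.1 i.1 j.2 i.2 h).symm
  have ho' : ∀ i : Fin ps.length, ps[i].p.orth = true := fun i => ho _ (List.getElem_mem _)
  constructor
  · intro i j p hi hj
    by_cases h : i = j
    · rw [h]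
    · exact (key i j h).1 p hi hj
  · intro i j p hp q hq hpq
    by_cases h : i = j
    · subst h
      left
      obtain ⟨p0, p1⟩ := Pc.inv (g := g) (ho' i) p
      obtain ⟨q0, q1⟩ := Pc.inv (g := g) (ho' i) q
      rw [← hpq] at q0 q1
      exact Pl.ext (by rw [q0, ← p0]) (by rw [q1, ← p1])
    · exact ((key i j h).2 p hp q hq hpq).imp id fun h => h.1

end TB

/-- the checks on one box with the pair check organised along a tree -/
theorem box_of_treeB (g : Fin 3 → ℝ) (hg : ∀ k, 0 < g k) (X : PolyData) (B : BoxData) (S : QT)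
    (E : EX) (hE : E.flat = X.es) (hT : S.list.map PI.b = B.ps)
    (hb : ∀ e ∈ X.es, ∀ p ∈ R.set g e, p ∉ interior (X.P g))
    (h1 : B.ok1 X.cs = true) (h2 : B.ok2 X.cs = true) (h3 : B.ok3 X.cs = true)
    (h4 : B.ok4 = true) (hv : S.valid = true) (hs : S.self E = true) :
    FoldsInto (X.P g) (B.a.ev g) (B.b.ev g) (B.c.ev g) := by
  have ho : ∀ c ∈ B.ps, c.p.orth = true ∧ c.p.inSurf B.a B.b B.c = true := by
    intro c hc
    have h := List.all_eq_true.1 h1 c hc
    simpa only [Bool.and_eq_true] using h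
  have hsur := hsur_of_ok4 g hg B (fun c hc => (ho c hc).1) h4
  have hb' : ∀ e ∈ E.flat, ∀ p ∈ R.set g e, p ∉ interior (X.P g) := by rw [hE]; exact hb
  have hoS : ∀ c ∈ S.list, c.b.p.orth = true := by
    intro c hc
    have : c.b ∈ B.ps := by rw [← hT]; exact List.mem_map_of_mem hc
    exact (ho _ this).1
  have hp := TB.self_sound hg hb' S hv hoS hs
  have hp' : B.ps.Pairwise (TB.Good g (X.P g)) := by
    rw [← hT, List.pairwise_map]
    exact hp
  obtain ⟨q1, q2⟩ := TB.pairs_good g (X.P g) B.ps (fun c hc => (ho c hc).1) hp'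
  have hU := union_pieces hg X B h2 h3
  rw [hU] at q2 ⊢
  refine foldsInto_of_pieces (fun i : Fin B.ps.length => R.set g B.ps[i].p.q)
    (fun i => B.ps[i].p.map g) _ _ _ (fun i => PC.closed_R _) ?_ q1 ?_ hsur q2
  · intro i p _ q _
    exact Pc.dist_map (ho _ (List.getElem_mem _)).1 p q
  · intro i p hp
    exact Pc.inSurf_sound hg (ho _ (List.getElem_mem _)).2 hp

end Pool.Agent.Box3
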